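import Pool.Agent.H505RS.Defs

/-!
# Almost everywhere convergence for one sequence
-/

set_option autoImplicit false

namespace Pool.Agent.H505RS

open scoped BigOperators ENNReal Topology InnerProductSpace
open Finset Filter MeasureTheory ProbabilityTheory

universe u v

namespace AE1

theorem en_strictMono (F : Set ℕ) (hF : {n | 1 ≤ n ∧ n ∈ F}.Infinite) : StrictMono (en F) := by
  apply strictMono_nat_of_lt_succ
  intro k
  cases k with
  | zero =>
    have h1 : 1 ≤ Nat.nth (fun n => 1 ≤ n ∧ n ∈ F) 0 ∧ Nat.nth (fun n => 1 ≤ n ∧ n ∈ F) 0 ∈ F :=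
      Nat.nth_mem_of_infinite hF 0
    exact h1.1
  | succ k =>
    exact Nat.nth_strictMono hF (Nat.lt_succ_self k)

theorem sum_gaps (t : ℕ → ℕ) (h0 : t 0 = 0) (ht : Monotone t) (h : ℕ → ℝ) (N : ℕ) :
    ∑ k ∈ Ioc 0 N, ∑ i ∈ Ioc (t (k - 1)) (t k), h i = ∑ i ∈ Ioc 0 (t N), h i := by
  induction N with
  | zero => simp [h0]
  | succ N ih =>
    rw [Finset.sum_Ioc_succ_top (Nat.zero_le N), ih, Nat.add_sub_cancel,
      Finset.sum_Ioc_consecutive h (Nat.zero_le _) (ht (Nat.le_succ N))]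

theorem pw_nonneg (b : ℝ) (i : ℕ) : 0 ≤ pw b i := by
  unfold pw
  positivity

theorem Dk_meas {X : Type*} [MeasurableSpace X] (b : ℝ) (t : ℕ → ℕ) (S : X → X)
    (hS : Measurable S) (g : X → ℝ) (hg : Measurable g) (k : ℕ) : Measurable (Dk b t S g k) := by
  unfold Dk
  apply Measurable.sub
  · exact hg.comp (hS.iterate _)
  · apply Finset.measurable_fun_sum
    intro i _
    exact (hg.comp (hS.iterate _)).const_mul _

theorem Dk_bdd {X : Type*} [MeasurableSpace X] (b : ℝ) (t : ℕ → ℕ) (S : X → X)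
    (g : X → ℝ) (hg : ∀ x, |g x| ≤ 1) (k : ℕ) (x : X) :
    |Dk b t S g k x| ≤ 1 + ∑ i ∈ Ioc (t (k - 1)) (t k), pw b i := by
  unfold Dk
  refine (abs_sub _ _).trans (add_le_add (hg _) ?_)
  refine (Finset.abs_sum_le_sum_abs _ _).trans (Finset.sum_le_sum fun i _ => ?_)
  rw [abs_mul, abs_of_nonneg (pw_nonneg b i)]
  calc pw b i * |g (S^[i] x)| ≤ pw b i * 1 :=
        mul_le_mul_of_nonneg_left (hg _) (pw_nonneg b i)
    _ = pw b i := mul_one _

end AE1

theorem t_AE1 : S_SF.{u} → S_BC.{u} → S_INT → S_BPE.{u} → S_WM → S_AE1.{u} := by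
  intro hSF hBC hINT hBPE hWM b F hb0 hb1 hReg hHC X _ μ S g hμ hS hg
  have hmono : StrictMono (en F) := AE1.en_strictMono F hReg.inf
  have hal : al b < 1 := by
    unfold al
    rw [div_lt_one (by linarith)]
    linarith
  have hδ : 0 < (1 - al b) / 2 := by linarith
  have hsf := hSF b F hb0 hb1 hReg hHC
  have hbc : ∀ n : ℕ, ∀ᵐ x ∂μ, Tendsto (fun j : ℕ =>
      (∑ k ∈ Ioc 0 ⌈(1 + 1 / ((n : ℝ) + 1)) ^ j⌉₊, Dk b (en F) S g k x) /
        (⌈(1 + 1 / ((n : ℝ) + 1)) ^ j⌉₊ : ℝ)) atTop (𝓝 0) := by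
    intro n
    refine hBC X μ (fun N x => ∑ k ∈ Ioc 0 N, Dk b (en F) S g k x) ((1 - al b) / 2) hμ hδ
      ?_ ?_ ?_ (1 + 1 / ((n : ℝ) + 1)) ?_
    · intro N
      apply Finset.measurable_fun_sum
      intro k _
      exact AE1.Dk_meas b (en F) S hS.measurable g hg.1 k
    · intro N
      refine ⟨∑ k ∈ Ioc 0 N, (1 + ∑ i ∈ Ioc (en F (k - 1)) (en F k), pw b i), fun x => ?_⟩
      exact (Finset.abs_sum_le_sum_abs _ _).trans
        (Finset.sum_le_sum fun k _ => AE1.Dk_bdd b (en F) S g hg.2 k x)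
    · filter_upwards [hsf] with N hN
      exact hN X μ S g hμ hS hg
    · have : (0 : ℝ) < 1 / ((n : ℝ) + 1) := by positivity
      linarith
  have hbpe := hBPE X μ S g hμ hS hg.1 ⟨1, hg.2⟩
  filter_upwards [ae_all_iff.2 hbc, hbpe] with x hx1 hx2
  -- the smooth part
  have hw := hWM b (fun i => g (S^[i] x)) 1 _ hb0 (by linarith) (fun k => hg.2 _) hx2
  have hw2 : Tendsto (fun N : ℕ => (∑ i ∈ Ioc 0 (en F N), pw b i * g (S^[i] x)) /
      (∑ i ∈ Ioc 0 (en F N), pw b i)) atTop (𝓝 ((μ[g | MeasurableSpace.invariants S]) x)) :=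
    hw.comp hmono.tendsto_atTop
  have hm : Tendsto (fun N : ℕ => (∑ i ∈ Ioc 0 (en F N), pw b i) / (N : ℝ)) atTop (𝓝 1) :=
    hReg.mass
  have hw3 : Tendsto (fun N : ℕ => (∑ i ∈ Ioc 0 (en F N), pw b i * g (S^[i] x)) / (N : ℝ)) atTop
      (𝓝 ((μ[g | MeasurableSpace.invariants S]) x)) := by
    have h1 := hw2.mul hm
    rw [mul_one] at h1
    refine h1.congr' ?_
    filter_upwards [eventually_ge_atTop 1] with N hN
    have h2 : 0 < ∑ i ∈ Ioc 0 (en F N), pw b i := by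
      apply Finset.sum_pos
      · intro i hi
        rw [Finset.mem_Ioc] at hi
        unfold pw
        have : (0 : ℝ) < i := by exact_mod_cast hi.1
        positivity
      · rw [Finset.nonempty_Ioc]
        have := hmono.le_apply (x := N)
        omega
    rw [div_mul_div_comm, mul_comm (∑ i ∈ Ioc 0 (en F N), pw b i) (N : ℝ)]
    exact mul_div_mul_right _ _ h2.ne'
  have h0 : en F 0 = 0 := rfl
  have hid : ∀ N : ℕ, ∑ k ∈ Ioc 0 N, g (S^[en F k] x) =
      ∑ k ∈ Ioc 0 N, Dk b (en F) S g k x + ∑ i ∈ Ioc 0 (en F N), pw b i * g (S^[i] x) := by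
    intro N
    rw [← AE1.sum_gaps (en F) h0 hmono.monotone (fun i => pw b i * g (S^[i] x)) N,
      ← Finset.sum_add_distrib]
    apply Finset.sum_congr rfl
    intro k _
    unfold Dk
    ring
  apply hINT (fun k => g (S^[en F k] x)) 1 _ (fun k => hg.2 _)
  intro n
  have hρ : (1 : ℝ) < 1 + 1 / ((n : ℝ) + 1) := by
    have : (0 : ℝ) < 1 / ((n : ℝ) + 1) := by positivity
    linarith
  have hN : Tendsto (fun j : ℕ => ⌈(1 + 1 / ((n : ℝ) + 1)) ^ j⌉₊) atTop atTop :=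
    tendsto_nat_ceil_atTop.comp (tendsto_pow_atTop_atTop_of_one_lt hρ)
  have h1 := (hx1 n).add (hw3.comp hN)
  rw [zero_add] at h1
  refine h1.congr fun j => ?_
  simp only [Function.comp]
  rw [hid, add_div]

end Pool.Agent.H505RS
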