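import Pool.Agent.H505RS.Defs

set_option autoImplicit false

namespace Pool.Agent.H505RS

open scoped BigOperators ENNReal Topology InnerProductSpace
open Finset Filter MeasureTheory ProbabilityTheory

universe u v

namespace AE2

theorem kp_pos {a b : ℝ} (ha : a < 1 / 2) (hb : b < 1 / 2) : 0 < kp a b := by
  have h : ∀ c : ℝ, c < 1 / 2 → al c < 1 := by
    intro c hc
    unfold al
    rw [div_lt_one (by linarith)]
    linarith
  unfold kp mx
  have := max_lt (h a ha) (h b hb)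
  linarith

theorem pw_nonneg (a : ℝ) (n : ℕ) : 0 ≤ pw a n := Real.rpow_nonneg (Nat.cast_nonneg n) _

end AE2

open AE2 in
theorem t_AE2 : S_MF.{u} → S_BC.{u} → S_INT → S_SM.{u} → S_AE2.{u} := by
  intro hMF hBC hINT hSM a b E F ha0 ha1 hb0 hb1 hE hF hM X _ μ T S f g hsy hf hg hinv
  have hp : IsProbabilityMeasure μ := hsy.prob
  have hTn : ∀ n : ℕ, Measurable (T^[n]) := fun n => (hsy.mT.iterate n).measurable
  have hSn : ∀ n : ℕ, Measurable (S^[n]) := fun n => (hsy.mS.iterate n).measurable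
  set s := en E with hs
  set t := en F with ht
  set G : ℕ → X → ℝ := fun N x => ∑ k ∈ Ioc 0 N, Zk a s t T S f g k x with hG
  have hZm : ∀ k, Measurable (fun x => Zk a s t T S f g k x) := by
    intro k
    unfold Zk Dk
    refine Measurable.mul (Measurable.sub (hf.1.comp (hTn _)) ?_) (hg.1.comp (hSn _))
    exact Finset.measurable_sum _ (fun i _ => (hf.1.comp (hTn i)).const_mul _)
  have hZb : ∀ k x, |Zk a s t T S f g k x| ≤ 1 + ∑ i ∈ Ioc (s (k - 1)) (s k), pw a i := by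
    intro k x
    unfold Zk Dk
    rw [abs_mul]
    have h1 : |f (T^[s k] x) - ∑ i ∈ Ioc (s (k - 1)) (s k), pw a i * f (T^[i] x)| ≤
        1 + ∑ i ∈ Ioc (s (k - 1)) (s k), pw a i := by
      refine (abs_sub _ _).trans (add_le_add (hf.2 _) ?_)
      refine (Finset.abs_sum_le_sum_abs _ _).trans (Finset.sum_le_sum (fun i _ => ?_))
      rw [abs_mul, abs_of_nonneg (pw_nonneg a i)]
      exact mul_le_of_le_one_right (pw_nonneg a i) (hf.2 _)
    have h2 : 0 ≤ 1 + ∑ i ∈ Ioc (s (k - 1)) (s k), pw a i := by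
      have := Finset.sum_nonneg (s := Ioc (s (k - 1)) (s k)) (fun i _ => pw_nonneg a i)
      linarith
    calc |f (T^[s k] x) - ∑ i ∈ Ioc (s (k - 1)) (s k), pw a i * f (T^[i] x)| *
          |g (S^[t k] x)| ≤ (1 + ∑ i ∈ Ioc (s (k - 1)) (s k), pw a i) * 1 :=
          mul_le_mul h1 (hg.2 _) (abs_nonneg _) h2
      _ = _ := mul_one _
  have hGm : ∀ N, Measurable (G N) := fun N => Finset.measurable_sum _ (fun k _ => hZm k)
  have hGb : ∀ N, ∃ C, ∀ x, |G N x| ≤ C := fun N =>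
    ⟨∑ k ∈ Ioc 0 N, (1 + ∑ i ∈ Ioc (s (k - 1)) (s k), pw a i), fun x =>
      (Finset.abs_sum_le_sum_abs _ _).trans (Finset.sum_le_sum (fun k _ => hZb k x))⟩
  have hmom : ∀ᶠ N : ℕ in atTop, ∫ x, G N x ^ 2 ∂μ ≤ (N : ℝ) ^ (2 - kp a b) := by
    filter_upwards [hMF a b E F ha0 ha1 hb0 hb1 hE hF hM] with N hN
    exact hN X μ T S f g hsy hf hg
  have hrho : ∀ n : ℕ, (1 : ℝ) < 1 + 1 / ((n : ℝ) + 1) := fun n => by
    have : 0 < 1 / ((n : ℝ) + 1) := by positivity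
    linarith
  have h1 : ∀ᵐ x ∂μ, ∀ n : ℕ, Tendsto (fun j : ℕ => G ⌈(1 + 1 / ((n : ℝ) + 1)) ^ j⌉₊ x /
      (⌈(1 + 1 / ((n : ℝ) + 1)) ^ j⌉₊ : ℝ)) atTop (𝓝 0) := by
    rw [ae_all_iff]
    intro n
    exact hBC X μ G (kp a b) hp (kp_pos ha1 hb1) hGm hGb hmom _ (hrho n)
  have h2 := hSM a E ha0 ha1 hE X μ T f hp hsy.mT hf hinv
  filter_upwards [h1, h2] with x hx1 hx2
  refine hINT (fun k => f (T^[s k] x) * g (S^[t k] x)) 1 0 (fun k => ?_) (fun n => ?_)
  · rw [abs_mul]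
    exact mul_le_one₀ (hf.2 _) (abs_nonneg _) (hg.2 _)
  · have hN : Tendsto (fun j : ℕ => ⌈(1 + 1 / ((n : ℝ) + 1)) ^ j⌉₊) atTop atTop :=
      tendsto_nat_ceil_atTop.comp (tendsto_pow_atTop_atTop_of_one_lt (hrho n))
    have h3 := hx2.comp hN
    have h4 : Tendsto (fun j : ℕ => (∑ k ∈ Ioc 0 ⌈(1 + 1 / ((n : ℝ) + 1)) ^ j⌉₊,
        (∑ i ∈ Ioc (s (k - 1)) (s k), pw a i * f (T^[i] x)) * g (S^[t k] x)) /
        (⌈(1 + 1 / ((n : ℝ) + 1)) ^ j⌉₊ : ℝ)) atTop (𝓝 0) := by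
      refine squeeze_zero_norm (fun j => ?_) h3
      simp only [Function.comp_apply]
      rw [Real.norm_eq_abs, abs_div, abs_of_nonneg (Nat.cast_nonneg (α := ℝ) _)]
      refine div_le_div_of_nonneg_right ?_ (Nat.cast_nonneg _)
      refine (Finset.abs_sum_le_sum_abs _ _).trans (Finset.sum_le_sum (fun k _ => ?_))
      rw [abs_mul]
      exact mul_le_of_le_one_right (abs_nonneg _) (hg.2 _)
    have h5 := (hx1 n).add h4
    rw [add_zero] at h5
    refine h5.congr (fun j => ?_)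
    rw [← add_div, hG]
    simp only
    rw [← Finset.sum_add_distrib]
    congr 1
    refine Finset.sum_congr rfl (fun k _ => ?_)
    unfold Zk Dk
    ring

end Pool.Agent.H505RS
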