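import Pool.Agent.H505RS.Defs

set_option autoImplicit false

namespace Pool.Agent.H505RS

open Finset Filter MeasureTheory
open scoped BigOperators ENNReal Topology

universe u

theorem t_BC : S_BC.{u} := by
  intro X _ μ F δ hP hδ hm hb hev ρ hρ
  have := hP
  set N : ℕ → ℕ := fun j => ⌈ρ ^ j⌉₊ with hN
  have hρ0 : 0 < ρ := by linarith
  have hNt : Tendsto N atTop atTop :=
    tendsto_nat_ceil_atTop.comp (tendsto_pow_atTop_atTop_of_one_lt hρ)
  have hNpos : ∀ j, 0 < N j := by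
    intro j
    rw [hN]
    exact Nat.ceil_pos.mpr (pow_pos hρ0 j)
  let g : ℕ → X → ℝ := fun j x => (F (N j) x / (N j : ℝ)) ^ 2
  have hgm : ∀ j, Measurable (g j) := fun j => ((hm _).div_const _).pow_const _
  have hg0 : ∀ j x, 0 ≤ g j x := fun j x => sq_nonneg _
  have hgi : ∀ j, Integrable (g j) μ := by
    intro j
    obtain ⟨C, hC⟩ := hb (N j)
    refine Integrable.of_bound (hgm j).aestronglyMeasurable ((C / N j) ^ 2)
      (Eventually.of_forall ?_)
    intro x
    rw [Real.norm_eq_abs, abs_of_nonneg (hg0 j x)]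
    have h1 : |F (N j) x / N j| ≤ C / N j := by
      rw [abs_div, Nat.abs_cast]
      exact div_le_div_of_nonneg_right (hC x) (Nat.cast_nonneg _)
    calc g j x = |F (N j) x / N j| ^ 2 := (sq_abs _).symm
      _ ≤ _ := pow_le_pow_left₀ (abs_nonneg _) h1 2
  have hbound : ∀ᶠ j in atTop, ‖∫ x, g j x ∂μ‖ ≤ (ρ ^ (-δ)) ^ j := by
    filter_upwards [hNt.eventually hev] with j hj
    have hNj : (0 : ℝ) < N j := by exact_mod_cast hNpos j
    rw [Real.norm_eq_abs, abs_of_nonneg (integral_nonneg (hg0 j))]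
    have h1 : ∫ x, g j x ∂μ = (∫ x, F (N j) x ^ 2 ∂μ) / (N j : ℝ) ^ 2 := by
      rw [← integral_div]
      congr 1
      funext x
      simp only [g, div_pow]
    rw [h1]
    have h2 : (∫ x, F (N j) x ^ 2 ∂μ) / (N j : ℝ) ^ 2 ≤ (N j : ℝ) ^ (2 - δ) / (N j : ℝ) ^ 2 :=
      div_le_div_of_nonneg_right hj (by positivity)
    refine h2.trans ?_
    have h3 : (N j : ℝ) ^ (2 - δ) / (N j : ℝ) ^ 2 = (N j : ℝ) ^ (-δ) := by
      rw [← Real.rpow_natCast (N j : ℝ) 2, ← Real.rpow_sub hNj]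
      congr 1
      push_cast
      ring
    rw [h3]
    have h4 : (N j : ℝ) ^ (-δ) ≤ (ρ ^ j) ^ (-δ) :=
      Real.rpow_le_rpow_of_nonpos (pow_pos hρ0 j) (Nat.le_ceil _) (by linarith)
    refine h4.trans (le_of_eq ?_)
    rw [← Real.rpow_natCast ρ j, ← Real.rpow_natCast (ρ ^ (-δ)) j, ← Real.rpow_mul hρ0.le,
      ← Real.rpow_mul hρ0.le]
    ring_nf
  have hsum : Summable (fun j => ∫ x, g j x ∂μ) := by
    refine Summable.of_norm_bounded_eventually_nat (g := fun j => (ρ ^ (-δ)) ^ j) ?_ hbound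
    apply summable_geometric_of_lt_one (Real.rpow_nonneg hρ0.le _)
    exact Real.rpow_lt_one_of_one_lt_of_neg hρ (by linarith)
  have hl : ∀ j, ∫⁻ x, ENNReal.ofReal (g j x) ∂μ = ENNReal.ofReal (∫ x, g j x ∂μ) := by
    intro j
    rw [ofReal_integral_eq_lintegral_ofReal (hgi j) (Eventually.of_forall (hg0 j))]
  have hfin : ∫⁻ x, ∑' j, ENNReal.ofReal (g j x) ∂μ ≠ ⊤ := by
    rw [lintegral_tsum (fun j => (hgm j).ennreal_ofReal.aemeasurable)]
    simp_rw [hl]
    rw [← ENNReal.ofReal_tsum_of_nonneg (fun j => integral_nonneg (hg0 j)) hsum]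
    exact ENNReal.ofReal_ne_top
  have hae := ae_lt_top (Measurable.ennreal_tsum (fun j => (hgm j).ennreal_ofReal)) hfin
  filter_upwards [hae] with x hx
  have h1 : Tendsto (fun j => ENNReal.ofReal (g j x)) atTop (𝓝 0) :=
    ENNReal.tendsto_atTop_zero_of_tsum_ne_top hx.ne
  have h2 : Tendsto (fun j => g j x) atTop (𝓝 0) := by
    have h3 := (ENNReal.tendsto_toReal ENNReal.zero_ne_top).comp h1
    simp only [ENNReal.toReal_zero] at h3
    refine h3.congr ?_
    intro j
    simp only [Function.comp_apply]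
    exact ENNReal.toReal_ofReal (hg0 j x)
  have h4 : Tendsto (fun j => Real.sqrt (g j x)) atTop (𝓝 0) := by
    have h5 := (Real.continuous_sqrt.tendsto 0).comp h2
    rw [Real.sqrt_zero] at h5
    exact h5
  rw [tendsto_zero_iff_abs_tendsto_zero]
  refine h4.congr ?_
  intro j
  simp only [g, Function.comp_apply, Real.sqrt_sq_eq_abs, hN]

end Pool.Agent.H505RS
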