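import Pool.Agent.H505RS.Defs

/-!
DEC: coboundary approximation.
-/

set_option autoImplicit false

noncomputable section

namespace Pool.Agent.H505RS

open scoped BigOperators ENNReal Topology InnerProductSpace
open Finset Filter MeasureTheory ProbabilityTheory

universe u

namespace DEC

variable {X : Type u}

/-- the average -/
def rr (T : X → X) (f : X → ℝ) (n : ℕ) (x : X) : ℝ := (∑ i ∈ Ioc 0 n, f (T^[i] x)) / (n : ℝ)

/-- the transfer function -/
def hh (T : X → X) (f : X → ℝ) (n : ℕ) (x : X) : ℝ :=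
  (∑ i ∈ Ioc 0 n, ∑ l ∈ range i, f (T^[l] x)) / (n : ℝ)

theorem eq_cob (T : X → X) (f : X → ℝ) {n : ℕ} (hn : 1 ≤ n) (x : X) :
    f x = hh T f n x - hh T f n (T x) + rr T f n x := by
  have hn0 : (n : ℝ) ≠ 0 := by
    have : (0 : ℝ) < n := by exact_mod_cast hn
    exact this.ne'
  unfold hh rr
  rw [← sub_div, ← add_div, ← Finset.sum_sub_distrib, ← Finset.sum_add_distrib]
  have h1 : ∀ i ∈ Ioc 0 n, (∑ l ∈ range i, f (T^[l] x) - ∑ l ∈ range i, f (T^[l] (T x))) +
      f (T^[i] x) = f x := by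
    intro i _
    rw [← Finset.sum_sub_distrib]
    have h2 : ∀ l ∈ range i, f (T^[l] x) - f (T^[l] (T x)) =
        f (T^[l] x) - f (T^[l + 1] x) := by
      intro l _
      rw [Function.iterate_succ_apply]
    rw [Finset.sum_congr rfl h2, Finset.sum_range_sub' (fun l => f (T^[l] x))]
    simp
  rw [Finset.sum_congr rfl h1]
  simp only [sum_const, Nat.card_Ioc, tsub_zero, nsmul_eq_mul]
  field_simp

variable [MeasurableSpace X]

theorem rr_meas {T : X → X} {f : X → ℝ} (hT : Measurable T) (hf : Measurable f) (n : ℕ) :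
    Measurable (rr T f n) := by
  unfold rr
  exact (Finset.measurable_sum _ fun i _ => hf.comp (hT.iterate i)).div_const _

theorem hh_meas {T : X → X} {f : X → ℝ} (hT : Measurable T) (hf : Measurable f) (n : ℕ) :
    Measurable (hh T f n) := by
  unfold hh
  exact (Finset.measurable_sum _ fun i _ => Finset.measurable_sum _ fun l _ =>
    hf.comp (hT.iterate l)).div_const _

omit [MeasurableSpace X] in
theorem rr_le {T : X → X} {f : X → ℝ} (hf : ∀ x, |f x| ≤ 1) (n : ℕ) (x : X) :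
    |rr T f n x| ≤ 1 := by
  unfold rr
  rw [abs_div, Nat.abs_cast]
  apply div_le_one_of_le₀ _ (Nat.cast_nonneg _)
  refine (Finset.abs_sum_le_sum_abs _ _).trans ?_
  refine (Finset.sum_le_sum fun i _ => hf _).trans ?_
  simp

omit [MeasurableSpace X] in
theorem hh_le {T : X → X} {f : X → ℝ} (hf : ∀ x, |f x| ≤ 1) (n : ℕ) (x : X) :
    |hh T f n x| ≤ (∑ i ∈ Ioc 0 n, (i : ℝ)) / (n : ℝ) := by
  unfold hh
  rw [abs_div, Nat.abs_cast]
  gcongr
  refine (Finset.abs_sum_le_sum_abs _ _).trans ?_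
  refine Finset.sum_le_sum fun i _ => ?_
  refine (Finset.abs_sum_le_sum_abs _ _).trans ?_
  refine (Finset.sum_le_sum fun l _ => hf _).trans ?_
  simp

end DEC

theorem t_DEC : S_BPE.{u} → S_DEC.{u} := by
  intro hB X _ μ T f hμ hT hf h0 ε hε
  have h1 := hB X μ T f hμ hT hf.1 ⟨1, hf.2⟩
  have h2 : ∀ᵐ x ∂μ, Tendsto (fun N : ℕ => |DEC.rr T f N x|) atTop (𝓝 0) := by
    filter_upwards [h1, h0] with x hx hx0
    rw [hx0] at hx
    have h3 := hx.abs
    rw [abs_zero] at h3
    exact h3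
  have h3 : Tendsto (fun N : ℕ => ∫ x, |DEC.rr T f N x| ∂μ) atTop (𝓝 (∫ _ : X, (0 : ℝ) ∂μ)) := by
    refine tendsto_integral_of_dominated_convergence (fun _ => (1 : ℝ)) (fun n => ?_)
      (integrable_const _) (fun n => ?_) h2
    · exact (DEC.rr_meas hT.measurable hf.1 n).abs.aestronglyMeasurable
    · refine Eventually.of_forall fun x => ?_
      rw [Real.norm_eq_abs, abs_abs]
      exact DEC.rr_le hf.2 n x
  rw [integral_zero] at h3
  obtain ⟨N, hN, hN1⟩ := ((h3.eventually (gt_mem_nhds hε)).and (eventually_ge_atTop 1)).exists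
  exact ⟨DEC.hh T f N, DEC.rr T f N, DEC.hh_meas hT.measurable hf.1 N,
    ⟨DEC.rr_meas hT.measurable hf.1 N, DEC.rr_le hf.2 N⟩, ⟨_, DEC.hh_le hf.2 N⟩,
    DEC.eq_cob T f hN1, hN.le⟩

end Pool.Agent.H505RS
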