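import Pool.Agent.H505RS.Defs

set_option autoImplicit false

namespace Pool.Agent.H505RS

open scoped BigOperators ENNReal Topology InnerProductSpace
open Finset Filter MeasureTheory ProbabilityTheory

universe u v

namespace DL

theorem symm {U W : ℕ} (M : Fin U → Fin W → ℂ) : (dil M).IsSymmetric := by
  unfold dil
  rw [← Matrix.isHermitian_iff_isSymmetric]
  unfold Matrix.IsHermitian
  rw [Matrix.fromBlocks_conjTranspose, Matrix.conjTranspose_zero, Matrix.conjTranspose_zero,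
    Matrix.conjTranspose_conjTranspose]

theorem act_inl {U W : ℕ} (M : Fin U → Fin W → ℂ) (v : VV U W) (u : Fin U) :
    (dil M v) (Sum.inl u) = ∑ w, M u w * v (Sum.inr w) := by
  show (Matrix.mulVec (Matrix.fromBlocks 0 (Matrix.of M)
    (Matrix.conjTranspose (Matrix.of M)) 0) v.ofLp) (Sum.inl u) = _
  rw [Matrix.mulVec, dotProduct, Fintype.sum_sum_type]
  simp [Matrix.fromBlocks]

theorem act_inr {U W : ℕ} (M : Fin U → Fin W → ℂ) (v : VV U W) (w : Fin W) :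
    (dil M v) (Sum.inr w) = ∑ u, (starRingEnd ℂ) (M u w) * v (Sum.inl u) := by
  show (Matrix.mulVec (Matrix.fromBlocks 0 (Matrix.of M)
    (Matrix.conjTranspose (Matrix.of M)) 0) v.ofLp) (Sum.inr w) = _
  rw [Matrix.mulVec, dotProduct, Fintype.sum_sum_type]
  simp [Matrix.fromBlocks]

theorem norm_sq {U W : ℕ} (v : VV U W) :
    ‖v‖ ^ 2 = ∑ u, ‖v (Sum.inl u)‖ ^ 2 + ∑ w, ‖v (Sum.inr w)‖ ^ 2 := by
  rw [EuclideanSpace.norm_sq_eq, Fintype.sum_sum_type]

theorem inner_re {U W : ℕ} (x y : VV U W) :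
    (⟪x, y⟫_ℂ).re = ∑ u, ((starRingEnd ℂ) (y (Sum.inl u)) * x (Sum.inl u)).re +
      ∑ w, ((starRingEnd ℂ) (y (Sum.inr w)) * x (Sum.inr w)).re := by
  have h : ∀ a b : ℂ, (⟪a, b⟫_ℂ).re = ((starRingEnd ℂ) b * a).re := by
    intro a b
    rw [RCLike.inner_apply]
    simp only [Complex.mul_re, Complex.conj_re, Complex.conj_im]
    ring
  rw [PiLp.inner_apply, Fintype.sum_sum_type, Complex.add_re, Complex.re_sum, Complex.re_sum]
  simp only [h]

theorem quad {U W : ℕ} (M : Fin U → Fin W → ℂ) (v : VV U W) :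
    (⟪dil M v, v⟫_ℂ).re = 2 * (∑ u, ∑ w, (starRingEnd ℂ) (v (Sum.inl u)) *
      (M u w * v (Sum.inr w))).re := by
  rw [inner_re]
  have h1 : ∑ u, ((starRingEnd ℂ) (v (Sum.inl u)) * dil M v (Sum.inl u)).re =
      (∑ u, ∑ w, (starRingEnd ℂ) (v (Sum.inl u)) * (M u w * v (Sum.inr w))).re := by
    rw [Complex.re_sum]
    refine Finset.sum_congr rfl fun u _ => ?_
    rw [act_inl, Finset.mul_sum]
  have h2 : ∑ w, ((starRingEnd ℂ) (v (Sum.inr w)) * dil M v (Sum.inr w)).re =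
      (∑ u, ∑ w, (starRingEnd ℂ) (v (Sum.inl u)) * (M u w * v (Sum.inr w))).re := by
    rw [Finset.sum_comm, Complex.re_sum]
    refine Finset.sum_congr rfl fun w _ => ?_
    rw [act_inr, Finset.mul_sum, Complex.re_sum, Complex.re_sum]
    refine Finset.sum_congr rfl fun u _ => ?_
    simp only [Complex.mul_re, Complex.conj_re, Complex.conj_im, Complex.mul_im]
    ring
  rw [h1, h2]
  ring

theorem low {U W : ℕ} (M : Fin U → Fin W → ℂ) (K : ℝ) (hK : 0 ≤ K) (ξ : Fin U → ℂ)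
    (η : Fin W → ℂ) (h : K * (Real.sqrt (∑ u, ‖ξ u‖ ^ 2) * Real.sqrt (∑ w, ‖η w‖ ^ 2)) <
      ‖∑ u, ∑ w, ξ u * η w * M u w‖) : ∃ v : VV U W, ‖v‖ = 1 ∧ K ≤ (⟪dil M v, v⟫_ℂ).re := by
  obtain ⟨A, hA⟩ : ∃ A, A = Real.sqrt (∑ u, ‖ξ u‖ ^ 2) := ⟨_, rfl⟩
  obtain ⟨B, hB⟩ : ∃ B, B = Real.sqrt (∑ w, ‖η w‖ ^ 2) := ⟨_, rfl⟩
  obtain ⟨S, hS⟩ : ∃ S, S = ∑ u, ∑ w, ξ u * η w * M u w := ⟨_, rfl⟩
  rw [← hA, ← hB, ← hS] at h
  have hA0 : 0 ≤ A := hA ▸ Real.sqrt_nonneg _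
  have hB0 : 0 ≤ B := hB ▸ Real.sqrt_nonneg _
  have hA2 : A ^ 2 = ∑ u, ‖ξ u‖ ^ 2 := by
    rw [hA]; exact Real.sq_sqrt (Finset.sum_nonneg fun u _ => by positivity)
  have hB2 : B ^ 2 = ∑ w, ‖η w‖ ^ 2 := by
    rw [hB]; exact Real.sq_sqrt (Finset.sum_nonneg fun u _ => by positivity)
  have hS0 : 0 < ‖S‖ := lt_of_le_of_lt (by positivity) h
  have hApos : 0 < A := by
    refine lt_of_le_of_ne hA0 (fun h0 => ?_)
    have h1 : ∑ u, ‖ξ u‖ ^ 2 = 0 := by rw [← hA2, ← h0]; norm_num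
    have h2 := (Finset.sum_eq_zero_iff_of_nonneg (fun u _ => by positivity)).1 h1
    have h3 : S = 0 := by
      rw [hS]
      refine Finset.sum_eq_zero fun u hu => Finset.sum_eq_zero fun w _ => ?_
      have : ξ u = 0 := by
        have := h2 u hu
        simpa using this
      rw [this]; ring
    rw [h3, norm_zero] at hS0
    exact lt_irrefl _ hS0
  have hBpos : 0 < B := by
    refine lt_of_le_of_ne hB0 (fun h0 => ?_)
    have h1 : ∑ w, ‖η w‖ ^ 2 = 0 := by rw [← hB2, ← h0]; norm_num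
    have h2 := (Finset.sum_eq_zero_iff_of_nonneg (fun u _ => by positivity)).1 h1
    have h3 : S = 0 := by
      rw [hS]
      refine Finset.sum_eq_zero fun u _ => Finset.sum_eq_zero fun w hw => ?_
      have : η w = 0 := by
        have := h2 w hw
        simpa using this
      rw [this]; ring
    rw [h3, norm_zero] at hS0
    exact lt_irrefl _ hS0
  obtain ⟨z, hz⟩ : ∃ z : ℂ, z = (starRingEnd ℂ) S / (‖S‖ : ℂ) := ⟨_, rfl⟩
  have hSc : (‖S‖ : ℂ) ≠ 0 := by exact_mod_cast hS0.ne'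
  have hz1 : ‖z‖ = 1 := by
    rw [hz, norm_div, RCLike.norm_conj, Complex.norm_real, norm_norm]
    exact div_self hS0.ne'
  have hzS : z * S = (‖S‖ : ℂ) := by
    rw [hz, div_mul_eq_mul_div, ← Complex.normSq_eq_conj_mul_self, Complex.normSq_eq_norm_sq]
    push_cast
    field_simp
  obtain ⟨r, hr⟩ : ∃ r : ℝ, r = Real.sqrt 2 := ⟨_, rfl⟩
  have hr0 : 0 < r := hr ▸ Real.sqrt_pos.2 (by norm_num)
  have hr2 : r ^ 2 = 2 := by rw [hr]; exact Real.sq_sqrt (by norm_num)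
  obtain ⟨v, hv⟩ : ∃ v : VV U W, v = WithLp.toLp 2 (Sum.elim
    (fun u => (starRingEnd ℂ) (ξ u * z) / ((r * A : ℝ) : ℂ))
    (fun w => η w / ((r * B : ℝ) : ℂ))) := ⟨_, rfl⟩
  have hv1 : ∀ u, v (Sum.inl u) = (starRingEnd ℂ) (ξ u * z) / ((r * A : ℝ) : ℂ) := by
    intro u; rw [hv]; rfl
  have hv2 : ∀ w, v (Sum.inr w) = η w / ((r * B : ℝ) : ℂ) := by
    intro w; rw [hv]; rfl
  refine ⟨v, ?_, ?_⟩
  · have h1 : ‖v‖ ^ 2 = 1 := by
      rw [norm_sq]
      simp only [hv1, hv2, norm_div, RCLike.norm_conj, norm_mul, hz1, mul_one, Complex.norm_real,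
        Real.norm_eq_abs, abs_of_pos hr0, abs_of_pos hApos, abs_of_pos hBpos, div_pow]
      rw [← Finset.sum_div, ← Finset.sum_div, ← hA2, ← hB2, mul_pow, mul_pow, hr2]
      field_simp
      norm_num
    have h2 : 0 ≤ ‖v‖ := norm_nonneg _
    nlinarith
  · rw [quad]
    have h1 : ∑ u, ∑ w, (starRingEnd ℂ) (v (Sum.inl u)) * (M u w * v (Sum.inr w)) =
        ((‖S‖ / (2 * A * B) : ℝ) : ℂ) := by
      have h2 : ∀ u w, (starRingEnd ℂ) (v (Sum.inl u)) * (M u w * v (Sum.inr w)) =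
          (z / ((2 * A * B : ℝ) : ℂ)) * (ξ u * η w * M u w) := by
        intro u w
        rw [hv1, hv2, map_div₀, Complex.conj_conj, Complex.conj_ofReal]
        have e1 : ((r * A : ℝ) : ℂ) * ((r * B : ℝ) : ℂ) = ((2 * A * B : ℝ) : ℂ) := by
          rw [← Complex.ofReal_mul]
          congr 1
          calc r * A * (r * B) = r ^ 2 * A * B := by ring
            _ = 2 * A * B := by rw [hr2]
        rw [← e1]
        have n1 : ((r * A : ℝ) : ℂ) ≠ 0 := by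
          exact_mod_cast (mul_pos hr0 hApos).ne'
        have n2 : ((r * B : ℝ) : ℂ) ≠ 0 := by
          exact_mod_cast (mul_pos hr0 hBpos).ne'
        field_simp
      simp only [h2]
      simp only [← Finset.mul_sum]
      rw [← hS, div_mul_eq_mul_div, hzS]
      push_cast
      rfl
    rw [h1, Complex.ofReal_re]
    have h3 : 2 * (‖S‖ / (2 * A * B)) = ‖S‖ / (A * B) := by
      field_simp
    rw [h3, le_div_iff₀ (mul_pos hApos hBpos)]
    exact h.le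

end DL

theorem t_DL : S_DL := by
  intro U W M
  refine ⟨DL.symm M, DL.act_inl M, DL.act_inr M, DL.norm_sq, ?_⟩
  rintro c K hc hK ⟨ξ, η, h⟩
  obtain ⟨v, hv, hKv⟩ := DL.low M K hK ξ η h
  have hsym : ((c : ℂ) • dil M).IsSymmetric := (DL.symm M).smul (Complex.conj_ofReal c)
  have h1 := RC14.ex_jensen ((c : ℂ) • dil M) hsym v hv
  have h2 := RC14.ex_le_tr ((c : ℂ) • dil M) hsym v hv
  have h3 : (⟪((c : ℂ) • dil M) v, v⟫_ℂ).re = c * (⟪dil M v, v⟫_ℂ).re := by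
    rw [LinearMap.smul_apply, inner_smul_left, Complex.conj_ofReal, Complex.re_ofReal_mul]
  rw [h3] at h1
  exact (Real.exp_le_exp.2 (mul_le_mul_of_nonneg_left hKv hc)).trans (h1.trans h2)

end Pool.Agent.H505RS
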