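import Mathlib
import Pool.Agent.H14R2.RD.S.GT
import Pool.Agent.H14R2.RD.S.EXB

/-!
Project RS (helper505), MP_9a4587_an: multiple ergodic averages along two independent random sparse
sequences.  Definitions and the statements of all the tasks.
-/

set_option autoImplicit false

noncomputable section

namespace Pool.Agent.H505RS

open scoped BigOperators ENNReal Topology InnerProductSpace
open Finset Filter MeasureTheory ProbabilityTheory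

universe u v

/-! ### basic definitions -/

/-- `e(x) = exp (2 π i x)` -/
def ee (x : ℝ) : ℂ := Complex.exp (2 * Real.pi * Complex.I * (x : ℂ))

/-- `p_n = n ^ (-a)` -/
def pw (a : ℝ) (n : ℕ) : ℝ := (n : ℝ) ^ (-a)

/-- enumeration of `E ∩ [1, ∞)`: `en E 0 = 0`, `en E k` is the `k`-th element for `k ≥ 1` -/
def en (E : Set ℕ) : ℕ → ℕ
  | 0 => 0
  | k + 1 => Nat.nth (fun n => 1 ≤ n ∧ n ∈ E) k

/-- the random set -/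
def EA {Ω : Type*} (A : ℕ → Set Ω) (ω : Ω) : Set ℕ := {n | ω ∈ A n}

/-- one random sequence -/
structure Rn1 {Ω : Type*} [MeasurableSpace Ω] (P : Measure Ω) (a : ℝ) (A : ℕ → Set Ω) : Prop where
  prob : IsProbabilityMeasure P
  mA : ∀ n, MeasurableSet (A n)
  pA : ∀ n, 1 ≤ n → P (A n) = ENNReal.ofReal (pw a n)
  ind : iIndepSet (fun n => A (n + 1)) P

/-- two independent random sequences -/
structure Rnd {Ω : Type*} [MeasurableSpace Ω] (P : Measure Ω) (a b : ℝ) (A B : ℕ → Set Ω) :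
    Prop where
  prob : IsProbabilityMeasure P
  mA : ∀ n, MeasurableSet (A n)
  mB : ∀ n, MeasurableSet (B n)
  pA : ∀ n, 1 ≤ n → P (A n) = ENNReal.ofReal (pw a n)
  pB : ∀ n, 1 ≤ n → P (B n) = ENNReal.ofReal (pw b n)
  ind : iIndepSet (Sum.elim (fun n => A (n + 1)) (fun n => B (n + 1))) P

/-- a system -/
structure Sy {X : Type*} [MeasurableSpace X] (μ : Measure X) (T S : X → X) : Prop where
  prob : IsProbabilityMeasure μ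
  mT : MeasurePreserving T μ μ
  mS : MeasurePreserving S μ μ
  comm : ∀ x, T (S x) = S (T x)

/-- measurable and bounded by one -/
def Bd {X : Type*} [MeasurableSpace X] (f : X → ℝ) : Prop := Measurable f ∧ ∀ x, |f x| ≤ 1

/-- `α = a / (1 - a)` -/
def al (a : ℝ) : ℝ := a / (1 - a)
/-- the larger exponent -/
def mx (a b : ℝ) : ℝ := max (al a) (al b)
/-- the smaller exponent -/
def mn (a b : ℝ) : ℝ := min (al a) (al b)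
/-- the small constant -/
def kp (a b : ℝ) : ℝ := (1 - mx a b) / 200

/-- the (Hoeffding) discrepancy event -/
def HCv (a : ℝ) (E : Set ℕ) : Prop :=
  ∀ κ : ℝ, 0 < κ → ∀ᶠ L : ℕ in atTop, ∀ k : ℕ, k < 3 * L →
    ‖∑ n ∈ Icc 1 L, ((E.indicator (fun _ => (1 : ℝ)) n - pw a n : ℝ) : ℂ) *
      ee ((k : ℝ) * n / (3 * L))‖ ≤ (L : ℝ) ^ (1 / 2 + κ)

/-- long intervals contain a success -/
def ISv (a : ℝ) (E : Set ℕ) : Prop :=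
  ∀ κ : ℝ, 0 < κ → ∀ᶠ N : ℕ in atTop, ∀ x y : ℕ, x ≤ y → y ≤ N ^ 4 →
    (N : ℝ) ^ κ ≤ ∑ i ∈ Ioc x y, pw a i → ∃ n ∈ Ioc x y, n ∈ E

/-- regularity of the enumeration -/
structure Reg (a : ℝ) (E : Set ℕ) : Prop where
  inf : {n | 1 ≤ n ∧ n ∈ E}.Infinite
  cube : ∀ᶠ N : ℕ in atTop, en E N ≤ N ^ 3
  wt : ∀ κ : ℝ, 0 < κ → κ ≤ 1 / 200 → ∀ᶠ N : ℕ in atTop, ∀ j : ℕ, (N : ℝ) ^ (1 - 10 * κ) ≤ j →
    pw a (en E j + 1) ≤ (N : ℝ) ^ (-al a + 11 * κ)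
  gapw : ∀ κ : ℝ, 0 < κ → ∀ᶠ N : ℕ in atTop, ∀ j < N,
    ∑ i ∈ Ioc (en E j) (en E (j + 1)), pw a i ≤ (N : ℝ) ^ κ
  gap : ∀ κ : ℝ, 0 < κ → ∀ᶠ N : ℕ in atTop, ∀ j < N,
    ((en E (j + 1) - en E j : ℕ) : ℝ) ≤ (N : ℝ) ^ (al a + κ)
  mass : Tendsto (fun N : ℕ => (∑ n ∈ Icc 1 (en E N), pw a n) / (N : ℝ)) atTop (𝓝 1)

/-! ### the path measure -/

/-- transition probabilities of the successes of independent trials -/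
def q (a : ℝ) (s t : ℕ) : ℝ := if s < t then pw a t * ∏ i ∈ Ioo s t, (1 - pw a i) else 0

/-- joint transition probabilities -/
def kk (a b : ℝ) (x y : ℕ × ℕ) : ℝ≥0∞ := ENNReal.ofReal (q a x.1 y.1) * ENNReal.ofReal (q b x.2 y.2)

/-- one backward step -/
def Lk (a b : ℝ) (k : ℕ) (Φ : (ℕ → ℕ × ℕ) → ℝ≥0∞) (y : ℕ → ℕ × ℕ) : ℝ≥0∞ :=
  ∑' z : ℕ × ℕ, kk a b (y (k - 1)) z * Φ (Function.update y k z)

/-- `N` steps: the expectation over the coordinates `1, …, N` -/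
def EN (a b : ℝ) : ℕ → ((ℕ → ℕ × ℕ) → ℝ≥0∞) → (ℕ → ℕ × ℕ) → ℝ≥0∞
  | 0, Φ => Φ
  | N + 1, Φ => EN a b N (Lk a b (N + 1) Φ)

/-- the path of the two enumerations -/
def pth {Ω : Type*} (A B : ℕ → Set Ω) (ω : Ω) (k : ℕ) : ℕ × ℕ := (en (EA A ω) k, en (EA B ω) k)

/-! ### the matrices -/

/-- truncated centred signs on the gap from `s0` to `s1` -/
def sg (a : ℝ) (G s0 s1 n : ℕ) : ℝ :=
  if s0 < n ∧ n ≤ s1 ∧ n ≤ s0 + G then (if n = s1 then 1 else 0) - pw a n else 0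

/-- parameters -/
structure Par where
  a : ℝ
  b : ℝ
  G : ℕ
  J : ℕ
  m : ℕ
  Q : ℕ
  ρ : ℝ
  B : ℝ

/-- the good predictable event -/
def GP (p : Par) (s t : ℕ → ℕ) (j : ℕ) : Prop :=
  p.J < j ∧ p.m + 1 ≤ j ∧ t (j - p.m) ≤ t (j - 1) ∧
  pw p.a (s (j - 1) + 1) ≤ p.ρ ∧ pw p.b (t (j - 1) + 1) ≤ p.ρ ∧
  ∑ i ∈ Ioc (s (j - 1)) (s (j - 1) + p.G), pw p.a i ≤ p.B ∧
  ∑ i ∈ Ioc (s (j - p.m - 1)) (s (j - p.m)), pw p.a i ≤ p.B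

/-- coefficients on the old gap -/
def og (p : Par) (s : ℕ → ℕ) (j i : ℕ) : ℝ := (if i = s (j - p.m) then 1 else 0) - pw p.a i

/-- the random vector of step `j` -/
def vec (p : Par) (k1 k2 : ℕ) (s t : ℕ → ℕ) (j u : ℕ) : ℂ :=
  ee ((k2 : ℝ) * t (j - p.m) / p.Q) * ∑ i ∈ Ioc (s (j - p.m - 1)) (s (j - p.m)),
    (og p s j i : ℂ) * ee ((k1 : ℝ) * i / p.Q) * (sg p.a p.G (s (j - 1)) (s j) (i + u) : ℂ)

open Classical in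
/-- matrix entries of step `j` -/
def ME (p : Par) (k1 k2 : ℕ) (s t : ℕ → ℕ) (j u w : ℕ) : ℂ :=
  if GP p s t j ∧ w = t j - t (j - p.m) then vec p k1 k2 s t j u else 0

/-- the space -/
abbrev VV (U W : ℕ) : Type := EuclideanSpace ℂ (Fin U ⊕ Fin W)

/-- hermitian dilation of a matrix -/
def dil {U W : ℕ} (M : Fin U → Fin W → ℂ) : Module.End ℂ (VV U W) :=
  Matrix.toEuclideanLin (Matrix.fromBlocks 0 (Matrix.of M) (Matrix.conjTranspose (Matrix.of M)) 0)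

/-- the step operator, as a function of the path -/
def XJ (p : Par) (k1 k2 : ℕ) (lam : ℝ) (U W : ℕ) (y : ℕ → ℕ × ℕ) (j : ℕ) :
    Module.End ℂ (VV U W) :=
  (lam : ℂ) • dil (fun (u : Fin U) (w : Fin W) =>
    ME p k1 k2 (fun n => (y n).1) (fun n => (y n).2) j u w)

/-- the actual parameters -/
def par (a b : ℝ) (N m : ℕ) : Par where
  a := a
  b := b
  G := ⌈(N : ℝ) ^ (al a + kp a b)⌉₊
  J := ⌈(N : ℝ) ^ (1 - 10 * kp a b)⌉₊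
  m := m
  Q := 3 * N ^ 4
  ρ := (N : ℝ) ^ (-mn a b + 11 * kp a b)
  B := 4 * (N : ℝ) ^ (12 * kp a b)

/-- number of differences `u` -/
def UU (a b : ℝ) (N m : ℕ) : ℕ := (m + 2) * ⌈(N : ℝ) ^ (al a + kp a b)⌉₊
/-- number of differences `w` -/
def WW (a b : ℝ) (N m : ℕ) : ℕ := (m + 2) * ⌈(N : ℝ) ^ (al b + kp a b)⌉₊

/-- the matrix event -/
def MRv (a b : ℝ) (s t : ℕ → ℕ) : Prop :=
  ∀ᶠ N : ℕ in atTop, ∀ m : ℕ, 1 ≤ m → (m : ℝ) ≤ (N : ℝ) ^ (4 * kp a b) →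
    ∀ k1 k2 : ℕ, k1 < 3 * N ^ 4 → k2 < 3 * N ^ 4 →
    ∀ (ξ : Fin (UU a b N m) → ℂ) (η : Fin (WW a b N m) → ℂ),
      ‖∑ j ∈ Icc 1 N, ∑ u, ∑ w, ξ u * η w * ME (par a b N m) k1 k2 s t j u w‖ ≤
        (N : ℝ) ^ ((1 - mn a b) / 2 + 32 * kp a b) *
          (Real.sqrt (∑ u, ‖ξ u‖ ^ 2) * Real.sqrt (∑ w, ‖η w‖ ^ 2))

/-! ### the ergodic sums -/

/-- centred value on the gap `k` -/
def Dk {X : Type*} (a : ℝ) (s : ℕ → ℕ) (T : X → X) (f : X → ℝ) (k : ℕ) (x : X) : ℝ :=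
  f (T^[s k] x) - ∑ i ∈ Ioc (s (k - 1)) (s k), pw a i * f (T^[i] x)

/-- centred products -/
def Zk {X : Type*} (a : ℝ) (s t : ℕ → ℕ) (T S : X → X) (f g : X → ℝ) (k : ℕ) (x : X) : ℝ :=
  Dk a s T f k x * g (S^[t k] x)

/-! ### tasks: probability of the random sets -/

/-- HC -/
def S_HC : Prop := ∀ (Ω : Type v) [MeasurableSpace Ω] (P : Measure Ω) (a : ℝ) (A : ℕ → Set Ω),
  0 < a → a < 1 → Rn1 P a A → ∀ᵐ ω ∂P, HCv a (EA A ω)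

/-- IS -/
def S_IS : Prop := ∀ (Ω : Type v) [MeasurableSpace Ω] (P : Measure Ω) (a : ℝ) (A : ℕ → Set Ω),
  0 < a → a < 1 → Rn1 P a A → ∀ᵐ ω ∂P, ISv a (EA A ω)

/-- SUM: `∑_{n ≤ L} n^(-a) ~ L^(1-a)/(1-a)` -/
def S_SUM : Prop := ∀ a : ℝ, 0 < a → a < 1 →
  Tendsto (fun L : ℕ => (∑ n ∈ Icc 1 L, pw a n) / ((L : ℝ) ^ (1 - a) / (1 - a))) atTop (𝓝 1)

/-- GR1 (input SUM) -/
def S_GR1 : Prop := ∀ (a : ℝ) (E : Set ℕ), 0 < a → a < 1 / 2 → HCv a E →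
  {n | 1 ≤ n ∧ n ∈ E}.Infinite ∧
    Tendsto (fun N : ℕ => (∑ n ∈ Icc 1 (en E N), pw a n) / (N : ℝ)) atTop (𝓝 1)

/-- GR2 (input SUM) -/
def S_GR2 : Prop := ∀ (a : ℝ) (E : Set ℕ), 0 < a → a < 1 / 2 →
  {n | 1 ≤ n ∧ n ∈ E}.Infinite →
  Tendsto (fun N : ℕ => (∑ n ∈ Icc 1 (en E N), pw a n) / (N : ℝ)) atTop (𝓝 1) →
  ISv a E → Reg a E

/-- QF -/
def S_QF : Prop := ∀ (a : ℝ), 0 < a → a < 1 → ∀ s : ℕ, HasSum (fun t => q a s t) 1 ∧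
  ∀ t, 0 ≤ q a s t ∧ q a s t ≤ pw a (s + 1)

/-- PM -/
def S_PM : Prop := ∀ (Ω : Type v) [MeasurableSpace Ω] (P : Measure Ω) (a b : ℝ)
  (A B : ℕ → Set Ω), 0 < a → a < 1 → 0 < b → b < 1 → Rnd P a b A B →
  ∀ (N : ℕ) (Φ : (ℕ → ℕ × ℕ) → ℝ≥0∞), (∀ y y', (∀ i ≤ N, y i = y' i) → Φ y = Φ y') →
    Measurable (fun ω => Φ (pth A B ω)) ∧
    ∫⁻ ω, Φ (pth A B ω) ∂P ≤ EN a b N Φ (fun _ => (0, 0))

/-! ### tasks: matrices -/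

/-- Q1: mean zero -/
def S_Q1 : Prop := ∀ (a : ℝ), 0 < a → a < 1 → ∀ (s G : ℕ) (c : ℕ → ℂ),
  HasSum (fun t => (q a s t : ℂ) * ∑ n ∈ Ioc s (s + G), (sg a G s t n : ℂ) * c n) 0

/-- Q2: variance -/
def S_Q2 : Prop := ∀ (a : ℝ), 0 < a → a < 1 → ∀ (s G : ℕ) (c : ℕ → ℂ),
  Summable (fun t => q a s t * ‖∑ n ∈ Ioc s (s + G), (sg a G s t n : ℂ) * c n‖ ^ 2) ∧
  ∑' t, q a s t * ‖∑ n ∈ Ioc s (s + G), (sg a G s t n : ℂ) * c n‖ ^ 2 ≤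
    pw a (s + 1) * ∑ n ∈ Ioc s (s + G), ‖c n‖ ^ 2

/-- MB: one step of the matrix Bernstein inequality -/
def S_MB : Prop := ∀ (V : Type) [NormedAddCommGroup V] [InnerProductSpace ℂ V]
  [FiniteDimensional ℂ V] (w : ℕ × ℕ → ℝ) (ρ : ℝ) (X : ℕ × ℕ → Module.End ℂ V)
  (S : Module.End ℂ V), (∀ z, 0 ≤ w z) → HasSum w 1 → 0 ≤ ρ → (∀ z, (X z).IsSymmetric) →
  S.IsSymmetric → (∀ v, HasSum (fun z => (w z : ℂ) • X z v) 0) →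
  (∀ v, ∑' z, w z * ‖X z v‖ ^ 2 ≤ ρ * ‖v‖ ^ 2) → (∀ z v, ‖X z v‖ ≤ ‖v‖) →
  ∑' z, ENNReal.ofReal (w z) * ENNReal.ofReal (RC14.rtr (RC14.ex (S + X z))) ≤
    ENNReal.ofReal ((1 + ρ) * RC14.rtr (RC14.ex S))

/-- the hypotheses of MBN on the process -/
structure Prc (V : Type) [NormedAddCommGroup V] [InnerProductSpace ℂ V] [FiniteDimensional ℂ V]
    (a b ρ : ℝ) (X : (ℕ → ℕ × ℕ) → ℕ → Module.End ℂ V) : Prop where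
  dep : ∀ j y y', (∀ i ≤ j, y i = y' i) → X y j = X y' j
  sym : ∀ y j, (X y j).IsSymmetric
  bd : ∀ y j v, ‖X y j v‖ ≤ ‖v‖
  mean : ∀ y j, 1 ≤ j → ∀ v, HasSum (fun z : ℕ × ℕ =>
    ((q a (y (j - 1)).1 z.1 * q b (y (j - 1)).2 z.2 : ℝ) : ℂ) • X (Function.update y j z) j v) 0
  var : ∀ y j, 1 ≤ j → ∀ v, ∑' z : ℕ × ℕ,
    (q a (y (j - 1)).1 z.1 * q b (y (j - 1)).2 z.2) * ‖X (Function.update y j z) j v‖ ^ 2 ≤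
      ρ * ‖v‖ ^ 2

/-- MBN (inputs MB, QF) -/
def S_MBN : Prop := ∀ (V : Type) [NormedAddCommGroup V] [InnerProductSpace ℂ V]
  [FiniteDimensional ℂ V] (a b ρ : ℝ) (X : (ℕ → ℕ × ℕ) → ℕ → Module.End ℂ V),
  0 < a → a < 1 → 0 < b → b < 1 → 0 ≤ ρ → Prc V a b ρ X → ∀ (N : ℕ) (y0 : ℕ → ℕ × ℕ),
  EN a b N (fun y => ENNReal.ofReal (RC14.rtr (RC14.ex (∑ j ∈ Icc 1 N, X y j)))) y0 ≤
    ENNReal.ofReal ((1 + ρ) ^ N * Module.finrank ℂ V)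

/-- VB: norm bound of `vec` -/
def S_VB : Prop := ∀ (p : Par) (k1 k2 : ℕ) (s t : ℕ → ℕ) (j U : ℕ), 0 < p.a → p.a < 1 → 0 ≤ p.B →
  GP p s t j → Real.sqrt (∑ u : Fin U, ‖vec p k1 k2 s t j u‖ ^ 2) ≤ (1 + p.B) ^ 2

/-- VC: the pairing of `vec` with a fixed vector, as a linear form of the signs -/
def S_VC : Prop := ∀ (p : Par) (k1 k2 : ℕ) (s t : ℕ → ℕ) (j U : ℕ) (ξ : Fin U → ℂ),
  0 < p.a → p.a < 1 → 0 ≤ p.B → 1 ≤ p.m → GP p s t j →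
  ∃ c : ℕ → ℂ, ∑ n ∈ Ioc (s (j - 1)) (s (j - 1) + p.G), ‖c n‖ ^ 2 ≤
      (1 + p.B) ^ 2 * ∑ u, ‖ξ u‖ ^ 2 ∧
    ∀ s' t' : ℕ → ℕ, (∀ i < j, s' i = s i ∧ t' i = t i) →
      ∑ u : Fin U, (starRingEnd ℂ) (vec p k1 k2 s' t' j u) * ξ u =
        ∑ n ∈ Ioc (s (j - 1)) (s (j - 1) + p.G), (sg p.a p.G (s (j - 1)) (s' j) n : ℂ) * c n

/-- DL: action and symmetry of the dilation, lower bound for the exponential trace -/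
def S_DL : Prop := ∀ (U W : ℕ) (M : Fin U → Fin W → ℂ),
  (dil M).IsSymmetric ∧
  (∀ (v : VV U W) (u : Fin U), (dil M v) (Sum.inl u) = ∑ w, M u w * v (Sum.inr w)) ∧
  (∀ (v : VV U W) (w : Fin W),
    (dil M v) (Sum.inr w) = ∑ u, (starRingEnd ℂ) (M u w) * v (Sum.inl u)) ∧
  (∀ v : VV U W, ‖v‖ ^ 2 = ∑ u, ‖v (Sum.inl u)‖ ^ 2 + ∑ w, ‖v (Sum.inr w)‖ ^ 2) ∧
  (∀ (c K : ℝ), 0 ≤ c → 0 ≤ K → (∃ (ξ : Fin U → ℂ) (η : Fin W → ℂ),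
      K * (Real.sqrt (∑ u, ‖ξ u‖ ^ 2) * Real.sqrt (∑ w, ‖η w‖ ^ 2)) <
        ‖∑ u, ∑ w, ξ u * η w * M u w‖) →
    Real.exp (c * K) ≤ RC14.rtr (RC14.ex ((c : ℂ) • dil M)))

/-- the standing hypotheses on the parameters -/
structure Hy (p : Par) (lam : ℝ) : Prop where
  a0 : 0 < p.a
  a1 : p.a < 1
  b0 : 0 < p.b
  b1 : p.b < 1
  m1 : 1 ≤ p.m
  B0 : 0 ≤ p.B
  r0 : 0 ≤ p.ρ
  l0 : 0 ≤ lam
  l1 : lam * (1 + p.B) ^ 2 ≤ 1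

/-- XA: dependence, symmetry, boundedness (inputs VB, DL) -/
def S_XA : Prop := ∀ (p : Par) (k1 k2 : ℕ) (lam : ℝ) (U W : ℕ), Hy p lam →
  (∀ j y y', (∀ i ≤ j, y i = y' i) → XJ p k1 k2 lam U W y j = XJ p k1 k2 lam U W y' j) ∧
  (∀ y j, (XJ p k1 k2 lam U W y j).IsSymmetric) ∧
  (∀ y j v, ‖XJ p k1 k2 lam U W y j v‖ ≤ ‖v‖)

/-- XM: mean zero (inputs QF, Q1, DL) -/
def S_XM : Prop := ∀ (p : Par) (k1 k2 : ℕ) (lam : ℝ) (U W : ℕ), Hy p lam →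
  ∀ y j, 1 ≤ j → ∀ v : VV U W, HasSum (fun z : ℕ × ℕ =>
    ((q p.a (y (j - 1)).1 z.1 * q p.b (y (j - 1)).2 z.2 : ℝ) : ℂ) •
      XJ p k1 k2 lam U W (Function.update y j z) j v) 0

/-- XV: variance (inputs QF, Q2, VB, VC, DL) -/
def S_XV : Prop := ∀ (p : Par) (k1 k2 : ℕ) (lam : ℝ) (U W : ℕ), Hy p lam →
  ∀ y j, 1 ≤ j → ∀ v : VV U W, ∑' z : ℕ × ℕ,
    (q p.a (y (j - 1)).1 z.1 * q p.b (y (j - 1)).2 z.2) *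
      ‖XJ p k1 k2 lam U W (Function.update y j z) j v‖ ^ 2 ≤
        (2 * lam ^ 2 * (1 + p.B) ^ 4 * p.ρ) * ‖v‖ ^ 2

/-- XC: the step operators satisfy the hypotheses of MBN -/
def S_XC : Prop := ∀ (p : Par) (k1 k2 : ℕ) (lam : ℝ) (U W : ℕ), Hy p lam →
  Prc (VV U W) p.a p.b (2 * lam ^ 2 * (1 + p.B) ^ 4 * p.ρ) (XJ p k1 k2 lam U W)

/-- PB: the probability bound (inputs PM, MBN, XC, DL) -/
def S_PB : Prop := ∀ (Ω : Type v) [MeasurableSpace Ω] (P : Measure Ω) (A B : ℕ → Set Ω)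
  (p : Par) (k1 k2 : ℕ) (lam K : ℝ) (U W N : ℕ), Hy p lam → 0 ≤ K → Rnd P p.a p.b A B →
  P {ω | ∃ (ξ : Fin U → ℂ) (η : Fin W → ℂ),
      K * (Real.sqrt (∑ u, ‖ξ u‖ ^ 2) * Real.sqrt (∑ w, ‖η w‖ ^ 2)) <
        ‖∑ j ∈ Icc 1 N, ∑ u, ∑ w, ξ u * η w *
          ME p k1 k2 (en (EA A ω)) (en (EA B ω)) j u w‖} ≤
    ENNReal.ofReal ((U + W) * Real.exp (2 * lam ^ 2 * (1 + p.B) ^ 4 * p.ρ * N - lam * K))

/-- MRE (input PB) -/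
def S_MRE : Prop := ∀ (Ω : Type v) [MeasurableSpace Ω] (P : Measure Ω) (a b : ℝ)
  (A B : ℕ → Set Ω), 0 < a → a < 1 / 2 → 0 < b → b < 1 / 2 → Rnd P a b A B →
  ∀ᵐ ω ∂P, MRv a b (en (EA A ω)) (en (EA B ω))

/-! ### tasks: deterministic -/

/-- VDC -/
def S_VDC : Prop := ∀ (N M : ℕ) (z : ℕ → ℝ), 1 ≤ M →
  (∑ k ∈ Ioc 0 N, z k) ^ 2 ≤ ((N + M : ℝ) / (M : ℝ) ^ 2) * (M * ∑ k ∈ Ioc 0 N, z k ^ 2 +
    2 * ∑ m ∈ Ico 1 M, ((M : ℝ) - m) * ∑ k ∈ Ioc 0 (N - m), z k * z (k + m))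

/-- T1: scalar transference -/
def S_T1 : Prop := ∀ (L : ℕ) (c : ℕ → ℝ) (K : ℝ), 1 ≤ L → 0 ≤ K →
  (∀ k : ℕ, k < 3 * L → ‖∑ n ∈ Icc 1 L, (c n : ℂ) * ee ((k : ℝ) * n / (3 * L))‖ ≤ K) →
  ∀ (X : Type u) [MeasurableSpace X] (μ : Measure X) (T : X → X) (f : X → ℝ),
    IsProbabilityMeasure μ → MeasurePreserving T μ μ → Bd f →
    ∫ x, (∑ n ∈ Icc 1 L, c n * f (T^[n] x)) ^ 2 ∂μ ≤ 3 * K ^ 2

/-- TR: bilinear transference on `ZMod (3 R) × ZMod (3 R)` -/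
def S_TR : Prop := ∀ (R U W : ℕ) (co : Fin U → Fin W → ℕ → ℕ → ℂ) (φ : Fin U → ℕ → ℕ → ℂ)
  (γ : Fin W → ℕ → ℕ → ℂ) (K : ℝ), 1 ≤ R → 0 ≤ K → (∀ u i j, ‖φ u i j‖ ≤ 1) →
  (∀ w i j, ‖γ w i j‖ ≤ 1) →
  (∀ k1 k2 : ℕ, k1 < 3 * R → k2 < 3 * R → ∀ (ξ : Fin U → ℂ) (η : Fin W → ℂ),
    ‖∑ u, ∑ w, ξ u * η w * ∑ i ∈ range (R + 1), ∑ t ∈ range (R + 1), co u w i t *
      (ee ((k1 : ℝ) * i / (3 * R)) * ee ((k2 : ℝ) * t / (3 * R)))‖ ≤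
      K * (Real.sqrt (∑ u, ‖ξ u‖ ^ 2) * Real.sqrt (∑ w, ‖η w‖ ^ 2))) →
  ‖∑ j1 ∈ range R, ∑ j2 ∈ range R, ∑ u, ∑ w, ∑ i ∈ range (R + 1), ∑ t ∈ range (R + 1),
      co u w i t * (φ u (j1 + i) j2 * γ w j1 (j2 + t))‖ ≤
    3 * (R : ℝ) ^ 2 * K * Real.sqrt (U * W)

/-- the coefficients of the pair sum -/
def cf (p : Par) (s t : ℕ → ℕ) (j u w i r : ℕ) : ℝ :=
  if (s (j - p.m - 1) < i ∧ i ≤ s (j - p.m)) ∧ r = t (j - p.m) ∧ w = t j - t (j - p.m) then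
    og p s j i * sg p.a p.G (s (j - 1)) (s j) (i + u) else 0

/-- PI: expansion of one pair product -/
def S_PI : Prop := ∀ (X : Type u) (T S : X → X) (f g : X → ℝ) (p : Par) (s t : ℕ → ℕ)
  (j U W R : ℕ), 1 ≤ p.m → p.m + 1 ≤ j → StrictMono s → StrictMono t →
  s j ≤ s (j - 1) + p.G → s j < s (j - p.m - 1) + 1 + U → t j < t (j - p.m) + W →
  s j ≤ R → t j ≤ R → ∀ x,
  Zk p.a s t T S f g (j - p.m) x * Zk p.a s t T S f g j x =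
    ∑ u : Fin U, ∑ w : Fin W, ∑ i ∈ range (R + 1), ∑ r ∈ range (R + 1),
      cf p s t j u w i r * ((f (T^[i] x) * f (T^[i + u] x)) * (g (S^[r] x) * g (S^[r + w] x)))

/-- PJ: averaging over the orbits -/
def S_PJ : Prop := ∀ (X : Type u) [MeasurableSpace X] (μ : Measure X) (T S : X → X)
  (Ψ : X → ℝ) (R : ℕ), 1 ≤ R → Sy μ T S → Measurable Ψ → (∃ C, ∀ x, |Ψ x| ≤ C) →
  ∫ x, Ψ x ∂μ = (1 / (R : ℝ) ^ 2) *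
    ∫ x, ∑ j1 ∈ range R, ∑ j2 ∈ range R, Ψ (T^[j1] (S^[j2] x)) ∂μ

/-- GPR: the good event holds for the actual sequences -/
def S_GPR : Prop := ∀ (a b : ℝ) (E F : Set ℕ), 0 < a → a < 1 / 2 → 0 < b → b < 1 / 2 →
  Reg a E → Reg b F → ∀ᶠ N : ℕ in atTop, ∀ m : ℕ, 1 ≤ m → (m : ℝ) ≤ (N : ℝ) ^ (4 * kp a b) →
    ∀ j : ℕ, (par a b N m).J < j → m + 1 ≤ j → j ≤ N →
      GP (par a b N m) (en E) (en F) j ∧ en E j ≤ en E (j - 1) + (par a b N m).G ∧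
      en E j < en E (j - m - 1) + 1 + UU a b N m ∧ en F j < en F (j - m) + WW a b N m ∧
      en E j ≤ N ^ 4 ∧ en F j ≤ N ^ 4

/-- PRM: pair sums, main part (inputs PI, PJ, GPR, TR) -/
def S_PRM : Prop := ∀ (a b : ℝ) (E F : Set ℕ), 0 < a → a < 1 / 2 → 0 < b → b < 1 / 2 →
  Reg a E → Reg b F → MRv a b (en E) (en F) →
  ∀ᶠ N : ℕ in atTop, ∀ m : ℕ, 1 ≤ m → (m : ℝ) ≤ (N : ℝ) ^ (4 * kp a b) →
  ∀ (X : Type u) [MeasurableSpace X] (μ : Measure X) (T S : X → X) (f g : X → ℝ),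
    Sy μ T S → Bd f → Bd g →
    |∑ j ∈ Ioc (max (par a b N m).J m) N, ∫ x, Zk a (en E) (en F) T S f g (j - m) x *
      Zk a (en E) (en F) T S f g j x ∂μ| ≤
        3 * (N : ℝ) ^ ((1 - mn a b) / 2 + 32 * kp a b) *
          Real.sqrt ((UU a b N m : ℝ) * (WW a b N m : ℝ))

/-- PR: pair sums (input PRM) -/
def S_PR : Prop := ∀ (a b : ℝ) (E F : Set ℕ), 0 < a → a < 1 / 2 → 0 < b → b < 1 / 2 →
  Reg a E → Reg b F → MRv a b (en E) (en F) →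
  ∀ᶠ N : ℕ in atTop, ∀ m : ℕ, 1 ≤ m → (m : ℝ) ≤ (N : ℝ) ^ (4 * kp a b) →
  ∀ (X : Type u) [MeasurableSpace X] (μ : Measure X) (T S : X → X) (f g : X → ℝ),
    Sy μ T S → Bd f → Bd g →
    |∑ k ∈ Ioc 0 (N - m), ∫ x, Zk a (en E) (en F) T S f g k x *
      Zk a (en E) (en F) T S f g (k + m) x ∂μ| ≤ (N : ℝ) ^ (1 - 7 * kp a b)

/-- MF: second moment (inputs VDC, PR) -/
def S_MF : Prop := ∀ (a b : ℝ) (E F : Set ℕ), 0 < a → a < 1 / 2 → 0 < b → b < 1 / 2 →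
  Reg a E → Reg b F → MRv a b (en E) (en F) →
  ∀ᶠ N : ℕ in atTop, ∀ (X : Type u) [MeasurableSpace X] (μ : Measure X) (T S : X → X)
    (f g : X → ℝ), Sy μ T S → Bd f → Bd g →
    ∫ x, (∑ k ∈ Ioc 0 N, Zk a (en E) (en F) T S f g k x) ^ 2 ∂μ ≤ (N : ℝ) ^ (2 - kp a b)

/-- SF: second moment for one sequence (input T1) -/
def S_SF : Prop := ∀ (b : ℝ) (F : Set ℕ), 0 < b → b < 1 / 2 → Reg b F → HCv b F →
  ∀ᶠ N : ℕ in atTop, ∀ (X : Type u) [MeasurableSpace X] (μ : Measure X) (S : X → X)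
    (g : X → ℝ), IsProbabilityMeasure μ → MeasurePreserving S μ μ → Bd g →
    ∫ x, (∑ k ∈ Ioc 0 N, Dk b (en F) S g k x) ^ 2 ∂μ ≤ (N : ℝ) ^ (2 - (1 - al b) / 2)

/-- BC: Borel-Cantelli along lacunary sequences -/
def S_BC : Prop := ∀ (X : Type u) [MeasurableSpace X] (μ : Measure X) (F : ℕ → X → ℝ) (δ : ℝ),
  IsProbabilityMeasure μ → 0 < δ → (∀ N, Measurable (F N)) → (∀ N, ∃ C, ∀ x, |F N x| ≤ C) →
  (∀ᶠ N : ℕ in atTop, ∫ x, F N x ^ 2 ∂μ ≤ (N : ℝ) ^ (2 - δ)) →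
  ∀ ρ : ℝ, 1 < ρ → ∀ᵐ x ∂μ, Tendsto (fun j : ℕ => F ⌈ρ ^ j⌉₊ x / (⌈ρ ^ j⌉₊ : ℝ)) atTop (𝓝 0)

/-- INT: interpolation -/
def S_INT : Prop := ∀ (z : ℕ → ℝ) (C l : ℝ), (∀ k, |z k| ≤ C) →
  (∀ n : ℕ, Tendsto (fun j : ℕ => (∑ k ∈ Ioc 0 ⌈(1 + 1 / ((n : ℝ) + 1)) ^ j⌉₊, z k) /
    (⌈(1 + 1 / ((n : ℝ) + 1)) ^ j⌉₊ : ℝ)) atTop (𝓝 l)) →
  Tendsto (fun N : ℕ => (∑ k ∈ Ioc 0 N, z k) / (N : ℝ)) atTop (𝓝 l)

/-- BPE: pointwise ergodic theorem, non-ergodic -/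
def S_BPE : Prop := ∀ (X : Type u) [MeasurableSpace X] (μ : Measure X) (T : X → X) (f : X → ℝ),
  IsProbabilityMeasure μ → MeasurePreserving T μ μ → Measurable f → (∃ C, ∀ x, |f x| ≤ C) →
  ∀ᵐ x ∂μ, Tendsto (fun N : ℕ => (∑ i ∈ Ioc 0 N, f (T^[i] x)) / (N : ℝ)) atTop
    (𝓝 ((μ[f | MeasurableSpace.invariants T]) x))

/-- WM: weighted means -/
def S_WM : Prop := ∀ (a : ℝ) (x : ℕ → ℝ) (C l : ℝ), 0 < a → a < 1 → (∀ k, |x k| ≤ C) →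
  Tendsto (fun N : ℕ => (∑ i ∈ Ioc 0 N, x i) / (N : ℝ)) atTop (𝓝 l) →
  Tendsto (fun N : ℕ => (∑ i ∈ Ioc 0 N, pw a i * x i) / (∑ i ∈ Ioc 0 N, pw a i)) atTop (𝓝 l)

/-- DEC: coboundary approximation (input BPE) -/
def S_DEC : Prop := ∀ (X : Type u) [MeasurableSpace X] (μ : Measure X) (T : X → X) (f : X → ℝ),
  IsProbabilityMeasure μ → MeasurePreserving T μ μ → Bd f →
  (∀ᵐ x ∂μ, (μ[f | MeasurableSpace.invariants T]) x = 0) → ∀ ε : ℝ, 0 < ε →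
  ∃ h r : X → ℝ, Measurable h ∧ Bd r ∧ (∃ C, ∀ x, |h x| ≤ C) ∧
    (∀ x, f x = h x - h (T x) + r x) ∧ ∫ x, |r x| ∂μ ≤ ε

/-- SM: the smooth part (inputs DEC, WM, BPE) -/
def S_SM : Prop := ∀ (a : ℝ) (E : Set ℕ), 0 < a → a < 1 / 2 → Reg a E →
  ∀ (X : Type u) [MeasurableSpace X] (μ : Measure X) (T : X → X) (f : X → ℝ),
  IsProbabilityMeasure μ → MeasurePreserving T μ μ → Bd f →
  (∀ᵐ x ∂μ, (μ[f | MeasurableSpace.invariants T]) x = 0) →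
  ∀ᵐ x ∂μ, Tendsto (fun N : ℕ => (∑ k ∈ Ioc 0 N,
    |∑ i ∈ Ioc (en E (k - 1)) (en E k), pw a i * f (T^[i] x)|) / (N : ℝ)) atTop (𝓝 0)

/-- AE1 (inputs SF, BC, INT, BPE, WM) -/
def S_AE1 : Prop := ∀ (b : ℝ) (F : Set ℕ), 0 < b → b < 1 / 2 → Reg b F → HCv b F →
  ∀ (X : Type u) [MeasurableSpace X] (μ : Measure X) (S : X → X) (g : X → ℝ),
  IsProbabilityMeasure μ → MeasurePreserving S μ μ → Bd g →
  ∀ᵐ x ∂μ, Tendsto (fun N : ℕ => (∑ k ∈ Ioc 0 N, g (S^[en F k] x)) / (N : ℝ)) atTop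
    (𝓝 ((μ[g | MeasurableSpace.invariants S]) x))

/-- AE2 (inputs MF, BC, INT, SM) -/
def S_AE2 : Prop := ∀ (a b : ℝ) (E F : Set ℕ), 0 < a → a < 1 / 2 → 0 < b → b < 1 / 2 →
  Reg a E → Reg b F → MRv a b (en E) (en F) →
  ∀ (X : Type u) [MeasurableSpace X] (μ : Measure X) (T S : X → X) (f g : X → ℝ),
  Sy μ T S → Bd f → Bd g → (∀ᵐ x ∂μ, (μ[f | MeasurableSpace.invariants T]) x = 0) →
  ∀ᵐ x ∂μ, Tendsto (fun N : ℕ => (∑ k ∈ Ioc 0 N, f (T^[en E k] x) * g (S^[en F k] x)) /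
    (N : ℝ)) atTop (𝓝 0)

/-- FIN: pointwise limit for one good pair of sets (inputs AE1, AE2) -/
def S_FIN : Prop := ∀ (a b : ℝ) (E F : Set ℕ), 0 < a → a < 1 / 2 → 0 < b → b < 1 / 2 →
  Reg a E → Reg b F → HCv b F → MRv a b (en E) (en F) →
  ∀ (X : Type u) [MeasurableSpace X] (μ : Measure X) (T S : X → X) (f g : X → ℝ),
  Sy μ T S → Measurable f → Measurable g → (∃ C, ∀ x, |f x| ≤ C) → (∃ C, ∀ x, |g x| ≤ C) →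
  ∀ᵐ x ∂μ, Tendsto (fun N : ℕ => (∑ k ∈ Ioc 0 N, f (T^[en E k] x) * g (S^[en F k] x)) /
    (N : ℝ)) atTop (𝓝 ((μ[f | MeasurableSpace.invariants T]) x *
      (μ[g | MeasurableSpace.invariants S]) x))

end Pool.Agent.H505RS
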