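import Pool.Agent.H505RS.Defs

set_option autoImplicit false

namespace Pool.Agent.H505RS

open Finset Filter MeasureTheory
open scoped BigOperators ENNReal Topology

universe u

namespace FIN

lemma bdd_case (h1 : S_AE1.{u}) (h2 : S_AE2.{u}) (a b : ℝ) (E F : Set ℕ) (ha : 0 < a)
    (ha' : a < 1 / 2) (hb : 0 < b) (hb' : b < 1 / 2) (hE : Reg a E) (hF : Reg b F)
    (hHF : HCv b F) (hMR : MRv a b (en E) (en F)) (X : Type u) [MeasurableSpace X]
    (μ : Measure X) (T S : X → X) (f g : X → ℝ) (hSy : Sy μ T S) (hf : Bd f) (hg : Bd g) :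
    ∀ᵐ x ∂μ, Tendsto (fun N : ℕ => (∑ k ∈ Ioc 0 N, f (T^[en E k] x) * g (S^[en F k] x)) /
      (N : ℝ)) atTop (𝓝 ((μ[f | MeasurableSpace.invariants T]) x *
        (μ[g | MeasurableSpace.invariants S]) x)) := by
  have hP := hSy.prob
  have hm : MeasurableSpace.invariants T ≤ (inferInstance : MeasurableSpace X) :=
    MeasurableSpace.invariants_le T
  set e : X → ℝ := μ[f | MeasurableSpace.invariants T] with he
  have hesm : StronglyMeasurable[MeasurableSpace.invariants T] e := stronglyMeasurable_condExp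
  have hem : Measurable[MeasurableSpace.invariants T] e := hesm.measurable
  let c : ℝ → ℝ := fun y => max (-1) (min 1 y)
  have hc : Measurable c := by fun_prop
  let f1 : X → ℝ := fun x => c (e x)
  have hf1m : Measurable[MeasurableSpace.invariants T] f1 := hc.comp hem
  have hf1m' : Measurable f1 := hf1m.mono hm le_rfl
  have hf1b : ∀ x, |f1 x| ≤ 1 := by
    intro x
    simp only [f1, c]
    rw [abs_le]
    constructor
    · exact le_max_left _ _
    · exact max_le (by norm_num) (min_le_left _ _)
  have hinv : ∀ x, f1 (T x) = f1 x := by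
    intro x
    have := MeasurableSpace.comp_eq_of_measurable_invariants hf1m
    exact congrFun this x
  have hinvk : ∀ (k : ℕ) x, f1 (T^[k] x) = f1 x := by
    intro k
    induction k with
    | zero => intro x; rfl
    | succ k ih => intro x; rw [Function.iterate_succ_apply, ih, hinv]
  have hfi : Integrable f μ := Integrable.of_bound hf.1.aestronglyMeasurable 1
    (Eventually.of_forall (fun x => by rw [Real.norm_eq_abs]; exact hf.2 x))
  have hf1i : Integrable f1 μ := Integrable.of_bound hf1m'.aestronglyMeasurable 1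
    (Eventually.of_forall (fun x => by rw [Real.norm_eq_abs]; exact hf1b x))
  have hebd : ∀ᵐ x ∂μ, |e x| ≤ 1 := by
    have := ae_bdd_condExp_of_ae_bdd (m := MeasurableSpace.invariants T) (R := 1) (μ := μ)
      (f := f) (Eventually.of_forall (fun x => by simpa using hf.2 x))
    simpa using this
  have hf1e : f1 =ᵐ[μ] e := by
    filter_upwards [hebd] with x hx
    simp only [f1, c]
    rw [abs_le] at hx
    rw [min_eq_right hx.2, max_eq_right hx.1]
  let f0 : X → ℝ := fun x => (f x - f1 x) / 2
  have hf0 : Bd f0 := by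
    refine ⟨(hf.1.sub hf1m').div_const 2, ?_⟩
    intro x
    simp only [f0]
    have h3 := hf.2 x
    have h4 := hf1b x
    rw [abs_le] at h3 h4 ⊢
    constructor <;> linarith
  have hce : μ[f0 | MeasurableSpace.invariants T] =ᵐ[μ] 0 := by
    have e1 : f0 = (1 / 2 : ℝ) • (f - f1) := by
      funext x
      simp only [f0, Pi.smul_apply, Pi.sub_apply, smul_eq_mul]
      ring
    have e2 : μ[f0 | MeasurableSpace.invariants T] =ᵐ[μ]
        (1 / 2 : ℝ) • μ[f - f1 | MeasurableSpace.invariants T] := by
      rw [e1]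
      exact condExp_smul _ _ _
    have e3 := condExp_sub hfi hf1i (MeasurableSpace.invariants T)
    have e4 : μ[f1 | MeasurableSpace.invariants T] = f1 :=
      condExp_of_stronglyMeasurable hm hf1m.stronglyMeasurable hf1i
    filter_upwards [e2, e3, hf1e] with x h5 h6 h7
    rw [h5, Pi.smul_apply, h6, Pi.sub_apply, e4, h7]
    simp [he]
  have hAE2 := h2 a b E F ha ha' hb hb' hE hF hMR X μ T S f0 g hSy hf0 hg hce
  have hAE1 := h1 b F hb hb' hF hHF X μ S g hP hSy.mS hg
  filter_upwards [hAE2, hAE1, hf1e] with x h3 h4 h5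
  have h6 := (h3.const_mul 2).add (h4.const_mul (f1 x))
  rw [mul_zero, zero_add, h5] at h6
  refine h6.congr ?_
  intro N
  rw [← mul_div_assoc, ← mul_div_assoc, ← add_div]
  congr 1
  rw [Finset.mul_sum, Finset.mul_sum, ← Finset.sum_add_distrib]
  apply Finset.sum_congr rfl
  intro k _
  have h7 := hinvk (en E k) x
  simp only [f0]
  rw [h7, ← h5]
  ring

end FIN

open FIN in
theorem t_FIN : S_AE1.{u} → S_AE2.{u} → S_FIN.{u} := by
  intro h1 h2 a b E F ha ha' hb hb' hE hF hHF hMR X _ μ T S f g hSy hf hg hfb hgb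
  obtain ⟨C, hC⟩ := hfb
  obtain ⟨D, hD⟩ := hgb
  have hP := hSy.prob
  set C' : ℝ := |C| + 1 with hC'
  set D' : ℝ := |D| + 1 with hD'
  have hCp : 0 < C' := by positivity
  have hDp : 0 < D' := by positivity
  have hbf : Bd (C'⁻¹ • f) := by
    refine ⟨hf.const_smul _, ?_⟩
    intro x
    rw [Pi.smul_apply, smul_eq_mul, abs_mul, abs_inv, abs_of_pos hCp, inv_mul_le_iff₀ hCp]
    have := hC x
    have := le_abs_self C
    linarith
  have hbg : Bd (D'⁻¹ • g) := by
    refine ⟨hg.const_smul _, ?_⟩
    intro x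
    rw [Pi.smul_apply, smul_eq_mul, abs_mul, abs_inv, abs_of_pos hDp, inv_mul_le_iff₀ hDp]
    have := hD x
    have := le_abs_self D
    linarith
  have h := bdd_case h1 h2 a b E F ha ha' hb hb' hE hF hHF hMR X μ T S _ _ hSy hbf hbg
  have e1 := condExp_smul (μ := μ) C'⁻¹ f (MeasurableSpace.invariants T)
  have e2 := condExp_smul (μ := μ) D'⁻¹ g (MeasurableSpace.invariants S)
  filter_upwards [h, e1, e2] with x h3 h4 h5
  rw [h4, h5] at h3
  have h6 := h3.const_mul (C' * D')
  have e3 : C' * D' * ((C'⁻¹ • μ[f | MeasurableSpace.invariants T]) x *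
      (D'⁻¹ • μ[g | MeasurableSpace.invariants S]) x) =
      (μ[f | MeasurableSpace.invariants T]) x * (μ[g | MeasurableSpace.invariants S]) x := by
    simp only [Pi.smul_apply, smul_eq_mul]
    field_simp
  rw [e3] at h6
  refine h6.congr ?_
  intro N
  rw [← mul_div_assoc]
  congr 1
  rw [Finset.mul_sum]
  apply Finset.sum_congr rfl
  intro k _
  simp only [Pi.smul_apply, smul_eq_mul]
  field_simp

end Pool.Agent.H505RS
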