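import Pool.Agent.H505RS.Defs

set_option autoImplicit false

noncomputable section

namespace Pool.Agent.H505RS

open scoped BigOperators ENNReal Topology InnerProductSpace
open Finset Filter MeasureTheory ProbabilityTheory

universe u v

theorem t_XC (hXA : S_XA) (hXM : S_XM) (hXV : S_XV) : S_XC := by
  intro p k1 k2 lam U W hy
  exact ⟨(hXA p k1 k2 lam U W hy).1, (hXA p k1 k2 lam U W hy).2.1, (hXA p k1 k2 lam U W hy).2.2,
    hXM p k1 k2 lam U W hy, hXV p k1 k2 lam U W hy⟩

/-- good pairs of sets -/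
structure Good (a b : ℝ) (E F : Set ℕ) : Prop where
  rE : Reg a E
  rF : Reg b F
  hF : HCv b F
  mr : MRv a b (en E) (en F)

theorem good_ae (hHC : S_HC.{v}) (hIS : S_IS.{v}) (hGR1 : S_GR1) (hGR2 : S_GR2)
    (hMRE : S_MRE.{v}) (Ω : Type v) [MeasurableSpace Ω] (P : Measure Ω) (a b : ℝ)
    (A B : ℕ → Set Ω) (ha : 0 < a) (ha' : a < 1 / 2) (hb : 0 < b) (hb' : b < 1 / 2)
    (h : Rnd P a b A B) : ∀ᵐ ω ∂P, Good a b (EA A ω) (EA B ω) := by
  have hA : Rn1 P a A := ⟨h.prob, h.mA, h.pA, by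
    have := h.ind.precomp (g := (Sum.inl : ℕ → ℕ ⊕ ℕ)) Sum.inl_injective
    simpa [Function.comp_def] using this⟩
  have hB : Rn1 P b B := ⟨h.prob, h.mB, h.pB, by
    have := h.ind.precomp (g := (Sum.inr : ℕ → ℕ ⊕ ℕ)) Sum.inr_injective
    simpa [Function.comp_def] using this⟩
  filter_upwards [hHC Ω P a A ha (by linarith) hA, hHC Ω P b B hb (by linarith) hB,
    hIS Ω P a A ha (by linarith) hA, hIS Ω P b B hb (by linarith) hB,
    hMRE Ω P a b A B ha ha' hb hb' h] with ω h1 h2 h3 h4 h5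
  have e1 := hGR1 a _ ha ha' h1
  have e2 := hGR1 b _ hb hb' h2
  exact ⟨hGR2 a _ ha ha' e1.1 e1.2 h3, hGR2 b _ hb hb' e2.1 e2.2 h4, h2, h5⟩

/-- averages along the enumerations of `E ∩ [1, ∞)` and `F ∩ [1, ∞)` -/
def avg {X : Type*} (E F : Set ℕ) (T S : X → X) (f g : X → ℂ) (N : ℕ) (x : X) : ℂ :=
  (1 / (N : ℂ)) * ∑ k ∈ Finset.range N, f (T^[Nat.nth (fun n => 1 ≤ n ∧ n ∈ E) k] x) *
    g (S^[Nat.nth (fun n => 1 ≤ n ∧ n ∈ F) k] x)

theorem sum_Ioc_range (F : ℕ → ℂ) (N : ℕ) : ∑ k ∈ Ioc 0 N, F k = ∑ k ∈ range N, F (k + 1) := by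
  induction N with
  | zero => simp
  | succ n ih => rw [Finset.sum_Ioc_succ_top (Nat.zero_le n), ih, Finset.sum_range_succ]

theorem avg_eq {X : Type*} (E F : Set ℕ) (T S : X → X) (f g : X → ℂ) (N : ℕ) (x : X) :
    avg E F T S f g N x = (∑ k ∈ Ioc 0 N, f (T^[en E k] x) * g (S^[en F k] x)) / (N : ℂ) := by
  unfold avg
  rw [sum_Ioc_range, one_div, inv_mul_eq_div]
  rfl

/-- pointwise convergence for complex measurable bounded functions -/
theorem cpx (hFIN : S_FIN.{u}) (a b : ℝ) (E F : Set ℕ) (ha : 0 < a) (ha' : a < 1 / 2)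
    (hb : 0 < b) (hb' : b < 1 / 2) (hG : Good a b E F)
    (X : Type u) [MeasurableSpace X] (μ : Measure X) (T S : X → X) (f g : X → ℂ)
    (hS : Sy μ T S) (hf : Measurable f) (hg : Measurable g) (C : ℝ) (hfC : ∀ x, ‖f x‖ ≤ C)
    (hgC : ∀ x, ‖g x‖ ≤ C) :
    ∀ᵐ x ∂μ, Tendsto (fun N : ℕ => avg E F T S f g N x) atTop
      (𝓝 ((μ[f | MeasurableSpace.invariants T]) x * (μ[g | MeasurableSpace.invariants S]) x)) := by
  have := hS.prob
  have hfi : Integrable f μ := Integrable.of_bound hf.aestronglyMeasurable C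
    (Filter.Eventually.of_forall hfC)
  have hgi : Integrable g μ := Integrable.of_bound hg.aestronglyMeasurable C
    (Filter.Eventually.of_forall hgC)
  have hre : ∀ z : ℂ, |z.re| ≤ ‖z‖ := Complex.abs_re_le_norm
  have him : ∀ z : ℂ, |z.im| ≤ ‖z‖ := Complex.abs_im_le_norm
  have hfr : Measurable (fun x => (f x).re) := Complex.measurable_re.comp hf
  have hfm : Measurable (fun x => (f x).im) := Complex.measurable_im.comp hf
  have hgr : Measurable (fun x => (g x).re) := Complex.measurable_re.comp hg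
  have hgm : Measurable (fun x => (g x).im) := Complex.measurable_im.comp hg
  have bfr : ∃ C, ∀ x, |(f x).re| ≤ C := ⟨C, fun x => (hre _).trans (hfC x)⟩
  have bfm : ∃ C, ∀ x, |(f x).im| ≤ C := ⟨C, fun x => (him _).trans (hfC x)⟩
  have bgr : ∃ C, ∀ x, |(g x).re| ≤ C := ⟨C, fun x => (hre _).trans (hgC x)⟩
  have bgm : ∃ C, ∀ x, |(g x).im| ≤ C := ⟨C, fun x => (him _).trans (hgC x)⟩
  have key := hFIN a b E F ha ha' hb hb' hG.rE hG.rF hG.hF hG.mr X μ T S
  have c1 := Complex.reCLM.comp_condExp_comm (m := MeasurableSpace.invariants T) hfi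
  have c2 := Complex.imCLM.comp_condExp_comm (m := MeasurableSpace.invariants T) hfi
  have c3 := Complex.reCLM.comp_condExp_comm (m := MeasurableSpace.invariants S) hgi
  have c4 := Complex.imCLM.comp_condExp_comm (m := MeasurableSpace.invariants S) hgi
  filter_upwards [key _ _ hS hfr hgr bfr bgr, key _ _ hS hfr hgm bfr bgm,
    key _ _ hS hfm hgr bfm bgr, key _ _ hS hfm hgm bfm bgm, c1, c2, c3, c4] with x h1 h2 h3 h4
      d1 d2 d3 d4
  have e1 : (μ[fun x => (f x).re | MeasurableSpace.invariants T]) x =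
      ((μ[f | MeasurableSpace.invariants T]) x).re := d1.symm
  have e2 : (μ[fun x => (f x).im | MeasurableSpace.invariants T]) x =
      ((μ[f | MeasurableSpace.invariants T]) x).im := d2.symm
  have e3 : (μ[fun x => (g x).re | MeasurableSpace.invariants S]) x =
      ((μ[g | MeasurableSpace.invariants S]) x).re := d3.symm
  have e4 : (μ[fun x => (g x).im | MeasurableSpace.invariants S]) x =
      ((μ[g | MeasurableSpace.invariants S]) x).im := d4.symm
  rw [e1, e3] at h1
  rw [e1, e4] at h2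
  rw [e2, e3] at h3
  rw [e2, e4] at h4
  have hR := h1.sub h4
  have hI := h2.add h3
  have hz : ∀ N : ℕ, avg E F T S f g N x =
      (((∑ k ∈ Ioc 0 N, (f (T^[en E k] x)).re * (g (S^[en F k] x)).re) / (N : ℝ) -
        (∑ k ∈ Ioc 0 N, (f (T^[en E k] x)).im * (g (S^[en F k] x)).im) / (N : ℝ) : ℝ) : ℂ) +
      (((∑ k ∈ Ioc 0 N, (f (T^[en E k] x)).re * (g (S^[en F k] x)).im) / (N : ℝ) +
        (∑ k ∈ Ioc 0 N, (f (T^[en E k] x)).im * (g (S^[en F k] x)).re) / (N : ℝ) : ℝ) : ℂ) *
        Complex.I := by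
    intro N
    rw [avg_eq, ← sub_div, ← add_div, ← Finset.sum_sub_distrib, ← Finset.sum_add_distrib]
    push_cast
    rw [div_mul_eq_mul_div, ← add_div, Finset.sum_mul, ← Finset.sum_add_distrib]
    congr 1
    refine Finset.sum_congr rfl fun k _ => ?_
    apply Complex.ext <;> simp
  have hR' : Tendsto (fun N : ℕ => (((∑ k ∈ Ioc 0 N, (f (T^[en E k] x)).re *
      (g (S^[en F k] x)).re) / (N : ℝ) -
        (∑ k ∈ Ioc 0 N, (f (T^[en E k] x)).im * (g (S^[en F k] x)).im) / (N : ℝ) : ℝ) : ℂ))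
      atTop (𝓝 ((((μ[f | MeasurableSpace.invariants T]) x).re *
        ((μ[g | MeasurableSpace.invariants S]) x).re - ((μ[f | MeasurableSpace.invariants T]) x).im *
        ((μ[g | MeasurableSpace.invariants S]) x).im : ℝ) : ℂ)) :=
    (Complex.continuous_ofReal.tendsto _).comp hR
  have hI' : Tendsto (fun N : ℕ => (((∑ k ∈ Ioc 0 N, (f (T^[en E k] x)).re *
      (g (S^[en F k] x)).im) / (N : ℝ) +
        (∑ k ∈ Ioc 0 N, (f (T^[en E k] x)).im * (g (S^[en F k] x)).re) / (N : ℝ) : ℝ) : ℂ))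
      atTop (𝓝 ((((μ[f | MeasurableSpace.invariants T]) x).re *
        ((μ[g | MeasurableSpace.invariants S]) x).im + ((μ[f | MeasurableSpace.invariants T]) x).im *
        ((μ[g | MeasurableSpace.invariants S]) x).re : ℝ) : ℂ)) :=
    (Complex.continuous_ofReal.tendsto _).comp hI
  have hT := hR'.add (hI'.mul_const Complex.I)
  simp_rw [hz]
  convert hT using 2
  apply Complex.ext <;> simp

/-- the pointwise and the `L²` statement for essentially bounded functions -/
theorem cpx2 (hFIN : S_FIN.{u}) (a b : ℝ) (E F : Set ℕ) (ha : 0 < a) (ha' : a < 1 / 2)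
    (hb : 0 < b) (hb' : b < 1 / 2) (hG : Good a b E F)
    (X : Type u) [MeasurableSpace X] (μ : Measure X) (T S : X → X) (f g : X → ℂ)
    (hS : Sy μ T S) (hf : MemLp f ⊤ μ) (hg : MemLp g ⊤ μ) :
    (∀ᵐ x ∂μ, Tendsto (fun N : ℕ => avg E F T S f g N x) atTop
      (𝓝 ((μ[f | MeasurableSpace.invariants T]) x *
        (μ[g | MeasurableSpace.invariants S]) x))) ∧
    Tendsto (fun N : ℕ => eLpNorm (fun x => avg E F T S f g N x -
      (μ[f | MeasurableSpace.invariants T]) x * (μ[g | MeasurableSpace.invariants S]) x) 2 μ)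
      atTop (𝓝 0) := by
  have := hS.prob
  -- bounded measurable versions
  have hver : ∀ h : X → ℂ, MemLp h ⊤ μ → ∃ (h' : X → ℂ) (C : ℝ), Measurable h' ∧
      (∀ x, ‖h' x‖ ≤ C) ∧ h =ᵐ[μ] h' := by
    intro h hh
    obtain ⟨C, hC⟩ : ∃ C : ℝ, ∀ᵐ x ∂μ, ‖h x‖ ≤ C := by
      refine ⟨(eLpNorm h ⊤ μ).toReal, ?_⟩
      have h1 := hh.2
      rw [eLpNorm_exponent_top] at h1 ⊢
      filter_upwards [ae_le_eLpNormEssSup (f := h) (μ := μ)] with x hx
      have := ENNReal.toReal_mono h1.ne hx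
      simpa using this
    have hm := hh.1
    set h0 : X → ℂ := hm.mk h with hh0
    have hm0 : Measurable h0 := hm.stronglyMeasurable_mk.measurable
    have he0 : h =ᵐ[μ] h0 := hm.ae_eq_mk
    refine ⟨fun x => if ‖h0 x‖ ≤ C then h0 x else 0, |C|, ?_, ?_, ?_⟩
    · exact Measurable.ite (measurableSet_le hm0.norm measurable_const) hm0 measurable_const
    · intro x
      simp only
      split_ifs with hx
      · exact hx.trans (le_abs_self C)
      · simp
    · filter_upwards [hC, he0] with x h1 h2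
      rw [h2] at h1
      simp only [h1, if_true]
      exact h2
  obtain ⟨f', C1, hf'm, hf'C, hff⟩ := hver f hf
  obtain ⟨g', C2, hg'm, hg'C, hgg⟩ := hver g hg
  set C := max C1 C2 with hCdef
  have hC1 : ∀ x, ‖f' x‖ ≤ C := fun x => (hf'C x).trans (le_max_left _ _)
  have hC2 : ∀ x, ‖g' x‖ ≤ C := fun x => (hg'C x).trans (le_max_right _ _)
  have hC0 : 0 ≤ C := by
    have : Nonempty X := by
      by_contra hne
      rw [not_nonempty_iff] at hne
      have h1 : μ Set.univ = 1 := measure_univ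
      rw [Set.univ_eq_empty_iff.2 hne, measure_empty] at h1
      exact zero_ne_one h1
    exact (norm_nonneg _).trans (hC1 (Classical.arbitrary X))
  have main := cpx hFIN a b E F ha ha' hb hb' hG X μ T S f' g' hS hf'm hg'm C hC1 hC2
  have hfT : ∀ᵐ x ∂μ, ∀ n : ℕ, f (T^[n] x) = f' (T^[n] x) := by
    rw [ae_all_iff]
    intro n
    exact (hS.mT.iterate n).quasiMeasurePreserving.ae_eq_comp hff
  have hgS : ∀ᵐ x ∂μ, ∀ n : ℕ, g (S^[n] x) = g' (S^[n] x) := by
    rw [ae_all_iff]
    intro n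
    exact (hS.mS.iterate n).quasiMeasurePreserving.ae_eq_comp hgg
  have ef : (μ[f | MeasurableSpace.invariants T]) =ᵐ[μ] (μ[f' | MeasurableSpace.invariants T]) :=
    condExp_congr_ae hff
  have eg : (μ[g | MeasurableSpace.invariants S]) =ᵐ[μ] (μ[g' | MeasurableSpace.invariants S]) :=
    condExp_congr_ae hgg
  have havg : ∀ᵐ x ∂μ, ∀ N, avg E F T S f g N x = avg E F T S f' g' N x := by
    filter_upwards [hfT, hgS] with x h1 h2 N
    unfold avg
    congr 1
    exact Finset.sum_congr rfl fun k _ => by rw [h1, h2]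
  have hpt : ∀ᵐ x ∂μ, Tendsto (fun N : ℕ => avg E F T S f g N x) atTop
      (𝓝 ((μ[f | MeasurableSpace.invariants T]) x *
        (μ[g | MeasurableSpace.invariants S]) x)) := by
    filter_upwards [main, havg, ef, eg] with x h1 h2 h3 h4
    rw [h3, h4]
    simpa [h2] using h1
  refine ⟨hpt, ?_⟩
  have havb : ∀ N x, ‖avg E F T S f' g' N x‖ ≤ C * C := by
    intro N x
    rcases Nat.eq_zero_or_pos N with hN | hN
    · subst hN; simp [avg]; positivity
    rw [avg_eq, norm_div, Complex.norm_natCast, div_le_iff₀ (by exact_mod_cast hN)]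
    calc ‖∑ k ∈ Ioc 0 N, f' (T^[en E k] x) * g' (S^[en F k] x)‖
        ≤ ∑ k ∈ Ioc 0 N, C * C := by
          refine norm_sum_le_of_le _ fun k _ => ?_
          rw [norm_mul]
          exact mul_le_mul (hC1 _) (hC2 _) (norm_nonneg _) hC0
      _ = C * C * N := by simp; ring
  have hlim : ∀ᵐ x ∂μ, ‖(μ[f | MeasurableSpace.invariants T]) x *
        (μ[g | MeasurableSpace.invariants S]) x‖ ≤ C * C := by
    filter_upwards [hpt, havg] with x h1 h2
    refine le_of_tendsto h1.norm (Filter.Eventually.of_forall fun N => ?_)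
    rw [h2]
    exact havb N x
  have hmeas : ∀ N, AEStronglyMeasurable (fun x => avg E F T S f g N x -
      (μ[f | MeasurableSpace.invariants T]) x * (μ[g | MeasurableSpace.invariants S]) x) μ := by
    intro N
    have m1 : AEStronglyMeasurable (fun x => avg E F T S f g N x) μ := by
      have m2 : Measurable (fun x => avg E F T S f' g' N x) := by
        unfold avg
        refine Measurable.const_mul ?_ _
        refine Finset.measurable_sum _ fun k _ => ?_
        exact (hf'm.comp (hS.mT.iterate _).measurable).mul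
          (hg'm.comp (hS.mS.iterate _).measurable)
      refine m2.aestronglyMeasurable.congr ?_
      filter_upwards [havg] with x h2
      exact (h2 N).symm
    have m3 : AEStronglyMeasurable (fun x => (μ[f | MeasurableSpace.invariants T]) x) μ :=
      integrable_condExp.1
    have m4 : AEStronglyMeasurable (fun x => (μ[g | MeasurableSpace.invariants S]) x) μ :=
      integrable_condExp.1
    exact m1.sub (m3.mul m4)
  -- dominated convergence
  have hL : Tendsto (fun N : ℕ => ∫⁻ x, ‖avg E F T S f g N x -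
      (μ[f | MeasurableSpace.invariants T]) x * (μ[g | MeasurableSpace.invariants S]) x‖ₑ ^ (2 : ℝ)
        ∂μ) atTop (𝓝 0) := by
    have h0 : (0 : ℝ≥0∞) = ∫⁻ _x : X, 0 ∂μ := by simp
    rw [h0]
    refine tendsto_lintegral_of_dominated_convergence' (fun _ => ENNReal.ofReal (2 * (C * C)) ^ (2:ℝ))
      ?_ ?_ ?_ ?_
    · intro N
      exact (hmeas N).enorm.pow_const _
    · intro N
      filter_upwards [hlim, havg] with x h1 h2
      refine ENNReal.rpow_le_rpow ?_ (by norm_num)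
      rw [← ofReal_norm]
      refine ENNReal.ofReal_le_ofReal ?_
      calc _ ≤ ‖avg E F T S f g N x‖ + ‖(μ[f | MeasurableSpace.invariants T]) x *
              (μ[g | MeasurableSpace.invariants S]) x‖ := norm_sub_le _ _
        _ ≤ C * C + C * C := by
            refine add_le_add ?_ h1
            rw [h2]; exact havb N x
        _ = 2 * (C * C) := by ring
    · simp only [lintegral_const, measure_univ, mul_one]
      exact (ENNReal.rpow_lt_top_of_nonneg (by norm_num) ENNReal.ofReal_ne_top).ne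
    · filter_upwards [hpt] with x h1
      have h2 := (tendsto_sub_nhds_zero_iff.2 h1)
      have h3 : Tendsto (fun N : ℕ => ‖avg E F T S f g N x -
        (μ[f | MeasurableSpace.invariants T]) x *
          (μ[g | MeasurableSpace.invariants S]) x‖ₑ) atTop (𝓝 ‖(0 : ℂ)‖ₑ) :=
        (continuous_enorm.tendsto _).comp h2
      have h4 := (ENNReal.continuous_rpow_const (y := 2)).tendsto (‖(0 : ℂ)‖ₑ) |>.comp h3
      simpa [Function.comp_def] using h4
  have hfin : ∀ N : ℕ, eLpNorm (fun x => avg E F T S f g N x -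
      (μ[f | MeasurableSpace.invariants T]) x * (μ[g | MeasurableSpace.invariants S]) x) 2 μ =
      (∫⁻ x, ‖avg E F T S f g N x -
      (μ[f | MeasurableSpace.invariants T]) x * (μ[g | MeasurableSpace.invariants S]) x‖ₑ ^ (2 : ℝ)
        ∂μ) ^ ((1 : ℝ) / 2) := by
    intro N
    rw [eLpNorm_eq_lintegral_rpow_enorm_toReal (by norm_num) (by norm_num)]
    norm_num
  simp_rw [hfin]
  have h5 := (ENNReal.continuous_rpow_const (y := (1:ℝ)/2)).tendsto 0 |>.comp hL
  simpa [Function.comp_def] using h5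

theorem main_result (hFIN : S_FIN.{u}) (hGR1 : S_GR1) (hGR2 : S_GR2) (hMRE : S_MRE.{v})
    (hHC : S_HC.{v}) (hIS : S_IS.{v})
    (a b : ℝ) (ha : 0 < a) (ha' : a < 1 / 2) (hb : 0 < b) (hb' : b < 1 / 2)
    (Ω : Type v) [MeasurableSpace Ω] (P : Measure Ω) [IsProbabilityMeasure P]
    (A B : ℕ → Set Ω) (hA : ∀ n, 1 ≤ n → MeasurableSet (A n))
    (hB : ∀ n, 1 ≤ n → MeasurableSet (B n))
    (hPA : ∀ n : ℕ, 1 ≤ n → P (A n) = ENNReal.ofReal ((n : ℝ) ^ (-a)))
    (hPB : ∀ n : ℕ, 1 ≤ n → P (B n) = ENNReal.ofReal ((n : ℝ) ^ (-b)))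
    (hind : iIndepSet (Sum.elim (fun n : ℕ => A (n + 1)) (fun n : ℕ => B (n + 1))) P) :
    ∀ᵐ ω ∂P, {n : ℕ | 1 ≤ n ∧ ω ∈ A n}.Infinite ∧ {n : ℕ | 1 ≤ n ∧ ω ∈ B n}.Infinite ∧
      ∀ (X : Type u) [MeasurableSpace X] (μ : Measure X) [IsProbabilityMeasure μ] (T S : X → X),
        MeasurePreserving T μ μ → MeasurePreserving S μ μ → (∀ x, T (S x) = S (T x)) →
        ∀ f g : X → ℂ, MemLp f ⊤ μ → MemLp g ⊤ μ →
          (∀ᵐ x ∂μ, Tendsto (fun N : ℕ => (1 / (N : ℂ)) * ∑ k ∈ Finset.range N,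
              f (T^[Nat.nth (fun n => 1 ≤ n ∧ ω ∈ A n) k] x) *
              g (S^[Nat.nth (fun n => 1 ≤ n ∧ ω ∈ B n) k] x)) atTop
            (𝓝 ((condExp (MeasurableSpace.invariants T) μ f) x *
              (condExp (MeasurableSpace.invariants S) μ g) x))) ∧
          Tendsto (fun N : ℕ => eLpNorm (fun x => (1 / (N : ℂ)) * ∑ k ∈ Finset.range N,
              f (T^[Nat.nth (fun n => 1 ≤ n ∧ ω ∈ A n) k] x) *
              g (S^[Nat.nth (fun n => 1 ≤ n ∧ ω ∈ B n) k] x) -
            (condExp (MeasurableSpace.invariants T) μ f) x *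
              (condExp (MeasurableSpace.invariants S) μ g) x) 2 μ) atTop (𝓝 0) := by
  set A' : ℕ → Set Ω := fun n => if n = 0 then ∅ else A n with hA'
  set B' : ℕ → Set Ω := fun n => if n = 0 then ∅ else B n with hB'
  have hA1 : ∀ n, 1 ≤ n → A' n = A n := fun n hn => by simp [hA', Nat.one_le_iff_ne_zero.1 hn]
  have hB1 : ∀ n, 1 ≤ n → B' n = B n := fun n hn => by simp [hB', Nat.one_le_iff_ne_zero.1 hn]
  have hR : Rnd P a b A' B' := by
    refine ⟨inferInstance, ?_, ?_, ?_, ?_, ?_⟩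
    · intro n
      rcases Nat.eq_zero_or_pos n with h | h
      · subst h; simp [hA']
      · rw [hA1 n h]; exact hA n h
    · intro n
      rcases Nat.eq_zero_or_pos n with h | h
      · subst h; simp [hB']
      · rw [hB1 n h]; exact hB n h
    · intro n h
      rw [hA1 n h]; exact hPA n h
    · intro n h
      rw [hB1 n h]; exact hPB n h
    · have e1 : (fun n => A' (n + 1)) = fun n => A (n + 1) := by
        funext n; exact hA1 _ (by omega)
      have e2 : (fun n => B' (n + 1)) = fun n => B (n + 1) := by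
        funext n; exact hB1 _ (by omega)
      rw [e1, e2]; exact hind
  filter_upwards [good_ae hHC hIS hGR1 hGR2 hMRE Ω P a b A' B' ha ha' hb hb' hR] with ω hG
  have eA : (fun n => 1 ≤ n ∧ n ∈ EA A' ω) = fun n => 1 ≤ n ∧ ω ∈ A n := by
    funext n
    refine propext ⟨fun h => ⟨h.1, ?_⟩, fun h => ⟨h.1, ?_⟩⟩
    · have := h.2
      rw [EA, Set.mem_setOf_eq, hA1 n h.1] at this
      exact this
    · rw [EA, Set.mem_setOf_eq, hA1 n h.1]
      exact h.2
  have eB : (fun n => 1 ≤ n ∧ n ∈ EA B' ω) = fun n => 1 ≤ n ∧ ω ∈ B n := by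
    funext n
    refine propext ⟨fun h => ⟨h.1, ?_⟩, fun h => ⟨h.1, ?_⟩⟩
    · have := h.2
      rw [EA, Set.mem_setOf_eq, hB1 n h.1] at this
      exact this
    · rw [EA, Set.mem_setOf_eq, hB1 n h.1]
      exact h.2
  refine ⟨?_, ?_, ?_⟩
  · have := hG.rE.inf
    rwa [show {n | 1 ≤ n ∧ n ∈ EA A' ω} = {n | 1 ≤ n ∧ ω ∈ A n} from
      congrArg setOf eA] at this
  · have := hG.rF.inf
    rwa [show {n | 1 ≤ n ∧ n ∈ EA B' ω} = {n | 1 ≤ n ∧ ω ∈ B n} from
      congrArg setOf eB] at this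
  · intro X _ μ _ T S hT hS hc f g hf hg
    have := cpx2 hFIN a b (EA A' ω) (EA B' ω) ha ha' hb hb' hG X μ T S f g
      ⟨inferInstance, hT, hS, hc⟩ hf hg
    simp only [avg] at this
    simp only [eA, eB] at this
    exact this

end Pool.Agent.H505RS
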