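import Pool.Agent.H505RS.Defs

/-! (GPR) the good event holds for the actual sequences (helper303) -/

set_option autoImplicit false

noncomputable section

namespace Pool.Agent.H505RS

open scoped BigOperators ENNReal Topology InnerProductSpace
open Finset Filter MeasureTheory ProbabilityTheory

namespace GPR

theorem al_pos {a : ℝ} (h0 : 0 < a) (h1 : a < 1 / 2) : 0 < al a ∧ al a < 1 := by
  unfold al
  have h2 : 0 < 1 - a := by linarith
  exact ⟨div_pos h0 h2, (div_lt_one h2).mpr (by linarith)⟩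

theorem kp_bd {a b : ℝ} (ha0 : 0 < a) (ha : a < 1 / 2) (hb0 : 0 < b) (hb : b < 1 / 2) :
    0 < kp a b ∧ kp a b ≤ 1 / 200 := by
  have h1 : mx a b < 1 := max_lt (al_pos ha0 ha).2 (al_pos hb0 hb).2
  have h2 : 0 < mx a b := lt_max_of_lt_left (al_pos ha0 ha).1
  unfold kp
  constructor <;> linarith

theorem en_mono {E : Set ℕ} (h : {n | 1 ≤ n ∧ n ∈ E}.Infinite) : Monotone (en E) := by
  refine monotone_nat_of_le_succ fun n => ?_
  cases n with
  | zero => exact Nat.zero_le _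
  | succ n => exact ((Nat.nth_strictMono h) (Nat.lt_succ_self n)).le

theorem pw_anti {a : ℝ} (ha : 0 < a) {m n : ℕ} (hm : 1 ≤ m) (h : m ≤ n) : pw a n ≤ pw a m := by
  unfold pw
  exact Real.rpow_le_rpow_of_nonpos (by exact_mod_cast hm) (by exact_mod_cast h) (by linarith)

theorem gaps (s : ℕ → ℕ) (G N : ℕ) (h : ∀ j < N, s (j + 1) ≤ s j + G) (j : ℕ) (hj : j ≤ N) (d : ℕ)
    (hd : d ≤ j) : s j ≤ s (j - d) + d * G := by
  induction d with
  | zero => simp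
  | succ d ih =>
    have h1 := ih (by omega)
    have h2 := h (j - (d + 1)) (by omega)
    have h3 : j - (d + 1) + 1 = j - d := by omega
    rw [h3] at h2
    calc s j ≤ s (j - d) + d * G := h1
      _ ≤ s (j - (d + 1)) + G + d * G := by omega
      _ = s (j - (d + 1)) + (d + 1) * G := by ring

/-- everything for one sequence -/
theorem one (a : ℝ) (E : Set ℕ) (ha0 : 0 < a) (hal : 0 < al a) (hE : Reg a E) (k : ℝ) (hk0 : 0 < k)
    (hk : k ≤ 1 / 200) (μ : ℝ) (hμ : μ ≤ al a) : ∀ᶠ N : ℕ in atTop, 1 ≤ N ∧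
    ∀ j : ℕ, ⌈(N : ℝ) ^ (1 - 10 * k)⌉₊ < j → j ≤ N →
      pw a (en E (j - 1) + 1) ≤ (N : ℝ) ^ (-μ + 11 * k) ∧
      ∑ i ∈ Ioc (en E (j - 1)) (en E (j - 1) + ⌈(N : ℝ) ^ (al a + k)⌉₊), pw a i ≤
        4 * (N : ℝ) ^ (12 * k) ∧
      (∀ m : ℕ, m + 1 ≤ j → ∑ i ∈ Ioc (en E (j - m - 1)) (en E (j - m)), pw a i ≤
        4 * (N : ℝ) ^ (12 * k)) ∧
      (∀ d ≤ j, en E j ≤ en E (j - d) + d * ⌈(N : ℝ) ^ (al a + k)⌉₊) ∧
      en E j ≤ N ^ 4 := by
  filter_upwards [hE.wt k hk0 hk, hE.gapw k hk0, hE.gap k hk0, hE.cube, eventually_ge_atTop 1]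
    with N w g h c hN
  have hN' : (1 : ℝ) ≤ N := by exact_mod_cast hN
  have hNp : (0 : ℝ) < N := by linarith
  refine ⟨hN, fun j hJ hjN => ?_⟩
  have hj1 : 1 ≤ j := by omega
  have hJ' : (N : ℝ) ^ (1 - 10 * k) ≤ ((j - 1 : ℕ) : ℝ) := by
    refine (Nat.le_ceil _).trans ?_
    exact_mod_cast (by omega : ⌈(N : ℝ) ^ (1 - 10 * k)⌉₊ ≤ j - 1)
  have hw := w (j - 1) hJ'
  refine ⟨hw.trans (Real.rpow_le_rpow_of_exponent_le hN' (by linarith)), ?_, ?_, ?_, ?_⟩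
  · set G := ⌈(N : ℝ) ^ (al a + k)⌉₊ with hG
    have h1 : ∀ i ∈ Ioc (en E (j - 1)) (en E (j - 1) + G),
        pw a i ≤ (N : ℝ) ^ (-al a + 11 * k) := by
      intro i hi
      rw [mem_Ioc] at hi
      exact (pw_anti ha0 (by omega) (by omega)).trans hw
    have h2 := sum_le_sum h1
    rw [sum_const, Nat.card_Ioc, nsmul_eq_mul] at h2
    have h3 : en E (j - 1) + G - en E (j - 1) = G := by omega
    rw [h3] at h2
    refine h2.trans ?_
    have h4 : (G : ℝ) ≤ 2 * (N : ℝ) ^ (al a + k) := by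
      have h6 := (Nat.ceil_lt_add_one (Real.rpow_nonneg hNp.le (al a + k))).le
      have h8 : (1 : ℝ) ≤ (N : ℝ) ^ (al a + k) := Real.one_le_rpow hN' (by linarith)
      linarith
    calc (G : ℝ) * (N : ℝ) ^ (-al a + 11 * k)
        ≤ 2 * (N : ℝ) ^ (al a + k) * (N : ℝ) ^ (-al a + 11 * k) :=
          mul_le_mul_of_nonneg_right h4 (Real.rpow_nonneg hNp.le _)
      _ = 2 * ((N : ℝ) ^ (al a + k) * (N : ℝ) ^ (-al a + 11 * k)) := by ring
      _ = 2 * (N : ℝ) ^ (12 * k) := by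
          rw [← Real.rpow_add hNp]
          congr 2
          ring
      _ ≤ 4 * (N : ℝ) ^ (12 * k) :=
          mul_le_mul_of_nonneg_right (by norm_num) (Real.rpow_nonneg hNp.le _)
  · intro m hm
    have h1 := g (j - m - 1) (by omega)
    have h2 : j - m - 1 + 1 = j - m := by omega
    rw [h2] at h1
    have h3 : (N : ℝ) ^ k ≤ (N : ℝ) ^ (12 * k) :=
      Real.rpow_le_rpow_of_exponent_le hN' (by linarith)
    have h4 : 0 ≤ (N : ℝ) ^ (12 * k) := Real.rpow_nonneg hNp.le _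
    linarith
  · intro d hd
    refine gaps (en E) _ N ?_ j hjN d hd
    intro i hi
    have h1 := (h i hi).trans (Nat.le_ceil _)
    have h2 : en E (i + 1) - en E i ≤ ⌈(N : ℝ) ^ (al a + k)⌉₊ := by exact_mod_cast h1
    omega
  · calc en E j ≤ en E N := en_mono hE.inf hjN
      _ ≤ N ^ 3 := c
      _ ≤ N ^ 4 := Nat.pow_le_pow_right hN (by norm_num)

end GPR

theorem t_GPR : S_GPR := by
  intro a b E F ha0 ha hb0 hb hE hF
  obtain ⟨hk0, hk⟩ := GPR.kp_bd ha0 ha hb0 hb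
  filter_upwards [GPR.one a E ha0 (GPR.al_pos ha0 ha).1 hE (kp a b) hk0 hk (mn a b) (min_le_left _ _),
    GPR.one b F hb0 (GPR.al_pos hb0 hb).1 hF (kp a b) hk0 hk (mn a b) (min_le_right _ _)] with N h1 h2
  intro m hm _ j hJ hmj hjN
  obtain ⟨hN, h1⟩ := h1
  obtain ⟨-, h2⟩ := h2
  obtain ⟨a1, a2, a3, a4, a5⟩ := h1 j hJ hjN
  obtain ⟨b1, -, -, b4, b5⟩ := h2 j hJ hjN
  have hGa : 1 ≤ ⌈(N : ℝ) ^ (al a + kp a b)⌉₊ := by
    rw [Nat.one_le_ceil_iff]
    exact Real.rpow_pos_of_pos (by exact_mod_cast hN) _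
  have hGb : 1 ≤ ⌈(N : ℝ) ^ (al b + kp a b)⌉₊ := by
    rw [Nat.one_le_ceil_iff]
    exact Real.rpow_pos_of_pos (by exact_mod_cast hN) _
  refine ⟨⟨hJ, hmj, GPR.en_mono hF.inf ?_, a1, b1, a2, a3 m hmj⟩, ?_, ?_, ?_, a5, b5⟩
  · show j - m ≤ j - 1
    omega
  · have := a4 1 (by omega)
    simpa [par] using this
  · have := a4 (m + 1) hmj
    have h3 : j - (m + 1) = j - m - 1 := by omega
    rw [h3] at this
    unfold UU
    nlinarith
  · have := b4 m (by omega)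
    unfold WW
    nlinarith

end Pool.Agent.H505RS
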