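import Pool.Agent.H505RS.Defs

set_option autoImplicit false

noncomputable section

namespace Pool.Agent.H505RS

open scoped BigOperators ENNReal Topology InnerProductSpace
open Finset Filter MeasureTheory ProbabilityTheory

namespace GR1

def cnt (E : Set ℕ) (L : ℕ) : ℝ := ∑ n ∈ Icc 1 L, E.indicator (fun _ => (1 : ℝ)) n

def PP (a : ℝ) (L : ℕ) : ℝ := ∑ n ∈ Icc 1 L, pw a n

open Classical in
theorem cnt_eq (E : Set ℕ) (L : ℕ) :
    cnt E L = (Nat.count (fun n => 1 ≤ n ∧ n ∈ E) (L + 1) : ℝ) := by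
  unfold cnt
  rw [Nat.count_eq_card_filter_range]
  have h1 : (Finset.filter (fun n => 1 ≤ n ∧ n ∈ E) (range (L + 1))) =
      Finset.filter (fun n => n ∈ E) (Icc 1 L) := by
    ext x
    simp only [Finset.mem_filter, Finset.mem_range, Finset.mem_Icc]
    constructor
    · rintro ⟨h1, h2, h3⟩; exact ⟨⟨h2, by omega⟩, h3⟩
    · rintro ⟨⟨h1, h2⟩, h3⟩; exact ⟨by omega, h1, h3⟩
  rw [h1, Finset.card_filter]
  push_cast
  refine Finset.sum_congr rfl fun n _ => ?_
  by_cases h : n ∈ E <;> simp [h]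

theorem diff (a : ℝ) (E : Set ℕ) (hE : HCv a E) (κ : ℝ) (hκ : 0 < κ) :
    ∀ᶠ L : ℕ in atTop, |cnt E L - PP a L| ≤ (L : ℝ) ^ (1 / 2 + κ) := by
  filter_upwards [hE κ hκ, eventually_ge_atTop 1] with L hL hL1
  have h := hL 0 (by omega)
  have e : ∑ n ∈ Icc 1 L, ((E.indicator (fun _ => (1 : ℝ)) n - pw a n : ℝ) : ℂ) *
      ee (((0 : ℕ) : ℝ) * n / (3 * L)) = ((cnt E L - PP a L : ℝ) : ℂ) := by
    unfold cnt PP
    rw [← Finset.sum_sub_distrib]
    push_cast
    refine Finset.sum_congr rfl fun n _ => ?_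
    simp [ee]
  rw [e, Complex.norm_real, Real.norm_eq_abs] at h
  exact h

theorem pw_nn (a : ℝ) (n : ℕ) : 0 ≤ pw a n := Real.rpow_nonneg (Nat.cast_nonneg _) _

theorem PP_pos (a : ℝ) (L : ℕ) (hL : 1 ≤ L) : 0 < PP a L := by
  unfold PP
  apply Finset.sum_pos
  · intro n hn
    have := (Finset.mem_Icc.1 hn).1
    unfold pw
    exact Real.rpow_pos_of_pos (by exact_mod_cast this) _
  · exact ⟨1, by simp [hL]⟩

end GR1

open GR1 in
theorem t_GR1 : S_SUM → S_GR1 := by
  intro hS a E h0 h1 hE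
  have hS' := hS a h0 (by linarith)
  set κ : ℝ := (1 / 2 - a) / 2 with hκd
  have hκ : 0 < κ := by rw [hκd]; linarith
  have ha1 : 0 < 1 - a := by linarith
  have hd := diff a E hE κ hκ
  -- the comparison function tends to infinity
  have hX : Tendsto (fun L : ℕ => (L : ℝ) ^ (1 - a) / (1 - a)) atTop atTop :=
    ((tendsto_rpow_atTop ha1).comp tendsto_natCast_atTop_atTop).atTop_div_const ha1
  have hinv : Tendsto (fun L : ℕ => ((L : ℝ) ^ (1 - a) / (1 - a)) / PP a L) atTop (𝓝 1) := by
    have := hS'.inv₀ one_ne_zero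
    rw [inv_one] at this
    refine this.congr fun L => ?_
    rw [inv_div]
    rfl
  have hPinf : Tendsto (fun L : ℕ => PP a L) atTop atTop := by
    have h2 := Tendsto.pos_mul_atTop one_pos hS' hX
    refine h2.congr' ?_
    filter_upwards [eventually_ge_atTop 1] with L hL
    have hL0 : 0 < (L : ℝ) ^ (1 - a) / (1 - a) :=
      div_pos (Real.rpow_pos_of_pos (by exact_mod_cast hL) _) ha1
    have e := div_mul_cancel₀ (PP a L) hL0.ne'
    exact e
  have hsm : Tendsto (fun L : ℕ => (L : ℝ) ^ (1 / 2 + κ) / PP a L) atTop (𝓝 0) := by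
    have h3 : Tendsto (fun L : ℕ => (1 - a) * ((L : ℝ) ^ (-κ))) atTop (𝓝 0) := by
      have := ((tendsto_rpow_neg_atTop hκ).comp tendsto_natCast_atTop_atTop).const_mul (1 - a)
      simpa using this
    have h4 := h3.mul hinv
    rw [zero_mul] at h4
    refine h4.congr' ?_
    filter_upwards [eventually_ge_atTop 1] with L hL
    have hL0 : 0 < (L : ℝ) := by exact_mod_cast hL
    have hP := PP_pos a L hL
    have e1 : (L : ℝ) ^ (1 / 2 + κ) = (L : ℝ) ^ (-κ) * (L : ℝ) ^ (1 - a) := by
      rw [← Real.rpow_add hL0]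
      congr 1
      rw [hκd]; ring
    rw [e1]
    field_simp
  have hc1 : Tendsto (fun L : ℕ => cnt E L / PP a L) atTop (𝓝 1) := by
    have h5 : Tendsto (fun L : ℕ => cnt E L / PP a L - 1) atTop (𝓝 0) := by
      refine squeeze_zero_norm' ?_ hsm
      filter_upwards [hd, eventually_ge_atTop 1] with L hL hL1
      have hP := PP_pos a L hL1
      have e : cnt E L / PP a L - 1 = (cnt E L - PP a L) / PP a L := by
        field_simp
      rw [e, Real.norm_eq_abs, abs_div, abs_of_pos hP]
      exact div_le_div_of_nonneg_right hL hP.le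
    have := h5.add_const 1
    simpa using this
  have hcinf : Tendsto (fun L : ℕ => cnt E L) atTop atTop := by
    have h2 := Tendsto.pos_mul_atTop one_pos hc1 hPinf
    refine h2.congr' ?_
    filter_upwards [eventually_ge_atTop 1] with L hL
    exact div_mul_cancel₀ _ (PP_pos a L hL).ne'
  have hinf : {n | 1 ≤ n ∧ n ∈ E}.Infinite := by
    classical
    intro hfin
    have hb : ∀ L : ℕ, cnt E L ≤ (hfin.toFinset.card : ℝ) := by
      intro L
      rw [cnt_eq, Nat.count_eq_card_filter_range]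
      have : (Finset.filter (fun n => 1 ≤ n ∧ n ∈ E) (range (L + 1))).card ≤
          hfin.toFinset.card := by
        apply Finset.card_le_card
        intro x hx
        rw [Set.Finite.mem_toFinset]
        exact (Finset.mem_filter.1 hx).2
      exact_mod_cast this
    obtain ⟨L, hL⟩ := (hcinf.eventually_gt_atTop (hfin.toFinset.card : ℝ)).exists
    exact absurd (hb L) (not_le.2 hL)
  refine ⟨hinf, ?_⟩
  have hen : Tendsto (fun N : ℕ => en E N) atTop atTop := by
    have hm : StrictMono (Nat.nth (fun n => 1 ≤ n ∧ n ∈ E)) := Nat.nth_strictMono hinf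
    have h6 : Tendsto (fun N : ℕ => en E (N + 1)) atTop atTop := by
      exact hm.tendsto_atTop
    exact (tendsto_add_atTop_iff_nat 1).1 h6
  have hcinv : Tendsto (fun L : ℕ => PP a L / cnt E L) atTop (𝓝 1) := by
    have := hc1.inv₀ one_ne_zero
    rw [inv_one] at this
    refine this.congr fun L => ?_
    rw [inv_div]
  have hcomp := hcinv.comp hen
  refine hcomp.congr' ?_
  filter_upwards [eventually_ge_atTop 1] with N hN
  obtain ⟨k, rfl⟩ : ∃ k, N = k + 1 := ⟨N - 1, by omega⟩
  have e : cnt E (en E (k + 1)) = ((k + 1 : ℕ) : ℝ) := by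
    classical
    rw [cnt_eq]
    congr 1
    convert Nat.count_nth_succ_of_infinite hinf k
    rfl
  show PP a (en E (k + 1)) / cnt E (en E (k + 1)) = _
  rw [e]
  rfl

end Pool.Agent.H505RS
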