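import Pool.Agent.H505RS.Defs

set_option autoImplicit false

noncomputable section

namespace Pool.Agent.H505RS

open scoped BigOperators ENNReal Topology InnerProductSpace
open Finset Filter MeasureTheory ProbabilityTheory

namespace GR2

theorem en_lt (E : Set ℕ) (hinf : {n | 1 ≤ n ∧ n ∈ E}.Infinite) (k : ℕ) :
    en E k < en E (k + 1) := by
  cases k with
  | zero =>
    have h : 1 ≤ Nat.nth (fun n => 1 ≤ n ∧ n ∈ E) 0 ∧ Nat.nth (fun n => 1 ≤ n ∧ n ∈ E) 0 ∈ E :=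
      Nat.nth_mem_of_infinite (p := fun n => 1 ≤ n ∧ n ∈ E) hinf 0
    show 0 < Nat.nth (fun n => 1 ≤ n ∧ n ∈ E) 0
    omega
  | succ k =>
    exact Nat.nth_strictMono (p := fun n => 1 ≤ n ∧ n ∈ E) hinf (Nat.lt_succ_self k)

theorem en_sm (E : Set ℕ) (hinf : {n | 1 ≤ n ∧ n ∈ E}.Infinite) : StrictMono (en E) :=
  strictMono_nat_of_lt_succ (en_lt E hinf)

theorem en_gap (E : Set ℕ) (hinf : {n | 1 ≤ n ∧ n ∈ E}.Infinite) (k n : ℕ)
    (h1 : en E k < n) (h2 : n < en E (k + 1)) : n ∉ E := by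
  classical
  intro hn
  have hp : (fun n => 1 ≤ n ∧ n ∈ E) n := ⟨by omega, hn⟩
  have hc : Nat.nth (fun n => 1 ≤ n ∧ n ∈ E) (Nat.count (fun n => 1 ≤ n ∧ n ∈ E) n) = n :=
    Nat.nth_count hp
  have hsm := Nat.nth_strictMono (p := fun n => 1 ≤ n ∧ n ∈ E) hinf
  set c := Nat.count (fun n => 1 ≤ n ∧ n ∈ E) n
  have h3 : c < k := by
    have : Nat.nth (fun n => 1 ≤ n ∧ n ∈ E) c < Nat.nth (fun n => 1 ≤ n ∧ n ∈ E) k := by
      rw [hc]; exact h2
    exact hsm.lt_iff_lt.1 this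
  cases k with
  | zero => omega
  | succ k =>
    have : Nat.nth (fun n => 1 ≤ n ∧ n ∈ E) k < Nat.nth (fun n => 1 ≤ n ∧ n ∈ E) c := by
      rw [hc]; exact h1
    have := hsm.lt_iff_lt.1 this
    omega

theorem ev_ge (c κ : ℝ) (hκ : 0 < κ) : ∀ᶠ N : ℕ in atTop, c ≤ (N : ℝ) ^ κ :=
  ((tendsto_rpow_atTop hκ).comp tendsto_natCast_atTop_atTop).eventually_ge_atTop c

theorem pw_le_one (a : ℝ) (ha : 0 < a) (n : ℕ) : pw a n ≤ 1 := by
  unfold pw
  rcases Nat.eq_zero_or_pos n with h | h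
  · subst h
    rw [Nat.cast_zero, Real.zero_rpow (by linarith : -a ≠ 0)]
    norm_num
  · exact Real.rpow_le_one_of_one_le_of_nonpos (by exact_mod_cast h) (by linarith)

theorem pw_nonneg (a : ℝ) (n : ℕ) : 0 ≤ pw a n := Real.rpow_nonneg (Nat.cast_nonneg n) _

theorem lim (a : ℝ) (E : Set ℕ) (ha : 0 < a) (ha2 : a < 1 / 2) (hSUM : S_SUM)
    (hinf : {n | 1 ≤ n ∧ n ∈ E}.Infinite)
    (hm : Tendsto (fun N : ℕ => (∑ n ∈ Icc 1 (en E N), pw a n) / (N : ℝ)) atTop (𝓝 1)) :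
    Tendsto (fun N : ℕ => ((en E N : ℝ) ^ (1 - a) / (1 - a)) / (N : ℝ)) atTop (𝓝 1) := by
  have hs : Tendsto (en E) atTop atTop := (en_sm E hinf).tendsto_atTop
  have h1 := (hSUM a ha (by linarith)).comp hs
  have h2 := hm.div h1 one_ne_zero
  rw [div_one] at h2
  refine h2.congr' ?_
  filter_upwards [eventually_ge_atTop 1] with N hN
  have hsN : N ≤ en E N := (en_sm E hinf).le_apply
  have hs1 : 1 ≤ en E N := hN.trans hsN
  have hS : 0 < ∑ n ∈ Icc 1 (en E N), pw a n := by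
    refine Finset.sum_pos (fun n hn => ?_) ⟨1, Finset.mem_Icc.2 ⟨le_rfl, hs1⟩⟩
    have : 0 < n := (Finset.mem_Icc.1 hn).1
    unfold pw
    positivity
  have hb : 0 < 1 - a := by linarith
  have hsp : (0 : ℝ) < (en E N : ℝ) ^ (1 - a) :=
    Real.rpow_pos_of_pos (by exact_mod_cast hs1) _
  have hNp : (0 : ℝ) < N := by exact_mod_cast hN
  show (∑ n ∈ Icc 1 (en E N), pw a n) / (N : ℝ) /
    ((∑ n ∈ Icc 1 (en E N), pw a n) / ((en E N : ℝ) ^ (1 - a) / (1 - a))) = _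
  field_simp

theorem bounds (a : ℝ) (E : Set ℕ) (ha : 0 < a) (ha2 : a < 1 / 2) (hSUM : S_SUM)
    (hinf : {n | 1 ≤ n ∧ n ∈ E}.Infinite)
    (hm : Tendsto (fun N : ℕ => (∑ n ∈ Icc 1 (en E N), pw a n) / (N : ℝ)) atTop (𝓝 1)) :
    ∀ᶠ N : ℕ in atTop, (1 - a) / 2 * N ≤ (en E N : ℝ) ^ (1 - a) ∧
      (en E N : ℝ) ^ (1 - a) ≤ 2 * N := by
  have h := lim a E ha ha2 hSUM hinf hm
  have e1 := h.eventually (lt_mem_nhds (show (1 / 2 : ℝ) < 1 by norm_num))
  have e2 := h.eventually (gt_mem_nhds (show (1 : ℝ) < 2 by norm_num))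
  filter_upwards [e1, e2, eventually_ge_atTop 1] with N h1 h2 hN
  have hNp : (0 : ℝ) < N := by exact_mod_cast hN
  have hb : 0 < 1 - a := by linarith
  rw [lt_div_iff₀ hNp, lt_div_iff₀ hb] at h1
  rw [div_lt_iff₀ hNp, div_lt_iff₀ hb] at h2
  constructor
  · nlinarith
  · nlinarith

theorem pw_eq (a : ℝ) (ha2 : a < 1 / 2) (n : ℕ) :
    pw a n = ((n : ℝ) ^ (1 - a)) ^ (-al a) := by
  unfold pw al
  rw [← Real.rpow_mul (Nat.cast_nonneg n)]
  congr 1
  have : (1 - a) ≠ 0 := by linarith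
  field_simp

end GR2

theorem t_GR2 : S_SUM → S_GR2 := by
  intro hSUM a E ha ha2 hinf hm hIS
  have hB := GR2.bounds a E ha ha2 hSUM hinf hm
  have hsm := GR2.en_sm E hinf
  have hb : 0 < 1 - a := by linarith
  have hal0 : 0 < al a := div_pos ha hb
  have hal1 : al a < 1 := by
    unfold al
    rw [div_lt_one hb]
    linarith
  have cube : ∀ᶠ N : ℕ in atTop, en E N ≤ N ^ 3 := by
    filter_upwards [hB, eventually_ge_atTop 4] with N hN hN4
    have hNp : (4 : ℝ) ≤ N := by exact_mod_cast hN4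
    have h1 : (en E N : ℝ) ≤ (2 * N) ^ (1 - a)⁻¹ := by
      have := Real.rpow_le_rpow (Real.rpow_nonneg (Nat.cast_nonneg _) _) hN.2
        (inv_nonneg.2 hb.le)
      rwa [Real.rpow_rpow_inv (Nat.cast_nonneg _) hb.ne'] at this
    have h2 : (2 * N : ℝ) ^ (1 - a)⁻¹ ≤ (2 * N : ℝ) ^ (2 : ℝ) := by
      refine Real.rpow_le_rpow_of_exponent_le (by linarith) ?_
      rw [inv_le_comm₀ hb (by norm_num)]
      linarith
    have h3 : (2 * N : ℝ) ^ (2 : ℝ) = 4 * (N : ℝ) ^ 2 := by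
      rw [Real.rpow_two]
      ring
    have h4 : (en E N : ℝ) ≤ (N : ℝ) ^ 3 := by
      rw [h3] at h2
      have : 4 * (N : ℝ) ^ 2 ≤ (N : ℝ) ^ 3 := by
        nlinarith [sq_nonneg (N : ℝ)]
      linarith
    exact_mod_cast h4
  have gapw : ∀ κ : ℝ, 0 < κ → ∀ᶠ N : ℕ in atTop, ∀ j < N,
      ∑ i ∈ Ioc (en E j) (en E (j + 1)), pw a i ≤ (N : ℝ) ^ κ := by
    intro κ hκ
    filter_upwards [cube, hIS (κ / 2) (by linarith), GR2.ev_ge 2 (κ / 2) (by linarith),
      eventually_ge_atTop 1] with N hc hI h2 hN1 j hj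
    have hlt := GR2.en_lt E hinf j
    have hx : en E j ≤ en E (j + 1) - 1 := by omega
    have hle : en E (j + 1) ≤ en E N := hsm.monotone hj
    have h34 : N ^ 3 ≤ N ^ 4 := Nat.pow_le_pow_right hN1 (by norm_num)
    have hy : en E (j + 1) - 1 ≤ N ^ 4 := by omega
    have hsum : ∑ i ∈ Ioc (en E j) (en E (j + 1) - 1), pw a i < (N : ℝ) ^ (κ / 2) := by
      by_contra hcon
      push Not at hcon
      obtain ⟨n, hn, hnE⟩ := hI _ _ hx hy hcon
      rw [Finset.mem_Ioc] at hn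
      exact GR2.en_gap E hinf j n hn.1 (by omega) hnE
    have hsplit : ∑ i ∈ Ioc (en E j) (en E (j + 1)), pw a i =
        ∑ i ∈ Ioc (en E j) (en E (j + 1) - 1), pw a i + pw a (en E (j + 1)) := by
      have e : en E (j + 1) = (en E (j + 1) - 1) + 1 := by omega
      conv_lhs => rw [e]
      rw [Finset.sum_Ioc_succ_top hx, ← e]
    rw [hsplit]
    have h1 := GR2.pw_le_one a ha (en E (j + 1))
    have hκ2 : (N : ℝ) ^ κ = (N : ℝ) ^ (κ / 2) * (N : ℝ) ^ (κ / 2) := by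
      rw [← Real.rpow_add (by exact_mod_cast hN1)]
      congr 1
      ring
    rw [hκ2]
    nlinarith
  refine ⟨hinf, cube, ?_, gapw, ?_, hm⟩
  · intro κ hκ hκ2
    obtain ⟨N0, hN0⟩ := eventually_atTop.1 hB
    have hexp : 0 < 1 - 10 * κ := by linarith
    filter_upwards [GR2.ev_ge (max (N0 : ℝ) 1) (1 - 10 * κ) hexp,
      GR2.ev_ge (((1 - a) / 2) ^ (-al a)) κ hκ, eventually_ge_atTop 1] with N h1 h2 hN j hj
    have hj0 : (N0 : ℝ) ≤ j := (le_max_left _ _).trans (h1.trans hj)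
    have hj1 : (1 : ℝ) ≤ j := (le_max_right _ _).trans (h1.trans hj)
    have hNp : (0 : ℝ) < N := by exact_mod_cast hN
    have hB' := (hN0 j (by exact_mod_cast hj0)).1
    have hpos : (0 : ℝ) < (1 - a) / 2 * j := by positivity
    have s1 : pw a (en E j + 1) ≤ pw a (en E j) := by
      unfold pw
      have hj' : 1 ≤ j := by exact_mod_cast hj1
      have hp : 0 < en E j := lt_of_lt_of_le hj' hsm.le_apply
      refine Real.rpow_le_rpow_of_nonpos (by exact_mod_cast hp) ?_ (by linarith)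
      push_cast
      linarith
    have s2 : pw a (en E j) ≤ ((1 - a) / 2 * j) ^ (-al a) := by
      rw [GR2.pw_eq a ha2]
      exact Real.rpow_le_rpow_of_nonpos hpos hB' (by linarith)
    have s3 : ((1 - a) / 2 * (j : ℝ)) ^ (-al a) =
        ((1 - a) / 2) ^ (-al a) * (j : ℝ) ^ (-al a) :=
      Real.mul_rpow (by positivity) (by positivity)
    have s4 : (j : ℝ) ^ (-al a) ≤ ((N : ℝ) ^ (1 - 10 * κ)) ^ (-al a) :=
      Real.rpow_le_rpow_of_nonpos (Real.rpow_pos_of_pos hNp _) hj (by linarith)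
    have s5 : ((N : ℝ) ^ (1 - 10 * κ)) ^ (-al a) = (N : ℝ) ^ (-al a + 10 * κ * al a) := by
      rw [← Real.rpow_mul hNp.le]
      congr 1
      ring
    have s6 : (N : ℝ) ^ κ * (N : ℝ) ^ (-al a + 10 * κ * al a) ≤ (N : ℝ) ^ (-al a + 11 * κ) := by
      rw [← Real.rpow_add hNp]
      refine Real.rpow_le_rpow_of_exponent_le (by exact_mod_cast hN) ?_
      nlinarith
    calc pw a (en E j + 1) ≤ ((1 - a) / 2) ^ (-al a) * (j : ℝ) ^ (-al a) := by
          rw [← s3]; exact s1.trans s2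
      _ ≤ (N : ℝ) ^ κ * (N : ℝ) ^ (-al a + 10 * κ * al a) := by
          refine mul_le_mul h2 (by rw [← s5]; exact s4) (by positivity) (by positivity)
      _ ≤ _ := s6
  · intro κ hκ
    filter_upwards [hB, gapw (κ / 2) (by linarith), GR2.ev_ge (2 ^ al a) (κ / 2) (by linarith),
      eventually_ge_atTop 1] with N hBN hg h2 hN j hj
    have hNp : (0 : ℝ) < N := by exact_mod_cast hN
    have hlt := GR2.en_lt E hinf j
    have hle : en E (j + 1) ≤ en E N := hsm.monotone hj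
    have hsN : 0 < en E N := lt_of_lt_of_le hN hsm.le_apply
    have hlow : (2 * (N : ℝ)) ^ (-al a) ≤ pw a (en E N) := by
      rw [GR2.pw_eq a ha2]
      exact Real.rpow_le_rpow_of_nonpos (Real.rpow_pos_of_pos (by exact_mod_cast hsN) _) hBN.2
        (by linarith)
    have hsum : ((en E (j + 1) - en E j : ℕ) : ℝ) * (2 * (N : ℝ)) ^ (-al a) ≤
        ∑ i ∈ Ioc (en E j) (en E (j + 1)), pw a i := by
      rw [← Nat.card_Ioc, ← nsmul_eq_mul]
      refine Finset.card_nsmul_le_sum _ _ _ fun i hi => ?_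
      rw [Finset.mem_Ioc] at hi
      refine hlow.trans ?_
      unfold pw
      refine Real.rpow_le_rpow_of_nonpos ?_ ?_ (by linarith)
      · exact_mod_cast (by omega : 0 < i)
      · exact_mod_cast hi.2.trans hle
    have h3 := hsum.trans (hg j hj)
    have h4 : (2 * (N : ℝ)) ^ (-al a) * ((2 : ℝ) ^ al a * (N : ℝ) ^ al a) = 1 := by
      rw [← Real.mul_rpow (by norm_num) hNp.le, ← Real.rpow_add (by positivity)]
      simp
    have h5 : (0 : ℝ) < (2 : ℝ) ^ al a * (N : ℝ) ^ al a := by positivity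
    calc ((en E (j + 1) - en E j : ℕ) : ℝ)
        = ((en E (j + 1) - en E j : ℕ) : ℝ) * (2 * (N : ℝ)) ^ (-al a) *
          ((2 : ℝ) ^ al a * (N : ℝ) ^ al a) := by rw [mul_assoc, h4, mul_one]
      _ ≤ (N : ℝ) ^ (κ / 2) * ((2 : ℝ) ^ al a * (N : ℝ) ^ al a) :=
          mul_le_mul_of_nonneg_right h3 h5.le
      _ ≤ (N : ℝ) ^ (κ / 2) * ((N : ℝ) ^ (κ / 2) * (N : ℝ) ^ al a) := by
          refine mul_le_mul_of_nonneg_left (mul_le_mul_of_nonneg_right h2 ?_) ?_ <;> positivity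
      _ = (N : ℝ) ^ (al a + κ) := by
          rw [← Real.rpow_add hNp, ← Real.rpow_add hNp]
          congr 1
          ring

end Pool.Agent.H505RS
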