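import Pool.Agent.H505RS.Defs

/-! HC: Hoeffding discrepancy bound. -/

set_option autoImplicit false

noncomputable section

namespace Pool.Agent.H505RS

open scoped BigOperators ENNReal Topology InnerProductSpace
open Finset Filter MeasureTheory ProbabilityTheory

universe u v

namespace HC

theorem tail {Ω : Type v} [MeasurableSpace Ω] (P : Measure Ω) (a : ℝ) (A : ℕ → Set Ω)
    (h : Rn1 P a A) (c : ℕ → ℝ) (hc : ∀ n, |c n| ≤ 1) (L : ℕ) (t : ℝ) (ht : 0 ≤ t) :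
    P {ω | t ≤ ∑ n ∈ Icc 1 L, ((EA A ω).indicator (fun _ => (1 : ℝ)) n - pw a n) * c n} ≤
      ENNReal.ofReal (Real.exp (-t ^ 2 / (2 * L))) := by
  have hprob := h.prob
  have h0 : iIndepFun (fun n => (A (n + 1)).indicator fun _ω => (1 : ℝ)) P :=
    h.ind.iIndepFun_indicator
  have h1 := h0.comp (fun j x => x * c (j + 1) - pw a (j + 1) * c (j + 1))
    (fun j => by fun_prop)
  have hsub : ∀ j, HasSubgaussianMGF ((fun x => x * c (j + 1) - pw a (j + 1) * c (j + 1)) ∘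
      ((A (j + 1)).indicator fun _ω => (1 : ℝ))) 1 P := by
    intro j
    have hm : Measurable (fun ω => (A (j + 1)).indicator (fun _ω => (1 : ℝ)) ω * c (j + 1)) :=
      (measurable_const.indicator (h.mA (j + 1))).mul_const _
    have hb : ∀ᵐ ω ∂P, (A (j + 1)).indicator (fun _ω => (1 : ℝ)) ω * c (j + 1) ∈
        Set.Icc (-1 : ℝ) 1 := by
      refine Eventually.of_forall fun ω => ?_
      have h2 := abs_le.1 (hc (j + 1))
      by_cases hω : ω ∈ A (j + 1)
      · rw [Set.indicator_of_mem hω, one_mul]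
        exact ⟨h2.1, h2.2⟩
      · rw [Set.indicator_of_notMem hω, zero_mul]
        exact ⟨by norm_num, by norm_num⟩
    have h3 := hasSubgaussianMGF_of_mem_Icc hm.aemeasurable hb
    have h4 : P[fun ω => (A (j + 1)).indicator (fun _ω => (1 : ℝ)) ω * c (j + 1)] =
        pw a (j + 1) * c (j + 1) := by
      rw [integral_mul_const, integral_indicator_const _ (h.mA (j + 1)), Measure.real,
        h.pA (j + 1) (by omega), ENNReal.toReal_ofReal (by unfold pw; positivity)]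
      simp
    have h5 : ((‖(1 : ℝ) - (-1)‖₊ / 2) ^ 2 : NNReal) = 1 := by
      have : ‖(1 : ℝ) - (-1)‖₊ = 2 := by
        rw [← NNReal.coe_inj]
        simp
        norm_num
      rw [this]
      norm_num
    rw [h4, h5] at h3
    exact h3
  have h6 := HasSubgaussianMGF.measure_sum_range_ge_le_of_iIndepFun (n := L) h1
    (fun i _ => hsub i) ht
  have h7 : {ω | t ≤ ∑ n ∈ Icc 1 L, ((EA A ω).indicator (fun _ => (1 : ℝ)) n - pw a n) * c n} =
      {ω | t ≤ ∑ i ∈ range L, ((fun x => x * c (i + 1) - pw a (i + 1) * c (i + 1)) ∘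
      ((A (i + 1)).indicator fun _ω => (1 : ℝ))) ω} := by
    ext ω
    simp only [Set.mem_setOf_eq, Function.comp]
    have h8 : ∑ n ∈ Icc 1 L, ((EA A ω).indicator (fun _ => (1 : ℝ)) n - pw a n) * c n =
        ∑ i ∈ range L, ((A (i + 1)).indicator (fun _ω => (1 : ℝ)) ω * c (i + 1) -
          pw a (i + 1) * c (i + 1)) := by
      rw [Finset.range_eq_Ico, Finset.sum_Ico_add' (fun i => (A i).indicator (fun _ω => (1 : ℝ)) ω *
        c i - pw a i * c i) 0 L 1]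
      have h9 : Ico (0 + 1) (L + 1) = Icc 1 L := by
        ext i
        simp only [mem_Ico, mem_Icc]
        omega
      rw [h9]
      refine Finset.sum_congr rfl fun n _ => ?_
      have h10 : (EA A ω).indicator (fun _ => (1 : ℝ)) n = (A n).indicator (fun _ω => (1 : ℝ)) ω := by
        by_cases hn : ω ∈ A n
        · rw [Set.indicator_of_mem hn, Set.indicator_of_mem (show n ∈ EA A ω from hn)]
        · rw [Set.indicator_of_notMem hn, Set.indicator_of_notMem (show n ∉ EA A ω from hn)]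
      rw [h10]
      ring
    rw [h8]
  rw [h7, ← ENNReal.ofReal_toReal (measure_ne_top P _)]
  refine ENNReal.ofReal_le_ofReal ?_
  simpa [Measure.real] using h6

/-- a complex number of norm `> T` has a large coordinate -/
theorem coord {z : ℂ} {T : ℝ} (h : T < ‖z‖) :
    T / 2 ≤ z.re ∨ T / 2 ≤ -z.re ∨ T / 2 ≤ z.im ∨ T / 2 ≤ -z.im := by
  by_contra hcon
  push Not at hcon
  obtain ⟨h1, h2, h3, h4⟩ := hcon
  have h5 : |z.re| < T / 2 := abs_lt.2 ⟨by linarith, h1⟩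
  have h6 : |z.im| < T / 2 := abs_lt.2 ⟨by linarith, h3⟩
  have := Complex.norm_le_abs_re_add_abs_im z
  linarith

theorem ee_norm (x : ℝ) : ‖ee x‖ = 1 := by
  unfold ee
  have : 2 * (Real.pi : ℂ) * Complex.I * (x : ℂ) = ((2 * Real.pi * x : ℝ) : ℂ) * Complex.I := by
    push_cast
    ring
  rw [this, Complex.norm_exp_ofReal_mul_I]

theorem tailC {Ω : Type v} [MeasurableSpace Ω] (P : Measure Ω) (a : ℝ) (A : ℕ → Set Ω)
    (h : Rn1 P a A) (L k : ℕ) (T : ℝ) (hT : 0 ≤ T) :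
    P {ω | T < ‖∑ n ∈ Icc 1 L, (((EA A ω).indicator (fun _ => (1 : ℝ)) n - pw a n : ℝ) : ℂ) *
      ee ((k : ℝ) * n / (3 * L))‖} ≤ 4 * ENNReal.ofReal (Real.exp (-(T / 2) ^ 2 / (2 * L))) := by
  set z : ℕ → ℂ := fun n => ee ((k : ℝ) * n / (3 * L)) with hz
  have hz1 : ∀ n, ‖z n‖ = 1 := fun n => ee_norm _
  have hre : ∀ n, |(z n).re| ≤ 1 := fun n => (Complex.abs_re_le_norm _).trans (hz1 n).le
  have him : ∀ n, |(z n).im| ≤ 1 := fun n => (Complex.abs_im_le_norm _).trans (hz1 n).le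
  have hT2 : 0 ≤ T / 2 := by linarith
  have t1 := tail P a A h (fun n => (z n).re) hre L (T / 2) hT2
  have t2 := tail P a A h (fun n => -(z n).re) (fun n => by rw [abs_neg]; exact hre n) L (T / 2) hT2
  have t3 := tail P a A h (fun n => (z n).im) him L (T / 2) hT2
  have t4 := tail P a A h (fun n => -(z n).im) (fun n => by rw [abs_neg]; exact him n) L (T / 2) hT2
  set X : Ω → ℕ → ℝ := fun ω n => (EA A ω).indicator (fun _ => (1 : ℝ)) n - pw a n with hX
  have hsub : {ω | T < ‖∑ n ∈ Icc 1 L, ((X ω n : ℝ) : ℂ) * z n‖} ⊆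
      ({ω | T / 2 ≤ ∑ n ∈ Icc 1 L, X ω n * (z n).re} ∪
      {ω | T / 2 ≤ ∑ n ∈ Icc 1 L, X ω n * (-(z n).re)}) ∪
      ({ω | T / 2 ≤ ∑ n ∈ Icc 1 L, X ω n * (z n).im} ∪
      {ω | T / 2 ≤ ∑ n ∈ Icc 1 L, X ω n * (-(z n).im)}) := by
    intro ω hω
    have h1 : (∑ n ∈ Icc 1 L, ((X ω n : ℝ) : ℂ) * z n).re = ∑ n ∈ Icc 1 L, X ω n * (z n).re := by
      rw [Complex.re_sum]
      exact Finset.sum_congr rfl fun n _ => by rw [Complex.re_ofReal_mul]
    have h2 : (∑ n ∈ Icc 1 L, ((X ω n : ℝ) : ℂ) * z n).im = ∑ n ∈ Icc 1 L, X ω n * (z n).im := by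
      rw [Complex.im_sum]
      exact Finset.sum_congr rfl fun n _ => by rw [Complex.im_ofReal_mul]
    have h3 := coord hω
    rw [h1, h2] at h3
    have h4 : ∑ n ∈ Icc 1 L, X ω n * (-(z n).re) = -∑ n ∈ Icc 1 L, X ω n * (z n).re := by
      rw [← Finset.sum_neg_distrib]
      exact Finset.sum_congr rfl fun n _ => by ring
    have h5 : ∑ n ∈ Icc 1 L, X ω n * (-(z n).im) = -∑ n ∈ Icc 1 L, X ω n * (z n).im := by
      rw [← Finset.sum_neg_distrib]
      exact Finset.sum_congr rfl fun n _ => by ring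
    simp only [Set.mem_union, Set.mem_setOf_eq]
    rw [h4, h5]
    tauto
  refine (measure_mono hsub).trans ?_
  refine (measure_union_le _ _).trans ?_
  refine (add_le_add (measure_union_le _ _) (measure_union_le _ _)).trans ?_
  refine (add_le_add (add_le_add t1 t2) (add_le_add t3 t4)).trans (le_of_eq ?_)
  ring

theorem summ (κ : ℝ) (hκ : 0 < κ) :
    Summable fun L : ℕ => (12 * L : ℝ) * Real.exp (-(((L : ℝ) ^ (1 / 2 + κ)) / 2) ^ 2 / (2 * L)) := by
  obtain ⟨k, hk⟩ := exists_nat_ge (3 / (2 * κ))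
  have hk' : 3 ≤ 2 * κ * k := by
    rw [div_le_iff₀ (by linarith)] at hk
    linarith
  have hg : Summable fun L : ℕ => (12 * (k.factorial * 8 ^ k) : ℝ) * (1 / (L : ℝ) ^ 2) :=
    (Real.summable_one_div_nat_pow.2 (by norm_num)).mul_left _
  refine Summable.of_norm_bounded_eventually_nat hg ?_
  filter_upwards [eventually_ge_atTop 1] with L hL
  have hL1 : (1 : ℝ) ≤ L := by exact_mod_cast hL
  have hL0 : (0 : ℝ) < L := by linarith
  rw [Real.norm_eq_abs, abs_of_nonneg (by positivity)]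
  have hx : 0 < (L : ℝ) ^ (2 * κ) := Real.rpow_pos_of_pos hL0 _
  have he : -(((L : ℝ) ^ (1 / 2 + κ)) / 2) ^ 2 / (2 * L) = -((L : ℝ) ^ (2 * κ) / 8) := by
    have h1 : ((L : ℝ) ^ (1 / 2 + κ)) ^ 2 = L * (L : ℝ) ^ (2 * κ) := by
      rw [← Real.rpow_natCast ((L : ℝ) ^ (1 / 2 + κ)) 2, ← Real.rpow_mul hL0.le]
      nth_rewrite 2 [← Real.rpow_one (L : ℝ)]
      rw [← Real.rpow_add hL0]
      congr 1
      push_cast
      ring
    rw [div_pow, h1]
    field_simp
    ring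
  rw [he]
  have h1 : ((L : ℝ) ^ (2 * κ) / 8) ^ k / k.factorial ≤ Real.exp ((L : ℝ) ^ (2 * κ) / 8) :=
    Real.pow_div_factorial_le_exp _ (by positivity) k
  have h2 : (L : ℝ) ^ 3 ≤ ((L : ℝ) ^ (2 * κ)) ^ k := by
    rw [← Real.rpow_natCast ((L : ℝ) ^ (2 * κ)) k, ← Real.rpow_mul hL0.le, ← Real.rpow_natCast]
    exact Real.rpow_le_rpow_of_exponent_le hL1 (by exact_mod_cast hk')
  have hf : (0 : ℝ) < k.factorial := by exact_mod_cast k.factorial_pos
  have h3 : Real.exp (-((L : ℝ) ^ (2 * κ) / 8)) ≤ k.factorial * 8 ^ k / (L : ℝ) ^ 3 := by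
    rw [Real.exp_neg, inv_eq_one_div, div_le_div_iff₀ (Real.exp_pos _) (by positivity)]
    have h4 : (L : ℝ) ^ 3 / 8 ^ k / k.factorial ≤ Real.exp ((L : ℝ) ^ (2 * κ) / 8) := by
      refine le_trans ?_ h1
      rw [div_pow]
      exact div_le_div_of_nonneg_right (div_le_div_of_nonneg_right h2 (by positivity)) hf.le
    rw [div_div, div_le_iff₀ (by positivity)] at h4
    linarith
  calc (12 * L : ℝ) * Real.exp (-((L : ℝ) ^ (2 * κ) / 8))
      ≤ (12 * L : ℝ) * (k.factorial * 8 ^ k / (L : ℝ) ^ 3) :=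
        mul_le_mul_of_nonneg_left h3 (by positivity)
    _ = (12 * (k.factorial * 8 ^ k) : ℝ) * (1 / (L : ℝ) ^ 2) := by
        field_simp

theorem fix {Ω : Type v} [MeasurableSpace Ω] (P : Measure Ω) (a : ℝ) (A : ℕ → Set Ω)
    (h : Rn1 P a A) (κ : ℝ) (hκ : 0 < κ) :
    ∀ᵐ ω ∂P, ∀ᶠ L : ℕ in atTop, ∀ k : ℕ, k < 3 * L →
    ‖∑ n ∈ Icc 1 L, (((EA A ω).indicator (fun _ => (1 : ℝ)) n - pw a n : ℝ) : ℂ) *
      ee ((k : ℝ) * n / (3 * L))‖ ≤ (L : ℝ) ^ (1 / 2 + κ) := by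
  have hprob := h.prob
  let Bad : ℕ → Set Ω := fun L => ⋃ k ∈ range (3 * L),
    {ω | (L : ℝ) ^ (1 / 2 + κ) < ‖∑ n ∈ Icc 1 L,
      (((EA A ω).indicator (fun _ => (1 : ℝ)) n - pw a n : ℝ) : ℂ) * ee ((k : ℝ) * n / (3 * L))‖}
  have hBad : ∀ L : ℕ, P (Bad L) ≤ ENNReal.ofReal
      ((12 * L : ℝ) * Real.exp (-(((L : ℝ) ^ (1 / 2 + κ)) / 2) ^ 2 / (2 * L))) := by
    intro L
    have h1 : P (Bad L) ≤ ∑ k ∈ range (3 * L),
        4 * ENNReal.ofReal (Real.exp (-(((L : ℝ) ^ (1 / 2 + κ)) / 2) ^ 2 / (2 * L))) := by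
      refine (measure_biUnion_finset_le _ _).trans (Finset.sum_le_sum fun k _ => ?_)
      exact tailC P a A h L k _ (by positivity)
    refine h1.trans (le_of_eq ?_)
    rw [Finset.sum_const, card_range, nsmul_eq_mul, ENNReal.ofReal_mul (by positivity), ← mul_assoc]
    congr 1
    rw [ENNReal.ofReal_mul (by norm_num), ENNReal.ofReal_natCast]
    push_cast
    have : ENNReal.ofReal 12 = 12 := by simp
    rw [this]
    ring
  have hfin : ∑' L, P (Bad L) ≠ ⊤ := by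
    refine ne_top_of_le_ne_top ?_ (ENNReal.tsum_le_tsum hBad)
    exact (summ κ hκ).tsum_ofReal_ne_top
  filter_upwards [ae_eventually_notMem hfin] with ω hω
  filter_upwards [hω] with L hL
  intro k hk
  by_contra hcon
  push Not at hcon
  apply hL
  simp only [Bad, Set.mem_iUnion]
  exact ⟨k, mem_range.2 hk, hcon⟩

end HC

/-- HC: the discrepancy event -/
theorem t_HC : S_HC.{v} := by
  intro Ω _ P a A _ _ h
  have h1 : ∀ᵐ ω ∂P, ∀ r : ℕ, ∀ᶠ L : ℕ in atTop, ∀ k : ℕ, k < 3 * L →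
      ‖∑ n ∈ Icc 1 L, (((EA A ω).indicator (fun _ => (1 : ℝ)) n - pw a n : ℝ) : ℂ) *
        ee ((k : ℝ) * n / (3 * L))‖ ≤ (L : ℝ) ^ (1 / 2 + 1 / ((r : ℝ) + 1)) :=
    ae_all_iff.2 fun r => HC.fix P a A h (1 / ((r : ℝ) + 1)) (by positivity)
  filter_upwards [h1] with ω hω
  intro κ hκ
  obtain ⟨r, hr⟩ := exists_nat_one_div_lt hκ
  filter_upwards [hω r, eventually_ge_atTop 1] with L hL hL1
  intro k hk
  refine (hL k hk).trans ?_
  exact Real.rpow_le_rpow_of_exponent_le (by exact_mod_cast hL1) (by linarith)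

end Pool.Agent.H505RS
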