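import Pool.Agent.H505RS.Defs

/-! Task INT: interpolation between the terms of lacunary sequences. -/

namespace Pool.Agent.H505RS

open Finset Filter Topology MeasureTheory

namespace INT

theorem block {ρ : ℝ} (hρ : 1 < ρ) {J N : ℕ} (h : ⌈ρ ^ J⌉₊ ≤ N) :
    ∃ j, J ≤ j ∧ ⌈ρ ^ j⌉₊ ≤ N ∧ N < ⌈ρ ^ (j + 1)⌉₊ := by
  classical
  have hmono : ∀ i j : ℕ, i ≤ j → ⌈ρ ^ i⌉₊ ≤ ⌈ρ ^ j⌉₊ := fun i j hij =>
    Nat.ceil_mono (pow_le_pow_right₀ hρ.le hij)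
  have hex : ∃ j, N < ⌈ρ ^ j⌉₊ := by
    obtain ⟨j, hj⟩ := pow_unbounded_of_one_lt (N : ℝ) hρ
    exact ⟨j, Nat.lt_ceil.2 hj⟩
  have h1 := Nat.find_spec hex
  have h2 : J < Nat.find hex := by
    by_contra hcon
    rw [not_lt] at hcon
    exact absurd (lt_of_lt_of_le h1 ((hmono _ _ hcon).trans h)) (lt_irrefl _)
  obtain ⟨j, hj⟩ : ∃ j, Nat.find hex = j + 1 := ⟨Nat.find hex - 1, by omega⟩
  refine ⟨j, by omega, ?_, ?_⟩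
  · have := Nat.find_min hex (m := j) (by omega)
    omega
  · rw [← hj]; exact h1

theorem sum_abs (z : ℕ → ℝ) (C : ℝ) (hz : ∀ k, |z k| ≤ C) (M N : ℕ) (h : M ≤ N) :
    |∑ k ∈ Ioc M N, z k| ≤ C * ((N : ℝ) - M) := by
  calc |∑ k ∈ Ioc M N, z k| ≤ ∑ k ∈ Ioc M N, |z k| := Finset.abs_sum_le_sum_abs _ _
    _ ≤ ∑ _k ∈ Ioc M N, C := Finset.sum_le_sum fun k _ => hz k
    _ = C * ((N : ℝ) - M) := by
      rw [Finset.sum_const, Nat.card_Ioc, nsmul_eq_mul, Nat.cast_sub h]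
      ring

theorem est (z : ℕ → ℝ) (C : ℝ) (hz : ∀ k, |z k| ≤ C) (M N : ℕ) (hM : 0 < M) (h : M ≤ N) :
    |(∑ k ∈ Ioc 0 N, z k) / (N : ℝ) - (∑ k ∈ Ioc 0 M, z k) / (M : ℝ)| ≤
      2 * C * ((N : ℝ) - M) / M := by
  have hC : 0 ≤ C := (abs_nonneg _).trans (hz 0)
  have hM' : (0 : ℝ) < M := by exact_mod_cast hM
  have hMN : (M : ℝ) ≤ N := by exact_mod_cast h
  have hN' : (0 : ℝ) < N := lt_of_lt_of_le hM' hMN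
  have e1 : ∑ k ∈ Ioc 0 N, z k = ∑ k ∈ Ioc 0 M, z k + ∑ k ∈ Ioc M N, z k :=
    (Finset.sum_Ioc_consecutive z (Nat.zero_le M) h).symm
  have a1 := sum_abs z C hz M N h
  have a2 := sum_abs z C hz 0 M (Nat.zero_le M)
  rw [Nat.cast_zero, sub_zero] at a2
  have e2 : (∑ k ∈ Ioc 0 N, z k) / (N : ℝ) - (∑ k ∈ Ioc 0 M, z k) / (M : ℝ) =
      (∑ k ∈ Ioc M N, z k) / N - (∑ k ∈ Ioc 0 M, z k) * (((N : ℝ) - M) / (N * M)) := by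
    rw [e1]
    field_simp
    ring
  rw [e2]
  have hnm : 0 ≤ (N : ℝ) - M := by linarith
  have b1 : |(∑ k ∈ Ioc M N, z k) / (N : ℝ)| ≤ C * ((N : ℝ) - M) / M := by
    rw [abs_div, abs_of_pos hN']
    exact div_le_div₀ (by positivity) a1 hM' hMN
  have b2 : |(∑ k ∈ Ioc 0 M, z k) * (((N : ℝ) - M) / (N * M))| ≤ C * ((N : ℝ) - M) / M := by
    have c1 : 0 ≤ ((N : ℝ) - M) / (N * M) := by positivity
    rw [abs_mul, abs_of_nonneg c1]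
    calc |∑ k ∈ Ioc 0 M, z k| * (((N : ℝ) - M) / (N * M)) ≤
        (C * M) * (((N : ℝ) - M) / (N * M)) := mul_le_mul_of_nonneg_right a2 c1
      _ = C * ((N : ℝ) - M) / N := by field_simp
      _ ≤ C * ((N : ℝ) - M) / M := div_le_div_of_nonneg_left (by positivity) hM' hMN
  calc _ ≤ |(∑ k ∈ Ioc M N, z k) / (N : ℝ)| +
      |(∑ k ∈ Ioc 0 M, z k) * (((N : ℝ) - M) / (N * M))| := abs_sub _ _
    _ ≤ C * ((N : ℝ) - M) / M + C * ((N : ℝ) - M) / M := add_le_add b1 b2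
    _ = 2 * C * ((N : ℝ) - M) / M := by ring

end INT

open INT in
theorem t_INT : S_INT := by
  intro z C l hz h
  have hC : 0 ≤ C := (abs_nonneg _).trans (hz 0)
  rw [Metric.tendsto_atTop]
  intro ε hε
  obtain ⟨n, hn⟩ := exists_nat_gt (6 * C / ε)
  have hn1 : 2 * C / ((n : ℝ) + 1) < ε / 3 := by
    rw [div_lt_iff₀ hε] at hn
    rw [div_lt_div_iff₀ (by positivity) (by norm_num)]
    nlinarith
  have hn0 : (0 : ℝ) < 1 / ((n : ℝ) + 1) := by positivity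
  set ρ : ℝ := 1 + 1 / ((n : ℝ) + 1) with hρdef
  have hρ : 1 < ρ := by linarith
  have hlim := h n
  rw [Metric.tendsto_atTop] at hlim
  obtain ⟨J₁, hJ₁⟩ := hlim (ε / 3) (by linarith)
  obtain ⟨J₂, hJ₂⟩ := pow_unbounded_of_one_lt (6 * C / ε) hρ
  refine ⟨⌈ρ ^ (max J₁ J₂)⌉₊, fun N hN => ?_⟩
  obtain ⟨j, hj, hj1, hj2⟩ := block hρ hN
  have hρj : (0 : ℝ) < ρ ^ j := by positivity
  have hM : 0 < ⌈ρ ^ j⌉₊ := Nat.ceil_pos.2 hρj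
  have hM' : (0 : ℝ) < (⌈ρ ^ j⌉₊ : ℝ) := by exact_mod_cast hM
  have h1 := hJ₁ j ((le_max_left _ _).trans hj)
  rw [Real.dist_eq] at h1 ⊢
  have h2 := est z C hz _ N hM hj1
  have h3 : (N : ℝ) - (⌈ρ ^ j⌉₊ : ℝ) ≤ 1 / ((n : ℝ) + 1) * (⌈ρ ^ j⌉₊ : ℝ) + 1 := by
    have h4 : (N : ℝ) ≤ ρ ^ (j + 1) + 1 := by
      have h5 : (N : ℝ) ≤ (⌈ρ ^ (j + 1)⌉₊ : ℝ) := by exact_mod_cast hj2.le
      have h6 := Nat.ceil_lt_add_one (pow_nonneg (by linarith : (0 : ℝ) ≤ ρ) (j + 1))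
      linarith
    have h7 : ρ ^ (j + 1) ≤ ρ * (⌈ρ ^ j⌉₊ : ℝ) := by
      rw [pow_succ']
      exact mul_le_mul_of_nonneg_left (Nat.le_ceil _) (by linarith)
    have h8 : ρ * (⌈ρ ^ j⌉₊ : ℝ) = (⌈ρ ^ j⌉₊ : ℝ) + 1 / ((n : ℝ) + 1) * (⌈ρ ^ j⌉₊ : ℝ) := by
      rw [hρdef]; ring
    linarith
  have h4 : 2 * C * ((N : ℝ) - (⌈ρ ^ j⌉₊ : ℝ)) / (⌈ρ ^ j⌉₊ : ℝ) < 2 * (ε / 3) := by
    have h5 : 2 * C * ((N : ℝ) - (⌈ρ ^ j⌉₊ : ℝ)) / (⌈ρ ^ j⌉₊ : ℝ) ≤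
        2 * C / ((n : ℝ) + 1) + 2 * C / (⌈ρ ^ j⌉₊ : ℝ) := by
      rw [div_le_iff₀ hM']
      have e : (2 * C / ((n : ℝ) + 1) + 2 * C / (⌈ρ ^ j⌉₊ : ℝ)) * (⌈ρ ^ j⌉₊ : ℝ) =
          2 * C * (1 / ((n : ℝ) + 1) * (⌈ρ ^ j⌉₊ : ℝ) + 1) := by
        field_simp
      rw [e]
      exact mul_le_mul_of_nonneg_left h3 (by positivity)
    have h6 : 2 * C / (⌈ρ ^ j⌉₊ : ℝ) < ε / 3 := by
      have h7 : 6 * C / ε < (⌈ρ ^ j⌉₊ : ℝ) := by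
        calc 6 * C / ε < ρ ^ J₂ := hJ₂
          _ ≤ ρ ^ j := pow_le_pow_right₀ hρ.le ((le_max_right _ _).trans hj)
          _ ≤ _ := Nat.le_ceil _
      rw [div_lt_iff₀ hε] at h7
      rw [div_lt_div_iff₀ hM' (by norm_num)]
      linarith
    linarith
  calc |(∑ k ∈ Ioc 0 N, z k) / (N : ℝ) - l| ≤
      |(∑ k ∈ Ioc 0 N, z k) / (N : ℝ) - (∑ k ∈ Ioc 0 ⌈ρ ^ j⌉₊, z k) / (⌈ρ ^ j⌉₊ : ℝ)| +
      |(∑ k ∈ Ioc 0 ⌈ρ ^ j⌉₊, z k) / (⌈ρ ^ j⌉₊ : ℝ) - l| := abs_sub_le _ _ _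
    _ < ε := by linarith

end Pool.Agent.H505RS
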