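import Pool.Agent.H505RS.Defs

/-! IS: long intervals contain a success. -/

set_option autoImplicit false

noncomputable section

namespace Pool.Agent.H505RS

open scoped BigOperators ENNReal Topology InnerProductSpace
open Finset Filter MeasureTheory ProbabilityTheory

universe u v

namespace IS

theorem prob_bound {Ω : Type v} [MeasurableSpace Ω] (P : Measure Ω) (a : ℝ) (A : ℕ → Set Ω)
    (h : Rn1 P a A) (x y : ℕ) :
    P {ω | ∀ n ∈ Ioc x y, ω ∉ A n} ≤ ENNReal.ofReal (Real.exp (-∑ i ∈ Ioc x y, pw a i)) := by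
  have hprob := h.prob
  have hset : {ω | ∀ n ∈ Ioc x y, ω ∉ A n} = ⋂ j ∈ Ico x y, (A (j + 1))ᶜ := by
    ext ω
    simp only [Set.mem_iInter, Set.mem_compl_iff, mem_Ioc, mem_Ico]
    constructor
    · intro hω j hj
      exact hω (j + 1) ⟨by omega, by omega⟩
    · intro hω n hn
      have h1 := hω (n - 1) ⟨by omega, by omega⟩
      rwa [Nat.sub_add_cancel (by omega)] at h1
  have hind : iIndep (fun n => MeasurableSpace.generateFrom {A (n + 1)}) P := h.ind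
  have hprod : P (⋂ j ∈ Ico x y, (A (j + 1))ᶜ) = ∏ j ∈ Ico x y, P ((A (j + 1))ᶜ) :=
    hind.meas_biInter fun j _ =>
      (MeasurableSpace.measurableSet_generateFrom (Set.mem_singleton _)).compl
  have hsum : ∑ i ∈ Ioc x y, pw a i = ∑ j ∈ Ico x y, pw a (j + 1) := by
    rw [Finset.sum_Ico_add' (fun i => pw a i) x y 1]
    congr 1
    ext i
    simp only [mem_Ioc, mem_Ico]
    omega
  rw [hset, hprod, hsum, ← Finset.sum_neg_distrib, Real.exp_sum,
    ENNReal.ofReal_prod_of_nonneg fun j _ => (Real.exp_pos _).le]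
  refine Finset.prod_le_prod' fun j _ => ?_
  rw [prob_compl_eq_one_sub (h.mA (j + 1)), h.pA (j + 1) (by omega), ← ENNReal.ofReal_one,
    ← ENNReal.ofReal_sub]
  · refine ENNReal.ofReal_le_ofReal ?_
    have := Real.add_one_le_exp (-pw a (j + 1))
    linarith
  · unfold pw
    positivity

theorem fix {Ω : Type v} [MeasurableSpace Ω] (P : Measure Ω) (a : ℝ) (A : ℕ → Set Ω)
    (h : Rn1 P a A) (κ : ℝ) (hκ : 0 < κ) :
    ∀ᵐ ω ∂P, ∀ᶠ N : ℕ in atTop, ∀ x y : ℕ, x ≤ y → y ≤ N ^ 4 →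
      (N : ℝ) ^ κ ≤ ∑ i ∈ Ioc x y, pw a i → ∃ n ∈ Ioc x y, n ∈ EA A ω := by
  have hprob := h.prob
  let Bad : ℕ → Set Ω := fun N => ⋃ x ∈ range (N ^ 4 + 1), ⋃ y ∈ range (N ^ 4 + 1),
    {ω | (N : ℝ) ^ κ ≤ ∑ i ∈ Ioc x y, pw a i ∧ ∀ n ∈ Ioc x y, ω ∉ A n}
  have hone : ∀ N x y : ℕ, P {ω | (N : ℝ) ^ κ ≤ ∑ i ∈ Ioc x y, pw a i ∧
      ∀ n ∈ Ioc x y, ω ∉ A n} ≤ ENNReal.ofReal (Real.exp (-(N : ℝ) ^ κ)) := by
    intro N x y
    by_cases hc : (N : ℝ) ^ κ ≤ ∑ i ∈ Ioc x y, pw a i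
    · have h1 : {ω | (N : ℝ) ^ κ ≤ ∑ i ∈ Ioc x y, pw a i ∧ ∀ n ∈ Ioc x y, ω ∉ A n} ⊆
          {ω | ∀ n ∈ Ioc x y, ω ∉ A n} := fun ω hω => hω.2
      refine (measure_mono h1).trans ((prob_bound P a A h x y).trans ?_)
      refine ENNReal.ofReal_le_ofReal (Real.exp_le_exp.2 ?_)
      linarith
    · have h1 : {ω | (N : ℝ) ^ κ ≤ ∑ i ∈ Ioc x y, pw a i ∧ ∀ n ∈ Ioc x y, ω ∉ A n} = ∅ := by
        ext ω
        simp [hc]
      rw [h1, measure_empty]
      exact bot_le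
  have hBad : ∀ N : ℕ, P (Bad N) ≤
      ENNReal.ofReal (((N : ℝ) ^ 4 + 1) ^ 2 * Real.exp (-(N : ℝ) ^ κ)) := by
    intro N
    have h1 : P (Bad N) ≤ ∑ x ∈ range (N ^ 4 + 1), ∑ y ∈ range (N ^ 4 + 1),
        ENNReal.ofReal (Real.exp (-(N : ℝ) ^ κ)) := by
      refine (measure_biUnion_finset_le _ _).trans (Finset.sum_le_sum fun x _ => ?_)
      exact (measure_biUnion_finset_le _ _).trans (Finset.sum_le_sum fun y _ => hone N x y)
    refine h1.trans (le_of_eq ?_)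
    rw [Finset.sum_const, Finset.sum_const, card_range, nsmul_eq_mul, nsmul_eq_mul,
      ENNReal.ofReal_mul (by positivity), ← mul_assoc]
    congr 1
    rw [ENNReal.ofReal_pow (by positivity), pow_two]
    have h2 : ENNReal.ofReal ((N : ℝ) ^ 4 + 1) = ((N ^ 4 + 1 : ℕ) : ℝ≥0∞) := by
      rw [← ENNReal.ofReal_natCast]
      congr 1
      push_cast
      ring
    rw [h2]
  -- summability
  have hsumm : Summable fun N : ℕ => ((N : ℝ) ^ 4 + 1) ^ 2 * Real.exp (-(N : ℝ) ^ κ) := by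
    obtain ⟨k, hk⟩ := exists_nat_ge (10 / κ)
    have hk' : 10 ≤ κ * k := by
      rw [div_le_iff₀ hκ] at hk
      linarith
    have hg : Summable fun N : ℕ => (4 * k.factorial : ℝ) * (1 / (N : ℝ) ^ 2) :=
      (Real.summable_one_div_nat_pow.2 (by norm_num)).mul_left _
    refine Summable.of_norm_bounded_eventually_nat hg ?_
    filter_upwards [eventually_ge_atTop 1] with N hN
    have hN1 : (1 : ℝ) ≤ N := by exact_mod_cast hN
    have hN0 : (0 : ℝ) < N := by linarith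
    rw [Real.norm_eq_abs, abs_of_nonneg (by positivity)]
    have hx : 0 < (N : ℝ) ^ κ := Real.rpow_pos_of_pos hN0 κ
    have h1 : ((N : ℝ) ^ κ) ^ k / k.factorial ≤ Real.exp ((N : ℝ) ^ κ) :=
      Real.pow_div_factorial_le_exp _ hx.le k
    have h2 : (N : ℝ) ^ 10 ≤ ((N : ℝ) ^ κ) ^ k := by
      rw [← Real.rpow_natCast ((N : ℝ) ^ κ) k, ← Real.rpow_mul hN0.le, ← Real.rpow_natCast]
      exact Real.rpow_le_rpow_of_exponent_le hN1 (by exact_mod_cast hk')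
    have hf : (0 : ℝ) < k.factorial := by exact_mod_cast k.factorial_pos
    have h3 : Real.exp (-(N : ℝ) ^ κ) ≤ k.factorial / (N : ℝ) ^ 10 := by
      rw [Real.exp_neg, inv_eq_one_div, div_le_div_iff₀ (Real.exp_pos _) (by positivity)]
      have h4 : (N : ℝ) ^ 10 / k.factorial ≤ Real.exp ((N : ℝ) ^ κ) :=
        (div_le_div_of_nonneg_right h2 hf.le).trans h1
      rw [div_le_iff₀ hf] at h4
      linarith
    have h5 : ((N : ℝ) ^ 4 + 1) ^ 2 ≤ 4 * (N : ℝ) ^ 8 := by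
      have h6 : (1 : ℝ) ≤ (N : ℝ) ^ 4 := one_le_pow₀ hN1
      nlinarith
    calc ((N : ℝ) ^ 4 + 1) ^ 2 * Real.exp (-(N : ℝ) ^ κ)
        ≤ 4 * (N : ℝ) ^ 8 * (k.factorial / (N : ℝ) ^ 10) :=
          mul_le_mul h5 h3 (Real.exp_pos _).le (by positivity)
      _ = (4 * k.factorial : ℝ) * (1 / (N : ℝ) ^ 2) := by
          field_simp
  have hfin : ∑' N, P (Bad N) ≠ ⊤ := by
    refine ne_top_of_le_ne_top ?_ (ENNReal.tsum_le_tsum hBad)
    exact hsumm.tsum_ofReal_ne_top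
  filter_upwards [ae_eventually_notMem hfin] with ω hω
  filter_upwards [hω] with N hN
  intro x y hxy hy hs
  by_contra hcon
  push Not at hcon
  apply hN
  simp only [Bad, Set.mem_iUnion]
  exact ⟨x, mem_range.2 (by omega), y, mem_range.2 (by omega), hs, hcon⟩

end IS

/-- IS: long intervals contain a success -/
theorem t_IS : S_IS.{v} := by
  intro Ω _ P a A _ _ h
  have h1 : ∀ᵐ ω ∂P, ∀ r : ℕ, ∀ᶠ N : ℕ in atTop, ∀ x y : ℕ, x ≤ y → y ≤ N ^ 4 →
      (N : ℝ) ^ (1 / ((r : ℝ) + 1)) ≤ ∑ i ∈ Ioc x y, pw a i → ∃ n ∈ Ioc x y, n ∈ EA A ω :=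
    ae_all_iff.2 fun r => IS.fix P a A h (1 / ((r : ℝ) + 1)) (by positivity)
  filter_upwards [h1] with ω hω
  intro κ hκ
  obtain ⟨r, hr⟩ := exists_nat_one_div_lt hκ
  filter_upwards [hω r, eventually_ge_atTop 1] with N hN hN1
  intro x y hxy hy hs
  refine hN x y hxy hy (le_trans ?_ hs)
  exact Real.rpow_le_rpow_of_exponent_le (by exact_mod_cast hN1) hr.le

end Pool.Agent.H505RS
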