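import Pool.Agent.H505RS.Defs

/-! Task MB: one step of the matrix Bernstein inequality. -/

set_option autoImplicit false

noncomputable section

namespace Pool.Agent.H505RS

open scoped BigOperators ENNReal Topology InnerProductSpace
open Finset Filter MeasureTheory ProbabilityTheory

namespace MB

variable {V : Type} [NormedAddCommGroup V] [InnerProductSpace ℂ V] [FiniteDimensional ℂ V]

theorem exp_le (x : ℝ) (hx : |x| ≤ 1) : Real.exp x ≤ 1 + x + x ^ 2 := by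
  have := (abs_le.1 (Real.abs_exp_sub_one_sub_id_le hx)).2
  linarith

theorem quad_le (X : Module.End ℂ V) (hX : X.IsSymmetric) (hb : ∀ v, ‖X v‖ ≤ ‖v‖) (v : V) :
    (⟪RC14.ex X v, v⟫_ℂ).re ≤ ‖v‖ ^ 2 + (⟪v, X v⟫_ℂ).re + ‖X v‖ ^ 2 := by
  obtain ⟨n, b, ν, h1, h2⟩ := RC14.EXB.diag X hX
  have e1 := RC14.EXB.quad b (RC14.ex X) (fun i => Real.exp (ν i)) h2 v
  have e2 := RC14.EXB.quad b X ν h1 v
  have h3 : ∀ i, (X * X) (b i) = ((ν i ^ 2 : ℝ) : ℂ) • b i := by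
    intro i
    rw [Module.End.mul_apply, h1, map_smul, h1, smul_smul]
    push_cast
    rw [sq]
  have e3 := RC14.EXB.quad b (X * X) (fun i => ν i ^ 2) h3 v
  have e3' : (⟪(X * X) v, v⟫_ℂ).re = ‖X v‖ ^ 2 := by
    rw [Module.End.mul_apply, hX (X v) v]
    exact inner_self_eq_norm_sq (𝕜 := ℂ) (X v)
  have e4 := b.sum_sq_norm_inner_right v
  have hν : ∀ i, |ν i| ≤ 1 := by
    intro i
    have := hb (b i)
    rw [h1, norm_smul, b.norm_eq_one, mul_one, Complex.norm_real] at this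
    exact this
  have e5 : (⟪v, X v⟫_ℂ).re = (⟪X v, v⟫_ℂ).re := inner_re_symm (𝕜 := ℂ) v (X v)
  rw [e5, e1, e2, ← e3', e3, ← e4, ← Finset.sum_add_distrib, ← Finset.sum_add_distrib]
  refine Finset.sum_le_sum fun i _ => ?_
  have := exp_le _ (hν i)
  nlinarith [sq_nonneg ‖⟪b i, v⟫_ℂ‖]

theorem step (S X : Module.End ℂ V) (hS : S.IsSymmetric) (hX : X.IsSymmetric)
    (hb : ∀ v, ‖X v‖ ≤ ‖v‖) {n : ℕ} (b : OrthonormalBasis (Fin n) ℂ V) (μ : Fin n → ℝ)
    (h2 : ∀ i, RC14.ex S (b i) = ((Real.exp (μ i) : ℝ) : ℂ) • b i) :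
    RC14.rtr (RC14.ex (S + X)) ≤
      ∑ i, Real.exp (μ i) * (1 + (⟪b i, X (b i)⟫_ℂ).re + ‖X (b i)‖ ^ 2) := by
  refine (RC14.GT S X hS hX).trans ?_
  unfold RC14.rtr
  rw [LinearMap.trace_eq_sum_inner _ b, Complex.re_sum]
  refine Finset.sum_le_sum fun i _ => ?_
  have hsS := RC14.ex_symm S hS
  have e1 : ⟪b i, (RC14.ex S * RC14.ex X) (b i)⟫_ℂ =
      ((Real.exp (μ i) : ℝ) : ℂ) * ⟪b i, RC14.ex X (b i)⟫_ℂ := by
    rw [Module.End.mul_apply, ← hsS (b i) (RC14.ex X (b i)), h2, inner_smul_left,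
      Complex.conj_ofReal]
  rw [e1, Complex.re_ofReal_mul]
  have h3 := quad_le X hX hb (b i)
  rw [b.norm_eq_one, one_pow] at h3
  have h4 : (⟪b i, RC14.ex X (b i)⟫_ℂ).re = (⟪RC14.ex X (b i), b i⟫_ℂ).re :=
    inner_re_symm (𝕜 := ℂ) _ _
  rw [h4]
  exact mul_le_mul_of_nonneg_left h3 (Real.exp_pos _).le

end MB

theorem t_MB : S_MB := by
  intro V _ _ _ w ρ X S hw hw1 hρ hX hS hmean hvar hbd
  obtain ⟨n, b, μ, h1, h2⟩ := RC14.EXB.diag S hS
  have hstep := fun z => MB.step S (X z) hS (hX z) (hbd z) b μ h2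
  have hnn : ∀ z i, 0 ≤ 1 + (⟪b i, X z (b i)⟫_ℂ).re + ‖X z (b i)‖ ^ 2 := by
    intro z i
    have h3 := MB.quad_le (X z) (hX z) (hbd z) (b i)
    rw [b.norm_eq_one, one_pow] at h3
    exact (RC14.ex_pos (X z) (hX z) (b i)).trans h3
  -- the three sums
  have s2 : ∀ i, HasSum (fun z => w z * (⟪b i, X z (b i)⟫_ℂ).re) 0 := by
    intro i
    have h3 := (innerSL ℂ (b i)).hasSum (hmean (b i))
    rw [map_zero] at h3
    have h4 := Complex.hasSum_re h3
    simp only [innerSL_apply_apply, inner_smul_right, Complex.re_ofReal_mul, Complex.zero_re] at h4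
    exact h4
  have s3 : ∀ i, Summable (fun z => w z * ‖X z (b i)‖ ^ 2) := by
    intro i
    refine Summable.of_nonneg_of_le (fun z => mul_nonneg (hw z) (sq_nonneg _)) (fun z => ?_)
      hw1.summable
    have h3 := hbd z (b i)
    rw [b.norm_eq_one] at h3
    have h4 : ‖X z (b i)‖ ^ 2 ≤ 1 := by nlinarith [norm_nonneg (X z (b i))]
    nlinarith [hw z]
  have s4 : ∀ i, ∑' z, w z * ‖X z (b i)‖ ^ 2 ≤ ρ := by
    intro i
    have := hvar (b i)
    rwa [b.norm_eq_one, one_pow, mul_one] at this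
  have s5 : ∀ i, HasSum (fun z => Real.exp (μ i) *
      (w z * (1 + (⟪b i, X z (b i)⟫_ℂ).re + ‖X z (b i)‖ ^ 2)))
      (Real.exp (μ i) * (1 + 0 + ∑' z, w z * ‖X z (b i)‖ ^ 2)) := by
    intro i
    refine HasSum.mul_left _ ?_
    have h3 := (hw1.add (s2 i)).add (s3 i).hasSum
    have e : (fun z => w z * (1 + (⟪b i, X z (b i)⟫_ℂ).re + ‖X z (b i)‖ ^ 2)) =
        fun z => w z + w z * (⟪b i, X z (b i)⟫_ℂ).re + w z * ‖X z (b i)‖ ^ 2 := by
      funext z; ring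
    rw [e]
    exact h3
  have s6 := hasSum_sum (s := (Finset.univ : Finset (Fin n))) (fun i _ => s5 i)
  have s7 : RC14.rtr (RC14.ex S) = ∑ i, Real.exp (μ i) :=
    RC14.EXB.tr_eig b (RC14.ex S) (fun i => Real.exp (μ i)) h2
  calc ∑' z, ENNReal.ofReal (w z) * ENNReal.ofReal (RC14.rtr (RC14.ex (S + X z)))
      ≤ ∑' z, ENNReal.ofReal (∑ i, Real.exp (μ i) *
          (w z * (1 + (⟪b i, X z (b i)⟫_ℂ).re + ‖X z (b i)‖ ^ 2))) := by
        refine ENNReal.tsum_le_tsum (fun z => ?_)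
        rw [← ENNReal.ofReal_mul (hw z)]
        apply ENNReal.ofReal_le_ofReal
        calc w z * RC14.rtr (RC14.ex (S + X z)) ≤ w z * ∑ i, Real.exp (μ i) *
              (1 + (⟪b i, X z (b i)⟫_ℂ).re + ‖X z (b i)‖ ^ 2) :=
              mul_le_mul_of_nonneg_left (hstep z) (hw z)
          _ = _ := by
              rw [Finset.mul_sum]
              exact Finset.sum_congr rfl fun i _ => by ring
    _ = ENNReal.ofReal (∑' z, ∑ i, Real.exp (μ i) *
          (w z * (1 + (⟪b i, X z (b i)⟫_ℂ).re + ‖X z (b i)‖ ^ 2))) := by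
        refine (ENNReal.ofReal_tsum_of_nonneg (fun z => ?_) s6.summable).symm
        exact Finset.sum_nonneg fun i _ => mul_nonneg (Real.exp_pos _).le
          (mul_nonneg (hw z) (hnn z i))
    _ ≤ ENNReal.ofReal ((1 + ρ) * RC14.rtr (RC14.ex S)) := by
        apply ENNReal.ofReal_le_ofReal
        rw [s6.tsum_eq, s7, Finset.mul_sum]
        refine Finset.sum_le_sum fun i _ => ?_
        have h5 := Real.exp_pos (μ i)
        have h6 := s4 i
        nlinarith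

end Pool.Agent.H505RS
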