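import Pool.Agent.H505RS.Defs

/-!
# MBN: iterated matrix Bernstein inequality along the path measure
-/

set_option autoImplicit false

noncomputable section

namespace Pool.Agent.H505RS

open scoped BigOperators ENNReal Topology InnerProductSpace
open Finset Filter MeasureTheory ProbabilityTheory

namespace MBN

theorem Lk_mono (a b : ℝ) (k : ℕ) (Φ Ψ : (ℕ → ℕ × ℕ) → ℝ≥0∞) (h : ∀ y, Φ y ≤ Ψ y)
    (y : ℕ → ℕ × ℕ) : Lk a b k Φ y ≤ Lk a b k Ψ y := by
  unfold Lk
  exact ENNReal.tsum_le_tsum fun z => mul_le_mul' le_rfl (h _)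

theorem EN_mono (a b : ℝ) (N : ℕ) : ∀ (Φ Ψ : (ℕ → ℕ × ℕ) → ℝ≥0∞), (∀ y, Φ y ≤ Ψ y) →
    ∀ y, EN a b N Φ y ≤ EN a b N Ψ y := by
  induction N with
  | zero => intro Φ Ψ h y; exact h y
  | succ N ih =>
    intro Φ Ψ h y
    exact ih _ _ (Lk_mono a b (N + 1) Φ Ψ h) y

theorem Lk_mul (a b : ℝ) (k : ℕ) (c : ℝ≥0∞) (Φ : (ℕ → ℕ × ℕ) → ℝ≥0∞) :
    Lk a b k (fun y => c * Φ y) = fun y => c * Lk a b k Φ y := by
  funext y
  unfold Lk
  rw [← ENNReal.tsum_mul_left]
  exact tsum_congr fun z => by ring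

theorem EN_mul (a b : ℝ) (N : ℕ) (c : ℝ≥0∞) : ∀ (Φ : (ℕ → ℕ × ℕ) → ℝ≥0∞) (y : ℕ → ℕ × ℕ),
    EN a b N (fun y => c * Φ y) y = c * EN a b N Φ y := by
  induction N with
  | zero => intro Φ y; rfl
  | succ N ih =>
    intro Φ y
    change EN a b N (Lk a b (N + 1) (fun y => c * Φ y)) y = c * EN a b N (Lk a b (N + 1) Φ) y
    rw [Lk_mul]
    exact ih _ y

end MBN

theorem t_MBN : S_MB → S_QF → S_MBN := by
  intro hMB hQF V _ _ _ a b ρ X ha0 ha1 hb0 hb1 hρ hP N
  have h1ρ : 0 ≤ 1 + ρ := by linarith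
  induction N with
  | zero =>
    intro y0
    change ENNReal.ofReal (RC14.rtr (RC14.ex (∑ j ∈ Icc 1 0, X y0 j))) ≤ _
    have h0 : (∑ j ∈ Icc 1 0, X y0 j) = 0 := by simp
    rw [h0, RC14.ex_zero]
    apply ENNReal.ofReal_le_ofReal
    unfold RC14.rtr
    rw [LinearMap.trace_one]
    simp
  | succ N ih =>
    intro y0
    set Φ : ℕ → (ℕ → ℕ × ℕ) → ℝ≥0∞ := fun M y =>
      ENNReal.ofReal (RC14.rtr (RC14.ex (∑ j ∈ Icc 1 M, X y j))) with hΦ
    have key : ∀ y, Lk a b (N + 1) (Φ (N + 1)) y ≤ ENNReal.ofReal (1 + ρ) * Φ N y := by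
      intro y
      set S : Module.End ℂ V := ∑ j ∈ Icc 1 N, X y j with hS
      have hdep : ∀ z, ∑ j ∈ Icc 1 (N + 1), X (Function.update y (N + 1) z) j =
          S + X (Function.update y (N + 1) z) (N + 1) := by
        intro z
        rw [Finset.sum_Icc_succ_top (by omega)]
        congr 1
        refine Finset.sum_congr rfl fun j hj => ?_
        have hj' := (Finset.mem_Icc.1 hj).2
        refine hP.dep j _ _ fun i hi => ?_
        exact Function.update_of_ne (by omega) _ _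
      have hqa := hQF a ha0 ha1 (y N).1
      have hqb := hQF b hb0 hb1 (y N).2
      have hw0 : ∀ z : ℕ × ℕ, 0 ≤ q a (y N).1 z.1 * q b (y N).2 z.2 := fun z =>
        mul_nonneg (hqa.2 z.1).1 (hqb.2 z.2).1
      have hws : Summable (fun z : ℕ × ℕ => q a (y N).1 z.1 * q b (y N).2 z.2) :=
        hqa.1.summable.mul_of_nonneg hqb.1.summable (fun t => (hqa.2 t).1) (fun t => (hqb.2 t).1)
      have hw1 : HasSum (fun z : ℕ × ℕ => q a (y N).1 z.1 * q b (y N).2 z.2) 1 := by
        have := hqa.1.mul hqb.1 hws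
        simpa using this
      have hsymS : S.IsSymmetric := by
        rw [hS]
        exact Finset.sum_induction _ (fun T : Module.End ℂ V => T.IsSymmetric)
          (fun _ _ h1 h2 => h1.add h2) LinearMap.IsSymmetric.zero (fun j _ => hP.sym y j)
      have hm := fun v => hP.mean y (N + 1) (by omega) v
      have hv := fun v => hP.var y (N + 1) (by omega) v
      simp only [Nat.add_sub_cancel] at hm hv
      have h := hMB V (fun z : ℕ × ℕ => q a (y N).1 z.1 * q b (y N).2 z.2) ρ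
        (fun z => X (Function.update y (N + 1) z) (N + 1)) S hw0 hw1 hρ
        (fun z => hP.sym _ _) hsymS hm hv (fun z v => hP.bd _ _ v)
      have e1 : Lk a b (N + 1) (Φ (N + 1)) y =
          ∑' z : ℕ × ℕ, ENNReal.ofReal (q a (y N).1 z.1 * q b (y N).2 z.2) *
            ENNReal.ofReal (RC14.rtr (RC14.ex (S + X (Function.update y (N + 1) z) (N + 1)))) := by
        unfold Lk
        refine tsum_congr fun z => ?_
        rw [hΦ]
        simp only [Nat.add_sub_cancel]
        rw [hdep z, kk, ENNReal.ofReal_mul (hqa.2 z.1).1]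
      rw [e1]
      refine h.trans (le_of_eq ?_)
      rw [ENNReal.ofReal_mul h1ρ]
    change EN a b N (Lk a b (N + 1) (Φ (N + 1))) y0 ≤ _
    refine (MBN.EN_mono a b N _ _ key y0).trans ?_
    rw [MBN.EN_mul]
    refine (mul_le_mul' le_rfl (ih y0)).trans (le_of_eq ?_)
    rw [← ENNReal.ofReal_mul h1ρ]
    congr 1
    ring

end Pool.Agent.H505RS
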