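import Pool.Agent.H505RS.Defs

/-! Project RS (helper505), task MF (helper149): the second moment of the centred sums. -/

set_option autoImplicit false

noncomputable section

namespace Pool.Agent.H505RS

open scoped BigOperators ENNReal Topology InnerProductSpace
open Finset Filter MeasureTheory ProbabilityTheory

universe u

namespace MF

lemma pw_nonneg (a : ℝ) (n : ℕ) : 0 ≤ pw a n := Real.rpow_nonneg (Nat.cast_nonneg _) _

lemma dk_bd {X : Type*} (a : ℝ) (s : ℕ → ℕ) (T : X → X) (f : X → ℝ) (hf : ∀ x, |f x| ≤ 1)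
    (k : ℕ) (x : X) :
    |Dk a s T f k x| ≤ 1 + ∑ i ∈ Ioc (s (k - 1)) (s k), pw a i := by
  unfold Dk
  have h1 : |f (T^[s k] x) - ∑ i ∈ Ioc (s (k - 1)) (s k), pw a i * f (T^[i] x)| ≤
      |f (T^[s k] x)| + |∑ i ∈ Ioc (s (k - 1)) (s k), pw a i * f (T^[i] x)| := abs_sub _ _
  have h2 : |∑ i ∈ Ioc (s (k - 1)) (s k), pw a i * f (T^[i] x)| ≤
      ∑ i ∈ Ioc (s (k - 1)) (s k), pw a i := by
    refine (Finset.abs_sum_le_sum_abs _ _).trans (Finset.sum_le_sum fun i _ => ?_)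
    rw [abs_mul, abs_of_nonneg (pw_nonneg a i)]
    exact mul_le_of_le_one_right (pw_nonneg a i) (hf _)
  have h3 := hf (T^[s k] x)
  linarith

lemma zk_bd {X : Type*} (a : ℝ) (s t : ℕ → ℕ) (T S : X → X) (f g : X → ℝ)
    (hf : ∀ x, |f x| ≤ 1) (hg : ∀ x, |g x| ≤ 1) (k : ℕ) (x : X) :
    |Zk a s t T S f g k x| ≤ 1 + ∑ i ∈ Ioc (s (k - 1)) (s k), pw a i := by
  unfold Zk
  rw [abs_mul]
  exact (mul_le_of_le_one_right (abs_nonneg _) (hg _)).trans (dk_bd a s T f hf k x)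

lemma zk_meas {X : Type*} [MeasurableSpace X] (a : ℝ) (s t : ℕ → ℕ) (T S : X → X) (f g : X → ℝ)
    (hf : Measurable f) (hg : Measurable g) (hT : Measurable T) (hS : Measurable S) (k : ℕ) :
    Measurable (Zk a s t T S f g k) := by
  unfold Zk Dk
  refine Measurable.mul (Measurable.sub (hf.comp (hT.iterate _)) ?_) (hg.comp (hS.iterate _))
  exact Finset.measurable_sum _ fun i _ => (hf.comp (hT.iterate _)).const_mul _

lemma int_of_bd {X : Type*} [MeasurableSpace X] (μ : Measure X) [IsFiniteMeasure μ]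
    (F : X → ℝ) (hF : Measurable F) (C : ℝ) (hC : ∀ x, |F x| ≤ C) : Integrable F μ :=
  Integrable.of_bound hF.aestronglyMeasurable C (Filter.Eventually.of_forall hC)

lemma kp_pos (a b : ℝ) (_ha : 0 < a) (ha' : a < 1 / 2) (_hb : 0 < b) (hb' : b < 1 / 2) :
    0 < kp a b := by
  have h1 : al a < 1 := by
    unfold al; rw [div_lt_one (by linarith)]; linarith
  have h2 : al b < 1 := by
    unfold al; rw [div_lt_one (by linarith)]; linarith
  have h3 : mx a b < 1 := max_lt h1 h2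
  unfold kp
  linarith

/-- the arithmetic of the exponents -/
lemma arith (κ : ℝ) (hκ : 0 < κ) : ∀ᶠ N : ℕ in atTop, ∀ M : ℕ, M = ⌊(N : ℝ) ^ (4 * κ)⌋₊ →
    1 ≤ M ∧ (M : ℝ) ≤ (N : ℝ) ^ (4 * κ) ∧
    ∀ A B : ℝ, A ≤ (N : ℝ) * (4 * (N : ℝ) ^ (2 * κ)) → B ≤ (M : ℝ) ^ 2 * (N : ℝ) ^ (1 - 7 * κ) →
      κ < 1 / 100 →
      ((N + M : ℝ) / (M : ℝ) ^ 2) * (M * A + 2 * B) ≤ (N : ℝ) ^ (2 - κ) := by
  have h1 : ∀ᶠ N : ℕ in atTop, (20 : ℝ) ≤ (N : ℝ) ^ κ :=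
    ((tendsto_rpow_atTop hκ).comp tendsto_natCast_atTop_atTop).eventually_ge_atTop 20
  filter_upwards [h1, eventually_ge_atTop 1] with N hN hN1 M hM
  have hN0 : (1 : ℝ) ≤ N := by exact_mod_cast hN1
  have hNp : (0 : ℝ) < N := by linarith
  set y : ℝ := (N : ℝ) ^ (4 * κ) with hy
  have hy1 : 1 ≤ y := Real.one_le_rpow hN0 (by positivity)
  have hMy : (M : ℝ) ≤ y := by rw [hM]; exact Nat.floor_le (by linarith)
  have hM1 : 1 ≤ M := by
    rw [hM]; exact Nat.le_floor (by simpa using hy1)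
  have hM1' : (1 : ℝ) ≤ M := by exact_mod_cast hM1
  have hMp : (0 : ℝ) < M := by linarith
  have hM2 : y / 2 ≤ M := by
    have := Nat.lt_floor_add_one y
    rw [← hM] at this
    linarith
  refine ⟨hM1, hMy, fun A B hA hB hκ' => ?_⟩
  have hyN : y ≤ N := by
    calc y ≤ (N : ℝ) ^ (1 : ℝ) := Real.rpow_le_rpow_of_exponent_le hN0 (by linarith)
      _ = N := Real.rpow_one _
  have hMN : (M : ℝ) ≤ N := hMy.trans hyN
  have hpos2 : 0 ≤ (N : ℝ) ^ (2 * κ) := by positivity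
  have hpos7 : 0 ≤ (N : ℝ) ^ (1 - 7 * κ) := by positivity
  have e1 : ((N + M : ℝ) / (M : ℝ) ^ 2) * (M * A + 2 * B) ≤
      (2 * N / (M : ℝ) ^ 2) * (M * ((N : ℝ) * (4 * (N : ℝ) ^ (2 * κ))) +
        2 * ((M : ℝ) ^ 2 * (N : ℝ) ^ (1 - 7 * κ))) := by
    have h5 : M * A + 2 * B ≤ M * ((N : ℝ) * (4 * (N : ℝ) ^ (2 * κ))) +
        2 * ((M : ℝ) ^ 2 * (N : ℝ) ^ (1 - 7 * κ)) := by
      have := mul_le_mul_of_nonneg_left hA hMp.le
      linarith
    have h6 : (N + M : ℝ) / (M : ℝ) ^ 2 ≤ 2 * N / (M : ℝ) ^ 2 :=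
      div_le_div_of_nonneg_right (by linarith) (by positivity)
    have h7 : 0 ≤ (N + M : ℝ) / (M : ℝ) ^ 2 := by positivity
    calc _ ≤ ((N + M : ℝ) / (M : ℝ) ^ 2) * (M * ((N : ℝ) * (4 * (N : ℝ) ^ (2 * κ))) +
        2 * ((M : ℝ) ^ 2 * (N : ℝ) ^ (1 - 7 * κ))) := mul_le_mul_of_nonneg_left h5 h7
      _ ≤ _ := mul_le_mul_of_nonneg_right h6 (by positivity)
  have e2 : (2 * N / (M : ℝ) ^ 2) * (M * ((N : ℝ) * (4 * (N : ℝ) ^ (2 * κ))) +
        2 * ((M : ℝ) ^ 2 * (N : ℝ) ^ (1 - 7 * κ))) =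
      8 * ((N : ℝ) ^ 2 * (N : ℝ) ^ (2 * κ) / M) + 4 * (N * (N : ℝ) ^ (1 - 7 * κ)) := by
    field_simp
    ring
  have e3 : (N : ℝ) ^ 2 * (N : ℝ) ^ (2 * κ) / M ≤ 2 * (N : ℝ) ^ (2 - 2 * κ) := by
    rw [div_le_iff₀ hMp]
    have h8 : (N : ℝ) ^ 2 * (N : ℝ) ^ (2 * κ) = (N : ℝ) ^ (2 - 2 * κ) * y := by
      rw [hy, ← Real.rpow_natCast, ← Real.rpow_add hNp, ← Real.rpow_add hNp]
      congr 1; push_cast; ring
    rw [h8]
    have h9 : 0 ≤ (N : ℝ) ^ (2 - 2 * κ) := by positivity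
    nlinarith
  have e4 : (N : ℝ) * (N : ℝ) ^ (1 - 7 * κ) ≤ (N : ℝ) ^ (2 - 2 * κ) := by
    have h10 : (N : ℝ) * (N : ℝ) ^ (1 - 7 * κ) = (N : ℝ) ^ (2 - 7 * κ) := by
      nth_rewrite 1 [← Real.rpow_one (N : ℝ)]
      rw [← Real.rpow_add hNp]
      congr 1; ring
    rw [h10]
    exact Real.rpow_le_rpow_of_exponent_le hN0 (by linarith)
  have e5 : (N : ℝ) ^ (2 - κ) = (N : ℝ) ^ (2 - 2 * κ) * (N : ℝ) ^ κ := by
    rw [← Real.rpow_add hNp]; congr 1; ring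
  have h9 : 0 ≤ (N : ℝ) ^ (2 - 2 * κ) := by positivity
  rw [e5]
  nlinarith [mul_le_mul_of_nonneg_left hN h9]

end MF

theorem t_MF : S_VDC → S_PR.{u} → S_MF.{u} := by
  intro hV hPR a b E F ha ha' hb hb' hE hF hM
  have hκ : 0 < kp a b := MF.kp_pos a b ha ha' hb hb'
  have hκ' : kp a b < 1 / 100 := by
    have h1 : 0 < al a := by unfold al; exact div_pos ha (by linarith)
    have h3 : 0 < mx a b := lt_max_of_lt_left h1
    unfold kp
    linarith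
  filter_upwards [hPR a b E F ha ha' hb hb' hE hF hM, MF.arith (kp a b) hκ,
    hE.gapw (kp a b) hκ, eventually_ge_atTop 1] with N hN1 hN2 hN3 hN4 X _ μ T S f g hSy hf hg
  haveI := hSy.prob
  obtain ⟨hM1, hMy, hfin⟩ := hN2 _ rfl
  set M : ℕ := ⌊(N : ℝ) ^ (4 * kp a b)⌋₊ with hMdef
  set Z := Zk a (en E) (en F) T S f g with hZ
  have hN0 : (1 : ℝ) ≤ N := by exact_mod_cast hN4
  have hmeas : ∀ k, Measurable (Z k) := fun k =>
    MF.zk_meas a _ _ T S f g hf.1 hg.1 hSy.mT.measurable hSy.mS.measurable k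
  have hbdd : ∀ k x, |Z k x| ≤ 1 + ∑ i ∈ Ioc (en E (k - 1)) (en E k), pw a i := fun k x =>
    MF.zk_bd a _ _ T S f g hf.2 hg.2 k x
  have hint2 : ∀ k l, Integrable (fun x => Z k x * Z l x) μ := by
    intro k l
    refine MF.int_of_bd μ _ ((hmeas k).mul (hmeas l))
      ((1 + ∑ i ∈ Ioc (en E (k - 1)) (en E k), pw a i) *
        (1 + ∑ i ∈ Ioc (en E (l - 1)) (en E l), pw a i)) fun x => ?_
    rw [abs_mul]
    exact mul_le_mul (hbdd k x) (hbdd l x) (abs_nonneg _) ((abs_nonneg _).trans (hbdd k x))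
  have hsq : ∀ k ∈ Ioc 0 N, ∫ x, Z k x ^ 2 ∂μ ≤ 4 * (N : ℝ) ^ (2 * kp a b) := by
    intro k hk
    rw [Finset.mem_Ioc] at hk
    have h1 : ∀ x, Z k x ^ 2 ≤ 4 * (N : ℝ) ^ (2 * kp a b) := by
      intro x
      have h2 := hN3 (k - 1) (by omega)
      rw [Nat.sub_add_cancel (by omega : 1 ≤ k)] at h2
      have h3 := hbdd k x
      have h4 : (1 : ℝ) ≤ (N : ℝ) ^ kp a b := Real.one_le_rpow hN0 hκ.le
      have h5 : |Z k x| ≤ 2 * (N : ℝ) ^ kp a b := by linarith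
      have h6 : (N : ℝ) ^ (2 * kp a b) = ((N : ℝ) ^ kp a b) ^ 2 := by
        rw [← Real.rpow_natCast, ← Real.rpow_mul (by linarith)]
        congr 1; push_cast; ring
      rw [h6, ← sq_abs]
      nlinarith [abs_nonneg (Z k x)]
    calc ∫ x, Z k x ^ 2 ∂μ ≤ ∫ _x, 4 * (N : ℝ) ^ (2 * kp a b) ∂μ := by
          refine integral_mono ?_ (integrable_const _) h1
          simpa [sq] using hint2 k k
      _ = 4 * (N : ℝ) ^ (2 * kp a b) := by simp
  have hI1 : ∀ k, Integrable (fun x => Z k x ^ 2) μ := fun k => by simpa [sq] using hint2 k k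
  -- the pointwise inequality
  have hpt : ∀ x, (∑ k ∈ Ioc 0 N, Z k x) ^ 2 ≤ ((N + M : ℝ) / (M : ℝ) ^ 2) *
      (M * ∑ k ∈ Ioc 0 N, Z k x ^ 2 + 2 * ∑ m ∈ Ico 1 M, ((M : ℝ) - m) *
        ∑ k ∈ Ioc 0 (N - m), Z k x * Z (k + m) x) := fun x => hV N M (fun k => Z k x) hM1
  have hIA : Integrable (fun x => (M : ℝ) * ∑ k ∈ Ioc 0 N, Z k x ^ 2) μ :=
    (integrable_finset_sum _ fun k _ => hI1 k).const_mul _
  have hIm : ∀ m, Integrable (fun x => ((M : ℝ) - m) *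
      ∑ k ∈ Ioc 0 (N - m), Z k x * Z (k + m) x) μ := fun m =>
    (integrable_finset_sum _ fun k _ => hint2 k (k + m)).const_mul _
  have hIB : Integrable (fun x => 2 * ∑ m ∈ Ico 1 M, ((M : ℝ) - m) *
        ∑ k ∈ Ioc 0 (N - m), Z k x * Z (k + m) x) μ :=
    (integrable_finset_sum _ fun m _ => hIm m).const_mul _
  have hIL : Integrable (fun x => (∑ k ∈ Ioc 0 N, Z k x) ^ 2) μ := by
    have : (fun x => (∑ k ∈ Ioc 0 N, Z k x) ^ 2) =
        fun x => ∑ k ∈ Ioc 0 N, ∑ l ∈ Ioc 0 N, Z k x * Z l x := by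
      funext x; rw [sq, Finset.sum_mul_sum]
    rw [this]
    exact integrable_finset_sum _ fun k _ => integrable_finset_sum _ fun l _ => hint2 k l
  have hint : ∫ x, (∑ k ∈ Ioc 0 N, Z k x) ^ 2 ∂μ ≤ ((N + M : ℝ) / (M : ℝ) ^ 2) *
      (M * (∑ k ∈ Ioc 0 N, ∫ x, Z k x ^ 2 ∂μ) + 2 * ∑ m ∈ Ico 1 M, ((M : ℝ) - m) *
        ∑ k ∈ Ioc 0 (N - m), ∫ x, Z k x * Z (k + m) x ∂μ) := by
    refine (integral_mono hIL ((hIA.add hIB).const_mul _) hpt).trans (le_of_eq ?_)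
    rw [integral_const_mul]
    congr 1
    rw [integral_add' hIA hIB]
    congr 1
    · rw [integral_const_mul, integral_finset_sum _ fun k _ => hI1 k]
    · rw [integral_const_mul, integral_finset_sum _ fun m _ => hIm m]
      congr 1
      refine Finset.sum_congr rfl fun m _ => ?_
      rw [integral_const_mul, integral_finset_sum _ fun k _ => hint2 k (k + m)]
  refine hint.trans (hfin _ _ ?_ ?_ hκ')
  · calc ∑ k ∈ Ioc 0 N, ∫ x, Z k x ^ 2 ∂μ ≤ ∑ _k ∈ Ioc 0 N, 4 * (N : ℝ) ^ (2 * kp a b) :=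
          Finset.sum_le_sum hsq
      _ = (N : ℝ) * (4 * (N : ℝ) ^ (2 * kp a b)) := by simp
  · calc ∑ m ∈ Ico 1 M, ((M : ℝ) - m) * ∑ k ∈ Ioc 0 (N - m), ∫ x, Z k x * Z (k + m) x ∂μ
        ≤ ∑ _m ∈ Ico 1 M, (M : ℝ) * (N : ℝ) ^ (1 - 7 * kp a b) := by
          refine Finset.sum_le_sum fun m hm => ?_
          rw [Finset.mem_Ico] at hm
          have hm1 : (m : ℝ) < M := by exact_mod_cast hm.2
          have h1 := hN1 m hm.1 (by linarith) X μ T S f g hSy hf hg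
          have h2 := (le_abs_self _).trans h1
          have h3 : 0 ≤ (N : ℝ) ^ (1 - 7 * kp a b) := by positivity
          calc ((M : ℝ) - m) * ∑ k ∈ Ioc 0 (N - m), ∫ x, Z k x * Z (k + m) x ∂μ
              ≤ ((M : ℝ) - m) * (N : ℝ) ^ (1 - 7 * kp a b) :=
                mul_le_mul_of_nonneg_left h2 (by linarith)
            _ ≤ (M : ℝ) * (N : ℝ) ^ (1 - 7 * kp a b) :=
                mul_le_mul_of_nonneg_right (by simp) h3
      _ = ((M - 1 : ℕ) : ℝ) * ((M : ℝ) * (N : ℝ) ^ (1 - 7 * kp a b)) := by simp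
      _ ≤ (M : ℝ) * ((M : ℝ) * (N : ℝ) ^ (1 - 7 * kp a b)) := by
          refine mul_le_mul_of_nonneg_right ?_ (by positivity)
          exact_mod_cast Nat.sub_le M 1
      _ = (M : ℝ) ^ 2 * (N : ℝ) ^ (1 - 7 * kp a b) := by ring

end Pool.Agent.H505RS
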