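import Pool.Agent.H505RS.Defs

/-!
Project RS, task MRE: Borel-Cantelli for the matrix events.
-/

set_option autoImplicit false

noncomputable section

namespace Pool.Agent.H505RS

open scoped BigOperators ENNReal Topology InnerProductSpace
open Finset Filter MeasureTheory ProbabilityTheory

universe v

namespace MRE

private lemma al_pos {a : ℝ} (h0 : 0 < a) (h1 : a < 1 / 2) : 0 < al a := by
  unfold al
  exact div_pos h0 (by linarith)

private lemma al_lt {a : ℝ} (h1 : a < 1 / 2) : al a < 1 := by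
  unfold al
  rw [div_lt_one (by linarith)]
  linarith

private lemma core (x κ μ : ℝ) (hx : 1 ≤ x) (hκ : 0 < κ) (hμ : μ < 1) (hT : 36 ≤ x ^ κ) :
    x ^ (-(25 * κ) - (1 - μ + 11 * κ) / 2) * (1 + 4 * x ^ (12 * κ)) ^ 2 ≤ 1 ∧
    2 * (x ^ (-(25 * κ) - (1 - μ + 11 * κ) / 2)) ^ 2 * (1 + 4 * x ^ (12 * κ)) ^ 4 *
      x ^ (-μ + 11 * κ) * x ≤ 1 ∧
    x ^ (-(25 * κ) - (1 - μ + 11 * κ) / 2) * x ^ ((1 - μ) / 2 + 32 * κ) = x ^ (3 / 2 * κ) := by
  have hx0 : 0 < x := by linarith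
  have h12 : 1 ≤ x ^ (12 * κ) := Real.one_le_rpow hx (by linarith)
  have hB : 1 + 4 * x ^ (12 * κ) ≤ 5 * x ^ (12 * κ) := by linarith
  have hB0 : 0 ≤ 1 + 4 * x ^ (12 * κ) := by linarith
  have e24 : (x ^ (12 * κ)) ^ 2 = x ^ (24 * κ) := by
    rw [← Real.rpow_natCast, ← Real.rpow_mul hx0.le]
    congr 1
    push_cast
    ring
  have e48 : (x ^ (12 * κ)) ^ 4 = x ^ (48 * κ) := by
    rw [← Real.rpow_natCast, ← Real.rpow_mul hx0.le]
    congr 1
    push_cast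
    ring
  have hB2 : (1 + 4 * x ^ (12 * κ)) ^ 2 ≤ 25 * x ^ (24 * κ) := by
    calc (1 + 4 * x ^ (12 * κ)) ^ 2 ≤ (5 * x ^ (12 * κ)) ^ 2 := pow_le_pow_left₀ hB0 hB 2
      _ = 25 * x ^ (24 * κ) := by rw [mul_pow, e24]; norm_num
  have hB4 : (1 + 4 * x ^ (12 * κ)) ^ 4 ≤ 625 * x ^ (48 * κ) := by
    calc (1 + 4 * x ^ (12 * κ)) ^ 4 ≤ (5 * x ^ (12 * κ)) ^ 4 := pow_le_pow_left₀ hB0 hB 4
      _ = 625 * x ^ (48 * κ) := by rw [mul_pow, e48]; norm_num
  have hlam : x ^ (-(25 * κ) - (1 - μ + 11 * κ) / 2) ≤ x ^ (-(25 * κ)) :=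
    Real.rpow_le_rpow_of_exponent_le hx (by linarith)
  have hlam0 : 0 < x ^ (-(25 * κ) - (1 - μ + 11 * κ) / 2) := Real.rpow_pos_of_pos hx0 _
  have hTi : x ^ (-κ) ≤ 1 / 36 := by
    rw [Real.rpow_neg hx0.le, ← one_div]
    exact one_div_le_one_div_of_le (by norm_num) hT
  refine ⟨?_, ?_, ?_⟩
  · calc x ^ (-(25 * κ) - (1 - μ + 11 * κ) / 2) * (1 + 4 * x ^ (12 * κ)) ^ 2
        ≤ x ^ (-(25 * κ)) * (25 * x ^ (24 * κ)) := by
          apply mul_le_mul hlam hB2 (by positivity) (by positivity)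
      _ = 25 * (x ^ (-(25 * κ)) * x ^ (24 * κ)) := by ring
      _ = 25 * x ^ (-κ) := by
          rw [← Real.rpow_add hx0]
          congr 2
          ring
      _ ≤ 1 := by linarith
  · have el : (x ^ (-(25 * κ) - (1 - μ + 11 * κ) / 2)) ^ 2 =
        x ^ (-(50 * κ) - (1 - μ + 11 * κ)) := by
      rw [← Real.rpow_natCast, ← Real.rpow_mul hx0.le]
      congr 1
      push_cast
      ring
    have e2 : x ^ (-(2 * κ)) ≤ 1 / 1296 := by
      have : x ^ (-(2 * κ)) = x ^ (-κ) * x ^ (-κ) := by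
        rw [← Real.rpow_add hx0]
        congr 1
        ring
      rw [this]
      have h0 : 0 ≤ x ^ (-κ) := Real.rpow_nonneg hx0.le _
      nlinarith
    calc 2 * (x ^ (-(25 * κ) - (1 - μ + 11 * κ) / 2)) ^ 2 * (1 + 4 * x ^ (12 * κ)) ^ 4 *
          x ^ (-μ + 11 * κ) * x
        ≤ 2 * (x ^ (-(25 * κ) - (1 - μ + 11 * κ) / 2)) ^ 2 * (625 * x ^ (48 * κ)) *
          x ^ (-μ + 11 * κ) * x := by
          gcongr
      _ = 1250 * (x ^ (-(50 * κ) - (1 - μ + 11 * κ)) * x ^ (48 * κ) *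
          x ^ (-μ + 11 * κ) * x ^ (1 : ℝ)) := by
          rw [el, Real.rpow_one]
          ring
      _ = 1250 * x ^ (-(2 * κ)) := by
          rw [← Real.rpow_add hx0, ← Real.rpow_add hx0, ← Real.rpow_add hx0]
          congr 2
          ring
      _ ≤ 1 := by linarith
  · rw [← Real.rpow_add hx0]
    congr 1
    ring

private lemma summ (δ : ℝ) (hδ : 0 < δ) :
    Summable (fun N : ℕ => (N : ℝ) ^ 12 * Real.exp (-(N : ℝ) ^ δ)) := by
  have h1 : Tendsto (fun N : ℕ => ((N : ℝ) ^ δ)) atTop atTop :=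
    (tendsto_rpow_atTop hδ).comp tendsto_natCast_atTop_atTop
  have h2 := (isLittleO_exp_neg_mul_rpow_atTop (a := 1) one_pos (-(14 / δ))).comp_tendsto h1
  have h3 : Summable (fun N : ℕ => ((N : ℝ) ^ (-2 : ℝ))) :=
    Real.summable_nat_rpow.mpr (by norm_num)
  refine summable_of_isBigO_nat h3 ?_
  have h4 : (fun N : ℕ => (N : ℝ) ^ 12 * Real.exp (-(N : ℝ) ^ δ)) =O[atTop]
      (fun N : ℕ => (N : ℝ) ^ 12 * ((N : ℝ) ^ δ) ^ (-(14 / δ))) := by
    apply Asymptotics.IsBigO.mul (Asymptotics.isBigO_refl _ _)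
    have h5 := h2.isBigO
    refine Asymptotics.IsBigO.congr' h5 ?_ ?_
    · filter_upwards with N
      simp [Function.comp]
    · filter_upwards with N
      rfl
  refine h4.congr' (by rfl) ?_
  filter_upwards [eventually_ge_atTop 1] with N hN
  have hN0 : (0 : ℝ) < N := by exact_mod_cast hN
  rw [← Real.rpow_mul hN0.le, ← Real.rpow_natCast, ← Real.rpow_add hN0]
  congr 1
  have : δ * -(14 / δ) = -14 := by
    field_simp
  rw [this]
  norm_num

/-- the bad event of one triple -/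
def Ev {Ω : Type v} (a b : ℝ) (A B : ℕ → Set Ω) (N m k1 k2 : ℕ) : Set Ω :=
  {ω | ∃ (ξ : Fin (UU a b N m) → ℂ) (η : Fin (WW a b N m) → ℂ),
      (N : ℝ) ^ ((1 - mn a b) / 2 + 32 * kp a b) *
        (Real.sqrt (∑ u, ‖ξ u‖ ^ 2) * Real.sqrt (∑ w, ‖η w‖ ^ 2)) <
        ‖∑ j ∈ Icc 1 N, ∑ u, ∑ w, ξ u * η w *
          ME (par a b N m) k1 k2 (en (EA A ω)) (en (EA B ω)) j u w‖}

private lemma ceil_le {N : ℕ} {c : ℝ} (hN : 1 ≤ N) (hc : c ≤ 2) :
    (⌈(N : ℝ) ^ c⌉₊ : ℝ) ≤ (N : ℝ) ^ 2 := by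
  have h1 : (1 : ℝ) ≤ N := by exact_mod_cast hN
  have h2 : (N : ℝ) ^ c ≤ ((N ^ 2 : ℕ) : ℝ) := by
    push_cast
    calc (N : ℝ) ^ c ≤ (N : ℝ) ^ (2 : ℝ) := Real.rpow_le_rpow_of_exponent_le h1 hc
      _ = (N : ℝ) ^ 2 := by norm_num
  have h3 : ⌈(N : ℝ) ^ c⌉₊ ≤ N ^ 2 := Nat.ceil_le.mpr h2
  calc (⌈(N : ℝ) ^ c⌉₊ : ℝ) ≤ ((N ^ 2 : ℕ) : ℝ) := by exact_mod_cast h3
    _ = (N : ℝ) ^ 2 := by push_cast; rfl

private lemma one_bound (hPB : S_PB.{v}) (Ω : Type v) [MeasurableSpace Ω] (P : Measure Ω)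
    (a b : ℝ) (A B : ℕ → Set Ω) (ha0 : 0 < a) (ha1 : a < 1 / 2) (hb0 : 0 < b) (hb1 : b < 1 / 2)
    (hR : Rnd P a b A B) (N : ℕ) (hN : 1 ≤ N) (hT : 36 ≤ (N : ℝ) ^ (kp a b))
    (m k1 k2 : ℕ) (hm1 : 1 ≤ m) (hmN : m ≤ N) :
    P (Ev a b A B N m k1 k2) ≤
      ENNReal.ofReal (6 * (N : ℝ) ^ 3 * Real.exp (1 - (N : ℝ) ^ (3 / 2 * kp a b))) := by
  have hala := al_pos ha0 ha1
  have halb := al_pos hb0 hb1
  have hala1 := al_lt ha1
  have halb1 := al_lt hb1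
  have hmx : mx a b < 1 := max_lt hala1 halb1
  have hmx0 : 0 < mx a b := lt_max_of_lt_left hala
  have hmn1 : mn a b < 1 := min_lt_of_left_lt hala1
  have hκ : 0 < kp a b := by
    unfold kp
    linarith
  have hκ1 : kp a b ≤ 1 / 200 := by
    unfold kp
    linarith
  have hN1 : (1 : ℝ) ≤ N := by exact_mod_cast hN
  have hN0 : (0 : ℝ) < N := by linarith
  obtain ⟨c1, c2, c3⟩ := core (N : ℝ) (kp a b) (mn a b) hN1 hκ hmn1 hT
  set lam : ℝ := (N : ℝ) ^ (-(25 * kp a b) - (1 - mn a b + 11 * kp a b) / 2) with hlam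
  have hlam0 : 0 ≤ lam := Real.rpow_nonneg hN0.le _
  have hHy : Hy (par a b N m) lam :=
    { a0 := ha0
      a1 := by show a < 1; linarith
      b0 := hb0
      b1 := by show b < 1; linarith
      m1 := hm1
      B0 := by show 0 ≤ 4 * (N : ℝ) ^ (12 * kp a b); positivity
      r0 := by show 0 ≤ (N : ℝ) ^ (-mn a b + 11 * kp a b); positivity
      l0 := hlam0
      l1 := c1 }
  have hK0 : 0 ≤ (N : ℝ) ^ ((1 - mn a b) / 2 + 32 * kp a b) := Real.rpow_nonneg hN0.le _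
  have h := hPB Ω P A B (par a b N m) k1 k2 lam ((N : ℝ) ^ ((1 - mn a b) / 2 + 32 * kp a b))
    (UU a b N m) (WW a b N m) N hHy hK0 hR
  refine le_trans h ?_
  apply ENNReal.ofReal_le_ofReal
  have hU : ((UU a b N m : ℕ) : ℝ) ≤ 3 * (N : ℝ) ^ 3 := by
    unfold UU
    push_cast
    have h1 : ((m : ℝ) + 2) ≤ 3 * N := by
      have : (m : ℝ) ≤ N := by exact_mod_cast hmN
      linarith
    have h2 := ceil_le (N := N) (c := al a + kp a b) hN (by linarith)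
    calc ((m : ℝ) + 2) * (⌈(N : ℝ) ^ (al a + kp a b)⌉₊ : ℝ) ≤ (3 * N) * (N : ℝ) ^ 2 := by
          apply mul_le_mul h1 h2 (by positivity) (by positivity)
      _ = 3 * (N : ℝ) ^ 3 := by ring
  have hW : ((WW a b N m : ℕ) : ℝ) ≤ 3 * (N : ℝ) ^ 3 := by
    unfold WW
    push_cast
    have h1 : ((m : ℝ) + 2) ≤ 3 * N := by
      have : (m : ℝ) ≤ N := by exact_mod_cast hmN
      linarith
    have h2 := ceil_le (N := N) (c := al b + kp a b) hN (by linarith)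
    calc ((m : ℝ) + 2) * (⌈(N : ℝ) ^ (al b + kp a b)⌉₊ : ℝ) ≤ (3 * N) * (N : ℝ) ^ 2 := by
          apply mul_le_mul h1 h2 (by positivity) (by positivity)
      _ = 3 * (N : ℝ) ^ 3 := by ring
  have hE : Real.exp (2 * lam ^ 2 * (1 + (par a b N m).B) ^ 4 * (par a b N m).ρ * N -
      lam * (N : ℝ) ^ ((1 - mn a b) / 2 + 32 * kp a b)) ≤
      Real.exp (1 - (N : ℝ) ^ (3 / 2 * kp a b)) := by
    apply Real.exp_le_exp.mpr
    rw [c3]
    have : 2 * lam ^ 2 * (1 + (par a b N m).B) ^ 4 * (par a b N m).ρ * N ≤ 1 := c2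
    linarith
  apply mul_le_mul _ hE (Real.exp_pos _).le (by positivity)
  linarith

end MRE

open MRE in
/-- MRE -/
theorem t_MRE : S_PB.{v} → S_MRE.{v} := by
  intro hPB Ω _ P a b A B ha0 ha1 hb0 hb1 hR
  have hala := al_pos ha0 ha1
  have halb := al_pos hb0 hb1
  have hala1 := al_lt ha1
  have halb1 := al_lt hb1
  have hmx : mx a b < 1 := max_lt hala1 halb1
  have hmx0 : 0 < mx a b := lt_max_of_lt_left hala
  have hκ : 0 < kp a b := by
    unfold kp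
    linarith
  have hκ1 : kp a b ≤ 1 / 200 := by
    unfold kp
    linarith
  have hev : ∀ᶠ N : ℕ in atTop, 1 ≤ N ∧ 36 ≤ (N : ℝ) ^ (kp a b) := by
    have h1 : Tendsto (fun N : ℕ => ((N : ℝ) ^ (kp a b))) atTop atTop :=
      (tendsto_rpow_atTop hκ).comp tendsto_natCast_atTop_atTop
    filter_upwards [eventually_ge_atTop 1, h1.eventually_ge_atTop 36] with N h1 h2
    exact ⟨h1, h2⟩
  -- the bad event
  let Bad : ℕ → Set Ω := fun N => {ω | (1 ≤ N ∧ 36 ≤ (N : ℝ) ^ (kp a b)) ∧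
    ω ∈ ⋃ m ∈ Icc 1 N, ⋃ k1 ∈ range (3 * N ^ 4), ⋃ k2 ∈ range (3 * N ^ 4),
      Ev a b A B N m k1 k2}
  have hBad : ∀ N, P (Bad N) ≤ ENNReal.ofReal
      (54 * Real.exp 1 * ((N : ℝ) ^ 12 * Real.exp (-(N : ℝ) ^ (3 / 2 * kp a b)))) := by
    intro N
    by_cases hg : 1 ≤ N ∧ 36 ≤ (N : ℝ) ^ (kp a b)
    · have hsub : Bad N ⊆ ⋃ m ∈ Icc 1 N, ⋃ k1 ∈ range (3 * N ^ 4), ⋃ k2 ∈ range (3 * N ^ 4),
          Ev a b A B N m k1 k2 := fun ω hω => hω.2
      have hbd : ∀ m ∈ Icc 1 N, ∀ k1 ∈ range (3 * N ^ 4), ∀ k2 ∈ range (3 * N ^ 4),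
          P (Ev a b A B N m k1 k2) ≤ ENNReal.ofReal
            (6 * (N : ℝ) ^ 3 * Real.exp (1 - (N : ℝ) ^ (3 / 2 * kp a b))) := by
        intro m hm k1 _ k2 _
        rw [Finset.mem_Icc] at hm
        exact one_bound hPB Ω P a b A B ha0 ha1 hb0 hb1 hR N hg.1 hg.2 m k1 k2 hm.1 hm.2
      set c : ℝ≥0∞ := ENNReal.ofReal
            (6 * (N : ℝ) ^ 3 * Real.exp (1 - (N : ℝ) ^ (3 / 2 * kp a b))) with hc
      calc P (Bad N) ≤ P (⋃ m ∈ Icc 1 N, ⋃ k1 ∈ range (3 * N ^ 4), ⋃ k2 ∈ range (3 * N ^ 4),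
            Ev a b A B N m k1 k2) := measure_mono hsub
        _ ≤ ∑ m ∈ Icc 1 N, P (⋃ k1 ∈ range (3 * N ^ 4), ⋃ k2 ∈ range (3 * N ^ 4),
            Ev a b A B N m k1 k2) := measure_biUnion_finset_le _ _
        _ ≤ ∑ m ∈ Icc 1 N, ∑ k1 ∈ range (3 * N ^ 4), P (⋃ k2 ∈ range (3 * N ^ 4),
            Ev a b A B N m k1 k2) := by
            apply Finset.sum_le_sum
            intro m _
            exact measure_biUnion_finset_le _ _
        _ ≤ ∑ m ∈ Icc 1 N, ∑ k1 ∈ range (3 * N ^ 4), ∑ k2 ∈ range (3 * N ^ 4),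
            P (Ev a b A B N m k1 k2) := by
            apply Finset.sum_le_sum
            intro m _
            apply Finset.sum_le_sum
            intro k1 _
            exact measure_biUnion_finset_le _ _
        _ ≤ ∑ m ∈ Icc 1 N, ∑ k1 ∈ range (3 * N ^ 4), ∑ k2 ∈ range (3 * N ^ 4), c := by
            apply Finset.sum_le_sum
            intro m hm
            apply Finset.sum_le_sum
            intro k1 hk1
            apply Finset.sum_le_sum
            intro k2 hk2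
            exact hbd m hm k1 hk1 k2 hk2
        _ = ((N * ((3 * N ^ 4) * (3 * N ^ 4)) : ℕ) : ℝ≥0∞) * c := by
            simp only [Finset.sum_const, Finset.card_range, Nat.card_Icc, nsmul_eq_mul,
              Nat.add_sub_cancel]
            push_cast
            ring
        _ = ENNReal.ofReal ((N * ((3 * N ^ 4) * (3 * N ^ 4)) : ℕ) : ℝ) * c := by
            rw [ENNReal.ofReal_natCast]
        _ = ENNReal.ofReal (54 * Real.exp 1 *
            ((N : ℝ) ^ 12 * Real.exp (-(N : ℝ) ^ (3 / 2 * kp a b)))) := by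
            rw [hc, ← ENNReal.ofReal_mul (Nat.cast_nonneg _)]
            congr 1
            rw [sub_eq_add_neg, Real.exp_add]
            push_cast
            ring
    · have : Bad N = ∅ := by
        ext ω
        simp only [Bad, Set.mem_ofPred_eq, Set.mem_empty_iff_false, iff_false, not_and]
        intro h
        exact absurd h hg
      rw [this, measure_empty]
      exact bot_le
  have hsum : ∑' N, P (Bad N) ≠ ∞ := by
    have h1 : Summable (fun N : ℕ => 54 * Real.exp 1 *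
        ((N : ℝ) ^ 12 * Real.exp (-(N : ℝ) ^ (3 / 2 * kp a b)))) :=
      (summ (3 / 2 * kp a b) (by linarith)).mul_left _
    refine ne_top_of_le_ne_top h1.tsum_ofReal_ne_top ?_
    exact ENNReal.tsum_le_tsum hBad
  have hae := ae_eventually_notMem hsum
  filter_upwards [hae] with ω hω
  unfold MRv
  filter_upwards [hω, hev] with N hN hg
  intro m hm1 hm2 k1 k2 hk1 hk2 ξ η
  by_contra hcon
  rw [not_le] at hcon
  apply hN
  refine ⟨hg, ?_⟩
  have hN1 : (1 : ℝ) ≤ N := by exact_mod_cast hg.1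
  have hmN : m ≤ N := by
    have h1 : (m : ℝ) ≤ N := by
      calc (m : ℝ) ≤ (N : ℝ) ^ (4 * kp a b) := hm2
        _ ≤ (N : ℝ) ^ (1 : ℝ) := Real.rpow_le_rpow_of_exponent_le hN1 (by linarith)
        _ = N := Real.rpow_one _
    exact_mod_cast h1
  simp only [Set.mem_iUnion, Finset.mem_Icc, Finset.mem_range]
  exact ⟨m, ⟨hm1, hmN⟩, k1, hk1, k2, hk2, ξ, η, hcon⟩

end Pool.Agent.H505RS
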