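import Pool.Agent.H505RS.Defs

set_option autoImplicit false

noncomputable section

namespace Pool.Agent.H505RS

open scoped BigOperators ENNReal Topology InnerProductSpace
open Finset Filter MeasureTheory ProbabilityTheory

universe u v

namespace PB

theorem dil_add (hDL : S_DL) {U W : ℕ} (M M' : Fin U → Fin W → ℂ) :
    dil (fun u w => M u w + M' u w) = dil M + dil M' := by
  have h1 := hDL U W (fun u w => M u w + M' u w)
  have h2 := hDL U W M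
  have h3 := hDL U W M'
  refine LinearMap.ext fun v => ?_
  ext i
  rcases i with u | w
  · rw [LinearMap.add_apply, PiLp.add_apply, h1.2.1, h2.2.1, h3.2.1, ← Finset.sum_add_distrib]
    exact Finset.sum_congr rfl fun w _ => by ring
  · rw [LinearMap.add_apply, PiLp.add_apply, h1.2.2.1, h2.2.2.1, h3.2.2.1,
      ← Finset.sum_add_distrib]
    exact Finset.sum_congr rfl fun w _ => by rw [map_add]; ring

theorem dil_zero (hDL : S_DL) {U W : ℕ} :
    dil (fun (_ : Fin U) (_ : Fin W) => (0 : ℂ)) = 0 := by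
  have h1 := hDL U W (fun _ _ => 0)
  refine LinearMap.ext fun v => ?_
  ext i
  rcases i with u | w
  · rw [h1.2.1]; simp
  · rw [h1.2.2.1]; simp

theorem dil_sum (hDL : S_DL) {U W : ℕ} (s : Finset ℕ) (M : ℕ → Fin U → Fin W → ℂ) :
    dil (fun u w => ∑ j ∈ s, M j u w) = ∑ j ∈ s, dil (M j) := by
  classical
  induction s using Finset.induction_on with
  | empty => simpa using dil_zero hDL
  | insert a s ha ih =>
    rw [Finset.sum_insert ha, ← ih, ← dil_add hDL]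
    congr 1
    funext u w
    rw [Finset.sum_insert ha]

theorem sum_XJ (hDL : S_DL) (p : Par) (k1 k2 : ℕ) (lam : ℝ) (U W N : ℕ) (y : ℕ → ℕ × ℕ) :
    ∑ j ∈ Icc 1 N, XJ p k1 k2 lam U W y j = (lam : ℂ) • dil (fun (u : Fin U) (w : Fin W) =>
      ∑ j ∈ Icc 1 N, ME p k1 k2 (fun n => (y n).1) (fun n => (y n).2) j u w) := by
  rw [dil_sum hDL, Finset.smul_sum]
  rfl

end PB

theorem t_PB : S_PM.{v} → S_MBN → S_XC → S_DL → S_PB.{v} := by
  intro hPM hMBN hXC hDL Ω _ P A B p k1 k2 lam K U W N hy hK hR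
  have hX := hXC p k1 k2 lam U W hy
  have hρ : 0 ≤ 2 * lam ^ 2 * (1 + p.B) ^ 4 * p.ρ := by
    have := hy.r0
    have := hy.B0
    positivity
  set ρ' : ℝ := 2 * lam ^ 2 * (1 + p.B) ^ 4 * p.ρ with hρ'
  set Φ : (ℕ → ℕ × ℕ) → ℝ≥0∞ := fun y =>
    ENNReal.ofReal (RC14.rtr (RC14.ex (∑ j ∈ Icc 1 N, XJ p k1 k2 lam U W y j))) with hΦ
  have hdep : ∀ y y', (∀ i ≤ N, y i = y' i) → Φ y = Φ y' := by
    intro y y' h
    have h2 : ∑ j ∈ Icc 1 N, XJ p k1 k2 lam U W y j = ∑ j ∈ Icc 1 N, XJ p k1 k2 lam U W y' j :=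
      Finset.sum_congr rfl (fun j hj => hX.dep j y y' (fun i hi => h i (hi.trans (mem_Icc.1 hj).2)))
    simp only [hΦ, h2]
  obtain ⟨hmeas, hint⟩ := hPM Ω P p.a p.b A B hy.a0 hy.a1 hy.b0 hy.b1 hR N Φ hdep
  have hEN := hMBN (VV U W) p.a p.b ρ' (XJ p k1 k2 lam U W) hy.a0 hy.a1 hy.b0 hy.b1 hρ hX N
    (fun _ => (0, 0))
  have hfin : Module.finrank ℂ (VV U W) = U + W := by
    rw [finrank_euclideanSpace, Fintype.card_sum, Fintype.card_fin, Fintype.card_fin]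
  rw [hfin] at hEN
  have hsub : {ω | ∃ (ξ : Fin U → ℂ) (η : Fin W → ℂ),
      K * (Real.sqrt (∑ u, ‖ξ u‖ ^ 2) * Real.sqrt (∑ w, ‖η w‖ ^ 2)) <
        ‖∑ j ∈ Icc 1 N, ∑ u, ∑ w, ξ u * η w *
          ME p k1 k2 (en (EA A ω)) (en (EA B ω)) j u w‖} ⊆
      {ω | ENNReal.ofReal (Real.exp (lam * K)) ≤ Φ (pth A B ω)} := by
    rintro ω ⟨ξ, η, h⟩
    have hD := (hDL U W (fun u w => ∑ j ∈ Icc 1 N,
      ME p k1 k2 (en (EA A ω)) (en (EA B ω)) j u w)).2.2.2.2 lam K hy.l0 hK ⟨ξ, η, by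
        refine lt_of_lt_of_eq h ?_
        congr 1
        rw [Finset.sum_comm]
        refine Finset.sum_congr rfl fun u _ => ?_
        rw [Finset.sum_comm]
        refine Finset.sum_congr rfl fun w _ => ?_
        rw [Finset.mul_sum]⟩
    have h3 := PB.sum_XJ hDL p k1 k2 lam U W N (pth A B ω)
    show ENNReal.ofReal (Real.exp (lam * K)) ≤
      ENNReal.ofReal (RC14.rtr (RC14.ex (∑ j ∈ Icc 1 N, XJ p k1 k2 lam U W (pth A B ω) j)))
    rw [h3]
    exact ENNReal.ofReal_le_ofReal hD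
  have hmark := mul_meas_ge_le_lintegral (μ := P) hmeas (ENNReal.ofReal (Real.exp (lam * K)))
  have h4 : ENNReal.ofReal (Real.exp (lam * K)) * P {ω | ∃ (ξ : Fin U → ℂ) (η : Fin W → ℂ),
      K * (Real.sqrt (∑ u, ‖ξ u‖ ^ 2) * Real.sqrt (∑ w, ‖η w‖ ^ 2)) <
        ‖∑ j ∈ Icc 1 N, ∑ u, ∑ w, ξ u * η w *
          ME p k1 k2 (en (EA A ω)) (en (EA B ω)) j u w‖} ≤
      ENNReal.ofReal ((1 + ρ') ^ N * ((U + W : ℕ) : ℝ)) :=
    (mul_le_mul_right (measure_mono hsub) _).trans (hmark.trans (hint.trans hEN))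
  generalize P {ω | ∃ (ξ : Fin U → ℂ) (η : Fin W → ℂ),
      K * (Real.sqrt (∑ u, ‖ξ u‖ ^ 2) * Real.sqrt (∑ w, ‖η w‖ ^ 2)) <
        ‖∑ j ∈ Icc 1 N, ∑ u, ∑ w, ξ u * η w *
          ME p k1 k2 (en (EA A ω)) (en (EA B ω)) j u w‖} = Q at h4 ⊢
  have h5 : Q = ENNReal.ofReal (Real.exp (-(lam * K))) *
      (ENNReal.ofReal (Real.exp (lam * K)) * Q) := by
    rw [← mul_assoc, ← ENNReal.ofReal_mul (Real.exp_pos _).le, ← Real.exp_add]
    simp
  rw [h5]
  refine (mul_le_mul_right h4 _).trans ?_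
  rw [← ENNReal.ofReal_mul (Real.exp_pos _).le]
  refine ENNReal.ofReal_le_ofReal ?_
  have h6 : (1 + ρ') ^ N ≤ Real.exp (ρ' * N) := by
    have h7 : (1 + ρ') ^ N ≤ (Real.exp ρ') ^ N :=
      pow_le_pow_left₀ (by linarith) (by linarith [Real.add_one_le_exp ρ']) N
    rw [← Real.exp_nat_mul] at h7
    rwa [mul_comm ρ' (N : ℝ)]
  have h8 : Real.exp (ρ' * N - lam * K) = Real.exp (ρ' * N) * Real.exp (-(lam * K)) := by
    rw [← Real.exp_add]; ring_nf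
  rw [h8]
  push_cast
  have h9 : (0 : ℝ) ≤ (U : ℝ) + W := by positivity
  have h10 := Real.exp_pos (-(lam * K))
  calc Real.exp (-(lam * K)) * ((1 + ρ') ^ N * ((U : ℝ) + W))
      ≤ Real.exp (-(lam * K)) * (Real.exp (ρ' * N) * ((U : ℝ) + W)) := by gcongr
    _ = _ := by ring

end Pool.Agent.H505RS
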