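import Pool.Agent.H505RS.Defs

set_option autoImplicit false

noncomputable section

namespace Pool.Agent.H505RS

open scoped BigOperators
open Finset

universe u

namespace PI

theorem Dk_old {X : Type u} (T : X → X) (f : X → ℝ) (p : Par) (s : ℕ → ℕ) (j : ℕ)
    (hj : p.m + 1 ≤ j) (hs : StrictMono s) (x : X) :
    Dk p.a s T f (j - p.m) x =
      ∑ i ∈ Ioc (s (j - p.m - 1)) (s (j - p.m)), og p s j i * f (T^[i] x) := by
  have hmem : s (j - p.m) ∈ Ioc (s (j - p.m - 1)) (s (j - p.m)) := by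
    rw [Finset.mem_Ioc]
    exact ⟨hs (by omega), le_refl _⟩
  unfold Dk og
  simp only [sub_mul, Finset.sum_sub_distrib, ite_mul, one_mul, zero_mul]
  rw [Finset.sum_ite_eq' , if_pos hmem]

theorem Dk_new {X : Type u} (T : X → X) (f : X → ℝ) (a : ℝ) (G : ℕ) (s : ℕ → ℕ) (j : ℕ)
    (hj : 1 ≤ j) (hs : StrictMono s) (hG : s j ≤ s (j - 1) + G) (x : X) :
    Dk a s T f j x =
      ∑ n ∈ Ioc (s (j - 1)) (s j), sg a G (s (j - 1)) (s j) n * f (T^[n] x) := by
  have hmem : s j ∈ Ioc (s (j - 1)) (s j) := by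
    rw [Finset.mem_Ioc]
    exact ⟨hs (by omega), le_refl _⟩
  have h1 : ∀ n ∈ Ioc (s (j - 1)) (s j), sg a G (s (j - 1)) (s j) n * f (T^[n] x) =
      ((if n = s j then 1 else 0) - pw a n) * f (T^[n] x) := by
    intro n hn
    rw [Finset.mem_Ioc] at hn
    unfold sg
    rw [if_pos ⟨hn.1, hn.2, by omega⟩]
  rw [Finset.sum_congr rfl h1]
  unfold Dk
  simp only [sub_mul, Finset.sum_sub_distrib, ite_mul, one_mul, zero_mul]
  rw [Finset.sum_ite_eq' , if_pos hmem]

theorem window (a : ℝ) (G s2 s3 i U : ℕ) (F : ℕ → ℝ) (h1 : i ≤ s2) (h2 : s3 < i + U) :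
    ∑ u : Fin U, sg a G s2 s3 (i + u) * F (i + u) = ∑ n ∈ Ioc s2 s3, sg a G s2 s3 n * F n := by
  rw [Fin.sum_univ_eq_sum_range (fun u => sg a G s2 s3 (i + u) * F (i + u)) U]
  have h3 : ∑ u ∈ range U, sg a G s2 s3 (i + u) * F (i + u) =
      ∑ n ∈ Ico i (i + U), sg a G s2 s3 n * F n := by
    rw [Finset.sum_Ico_eq_sum_range]
    congr 1
    rw [Nat.add_sub_cancel_left]
  rw [h3]
  symm
  apply Finset.sum_subset
  · intro n hn
    rw [Finset.mem_Ioc] at hn
    rw [Finset.mem_Ico]
    omega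
  · intro n _ hn
    rw [Finset.mem_Ioc] at hn
    unfold sg
    rw [if_neg, zero_mul]
    rintro ⟨ha, hb, _⟩
    exact hn ⟨ha, hb⟩

end PI

theorem t_PI : S_PI.{u} := by
  intro X T S f g p s t j U W R hm hj hs ht hG hU hW hsR htR x
  have hs1 : s (j - p.m) ≤ s (j - 1) := hs.monotone (by omega)
  have hs2 : s (j - 1) ≤ s j := hs.monotone (by omega)
  have ht1 : t (j - p.m) ≤ t j := ht.monotone (by omega)
  have hinner : ∀ (u : Fin U), ∑ w : Fin W, ∑ i ∈ range (R + 1), ∑ r ∈ range (R + 1),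
      cf p s t j u w i r * ((f (T^[i] x) * f (T^[i + u] x)) * (g (S^[r] x) * g (S^[r + w] x))) =
      ∑ i ∈ Ioc (s (j - p.m - 1)) (s (j - p.m)),
        (og p s j i * f (T^[i] x)) * (sg p.a p.G (s (j - 1)) (s j) (i + u) * f (T^[i + u] x)) *
          (g (S^[t (j - p.m)] x) * g (S^[t j] x)) := by
    intro u
    rw [Finset.sum_eq_single (⟨t j - t (j - p.m), by omega⟩ : Fin W)]
    · have hsub : Ioc (s (j - p.m - 1)) (s (j - p.m)) ⊆ range (R + 1) := by
        intro i hi
        rw [Finset.mem_Ioc] at hi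
        rw [Finset.mem_range]
        omega
      rw [← Finset.sum_subset hsub]
      · refine Finset.sum_congr rfl fun i hi => ?_
        rw [Finset.mem_Ioc] at hi
        rw [Finset.sum_eq_single (t (j - p.m))]
        · unfold cf
          rw [if_pos ⟨hi, rfl, rfl⟩]
          have e : t (j - p.m) + ((⟨t j - t (j - p.m), by omega⟩ : Fin W) : ℕ) = t j := by
            show t (j - p.m) + (t j - t (j - p.m)) = t j
            omega
          rw [e]
          ring
        · intro r _ hr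
          unfold cf
          rw [if_neg, zero_mul]
          rintro ⟨_, h, _⟩
          exact hr h
        · intro h
          exact absurd (Finset.mem_range.2 (by omega)) h
      · intro i _ hi
        refine Finset.sum_eq_zero fun r _ => ?_
        unfold cf
        rw [if_neg, zero_mul]
        rintro ⟨h, _⟩
        exact hi (Finset.mem_Ioc.2 h)
    · intro w _ hw
      refine Finset.sum_eq_zero fun i _ => Finset.sum_eq_zero fun r _ => ?_
      unfold cf
      rw [if_neg, zero_mul]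
      rintro ⟨_, _, h⟩
      exact hw (Fin.ext h)
    · intro h
      exact absurd (Finset.mem_univ _) h
  rw [Finset.sum_congr rfl fun u _ => hinner u, Finset.sum_comm]
  have hlast : ∀ i ∈ Ioc (s (j - p.m - 1)) (s (j - p.m)),
      ∑ u : Fin U, (og p s j i * f (T^[i] x)) *
        (sg p.a p.G (s (j - 1)) (s j) (i + u) * f (T^[i + u] x)) *
          (g (S^[t (j - p.m)] x) * g (S^[t j] x)) =
      (og p s j i * f (T^[i] x)) * (Dk p.a s T f j x * (g (S^[t (j - p.m)] x) * g (S^[t j] x))) := by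
    intro i hi
    rw [Finset.mem_Ioc] at hi
    rw [← Finset.sum_mul, ← Finset.mul_sum,
      PI.window p.a p.G (s (j - 1)) (s j) i U (fun n => f (T^[n] x)) (by omega) (by omega),
      ← PI.Dk_new T f p.a p.G s j (by omega) hs hG x]
    ring
  rw [Finset.sum_congr rfl hlast, ← Finset.sum_mul, ← PI.Dk_old T f p s j hj hs x]
  unfold Zk
  ring

end Pool.Agent.H505RS
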