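import Pool.Agent.H505RS.Defs

set_option autoImplicit false

namespace Pool.Agent.H505RS

open scoped BigOperators ENNReal Topology InnerProductSpace
open Finset Filter MeasureTheory ProbabilityTheory

universe u v

theorem t_PJ : S_PJ.{u} := by
  intro X _ μ T S Ψ R hR hsy hΨ hbd
  obtain ⟨C, hC⟩ := hbd
  have hp : IsProbabilityMeasure μ := hsy.prob
  have hmp : ∀ j1 j2 : ℕ, MeasurePreserving (fun x => T^[j1] (S^[j2] x)) μ μ := fun j1 j2 =>
    (hsy.mT.iterate j1).comp (hsy.mS.iterate j2)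
  have hint : ∀ j1 j2 : ℕ, ∫ x, Ψ (T^[j1] (S^[j2] x)) ∂μ = ∫ x, Ψ x ∂μ := by
    intro j1 j2
    have h := integral_map (μ := μ) (φ := fun x => T^[j1] (S^[j2] x)) (f := Ψ)
      (hmp j1 j2).measurable.aemeasurable hΨ.aestronglyMeasurable
    rw [(hmp j1 j2).map_eq] at h
    exact h.symm
  have hI : ∀ j1 j2 : ℕ, Integrable (fun x => Ψ (T^[j1] (S^[j2] x))) μ := fun j1 j2 =>
    Integrable.of_bound (hΨ.comp (hmp j1 j2).measurable).aestronglyMeasurable C
      (Eventually.of_forall fun x => by rw [Real.norm_eq_abs]; exact hC _)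
  have e : ∫ x, ∑ j1 ∈ range R, ∑ j2 ∈ range R, Ψ (T^[j1] (S^[j2] x)) ∂μ =
      (R : ℝ) ^ 2 * ∫ x, Ψ x ∂μ := by
    rw [integral_finsetSum _ (fun j1 _ => integrable_finsetSum _ (fun j2 _ => hI j1 j2))]
    have : ∀ j1 ∈ range R, ∫ x, ∑ j2 ∈ range R, Ψ (T^[j1] (S^[j2] x)) ∂μ =
        (R : ℝ) * ∫ x, Ψ x ∂μ := by
      intro j1 _
      rw [integral_finsetSum _ (fun j2 _ => hI j1 j2), Finset.sum_congr rfl
        (fun j2 _ => hint j1 j2), Finset.sum_const, Finset.card_range, nsmul_eq_mul]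
    rw [Finset.sum_congr rfl this, Finset.sum_const, Finset.card_range, nsmul_eq_mul]
    ring
  rw [e]
  have hR0 : (R : ℝ) ≠ 0 := by
    have : 0 < R := hR
    positivity
  field_simp

end Pool.Agent.H505RS
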