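import Pool.Agent.H505RS.Defs

/-! Task PM: the law of the path (upper bound). -/

set_option autoImplicit false

noncomputable section

namespace Pool.Agent.H505RS

open scoped BigOperators ENNReal Topology InnerProductSpace
open Finset Filter MeasureTheory ProbabilityTheory

universe u v

namespace PM

/-- the abstract induction -/
lemma ind {a b : ℝ} (J : ℕ → (ℕ → ℕ × ℕ) → ℝ≥0∞)
    (hJ : ∀ k y, J k y = ∑' z : ℕ × ℕ, J (k + 1) (Function.update y (k + 1) z))
    (W : ℕ → (ℕ → ℕ × ℕ) → ℝ≥0∞) (hW0 : ∀ y, W 0 y = 1)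
    (hW : ∀ k y z, W (k + 1) (Function.update y (k + 1) z) = W k y * kk a b (y k) z) (N : ℕ) :
    ∀ Φ : (ℕ → ℕ × ℕ) → ℝ≥0∞, (∀ y, y 0 = (0, 0) → J N y ≤ W N y * Φ y) →
      ∀ y, y 0 = (0, 0) → J 0 y ≤ EN a b N Φ y := by
  induction N with
  | zero =>
    intro Φ h y hy
    have := h y hy
    rwa [hW0, one_mul] at this
  | succ N ih =>
    intro Φ h y hy
    refine ih (Lk a b (N + 1) Φ) ?_ y hy
    intro y hy
    rw [hJ, Lk, ← ENNReal.tsum_mul_left]
    refine ENNReal.tsum_le_tsum fun z => ?_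
    have h1 := h (Function.update y (N + 1) z) (by
      rw [Function.update_of_ne (by omega)]; exact hy)
    rw [hW] at h1
    rw [← mul_assoc]
    exact h1

/-- the predicate of the enumeration -/
def pr {Ω : Type*} (A : ℕ → Set Ω) (ω : Ω) (n : ℕ) : Prop := 1 ≤ n ∧ n ∈ EA A ω

lemma en_succ {Ω : Type*} (A : ℕ → Set Ω) (ω : Ω) (k : ℕ) :
    en (EA A ω) (k + 1) = Nat.nth (pr A ω) k := rfl

section Meas

variable {Ω : Type*} [MeasurableSpace Ω]

open Classical in
lemma meas_pr {A : ℕ → Set Ω} (hA : ∀ n, MeasurableSet (A n)) (m : ℕ) :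
    MeasurableSet {ω | pr A ω m} := by
  by_cases h : 1 ≤ m
  · have : {ω | pr A ω m} = A m := by
      ext ω; simp [pr, EA, h]
    rw [this]; exact hA m
  · have : {ω | pr A ω m} = ∅ := by
      ext ω; simp [pr, h]
    rw [this]; exact MeasurableSet.empty

open Classical in
lemma meas_count {A : ℕ → Set Ω} (hA : ∀ n, MeasurableSet (A n)) (m : ℕ) :
    Measurable (fun ω => Nat.count (pr A ω) m) := by
  induction m with
  | zero => simp only [Nat.count_zero]; exact measurable_const
  | succ m ih =>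
    simp only [Nat.count_succ]
    exact ih.add (Measurable.ite (meas_pr hA m) measurable_const measurable_const)

open Classical in
lemma nth_eq_iff (p : ℕ → Prop) (k m : ℕ) (hm : 1 ≤ m) :
    Nat.nth p k = m ↔ p m ∧ Nat.count p m = k := by
  constructor
  · intro h
    have hk : ∀ hf : (Set.ofPred p).Finite, k < hf.toFinset.card := by
      intro hf
      by_contra hlt
      push Not at hlt
      have := Nat.nth_of_card_le hf hlt
      omega
    have h1 : p (Nat.nth p k) := Nat.nth_mem k hk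
    have h2 : Nat.count p (Nat.nth p k) = k := Nat.count_nth hk
    rw [h] at h1 h2
    exact ⟨h1, h2⟩
  · rintro ⟨h1, h2⟩
    rw [← h2]
    exact Nat.nth_count h1

lemma meas_en {A : ℕ → Set Ω} (hA : ∀ n, MeasurableSet (A n)) (k : ℕ) :
    Measurable (fun ω => en (EA A ω) k) := by
  classical
  cases k with
  | zero => exact measurable_const
  | succ k =>
    simp only [en_succ]
    have h1 : ∀ m, 1 ≤ m → MeasurableSet {ω | Nat.nth (pr A ω) k = m} := by
      intro m hm
      have : {ω | Nat.nth (pr A ω) k = m} = {ω | pr A ω m} ∩ {ω | Nat.count (pr A ω) m = k} := by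
        ext ω
        exact nth_eq_iff (pr A ω) k m hm
      rw [this]
      exact (meas_pr hA m).inter (meas_count hA m (measurableSet_singleton k))
    refine measurable_to_countable' fun m => ?_
    rcases Nat.eq_zero_or_pos m with rfl | hm
    · have : (fun ω => Nat.nth (pr A ω) k) ⁻¹' {0} =
          (⋃ m : ℕ, {ω | Nat.nth (pr A ω) k = m + 1})ᶜ := by
        ext ω
        simp only [Set.mem_preimage, Set.mem_singleton_iff, Set.mem_compl_iff, Set.mem_iUnion,
          Set.mem_ofPred_eq, not_exists]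
        constructor
        · intro h m; omega
        · intro h
          by_contra h0
          exact h (Nat.nth (pr A ω) k - 1) (by omega)
      rw [this]
      exact (MeasurableSet.iUnion fun m => h1 (m + 1) (by omega)).compl
    · exact h1 m hm

lemma meas_pth {A B : ℕ → Set Ω} (hA : ∀ n, MeasurableSet (A n)) (hB : ∀ n, MeasurableSet (B n))
    (k : ℕ) : Measurable (fun ω => pth A B ω k) :=
  (meas_en hA k).prodMk (meas_en hB k)

end Meas

section Prob

variable {Ω : Type*} [MeasurableSpace Ω] {P : Measure Ω}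

lemma tsum_pw {a : ℝ} (ha1 : a < 1) : ∑' n : ℕ, ENNReal.ofReal (pw a (n + 1)) = ∞ := by
  by_contra h
  have h1 := ENNReal.summable_toReal h
  have h2 : Summable (fun n : ℕ => ((n + 1 : ℕ) : ℝ) ^ (-a)) := by
    refine h1.congr fun n => ?_
    rw [ENNReal.toReal_ofReal]
    · rfl
    · unfold pw; positivity
  rw [summable_nat_add_iff 1 (f := fun n : ℕ => (n : ℝ) ^ (-a)), Real.summable_nat_rpow] at h2
  linarith

lemma inf_ae {a : ℝ} {A : ℕ → Set Ω} [IsProbabilityMeasure P] (mA : ∀ n, MeasurableSet (A n))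
    (pA : ∀ n, 1 ≤ n → P (A n) = ENNReal.ofReal (pw a n)) (ha1 : a < 1)
    (hind : iIndepSet (fun n => A (n + 1)) P) : ∀ᵐ ω ∂P, (Set.ofPred (pr A ω)).Infinite := by
  have h1 := measure_limsup_eq_one (fun n => mA (n + 1)) hind (by
    rw [← tsum_pw ha1]
    exact tsum_congr fun n => pA (n + 1) (by omega))
  have hm : MeasurableSet (limsup (fun n => A (n + 1)) atTop) :=
    MeasurableSet.measurableSet_limsup fun n => mA (n + 1)
  have h2 : ∀ᵐ ω ∂P, ω ∈ limsup (fun n => A (n + 1)) atTop := by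
    rw [ae_iff]
    have := (prob_compl_eq_zero_iff hm).2 h1
    exact this
  filter_upwards [h2] with ω hω
  rw [mem_limsup_iff_frequently_mem, Nat.frequently_atTop_iff_infinite] at hω
  refine (hω.image (Nat.succ_injective.injOn)).mono ?_
  rintro _ ⟨n, hn, rfl⟩
  exact ⟨by omega, hn⟩

omit [MeasurableSpace Ω] in
lemma en_lt {A : ℕ → Set Ω} {ω : Ω} (hi : (Set.ofPred (pr A ω)).Infinite) (k : ℕ) :
    en (EA A ω) k < en (EA A ω) (k + 1) := by
  cases k with
  | zero => exact (Nat.nth_mem_of_infinite hi 0).1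
  | succ k =>
    simp only [en_succ]
    exact Nat.nth_strictMono hi (Nat.lt_succ_self k)

omit [MeasurableSpace Ω] in
lemma mem_iff {A : ℕ → Set Ω} {ω : Ω} (hi : (Set.ofPred (pr A ω)).Infinite) (N i : ℕ) (h1 : 1 ≤ i)
    (hN : i ≤ en (EA A ω) N) : ω ∈ A i ↔ ∃ k, 1 ≤ k ∧ k ≤ N ∧ en (EA A ω) k = i := by
  constructor
  · intro h
    have hp : pr A ω i := ⟨h1, h⟩
    obtain ⟨m, hm⟩ : ∃ m, Nat.nth (pr A ω) m = i := by
      have : i ∈ Set.range (Nat.nth (pr A ω)) := by rw [Nat.range_nth_of_infinite hi]; exact hp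
      exact this
    refine ⟨m + 1, by omega, ?_, hm⟩
    by_contra hlt
    push Not at hlt
    have := strictMono_nat_of_lt_succ (en_lt hi) hlt
    rw [en_succ, hm] at this
    omega
  · rintro ⟨k, hk1, hkN, rfl⟩
    obtain ⟨k, rfl⟩ : ∃ k', k = k' + 1 := ⟨k - 1, by omega⟩
    exact (Nat.nth_mem_of_infinite hi k).2

/-- the pattern weights -/
def be (a : ℝ) (R : Set ℕ) (i : ℕ) : ℝ≥0∞ :=
  open Classical in if i ∈ R then ENNReal.ofReal (pw a i) else ENNReal.ofReal (1 - pw a i)

lemma pw_nonneg (a : ℝ) (i : ℕ) : 0 ≤ pw a i := by unfold pw; positivity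

lemma pw_le_one {a : ℝ} (ha : 0 < a) {i : ℕ} (hi : 1 ≤ i) : pw a i ≤ 1 :=
  Real.rpow_le_one_of_one_le_of_nonpos (by exact_mod_cast hi) (by linarith)

lemma prod_be {a : ℝ} (ha : 0 < a) (σ : ℕ → ℕ) (N : ℕ) (h0 : σ 0 = 0)
    (hσ : ∀ k < N, σ k < σ (k + 1)) (R : Set ℕ)
    (hR : ∀ i, i ∈ R ↔ ∃ k, 1 ≤ k ∧ k ≤ N ∧ σ k = i) :
    ∀ M ≤ N, ∏ n ∈ range (σ M), be a R (n + 1) =
      ∏ k ∈ range M, ENNReal.ofReal (q a (σ k) (σ (k + 1))) := by
  have hmono : ∀ k j, j < k → k ≤ N → σ j < σ k := by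
    intro k
    induction k with
    | zero => intro j h; omega
    | succ k ih =>
      intro j hj hk
      have h1 := hσ k (by omega)
      rcases Nat.lt_or_ge j k with h | h
      · exact (ih j h (by omega)).trans h1
      · have : j = k := by omega
        rw [this]; exact h1
  intro M
  induction M with
  | zero => intro _; rw [h0]; simp
  | succ M ih =>
    intro hM
    have hlt := hσ M (by omega)
    rw [Finset.prod_range_succ, ← ih (by omega), ← Finset.prod_range_mul_prod_Ico _ hlt.le]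
    congr 1
    obtain ⟨t', ht'⟩ : ∃ t', σ (M + 1) = t' + 1 := ⟨σ (M + 1) - 1, by omega⟩
    rw [q, if_pos hlt, ht', Finset.prod_Ico_succ_top (by omega)]
    rw [ENNReal.ofReal_mul (pw_nonneg _ _), mul_comm]
    congr 1
    · have : t' + 1 ∈ R := (hR _).2 ⟨M + 1, by omega, hM, ht'⟩
      rw [be, if_pos this]
    · rw [ENNReal.ofReal_prod_of_nonneg]
      · have e1 : ∏ n ∈ Ico (σ M) t', be a R (n + 1) = ∏ i ∈ Ico (σ M + 1) (t' + 1), be a R i :=
          Finset.prod_Ico_add' (fun i => be a R i) (σ M) t' 1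
        have e2 : Ico (σ M + 1) (t' + 1) = Ioo (σ M) (t' + 1) := by
          ext i; simp only [Finset.mem_Ico, Finset.mem_Ioo]; omega
        rw [e1, e2]
        refine Finset.prod_congr rfl fun i hi => ?_
        rw [Finset.mem_Ioo] at hi
        have : i ∉ R := by
          rw [hR]
          rintro ⟨k, hk1, hkN, hk⟩
          rcases Nat.lt_or_ge k (M + 1) with h | h
          · rcases Nat.lt_or_ge k M with h' | h'
            · have := hmono M k h' (by omega)
              omega
            · have : k = M := by omega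
              subst this; omega
          · rcases Nat.lt_or_ge (M + 1) k with h' | h'
            · have := hmono k (M + 1) h' hkN
              omega
            · have : k = M + 1 := by omega
              subst this; omega
        rw [be, if_neg this]
      · intro i hi
        rw [Finset.mem_Ioo] at hi
        have := pw_le_one ha (show 1 ≤ i by omega)
        linarith

lemma pat {a b : ℝ} {A B : ℕ → Set Ω} (h : Rnd P a b A B) (R R' : Set ℕ) (s t : ℕ) :
    P {ω | (∀ i, 1 ≤ i → i ≤ s → (ω ∈ A i ↔ i ∈ R)) ∧ (∀ i, 1 ≤ i → i ≤ t → (ω ∈ B i ↔ i ∈ R'))} ≤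
      (∏ n ∈ range s, be a R (n + 1)) * ∏ n ∈ range t, be b R' (n + 1) := by
  classical
  have := h.prob
  let f : ℕ ⊕ ℕ → Set Ω := Sum.elim (fun n => if n + 1 ∈ R then A (n + 1) else (A (n + 1))ᶜ)
    (fun n => if n + 1 ∈ R' then B (n + 1) else (B (n + 1))ᶜ)
  have hsub : {ω | (∀ i, 1 ≤ i → i ≤ s → (ω ∈ A i ↔ i ∈ R)) ∧
      (∀ i, 1 ≤ i → i ≤ t → (ω ∈ B i ↔ i ∈ R'))} ⊆ ⋂ x ∈ (range s).disjSum (range t), f x := by
    rintro ω ⟨h1, h2⟩
    refine Set.mem_iInter₂.2 fun x hx => ?_
    rcases x with n | n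
    · rw [Finset.inl_mem_disjSum, Finset.mem_range] at hx
      have h3 := h1 (n + 1) (by omega) (by omega)
      change ω ∈ (if n + 1 ∈ R then A (n + 1) else (A (n + 1))ᶜ)
      by_cases hR : n + 1 ∈ R
      · rw [if_pos hR]; exact h3.2 hR
      · rw [if_neg hR]; exact fun h4 => hR (h3.1 h4)
    · rw [Finset.inr_mem_disjSum, Finset.mem_range] at hx
      have h3 := h2 (n + 1) (by omega) (by omega)
      change ω ∈ (if n + 1 ∈ R' then B (n + 1) else (B (n + 1))ᶜ)
      by_cases hR : n + 1 ∈ R'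
      · rw [if_pos hR]; exact h3.2 hR
      · rw [if_neg hR]; exact fun h4 => hR (h3.1 h4)
  have hind := (iIndepSet_iff_iIndep _ _).1 h.ind
  have hprod := hind.meas_biInter (S := (range s).disjSum (range t)) (s := f) (by
    rintro (n | n) _
    · have hg : MeasurableSet[MeasurableSpace.generateFrom {A (n + 1)}] (A (n + 1)) :=
        MeasurableSpace.measurableSet_generateFrom rfl
      change MeasurableSet[MeasurableSpace.generateFrom {A (n + 1)}]
        (if n + 1 ∈ R then A (n + 1) else (A (n + 1))ᶜ)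
      by_cases hR : n + 1 ∈ R
      · rw [if_pos hR]; exact hg
      · rw [if_neg hR]; exact hg.compl
    · have hg : MeasurableSet[MeasurableSpace.generateFrom {B (n + 1)}] (B (n + 1)) :=
        MeasurableSpace.measurableSet_generateFrom rfl
      change MeasurableSet[MeasurableSpace.generateFrom {B (n + 1)}]
        (if n + 1 ∈ R' then B (n + 1) else (B (n + 1))ᶜ)
      by_cases hR : n + 1 ∈ R'
      · rw [if_pos hR]; exact hg
      · rw [if_neg hR]; exact hg.compl)
  refine (measure_mono hsub).trans ?_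
  rw [hprod, Finset.prod_disjSum]
  refine le_of_eq ?_
  congr 1
  · refine Finset.prod_congr rfl fun n _ => ?_
    change P (if n + 1 ∈ R then A (n + 1) else (A (n + 1))ᶜ) = _
    rw [be]
    by_cases hR : n + 1 ∈ R
    · rw [if_pos hR, if_pos hR]; exact h.pA _ (by omega)
    · rw [if_neg hR, if_neg hR, prob_compl_eq_one_sub (h.mA _), h.pA _ (by omega),
        ENNReal.ofReal_sub _ (pw_nonneg _ _), ENNReal.ofReal_one]
  · refine Finset.prod_congr rfl fun n _ => ?_
    change P (if n + 1 ∈ R' then B (n + 1) else (B (n + 1))ᶜ) = _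
    rw [be]
    by_cases hR : n + 1 ∈ R'
    · rw [if_pos hR, if_pos hR]; exact h.pB _ (by omega)
    · rw [if_neg hR, if_neg hR, prob_compl_eq_one_sub (h.mB _), h.pB _ (by omega),
        ENNReal.ofReal_sub _ (pw_nonneg _ _), ENNReal.ofReal_one]

/-- the probability of a prefix -/
lemma agree {a b : ℝ} {A B : ℕ → Set Ω} (ha : 0 < a) (ha1 : a < 1) (hb : 0 < b) (hb1 : b < 1)
    (h : Rnd P a b A B) (N : ℕ) (y : ℕ → ℕ × ℕ) (hy : y 0 = (0, 0)) :
    P {ω | ∀ i ≤ N, pth A B ω i = y i} ≤ ∏ k ∈ range N, kk a b (y k) (y (k + 1)) := by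
  have := h.prob
  have hi1 : iIndepSet (Sum.elim (fun n => A (n + 1)) (fun n => B (n + 1)) ∘ Sum.inl) P :=
    h.ind.precomp Sum.inl_injective
  have hi2 : iIndepSet (Sum.elim (fun n => A (n + 1)) (fun n => B (n + 1)) ∘ Sum.inr) P :=
    h.ind.precomp Sum.inr_injective
  have hiA : ∀ᵐ ω ∂P, (Set.ofPred (pr A ω)).Infinite := inf_ae h.mA h.pA ha1 hi1
  have hiB : ∀ᵐ ω ∂P, (Set.ofPred (pr B ω)).Infinite := inf_ae h.mB h.pB hb1 hi2
  by_cases hinc : (∀ k < N, (y k).1 < (y (k + 1)).1) ∧ (∀ k < N, (y k).2 < (y (k + 1)).2)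
  · obtain ⟨h1, h2⟩ := hinc
    have hR := pat h {i | ∃ k, 1 ≤ k ∧ k ≤ N ∧ (y k).1 = i} {i | ∃ k, 1 ≤ k ∧ k ≤ N ∧ (y k).2 = i}
      (y N).1 (y N).2
    have g1 := prod_be ha (fun k => (y k).1) N (by simp [hy]) h1
      {i | ∃ k, 1 ≤ k ∧ k ≤ N ∧ (y k).1 = i} (fun i => Iff.rfl) N le_rfl
    have g2 := prod_be hb (fun k => (y k).2) N (by simp [hy]) h2
      {i | ∃ k, 1 ≤ k ∧ k ≤ N ∧ (y k).2 = i} (fun i => Iff.rfl) N le_rfl
    rw [g1, g2, ← Finset.prod_mul_distrib] at hR
    refine le_trans (measure_mono_ae ?_) hR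
    filter_upwards [hiA, hiB] with ω hA hB hω
    have hω' : ∀ i ≤ N, pth A B ω i = y i := hω
    have e1 : ∀ i ≤ N, en (EA A ω) i = (y i).1 := fun i hi => congrArg Prod.fst (hω' i hi)
    have e2 : ∀ i ≤ N, en (EA B ω) i = (y i).2 := fun i hi => congrArg Prod.snd (hω' i hi)
    constructor
    · intro i hi1 hiN
      rw [mem_iff hA N i hi1 (by rw [e1 N le_rfl]; exact hiN)]
      constructor
      · rintro ⟨k, hk1, hkN, hk⟩; exact ⟨k, hk1, hkN, by rw [← e1 k hkN]; exact hk⟩
      · rintro ⟨k, hk1, hkN, hk⟩; exact ⟨k, hk1, hkN, by rw [e1 k hkN]; exact hk⟩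
    · intro i hi1 hiN
      rw [mem_iff hB N i hi1 (by rw [e2 N le_rfl]; exact hiN)]
      constructor
      · rintro ⟨k, hk1, hkN, hk⟩; exact ⟨k, hk1, hkN, by rw [← e2 k hkN]; exact hk⟩
      · rintro ⟨k, hk1, hkN, hk⟩; exact ⟨k, hk1, hkN, by rw [e2 k hkN]; exact hk⟩
  · have : P {ω | ∀ i ≤ N, pth A B ω i = y i} = 0 := by
      have h3 : ∀ᵐ ω ∂P, ¬ (∀ i ≤ N, pth A B ω i = y i) := by
        filter_upwards [hiA, hiB] with ω hA hB hω
        apply hinc
        constructor
        · intro k hk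
          rw [← hω k (by omega), ← hω (k + 1) (by omega)]
          exact en_lt hA k
        · intro k hk
          rw [← hω k (by omega), ← hω (k + 1) (by omega)]
          exact en_lt hB k
      have h4 := ae_iff.1 h3
      simpa using h4
    rw [this]
    exact bot_le

end Prob

end PM

theorem t_PM : S_QF → S_PM := by
  intro _ Ω _ P a b A B ha ha1 hb hb1 h N Φ hΦ
  have := h.prob
  have hmp := PM.meas_pth h.mA h.mB
  have hmeas : Measurable (fun ω => Φ (pth A B ω)) := by
    let g : (Fin (N + 1) → ℕ × ℕ) → ℝ≥0∞ := fun v => Φ (fun i => if hi : i < N + 1 then v ⟨i, hi⟩ else 0)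
    have e : (fun ω => Φ (pth A B ω)) = g ∘ (fun ω => fun i : Fin (N + 1) => pth A B ω i) := by
      funext ω
      refine hΦ _ _ fun i hi => ?_
      rw [dif_pos (by omega)]
    rw [e]
    exact (measurable_of_countable g).comp (measurable_pi_iff.2 fun i => hmp i)
  refine ⟨hmeas, ?_⟩
  have hset : ∀ k (y : ℕ → ℕ × ℕ), MeasurableSet {ω | ∀ i ≤ k, pth A B ω i = y i} := by
    intro k y
    have : {ω | ∀ i ≤ k, pth A B ω i = y i} = ⋂ i, ⋂ (_ : i ≤ k), {ω | pth A B ω i = y i} := by
      ext ω; simp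
    rw [this]
    exact MeasurableSet.iInter fun i => MeasurableSet.iInter fun _ =>
      hmp i (measurableSet_singleton (y i))
  have key := PM.ind (a := a) (b := b)
    (fun k y => ∫⁻ ω in {ω | ∀ i ≤ k, pth A B ω i = y i}, Φ (pth A B ω) ∂P) ?_
    (fun k y => ∏ j ∈ range k, kk a b (y j) (y (j + 1))) (fun y => by simp) ?_ N Φ ?_
    (fun _ => (0, 0)) rfl
  · refine le_trans (le_of_eq ?_) key
    have : {ω | ∀ i ≤ 0, pth A B ω i = (fun _ => ((0 : ℕ), (0 : ℕ))) i} = Set.univ := by
      ext ω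
      simp only [Nat.le_zero, forall_eq, Set.mem_ofPred_eq, Set.mem_univ, iff_true]
      rfl
    simp only [this, setLIntegral_univ]
  · intro k y
    have e : {ω | ∀ i ≤ k, pth A B ω i = y i} =
        ⋃ z : ℕ × ℕ, {ω | ∀ i ≤ k + 1, pth A B ω i = Function.update y (k + 1) z i} := by
      ext ω
      simp only [Set.mem_ofPred_eq, Set.mem_iUnion]
      constructor
      · intro h1
        refine ⟨pth A B ω (k + 1), fun i hi => ?_⟩
        rcases Nat.lt_or_ge i (k + 1) with h2 | h2
        · rw [Function.update_of_ne (by omega)]; exact h1 i (by omega)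
        · have : i = k + 1 := by omega
          subst this
          rw [Function.update_self]
      · rintro ⟨z, hz⟩ i hi
        have := hz i (by omega)
        rwa [Function.update_of_ne (by omega)] at this
    rw [e, lintegral_iUnion (fun z => hset (k + 1) _)]
    intro z z' hzz
    refine Set.disjoint_left.2 fun ω h1 h2 => hzz ?_
    have e1 : pth A B ω (k + 1) = Function.update y (k + 1) z (k + 1) := h1 (k + 1) le_rfl
    have e2 : pth A B ω (k + 1) = Function.update y (k + 1) z' (k + 1) := h2 (k + 1) le_rfl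
    rw [Function.update_self] at e1 e2
    rw [← e1, ← e2]
  · intro k y z
    rw [Finset.prod_range_succ, Function.update_self, Function.update_of_ne (by omega)]
    congr 1
    refine Finset.prod_congr rfl fun j hj => ?_
    rw [Finset.mem_range] at hj
    rw [Function.update_of_ne (by omega), Function.update_of_ne (by omega)]
  · intro y hy
    have e : ∫⁻ ω in {ω | ∀ i ≤ N, pth A B ω i = y i}, Φ (pth A B ω) ∂P =
        ∫⁻ ω in {ω | ∀ i ≤ N, pth A B ω i = y i}, Φ y ∂P := by
      refine setLIntegral_congr_fun (hset N y) ?_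
      intro ω hω
      exact hΦ _ _ hω
    rw [e, setLIntegral_const, mul_comm]
    exact mul_le_mul_left (PM.agree ha ha1 hb hb1 h N y hy) _

end Pool.Agent.H505RS
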