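import Pool.Agent.H505RS.Defs

set_option autoImplicit false

noncomputable section

namespace Pool.Agent.H505RS

open scoped BigOperators ENNReal Topology InnerProductSpace
open Finset Filter MeasureTheory ProbabilityTheory

universe u v

namespace PR

theorem pw_nonneg (a : ℝ) (n : ℕ) : 0 ≤ pw a n := Real.rpow_nonneg (Nat.cast_nonneg n) _

theorem Zk_bd {X : Type*} [MeasurableSpace X] (a : ℝ) (s t : ℕ → ℕ) (T S : X → X) (f g : X → ℝ)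
    (hf : Bd f) (hg : Bd g) (k : ℕ) (C : ℝ)
    (h : ∑ i ∈ Ioc (s (k - 1)) (s k), pw a i ≤ C) (x : X) :
    |Zk a s t T S f g k x| ≤ 1 + C := by
  have h1 : |Dk a s T f k x| ≤ 1 + C := by
    unfold Dk
    have h2 : |∑ i ∈ Ioc (s (k - 1)) (s k), pw a i * f (T^[i] x)| ≤ C := by
      refine (Finset.abs_sum_le_sum_abs _ _).trans (le_trans (Finset.sum_le_sum fun i _ => ?_) h)
      rw [abs_mul, abs_of_nonneg (pw_nonneg a i)]
      exact mul_le_of_le_one_right (pw_nonneg a i) (hf.2 _)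
    calc |f (T^[s k] x) - ∑ i ∈ Ioc (s (k - 1)) (s k), pw a i * f (T^[i] x)|
        ≤ |f (T^[s k] x)| + |∑ i ∈ Ioc (s (k - 1)) (s k), pw a i * f (T^[i] x)| := abs_sub _ _
      _ ≤ 1 + C := add_le_add (hf.2 _) h2
  unfold Zk
  rw [abs_mul]
  have h3 := hg.2 (S^[t k] x)
  have h4 := abs_nonneg (Dk a s T f k x)
  calc |Dk a s T f k x| * |g (S^[t k] x)| ≤ |Dk a s T f k x| * 1 := by gcongr
    _ ≤ 1 + C := by linarith

theorem al_pos {a : ℝ} (h0 : 0 < a) (h1 : a < 1 / 2) : 0 < al a ∧ al a < 1 := by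
  unfold al
  have : 0 < 1 - a := by linarith
  refine ⟨div_pos h0 this, ?_⟩
  rw [div_lt_one this]
  linarith

theorem sum_shift (m N : ℕ) (hm : m ≤ N) (G : ℕ → ℕ → ℝ) :
    ∑ k ∈ Ioc 0 (N - m), G k (k + m) = ∑ j ∈ Ioc m N, G (j - m) j := by
  refine Finset.sum_bij' (fun k _ => k + m) (fun j _ => j - m) ?_ ?_ ?_ ?_ ?_
  · intro k hk; rw [mem_Ioc] at hk ⊢; omega
  · intro k hk; rw [mem_Ioc] at hk ⊢; omega
  · intro k hk; simp
  · intro k hk; rw [mem_Ioc] at hk; omega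
  · intro k hk; simp

end PR

theorem t_PR : S_PRM.{u} → S_PR.{u} := by
  intro hPRM a b E F ha ha2 hb hb2 hE hF hMR
  obtain ⟨hala0, hala1⟩ := PR.al_pos ha ha2
  obtain ⟨halb0, halb1⟩ := PR.al_pos hb hb2
  have hmx1 : mx a b < 1 := max_lt hala1 halb1
  have hmx0 : 0 < mx a b := lt_max_of_lt_left hala0
  have hmxeq : mx a b = 1 - 200 * kp a b := by unfold kp; ring
  have hsum : al a + al b = mn a b + mx a b := (min_add_max _ _).symm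
  have hkp0 : 0 < kp a b := by linarith
  have hkp1 : kp a b < 1 / 200 := by linarith
  have hJdef : ∀ N m : ℕ, (par a b N m).J = ⌈(N : ℝ) ^ (1 - 10 * kp a b)⌉₊ := fun _ _ => rfl
  have hUU : ∀ N m : ℕ, UU a b N m = (m + 2) * ⌈(N : ℝ) ^ (al a + kp a b)⌉₊ := fun _ _ => rfl
  have hWW : ∀ N m : ℕ, WW a b N m = (m + 2) * ⌈(N : ℝ) ^ (al b + kp a b)⌉₊ := fun _ _ => rfl
  have hP := hPRM a b E F ha ha2 hb hb2 hE hF hMR
  generalize kp a b = κ at *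
  generalize mx a b = Mx at *
  generalize mn a b = Mn at *
  have ht : Tendsto (fun N : ℕ => (N : ℝ) ^ κ) atTop atTop :=
    (tendsto_rpow_atTop hkp0).comp tendsto_natCast_atTop_atTop
  filter_upwards [hP, hE.gapw κ hkp0, eventually_ge_atTop 1,
    ht.eventually_ge_atTop 26] with N h1 h2 hN h26
  intro m hm1 hm X _ μ T S f g hSy hf hg
  have h3 := h1 m hm1 hm X μ T S f g hSy hf hg
  rw [hJdef, hUU, hWW] at h3
  have hN1 : (1 : ℝ) ≤ N := by exact_mod_cast hN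
  have hN0 : (0 : ℝ) < N := by linarith
  have := hSy.prob
  have hmN : m ≤ N := by
    have : (m : ℝ) ≤ N := hm.trans (by
      calc (N : ℝ) ^ (4 * κ) ≤ (N : ℝ) ^ (1 : ℝ) :=
            Real.rpow_le_rpow_of_exponent_le hN1 (by linarith)
        _ = N := Real.rpow_one _)
    exact_mod_cast this
  set J : ℕ := ⌈(N : ℝ) ^ (1 - 10 * κ)⌉₊ with hJ
  have hone : ∀ e : ℝ, 0 ≤ e → (1 : ℝ) ≤ (N : ℝ) ^ e := fun e he => Real.one_le_rpow hN1 he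
  have hceil : ∀ e : ℝ, 0 ≤ e → ((⌈(N : ℝ) ^ e⌉₊ : ℕ) : ℝ) ≤ 2 * (N : ℝ) ^ e := by
    intro e he
    have h4 := (Nat.ceil_lt_add_one (Real.rpow_nonneg hN0.le e)).le
    have h5 := hone e he
    linarith
  have hJN : J ≤ N := by
    rw [hJ, Nat.ceil_le]
    calc (N : ℝ) ^ (1 - 10 * κ) ≤ (N : ℝ) ^ (1 : ℝ) :=
          Real.rpow_le_rpow_of_exponent_le hN1 (by linarith)
      _ = N := Real.rpow_one _
  have hMN : max J m ≤ N := max_le hJN hmN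
  have hrw : ∑ k ∈ Ioc 0 (N - m), ∫ x, Zk a (en E) (en F) T S f g k x *
      Zk a (en E) (en F) T S f g (k + m) x ∂μ =
      ∑ j ∈ Ioc m N, ∫ x, Zk a (en E) (en F) T S f g (j - m) x *
        Zk a (en E) (en F) T S f g j x ∂μ :=
    PR.sum_shift m N hmN (fun k j => ∫ x, Zk a (en E) (en F) T S f g k x *
      Zk a (en E) (en F) T S f g j x ∂μ)
  rw [hrw, ← Finset.sum_Ioc_consecutive _ (le_max_right J m) hMN]
  -- bound of Zk
  have hZ : ∀ k : ℕ, k ≤ N → ∀ x, |Zk a (en E) (en F) T S f g k x| ≤ 1 + (N : ℝ) ^ κ := by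
    intro k hk x
    refine PR.Zk_bd a (en E) (en F) T S f g hf hg k _ ?_ x
    rcases Nat.eq_zero_or_pos k with rfl | hk0
    · simp only [Nat.zero_sub, Ioc_self, Finset.sum_empty]
      exact Real.rpow_nonneg hN0.le _
    · have h6 := h2 (k - 1) (by omega)
      rwa [Nat.sub_add_cancel hk0] at h6
  have hint : ∀ j ∈ Ioc m (max J m), |∫ x, Zk a (en E) (en F) T S f g (j - m) x *
      Zk a (en E) (en F) T S f g j x ∂μ| ≤ (1 + (N : ℝ) ^ κ) ^ 2 := by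
    intro j hj
    rw [mem_Ioc] at hj
    have h7 := norm_integral_le_of_norm_le_const (μ := μ)
      (f := fun x => Zk a (en E) (en F) T S f g (j - m) x * Zk a (en E) (en F) T S f g j x)
      (C := (1 + (N : ℝ) ^ κ) ^ 2) (Filter.Eventually.of_forall fun x => by
        rw [Real.norm_eq_abs, abs_mul, sq]
        exact mul_le_mul (hZ _ (by omega) x) (hZ _ (by omega) x) (abs_nonneg _)
          (by positivity))
    simpa using h7
  have hfirst : |∑ j ∈ Ioc m (max J m), ∫ x, Zk a (en E) (en F) T S f g (j - m) x *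
      Zk a (en E) (en F) T S f g j x ∂μ| ≤ 8 * (N : ℝ) ^ (1 - 8 * κ) := by
    refine (Finset.abs_sum_le_sum_abs _ _).trans ((Finset.sum_le_sum hint).trans ?_)
    rw [Finset.sum_const, Nat.card_Ioc, nsmul_eq_mul]
    have h8 : ((max J m - m : ℕ) : ℝ) ≤ 2 * (N : ℝ) ^ (1 - 10 * κ) := by
      have h9 : (max J m - m : ℕ) ≤ J := by omega
      have h10 : ((max J m - m : ℕ) : ℝ) ≤ J := by exact_mod_cast h9
      exact h10.trans (hceil _ (by linarith))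
    have h11 : (1 + (N : ℝ) ^ κ) ^ 2 ≤ 4 * (N : ℝ) ^ (2 * κ) := by
      have h12 := hone κ hkp0.le
      have h13 : (N : ℝ) ^ (2 * κ) = ((N : ℝ) ^ κ) ^ 2 := by
        rw [mul_comm, Real.rpow_mul hN0.le]; norm_cast
      rw [h13]
      nlinarith
    calc ((max J m - m : ℕ) : ℝ) * (1 + (N : ℝ) ^ κ) ^ 2
        ≤ (2 * (N : ℝ) ^ (1 - 10 * κ)) * (4 * (N : ℝ) ^ (2 * κ)) := by gcongr
      _ = 8 * ((N : ℝ) ^ (1 - 10 * κ) * (N : ℝ) ^ (2 * κ)) := by ring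
      _ = 8 * (N : ℝ) ^ (1 - 8 * κ) := by rw [← Real.rpow_add hN0]; ring_nf
  have hU : (((m + 2) * ⌈(N : ℝ) ^ (al a + κ)⌉₊ : ℕ) : ℝ) ≤ 6 * (N : ℝ) ^ (al a + 5 * κ) := by
    push_cast
    have h14 : (m : ℝ) + 2 ≤ 3 * (N : ℝ) ^ (4 * κ) := by
      have := hone (4 * κ) (by linarith); linarith
    calc ((m : ℝ) + 2) * (⌈(N : ℝ) ^ (al a + κ)⌉₊ : ℝ)
        ≤ (3 * (N : ℝ) ^ (4 * κ)) * (2 * (N : ℝ) ^ (al a + κ)) := by
          have := hceil (al a + κ) (by linarith)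
          gcongr
      _ = 6 * ((N : ℝ) ^ (4 * κ) * (N : ℝ) ^ (al a + κ)) := by ring
      _ = 6 * (N : ℝ) ^ (al a + 5 * κ) := by rw [← Real.rpow_add hN0]; ring_nf
  have hW : (((m + 2) * ⌈(N : ℝ) ^ (al b + κ)⌉₊ : ℕ) : ℝ) ≤ 6 * (N : ℝ) ^ (al b + 5 * κ) := by
    push_cast
    have h14 : (m : ℝ) + 2 ≤ 3 * (N : ℝ) ^ (4 * κ) := by
      have := hone (4 * κ) (by linarith); linarith
    calc ((m : ℝ) + 2) * (⌈(N : ℝ) ^ (al b + κ)⌉₊ : ℝ)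
        ≤ (3 * (N : ℝ) ^ (4 * κ)) * (2 * (N : ℝ) ^ (al b + κ)) := by
          have := hceil (al b + κ) (by linarith)
          gcongr
      _ = 6 * ((N : ℝ) ^ (4 * κ) * (N : ℝ) ^ (al b + κ)) := by ring
      _ = 6 * (N : ℝ) ^ (al b + 5 * κ) := by rw [← Real.rpow_add hN0]; ring_nf
  have hsq : Real.sqrt ((((m + 2) * ⌈(N : ℝ) ^ (al a + κ)⌉₊ : ℕ) : ℝ) *
      (((m + 2) * ⌈(N : ℝ) ^ (al b + κ)⌉₊ : ℕ) : ℝ)) ≤
      6 * (N : ℝ) ^ ((Mn + Mx) / 2 + 5 * κ) := by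
    rw [Real.sqrt_le_left (by positivity)]
    calc (((m + 2) * ⌈(N : ℝ) ^ (al a + κ)⌉₊ : ℕ) : ℝ) *
          (((m + 2) * ⌈(N : ℝ) ^ (al b + κ)⌉₊ : ℕ) : ℝ)
        ≤ (6 * (N : ℝ) ^ (al a + 5 * κ)) * (6 * (N : ℝ) ^ (al b + 5 * κ)) :=
          mul_le_mul hU hW (by positivity) (by positivity)
      _ = 36 * ((N : ℝ) ^ (al a + 5 * κ) * (N : ℝ) ^ (al b + 5 * κ)) := by ring
      _ = 36 * ((N : ℝ) ^ ((Mn + Mx) / 2 + 5 * κ) * (N : ℝ) ^ ((Mn + Mx) / 2 + 5 * κ)) := by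
          rw [← Real.rpow_add hN0, ← Real.rpow_add hN0]
          congr 2
          linarith
      _ = (6 * (N : ℝ) ^ ((Mn + Mx) / 2 + 5 * κ)) ^ 2 := by ring
  have hsecond : 3 * (N : ℝ) ^ ((1 - Mn) / 2 + 32 * κ) *
      Real.sqrt ((((m + 2) * ⌈(N : ℝ) ^ (al a + κ)⌉₊ : ℕ) : ℝ) *
      (((m + 2) * ⌈(N : ℝ) ^ (al b + κ)⌉₊ : ℕ) : ℝ)) ≤ 18 * (N : ℝ) ^ (1 - 8 * κ) := by
    calc 3 * (N : ℝ) ^ ((1 - Mn) / 2 + 32 * κ) *
      Real.sqrt ((((m + 2) * ⌈(N : ℝ) ^ (al a + κ)⌉₊ : ℕ) : ℝ) *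
      (((m + 2) * ⌈(N : ℝ) ^ (al b + κ)⌉₊ : ℕ) : ℝ))
        ≤ 3 * (N : ℝ) ^ ((1 - Mn) / 2 + 32 * κ) * (6 * (N : ℝ) ^ ((Mn + Mx) / 2 + 5 * κ)) := by
          gcongr
      _ = 18 * ((N : ℝ) ^ ((1 - Mn) / 2 + 32 * κ) * (N : ℝ) ^ ((Mn + Mx) / 2 + 5 * κ)) := by ring
      _ ≤ 18 * (N : ℝ) ^ (1 - 8 * κ) := by
          rw [← Real.rpow_add hN0]
          have : (N : ℝ) ^ ((1 - Mn) / 2 + 32 * κ + ((Mn + Mx) / 2 + 5 * κ)) ≤
              (N : ℝ) ^ (1 - 8 * κ) :=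
            Real.rpow_le_rpow_of_exponent_le hN1 (by linarith)
          linarith
  have hlast : 26 * (N : ℝ) ^ (1 - 8 * κ) ≤ (N : ℝ) ^ (1 - 7 * κ) := by
    calc 26 * (N : ℝ) ^ (1 - 8 * κ) ≤ (N : ℝ) ^ κ * (N : ℝ) ^ (1 - 8 * κ) := by gcongr
      _ = (N : ℝ) ^ (1 - 7 * κ) := by rw [← Real.rpow_add hN0]; ring_nf
  refine (abs_add_le _ _).trans ?_
  linarith [h3, hsecond, hfirst, hlast]

end Pool.Agent.H505RS
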