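import Pool.Agent.H505RS.Defs

set_option autoImplicit false

noncomputable section

namespace Pool.Agent.H505RS

open scoped BigOperators ENNReal Topology InnerProductSpace
open Finset Filter MeasureTheory ProbabilityTheory

universe u v

namespace PRM

theorem en_strictMono (E : Set ℕ) (h : {n | 1 ≤ n ∧ n ∈ E}.Infinite) : StrictMono (en E) := by
  refine strictMono_nat_of_lt_succ ?_
  intro n
  cases n with
  | zero =>
    show 0 < Nat.nth (fun n => 1 ≤ n ∧ n ∈ E) 0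
    have h1 := Nat.nth_mem_of_infinite h 0
    exact h1.1
  | succ k =>
    show Nat.nth (fun n => 1 ≤ n ∧ n ∈ E) k < Nat.nth (fun n => 1 ≤ n ∧ n ∈ E) (k + 1)
    exact Nat.nth_strictMono h (Nat.lt_succ_self k)

theorem sum_cf (p : Par) (k1 k2 : ℕ) (s t : ℕ → ℕ) (j R u w : ℕ) (hQ : (p.Q : ℝ) = 3 * (R : ℝ))
    (hs : s (j - p.m) ≤ R) (ht : t (j - p.m) ≤ R) (hgp : GP p s t j) :
    ∑ i ∈ range (R + 1), ∑ r ∈ range (R + 1), ((cf p s t j u w i r : ℝ) : ℂ) *
      (ee ((k1 : ℝ) * i / (3 * R)) * ee ((k2 : ℝ) * r / (3 * R))) = ME p k1 k2 s t j u w := by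
  classical
  unfold ME
  by_cases hw : w = t j - t (j - p.m)
  · rw [if_pos ⟨hgp, hw⟩]
    unfold vec
    have h1 : ∀ i ∈ range (R + 1), ∑ r ∈ range (R + 1), ((cf p s t j u w i r : ℝ) : ℂ) *
        (ee ((k1 : ℝ) * i / (3 * R)) * ee ((k2 : ℝ) * r / (3 * R))) =
        if (s (j - p.m - 1) < i ∧ i ≤ s (j - p.m)) then
          ee ((k2 : ℝ) * t (j - p.m) / p.Q) * ((og p s j i : ℂ) * ee ((k1 : ℝ) * i / p.Q) *
            (sg p.a p.G (s (j - 1)) (s j) (i + u) : ℂ)) else 0 := by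
      intro i _
      rw [Finset.sum_eq_single (t (j - p.m))]
      · unfold cf
        by_cases hi : (s (j - p.m - 1) < i ∧ i ≤ s (j - p.m))
        · rw [if_pos ⟨hi, rfl, hw⟩, if_pos hi, hQ]
          push_cast
          ring
        · rw [if_neg (fun h => hi h.1), if_neg hi]
          simp
      · intro r _ hr
        unfold cf
        rw [if_neg (fun h => hr h.2.1)]
        simp
      · intro h
        exact absurd (mem_range.mpr (by omega)) h
    rw [sum_congr rfl h1, ← sum_filter, mul_sum]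
    refine sum_congr ?_ (fun _ _ => rfl)
    ext i
    simp only [mem_filter, mem_range, mem_Ioc]
    omega
  · rw [if_neg (fun h => hw h.2)]
    refine sum_eq_zero fun i _ => sum_eq_zero fun r _ => ?_
    unfold cf
    rw [if_neg (fun h => hw h.2.2)]
    simp

/-- the general sum -/
def HH {X : Type*} (U W R : ℕ) (c : Fin U → Fin W → ℕ → ℕ → ℝ) (T S : X → X) (f g : X → ℝ)
    (x : X) : ℝ :=
  ∑ u : Fin U, ∑ w : Fin W, ∑ i ∈ range (R + 1), ∑ r ∈ range (R + 1),
    c u w i r * ((f (T^[i] x) * f (T^[i + u] x)) * (g (S^[r] x) * g (S^[r + w] x)))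

theorem HH_abs_le {X : Type*} (U W R : ℕ) (c : Fin U → Fin W → ℕ → ℕ → ℝ) (T S : X → X)
    (f g : X → ℝ) (hf : ∀ x, |f x| ≤ 1) (hg : ∀ x, |g x| ≤ 1) (x : X) :
    |HH U W R c T S f g x| ≤ ∑ u : Fin U, ∑ w : Fin W, ∑ i ∈ range (R + 1),
      ∑ r ∈ range (R + 1), |c u w i r| := by
  unfold HH
  refine (abs_sum_le_sum_abs _ _).trans (sum_le_sum fun u _ => ?_)
  refine (abs_sum_le_sum_abs _ _).trans (sum_le_sum fun w _ => ?_)
  refine (abs_sum_le_sum_abs _ _).trans (sum_le_sum fun i _ => ?_)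
  refine (abs_sum_le_sum_abs _ _).trans (sum_le_sum fun r _ => ?_)
  rw [abs_mul]
  have h1 : |((f (T^[i] x) * f (T^[i + u] x)) * (g (S^[r] x) * g (S^[r + w] x)))| ≤ 1 := by
    rw [abs_mul, abs_mul, abs_mul]
    calc |f (T^[i] x)| * |f (T^[i + u] x)| * (|g (S^[r] x)| * |g (S^[r + w] x)|)
        ≤ 1 * 1 * (1 * 1) := by
          gcongr
          · exact hf _
          · exact hf _
          · exact hg _
          · exact hg _
      _ = 1 := by norm_num
  calc |c u w i r| * _ ≤ |c u w i r| * 1 := by gcongr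
    _ = |c u w i r| := mul_one _

theorem HH_meas {X : Type*} [MeasurableSpace X] (U W R : ℕ) (c : Fin U → Fin W → ℕ → ℕ → ℝ)
    (T S : X → X) (f g : X → ℝ) (hT : Measurable T) (hS : Measurable S) (hf : Measurable f)
    (hg : Measurable g) : Measurable (HH U W R c T S f g) := by
  unfold HH
  refine Finset.measurable_sum _ fun u _ => Finset.measurable_sum _ fun w _ =>
    Finset.measurable_sum _ fun i _ => Finset.measurable_sum _ fun r _ => ?_
  exact measurable_const.mul (((hf.comp (hT.iterate i)).mul (hf.comp (hT.iterate (i + u)))).mul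
    ((hg.comp (hS.iterate r)).mul (hg.comp (hS.iterate (r + w)))))

theorem HH_sum {X : Type*} (U W R : ℕ) (A : Finset ℕ) (c : ℕ → Fin U → Fin W → ℕ → ℕ → ℝ)
    (T S : X → X) (f g : X → ℝ) (x : X) :
    ∑ j ∈ A, HH U W R (c j) T S f g x =
      HH U W R (fun u w i r => ∑ j ∈ A, c j u w i r) T S f g x := by
  unfold HH
  rw [sum_comm]
  refine sum_congr rfl fun u _ => ?_
  rw [sum_comm]
  refine sum_congr rfl fun w _ => ?_
  rw [sum_comm]
  refine sum_congr rfl fun i _ => ?_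
  rw [sum_comm]
  refine sum_congr rfl fun r _ => ?_
  rw [Finset.sum_mul]

theorem HH_int {X : Type*} [MeasurableSpace X] (μ : Measure X) [IsProbabilityMeasure μ]
    (U W R : ℕ) (c : Fin U → Fin W → ℕ → ℕ → ℝ)
    (T S : X → X) (f g : X → ℝ) (hT : Measurable T) (hS : Measurable S) (hf : Bd f)
    (hg : Bd g) : Integrable (HH U W R c T S f g) μ := by
  refine Integrable.of_bound (HH_meas U W R c T S f g hT hS hf.1 hg.1).aestronglyMeasurable
    (∑ u : Fin U, ∑ w : Fin W, ∑ i ∈ range (R + 1), ∑ r ∈ range (R + 1), |c u w i r|) ?_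
  refine Eventually.of_forall fun x => ?_
  rw [Real.norm_eq_abs]
  exact HH_abs_le U W R c T S f g hf.2 hg.2 x

theorem HH_shift {X : Type*} (U W R : ℕ) (c : Fin U → Fin W → ℕ → ℕ → ℝ) (T S : X → X)
    (f g : X → ℝ) (hc : ∀ x, T (S x) = S (T x)) (x : X) (j1 j2 : ℕ) :
    ((HH U W R c T S f g (T^[j1] (S^[j2] x)) : ℝ) : ℂ) =
      ∑ u : Fin U, ∑ w : Fin W, ∑ i ∈ range (R + 1), ∑ t ∈ range (R + 1),
        ((c u w i t : ℝ) : ℂ) *
          ((fun (u : Fin U) (i j : ℕ) =>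
              ((f (T^[i] (S^[j] x)) * f (T^[i + u] (S^[j] x)) : ℝ) : ℂ)) u (j1 + i) j2 *
            (fun (w : Fin W) (i j : ℕ) =>
              ((g (T^[i] (S^[j] x)) * g (T^[i] (S^[j + w] x)) : ℝ) : ℂ)) w j1 (j2 + t)) := by
  unfold HH
  have hcc : Function.Commute T S := hc
  simp only [Complex.ofReal_sum]
  refine sum_congr rfl fun u _ => sum_congr rfl fun w _ => sum_congr rfl fun i _ =>
    sum_congr rfl fun t _ => ?_
  have e1 : T^[i] (T^[j1] (S^[j2] x)) = T^[j1 + i] (S^[j2] x) := by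
    rw [← Function.iterate_add_apply, add_comm]
  have e2 : T^[i + u] (T^[j1] (S^[j2] x)) = T^[j1 + i + u] (S^[j2] x) := by
    rw [← Function.iterate_add_apply, show i + (u : ℕ) + j1 = j1 + i + (u : ℕ) by omega]
  have e3 : S^[t] (T^[j1] (S^[j2] x)) = T^[j1] (S^[j2 + t] x) := by
    rw [← (hcc.iterate_iterate j1 t) (S^[j2] x), ← Function.iterate_add_apply S, add_comm t j2]
  have e4 : S^[t + w] (T^[j1] (S^[j2] x)) = T^[j1] (S^[j2 + t + w] x) := by
    rw [← (hcc.iterate_iterate j1 (t + w)) (S^[j2] x), ← Function.iterate_add_apply S,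
      show t + (w : ℕ) + j2 = j2 + t + (w : ℕ) by omega]
  rw [e1, e2, e3, e4]
  push_cast
  ring

end PRM

open PRM in
theorem t_PRM : S_PI.{u} → S_PJ.{u} → S_GPR → S_TR → S_PRM.{u} := by
  intro hPI hPJ hGPR hTR a b E F ha0 ha1 hb0 hb1 hE hF hM
  have hsm : StrictMono (en E) := en_strictMono E hE.inf
  have htm : StrictMono (en F) := en_strictMono F hF.inf
  filter_upwards [hGPR a b E F ha0 ha1 hb0 hb1 hE hF, hM, eventually_ge_atTop 1]
    with N hgp hmr hN m hm1 hm2 X _ μ T S f g hsy hf hg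
  haveI := hsy.prob
  set p := par a b N m with hp
  set s := en E with hs
  set t := en F with ht
  set R : ℕ := N ^ 4 with hR
  set U := UU a b N m with hU
  set W := WW a b N m with hW
  set K : ℝ := (N : ℝ) ^ ((1 - mn a b) / 2 + 32 * kp a b) with hK
  set A : Finset ℕ := Ioc (max p.J m) N with hA
  have hpm : p.m = m := rfl
  have hpa : p.a = a := rfl
  have hR1 : 1 ≤ R := Nat.one_le_pow _ _ hN
  have hQ : (p.Q : ℝ) = 3 * (R : ℝ) := by
    show ((3 * N ^ 4 : ℕ) : ℝ) = 3 * ((N ^ 4 : ℕ) : ℝ)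
    push_cast
    ring
  have hK0 : 0 ≤ K := Real.rpow_nonneg (Nat.cast_nonneg _) _
  have hj : ∀ j ∈ A, p.J < j ∧ m + 1 ≤ j ∧ j ≤ N := by
    intro j hj
    rw [hA, mem_Ioc] at hj
    have h1 := le_max_left p.J m
    have h2 := le_max_right p.J m
    omega
  have hg1 := hgp m hm1 hm2
  -- expansion
  have hexp : ∀ j ∈ A, ∀ x, Zk a s t T S f g (j - m) x * Zk a s t T S f g j x =
      HH U W R (fun u w i r => cf p s t j u w i r) T S f g x := by
    intro j hjA x
    obtain ⟨h1, h2, h3⟩ := hj j hjA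
    obtain ⟨k1, k2, k3, k4, k5, k6⟩ := hg1 j h1 h2 h3
    exact hPI X T S f g p s t j U W R hm1 h2 hsm htm k2 k3 k4 k5 k6 x
  set co : Fin U → Fin W → ℕ → ℕ → ℝ := fun u w i r => ∑ j ∈ A, cf p s t j u w i r with hco
  have hmain : ∑ j ∈ A, ∫ x, Zk a s t T S f g (j - m) x * Zk a s t T S f g j x ∂μ =
      ∫ x, HH U W R co T S f g x ∂μ := by
    have h1 : ∀ j ∈ A, ∫ x, Zk a s t T S f g (j - m) x * Zk a s t T S f g j x ∂μ =
        ∫ x, HH U W R (fun u w i r => cf p s t j u w i r) T S f g x ∂μ := by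
      intro j hjA
      exact integral_congr_ae (Eventually.of_forall fun x => hexp j hjA x)
    rw [sum_congr rfl h1, ← integral_finsetSum]
    · refine integral_congr_ae (Eventually.of_forall fun x => ?_)
      exact HH_sum U W R A (fun j u w i r => cf p s t j u w i r) T S f g x
    · intro j _
      exact HH_int μ U W R _ T S f g hsy.mT.measurable hsy.mS.measurable hf hg
  rw [hmain]
  have hPJ' := hPJ X μ T S (HH U W R co T S f g) R hR1 hsy
    (HH_meas U W R co T S f g hsy.mT.measurable hsy.mS.measurable hf.1 hg.1)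
    ⟨_, fun x => HH_abs_le U W R co T S f g hf.2 hg.2 x⟩
  rw [hPJ']
  -- the TR hypothesis
  have hyp : ∀ k1 k2 : ℕ, k1 < 3 * R → k2 < 3 * R → ∀ (ξ : Fin U → ℂ) (η : Fin W → ℂ),
      ‖∑ u, ∑ w, ξ u * η w * ∑ i ∈ range (R + 1), ∑ t ∈ range (R + 1), ((co u w i t : ℝ) : ℂ) *
        (ee ((k1 : ℝ) * i / (3 * R)) * ee ((k2 : ℝ) * t / (3 * R)))‖ ≤
      K * (Real.sqrt (∑ u, ‖ξ u‖ ^ 2) * Real.sqrt (∑ w, ‖η w‖ ^ 2)) := by
    intro k1 k2 hk1 hk2 ξ η
    have h1 : ∀ (u : Fin U) (w : Fin W), ∑ i ∈ range (R + 1), ∑ r ∈ range (R + 1),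
        ((co u w i r : ℝ) : ℂ) * (ee ((k1 : ℝ) * i / (3 * R)) * ee ((k2 : ℝ) * r / (3 * R))) =
        ∑ j ∈ Icc 1 N, ME p k1 k2 s t j u w := by
      intro u w
      have h2 : ∑ i ∈ range (R + 1), ∑ r ∈ range (R + 1),
          ((co u w i r : ℝ) : ℂ) * (ee ((k1 : ℝ) * i / (3 * R)) * ee ((k2 : ℝ) * r / (3 * R))) =
          ∑ j ∈ A, ∑ i ∈ range (R + 1), ∑ r ∈ range (R + 1), ((cf p s t j u w i r : ℝ) : ℂ) *
            (ee ((k1 : ℝ) * i / (3 * R)) * ee ((k2 : ℝ) * r / (3 * R))) := by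
        rw [sum_comm (s := A)]
        refine sum_congr rfl fun i _ => ?_
        rw [sum_comm (s := A)]
        refine sum_congr rfl fun r _ => ?_
        rw [hco, ← Finset.sum_mul]
        push_cast
        rfl
      rw [h2]
      have h3 : ∀ j ∈ A, ∑ i ∈ range (R + 1), ∑ r ∈ range (R + 1),
          ((cf p s t j u w i r : ℝ) : ℂ) *
            (ee ((k1 : ℝ) * i / (3 * R)) * ee ((k2 : ℝ) * r / (3 * R))) =
          ME p k1 k2 s t j u w := by
        intro j hjA
        obtain ⟨h1, h2, h3⟩ := hj j hjA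
        obtain ⟨g1, g2, g3, g4, g5, g6⟩ := hg1 j h1 h2 h3
        have hle : j - p.m ≤ j := Nat.sub_le _ _
        exact sum_cf p k1 k2 s t j R u w hQ ((hsm.monotone hle).trans g5)
          ((htm.monotone hle).trans g6) g1
      rw [sum_congr rfl h3]
      refine sum_subset ?_ ?_
      · intro j hjA
        obtain ⟨h1, h2, h3⟩ := hj j hjA
        rw [mem_Icc]
        omega
      · intro j hj1 hj2
        unfold ME
        refine if_neg ?_
        rintro ⟨hg', -⟩
        apply hj2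
        have g1 : p.J < j := hg'.1
        have g2 : m + 1 ≤ j := hg'.2.1
        rw [mem_Icc] at hj1
        rw [hA, mem_Ioc]
        exact ⟨max_lt g1 (by omega), hj1.2⟩
    simp_rw [h1]
    have h4 : ∑ u : Fin U, ∑ w : Fin W, ξ u * η w * ∑ j ∈ Icc 1 N, ME p k1 k2 s t j u w =
        ∑ j ∈ Icc 1 N, ∑ u : Fin U, ∑ w : Fin W, ξ u * η w * ME p k1 k2 s t j u w := by
      rw [sum_comm (s := Icc 1 N)]
      refine sum_congr rfl fun u _ => ?_
      rw [sum_comm (s := Icc 1 N)]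
      refine sum_congr rfl fun w _ => ?_
      rw [Finset.mul_sum]
    rw [h4]
    exact hmr m hm1 hm2 k1 k2 hk1 hk2 ξ η
  -- the pointwise bound
  have hpt : ∀ x, ‖∑ j1 ∈ range R, ∑ j2 ∈ range R, HH U W R co T S f g (T^[j1] (S^[j2] x))‖ ≤
      3 * (R : ℝ) ^ 2 * K * Real.sqrt (U * W) := by
    intro x
    have h1 := hTR R U W (fun u w i t => ((co u w i t : ℝ) : ℂ))
      (fun (u : Fin U) (i j : ℕ) => ((f (T^[i] (S^[j] x)) * f (T^[i + u] (S^[j] x)) : ℝ) : ℂ))
      (fun (w : Fin W) (i j : ℕ) => ((g (T^[i] (S^[j] x)) * g (T^[i] (S^[j + w] x)) : ℝ) : ℂ))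
      K hR1 hK0
      (by
        intro u i j
        rw [Complex.norm_real, Real.norm_eq_abs, abs_mul]
        exact mul_le_one₀ (hf.2 _) (abs_nonneg _) (hf.2 _))
      (by
        intro w i j
        rw [Complex.norm_real, Real.norm_eq_abs, abs_mul]
        exact mul_le_one₀ (hg.2 _) (abs_nonneg _) (hg.2 _))
      hyp
    have h2 : ((∑ j1 ∈ range R, ∑ j2 ∈ range R, HH U W R co T S f g (T^[j1] (S^[j2] x)) : ℝ) : ℂ)
        = ∑ j1 ∈ range R, ∑ j2 ∈ range R, ∑ u : Fin U, ∑ w : Fin W, ∑ i ∈ range (R + 1),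
          ∑ t ∈ range (R + 1), ((co u w i t : ℝ) : ℂ) *
          ((fun (u : Fin U) (i j : ℕ) =>
              ((f (T^[i] (S^[j] x)) * f (T^[i + u] (S^[j] x)) : ℝ) : ℂ)) u (j1 + i) j2 *
            (fun (w : Fin W) (i j : ℕ) =>
              ((g (T^[i] (S^[j] x)) * g (T^[i] (S^[j + w] x)) : ℝ) : ℂ)) w j1 (j2 + t)) := by
      rw [Complex.ofReal_sum]
      refine sum_congr rfl fun j1 _ => ?_
      rw [Complex.ofReal_sum]
      refine sum_congr rfl fun j2 _ => ?_
      exact HH_shift U W R co T S f g hsy.comm x j1 j2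
    rw [← Complex.norm_real, h2]
    exact h1
  have h5 := norm_integral_le_of_norm_le_const (μ := μ) (Eventually.of_forall hpt)
  have h6 : μ.real Set.univ = 1 := by simp
  rw [h6, mul_one] at h5
  have hRpos : (0 : ℝ) < R := by exact_mod_cast hR1
  rw [abs_mul, abs_of_pos (by positivity : (0 : ℝ) < 1 / (R : ℝ) ^ 2)]
  rw [Real.norm_eq_abs] at h5
  calc 1 / (R : ℝ) ^ 2 * _ ≤ 1 / (R : ℝ) ^ 2 * (3 * (R : ℝ) ^ 2 * K * Real.sqrt (U * W)) := by
        gcongr
    _ = 3 * K * Real.sqrt (U * W) := by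
        field_simp

end Pool.Agent.H505RS
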