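import Pool.Agent.H505RS.Defs

set_option autoImplicit false

/-! Task Q1: mean zero. -/

namespace Pool.Agent.H505RS

open scoped BigOperators ENNReal Topology InnerProductSpace
open Finset Filter MeasureTheory ProbabilityTheory

namespace Q1

theorem qsum (a : ℝ) (s n : ℕ) (h : s + 1 ≤ n) :
    ∑ t ∈ range n, q a s t = 1 - ∏ i ∈ Ioo s n, (1 - pw a i) := by
  induction n, h using Nat.le_induction with
  | base =>
    rw [Finset.sum_eq_zero]
    · have : Ioo s (s + 1) = ∅ := by
        ext x
        simp
      rw [this]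
      simp
    · intro t ht
      rw [Finset.mem_range] at ht
      unfold q
      rw [if_neg (by omega)]
  | succ n hn ih =>
    rw [Finset.sum_range_succ, ih]
    have h1 : Ioo s (n + 1) = insert n (Ioo s n) := by
      ext x
      simp
      omega
    rw [h1, Finset.prod_insert (by simp)]
    unfold q
    rw [if_pos (by omega)]
    ring

theorem hcongr {f g : ℕ → ℝ} {c : ℝ} (h : HasSum f c) (e : ∀ t, g t = f t) :
    HasSum g c := by
  have : g = f := funext e
  rw [this]
  exact h

theorem tail (f : ℕ → ℝ) (c : ℝ) (h : HasSum f c) (n : ℕ) :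
    HasSum (fun t => if n ≤ t then f t else 0) (c - ∑ t ∈ range n, f t) := by
  have h1 : HasSum (fun t => if t ∈ range n then f t else 0) (∑ t ∈ range n, f t) := by
    have h2 : HasSum (fun t => if t ∈ range n then f t else 0)
        (∑ t ∈ range n, if t ∈ range n then f t else 0) :=
      hasSum_sum_of_ne_finset_zero (fun b hb => if_neg hb)
    have h3 : (∑ t ∈ range n, if t ∈ range n then f t else 0) = ∑ t ∈ range n, f t := by
      apply Finset.sum_congr rfl
      intro t ht
      rw [if_pos ht]
    rwa [h3] at h2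
  have h3 := h.sub h1
  refine hcongr h3 ?_
  intro t
  by_cases ht : n ≤ t
  · rw [if_pos ht, if_neg (by rw [Finset.mem_range]; omega), sub_zero]
  · rw [if_neg ht, if_pos (by rw [Finset.mem_range]; omega), sub_self]

theorem one (a : ℝ) (s G n : ℕ) (hs : HasSum (fun t => q a s t) 1) (h1 : s < n)
    (h2 : n ≤ s + G) : HasSum (fun t => q a s t * sg a G s t n) 0 := by
  have h3 := tail _ _ hs n
  rw [qsum a s n h1] at h3
  have h4 : HasSum (fun t => if t = n then q a s n else 0) (q a s n) := hasSum_ite_eq n _
  have h5 := h4.sub (h3.mul_left (pw a n))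
  have h6 : q a s n - pw a n * (1 - (1 - ∏ i ∈ Ioo s n, (1 - pw a i))) = 0 := by
    unfold q
    rw [if_pos h1]
    ring
  rw [h6] at h5
  refine hcongr h5 ?_
  intro t
  unfold sg
  by_cases ht : n ≤ t
  · rw [if_pos ⟨h1, ht, h2⟩, if_pos ht]
    by_cases hn : n = t
    · subst hn
      rw [if_pos rfl, if_pos rfl]
      ring
    · rw [if_neg hn, if_neg (fun h => hn h.symm)]
      ring
  · rw [if_neg (fun h => ht h.2.1), if_neg ht, if_neg (by omega)]
    ring

end Q1

theorem t_Q1 : S_QF → S_Q1 := by
  intro hQ a h0 h1 s G c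
  have hs := (hQ a h0 h1 s).1
  have h2 : ∀ n ∈ Ioc s (s + G),
      HasSum (fun t => ((q a s t * sg a G s t n : ℝ) : ℂ) * c n) 0 := by
    intro n hn
    rw [Finset.mem_Ioc] at hn
    have h3 := Q1.one a s G n hs hn.1 hn.2
    have h4 := Complex.hasSum_ofReal.2 h3
    have h5 := h4.mul_right (c n)
    simpa using h5
  have h6 := hasSum_sum h2
  rw [Finset.sum_const_zero] at h6
  convert h6 using 1
  funext t
  rw [Finset.mul_sum]
  apply Finset.sum_congr rfl
  intro n _
  push_cast
  ring

end Pool.Agent.H505RS
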