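import Pool.Agent.H505RS.Defs

set_option autoImplicit false

noncomputable section

namespace Pool.Agent.H505RS

open scoped BigOperators ENNReal Topology InnerProductSpace
open Finset Filter MeasureTheory ProbabilityTheory

namespace Q2

theorem qrec (a : ℝ) (s t : ℕ) :
    q a s t = (if t = s + 1 then pw a (s + 1) else 0) + (1 - pw a (s + 1)) * q a (s + 1) t := by
  unfold q
  rcases lt_trichotomy t (s + 1) with h | h | h
  · have h1 : ¬ s < t := by omega
    have h2 : ¬ s + 1 < t := by omega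
    have h3 : t ≠ s + 1 := by omega
    simp [h1, h2, h3]
  · subst h
    have h4 : Ioo s (s + 1) = ∅ := by
      ext x; simp only [mem_Ioo, Finset.notMem_empty, iff_false]; omega
    simp [h4]
  · have h1 : s < t := by omega
    have h3 : t ≠ s + 1 := by omega
    have h5 : Ioo s t = insert (s + 1) (Ioo (s + 1) t) := by
      ext x; simp only [mem_Ioo, mem_insert]; omega
    have h6 : (s + 1) ∉ Ioo (s + 1) t := by simp
    rw [if_pos h1, if_pos h, if_neg h3, h5, Finset.prod_insert h6]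
    ring

def D (a : ℝ) (G s : ℕ) (c : ℕ → ℂ) (t : ℕ) : ℂ :=
  ∑ n ∈ Ioc s (s + G), (sg a G s t n : ℂ) * c n

theorem D_zero (a : ℝ) (s : ℕ) (c : ℕ → ℂ) (t : ℕ) : D a 0 s c t = 0 := by
  simp [D]

theorem D_split (a : ℝ) (G s : ℕ) (c : ℕ → ℂ) (t : ℕ) :
    D a (G + 1) s c t = (sg a (G + 1) s t (s + 1) : ℂ) * c (s + 1) + D a G (s + 1) c t := by
  unfold D
  have h5 : Ioc s (s + (G + 1)) = insert (s + 1) (Ioc (s + 1) (s + 1 + G)) := by
    ext x; simp only [mem_Ioc, mem_insert]; omega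
  have h6 : (s + 1) ∉ Ioc (s + 1) (s + 1 + G) := by simp
  rw [h5, Finset.sum_insert h6]
  congr 1
  refine Finset.sum_congr rfl fun n hn => ?_
  have hn' := Finset.mem_Ioc.1 hn
  congr 2
  unfold sg
  have e : (s < n ∧ n ≤ t ∧ n ≤ s + (G + 1)) ↔ (s + 1 < n ∧ n ≤ t ∧ n ≤ s + 1 + G) := by
    omega
  simp only [e]

theorem D_gt (a : ℝ) (G s : ℕ) (c : ℕ → ℂ) (t : ℕ) (ht : s + 1 < t) :
    D a (G + 1) s c t = -(pw a (s + 1) : ℂ) * c (s + 1) + D a G (s + 1) c t := by
  rw [D_split]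
  congr 2
  unfold sg
  rw [if_pos ⟨by omega, by omega, by omega⟩, if_neg (by omega)]
  push_cast
  ring

theorem D_eq (a : ℝ) (G s : ℕ) (c : ℕ → ℂ) :
    D a (G + 1) s c (s + 1) = (1 - (pw a (s + 1) : ℂ)) * c (s + 1) := by
  rw [D_split]
  have h0 : D a G (s + 1) c (s + 1) = 0 := by
    unfold D
    refine Finset.sum_eq_zero fun n hn => ?_
    have hn' := Finset.mem_Ioc.1 hn
    have : sg a G (s + 1) (s + 1) n = 0 := by
      unfold sg
      rw [if_neg]
      omega
    simp [this]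
  rw [h0]
  unfold sg
  rw [if_pos ⟨by omega, by omega, by omega⟩, if_pos rfl]
  push_cast
  ring

theorem q_le (a : ℝ) (s t : ℕ) (h : t ≤ s) : q a s t = 0 := by
  unfold q
  rw [if_neg (by omega)]

theorem meanz (hQ : S_QF) (a : ℝ) (h0 : 0 < a) (h1 : a < 1) (c : ℕ → ℂ) (G : ℕ) :
    ∀ s : ℕ, HasSum (fun t => (q a s t : ℂ) * D a G s c t) 0 := by
  induction G with
  | zero => intro s; simpa [D_zero] using (hasSum_zero : HasSum (fun _ : ℕ => (0 : ℂ)) 0)
  | succ G ih =>
    intro s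
    have e : (fun t => (q a s t : ℂ) * D a (G + 1) s c t) =
        fun t => (if t = s + 1 then (pw a (s + 1) : ℂ) * ((1 - (pw a (s + 1) : ℂ)) * c (s + 1))
          else 0) + (1 - (pw a (s + 1) : ℂ)) *
          ((q a (s + 1) t : ℂ) * (-(pw a (s + 1) : ℂ) * c (s + 1)) +
            (q a (s + 1) t : ℂ) * D a G (s + 1) c t) := by
      funext t
      rw [qrec a s t]
      rcases lt_trichotomy t (s + 1) with h | h | h
      · rw [if_neg (by omega), if_neg (by omega), q_le a (s + 1) t (by omega)]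
        push_cast
        ring
      · subst h
        rw [if_pos rfl, if_pos rfl, D_eq, q_le a (s + 1) (s + 1) le_rfl]
        push_cast
        ring
      · rw [if_neg (by omega), if_neg (by omega), D_gt a G s c t h]
        push_cast
        ring
    rw [e]
    have hq : HasSum (fun t => (q a (s + 1) t : ℂ)) 1 := by
      have h7 := (hQ a h0 h1 (s + 1)).1
      have h8 := Complex.hasSum_ofReal.2 h7
      simpa using h8
    have h2 := ((hq.mul_right (-(pw a (s + 1) : ℂ) * c (s + 1))).add (ih (s + 1))).mul_left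
      (1 - (pw a (s + 1) : ℂ))
    have h3 := (hasSum_ite_eq (s + 1)
      ((pw a (s + 1) : ℂ) * ((1 - (pw a (s + 1) : ℂ)) * c (s + 1)))).add h2
    convert h3 using 1
    ring

theorem pw_nn (a : ℝ) (n : ℕ) : 0 ≤ pw a n := Real.rpow_nonneg (Nat.cast_nonneg _) _

theorem pw_le1 (a : ℝ) (h0 : 0 < a) (n : ℕ) (hn : 1 ≤ n) : pw a n ≤ 1 := by
  unfold pw
  exact Real.rpow_le_one_of_one_le_of_nonpos (by exact_mod_cast hn) (by linarith)

theorem pw_anti (a : ℝ) (h0 : 0 < a) (s : ℕ) : pw a (s + 1 + 1) ≤ pw a (s + 1) := by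
  unfold pw
  apply Real.rpow_le_rpow_of_nonpos
  · positivity
  · push_cast; linarith
  · linarith

theorem varz (hQ : S_QF) (a : ℝ) (h0 : 0 < a) (h1 : a < 1) (c : ℕ → ℂ) (G : ℕ) :
    ∀ s : ℕ, ∃ V : ℝ, HasSum (fun t => q a s t * ‖D a G s c t‖ ^ 2) V ∧
      V ≤ pw a (s + 1) * ∑ n ∈ Ioc s (s + G), ‖c n‖ ^ 2 := by
  induction G with
  | zero =>
    intro s
    refine ⟨0, ?_, ?_⟩
    · simpa [D_zero] using (hasSum_zero : HasSum (fun _ : ℕ => (0 : ℝ)) 0)
    · simp
  | succ G ih =>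
    intro s
    obtain ⟨V, hV, hVl⟩ := ih (s + 1)
    set p := pw a (s + 1) with hp
    have hp0 : 0 ≤ p := pw_nn a _
    have hp1 : p ≤ 1 := pw_le1 a h0 _ (by omega)
    set z : ℂ := c (s + 1) with hz
    have e : (fun t => q a s t * ‖D a (G + 1) s c t‖ ^ 2) =
        fun t => (if t = s + 1 then p * ((1 - p) ^ 2 * ‖z‖ ^ 2) else 0) + (1 - p) *
          ((q a (s + 1) t * (p ^ 2 * ‖z‖ ^ 2) + q a (s + 1) t * ‖D a G (s + 1) c t‖ ^ 2) +
            2 * ((-(p : ℂ) * (starRingEnd ℂ) z) * ((q a (s + 1) t : ℂ) *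
              D a G (s + 1) c t)).re) := by
      funext t
      rw [qrec a s t]
      rcases lt_trichotomy t (s + 1) with h | h | h
      · rw [if_neg (by omega), if_neg (by omega), q_le a (s + 1) t (by omega)]
        simp
      · subst h
        rw [if_pos rfl, if_pos rfl, D_eq, q_le a (s + 1) (s + 1) le_rfl]
        have e1 : (1 - (pw a (s + 1) : ℂ)) = ((1 - p : ℝ) : ℂ) := by
          rw [hp]; push_cast; ring
        rw [e1, norm_mul, Complex.norm_real, mul_pow, Real.norm_eq_abs, sq_abs]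
        simp only [mul_zero, add_zero, zero_mul, Complex.ofReal_zero, Complex.zero_re]
        rfl
      · rw [if_neg (by omega), if_neg (by omega), D_gt a G s c t h]
        rw [← Complex.normSq_eq_norm_sq, Complex.normSq_add]
        rw [← Complex.normSq_eq_norm_sq, ← Complex.normSq_eq_norm_sq]
        rw [← hp, ← hz]
        have e2 : Complex.normSq (-(p : ℂ) * z) = p ^ 2 * Complex.normSq z := by
          rw [Complex.normSq_mul, Complex.normSq_neg, Complex.normSq_ofReal]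
          ring
        have e3 : (-(p : ℂ) * z * (starRingEnd ℂ) (D a G (s + 1) c t)).re =
            ((-(p : ℂ) * (starRingEnd ℂ) z) * D a G (s + 1) c t).re := by
          simp
        have e4 : ((-(p : ℂ) * (starRingEnd ℂ) z) * ((q a (s + 1) t : ℂ) *
              D a G (s + 1) c t)).re = q a (s + 1) t *
              ((-(p : ℂ) * (starRingEnd ℂ) z) * D a G (s + 1) c t).re := by
          have : (-(p : ℂ) * (starRingEnd ℂ) z) * ((q a (s + 1) t : ℂ) * D a G (s + 1) c t) =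
            (q a (s + 1) t : ℂ) * ((-(p : ℂ) * (starRingEnd ℂ) z) * D a G (s + 1) c t) := by ring
          rw [this, Complex.re_ofReal_mul]
        rw [e2, e3, e4]
        ring
    rw [e]
    have hq := (hQ a h0 h1 (s + 1)).1
    have hm := (meanz hQ a h0 h1 c G (s + 1)).mul_left (-(p : ℂ) * (starRingEnd ℂ) z)
    have hm' := (Complex.hasSum_re hm).mul_left 2
    have h2 := (((hq.mul_right (p ^ 2 * ‖z‖ ^ 2)).add hV).add hm').mul_left (1 - p)
    have h3 := (hasSum_ite_eq (s + 1) (p * ((1 - p) ^ 2 * ‖z‖ ^ 2))).add h2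
    refine ⟨_, h3, ?_⟩
    have h5 : Ioc s (s + (G + 1)) = insert (s + 1) (Ioc (s + 1) (s + 1 + G)) := by
      ext x; simp only [mem_Ioc, mem_insert]; omega
    have h6 : (s + 1) ∉ Ioc (s + 1) (s + 1 + G) := by simp
    rw [h5, Finset.sum_insert h6, ← hz]
    set SS := ∑ n ∈ Ioc (s + 1) (s + 1 + G), ‖c n‖ ^ 2 with hS
    have hS0 : 0 ≤ SS := Finset.sum_nonneg fun _ _ => by positivity
    have hV2 : V ≤ p * SS := hVl.trans (mul_le_mul_of_nonneg_right (pw_anti a h0 s) hS0)
    have hz0 : 0 ≤ ‖z‖ ^ 2 := by positivity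
    simp only [mul_zero, Complex.zero_re, add_zero]
    nlinarith [mul_le_mul_of_nonneg_left hV2 (by linarith : (0:ℝ) ≤ 1 - p),
      mul_nonneg (mul_nonneg hp0 hp0) hz0, mul_nonneg (mul_nonneg hp0 hp0) hS0]

end Q2

theorem t_Q2 : S_QF → S_Q2 := by
  intro hQ a h0 h1 s G c
  obtain ⟨V, hV, hVl⟩ := Q2.varz hQ a h0 h1 c G s
  refine ⟨hV.summable, ?_⟩
  have e : ∑' t, q a s t * ‖∑ n ∈ Ioc s (s + G), (sg a G s t n : ℂ) * c n‖ ^ 2 = V :=
    hV.tsum_eq
  rw [e]
  exact hVl

end Pool.Agent.H505RS
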