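import Pool.Agent.H505RS.Defs

set_option autoImplicit false

/-! Task QF. -/

namespace Pool.Agent.H505RS

open scoped BigOperators ENNReal Topology InnerProductSpace
open Finset Filter MeasureTheory ProbabilityTheory

namespace QF

theorem qsum (a : ℝ) (s n : ℕ) (h : s + 1 ≤ n) :
    ∑ t ∈ range n, q a s t = 1 - ∏ i ∈ Ioo s n, (1 - pw a i) := by
  induction n, h using Nat.le_induction with
  | base =>
    rw [Finset.sum_eq_zero]
    · have : Ioo s (s + 1) = ∅ := by
        ext x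
        simp
      rw [this]
      simp
    · intro t ht
      rw [Finset.mem_range] at ht
      unfold q
      rw [if_neg (by omega)]
  | succ n hn ih =>
    rw [Finset.sum_range_succ, ih]
    have h1 : Ioo s (n + 1) = insert n (Ioo s n) := by
      ext x
      simp
      omega
    rw [h1, Finset.prod_insert (by simp)]
    unfold q
    rw [if_pos (by omega)]
    ring

theorem pw_nonneg (a : ℝ) (n : ℕ) : 0 ≤ pw a n := by
  unfold pw
  positivity

theorem pw_le_one (a : ℝ) (ha : 0 < a) (n : ℕ) : pw a n ≤ 1 := by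
  unfold pw
  rcases Nat.eq_zero_or_pos n with rfl | hn
  · rw [Nat.cast_zero, Real.zero_rpow (by linarith)]
    exact zero_le_one
  · apply Real.rpow_le_one_of_one_le_of_nonpos _ (by linarith)
    exact_mod_cast hn

theorem pw_anti (a : ℝ) (ha : 0 < a) {m n : ℕ} (hm : 1 ≤ m) (h : m ≤ n) : pw a n ≤ pw a m := by
  unfold pw
  apply Real.rpow_le_rpow_of_nonpos _ _ (by linarith)
  · exact_mod_cast hm
  · exact_mod_cast h

theorem prod_bd (a : ℝ) (ha : 0 < a) (s n : ℕ) :
    0 ≤ ∏ i ∈ Ioo s n, (1 - pw a i) ∧ ∏ i ∈ Ioo s n, (1 - pw a i) ≤ 1 := by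
  have h1 : ∀ i ∈ Ioo s n, 0 ≤ 1 - pw a i := fun i _ => by linarith [pw_le_one a ha i]
  exact ⟨Finset.prod_nonneg h1, Finset.prod_le_one h1 fun i _ => by linarith [pw_nonneg a i]⟩

theorem q_bd (a : ℝ) (ha : 0 < a) (s t : ℕ) : 0 ≤ q a s t ∧ q a s t ≤ pw a (s + 1) := by
  unfold q
  obtain ⟨h1, h2⟩ := prod_bd a ha s t
  split_ifs with h
  · refine ⟨mul_nonneg (pw_nonneg a t) h1, ?_⟩
    calc pw a t * ∏ i ∈ Ioo s t, (1 - pw a i) ≤ pw a t * 1 :=
          mul_le_mul_of_nonneg_left h2 (pw_nonneg a t)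
      _ = pw a t := mul_one _
      _ ≤ pw a (s + 1) := pw_anti a ha (by omega) h
  · exact ⟨le_rfl, pw_nonneg a _⟩

theorem prod_tendsto (a : ℝ) (ha : 0 < a) (ha1 : a < 1) (s : ℕ) :
    Tendsto (fun n : ℕ => ∏ i ∈ Ioo s n, (1 - pw a i)) atTop (𝓝 0) := by
  have h1 : Tendsto (fun n : ℕ => ∑ i ∈ range n, pw a i) atTop atTop := by
    rw [← not_summable_iff_tendsto_nat_atTop_of_nonneg (fun n => pw_nonneg a n)]
    unfold pw
    rw [Real.summable_nat_rpow]
    linarith
  have h2 : Tendsto (fun n : ℕ => Real.exp (-(∑ i ∈ range n, pw a i - ∑ i ∈ range (s + 1), pw a i)))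
      atTop (𝓝 0) :=
    Real.tendsto_exp_neg_atTop_nhds_zero.comp
      (tendsto_atTop_add_const_right _ (-∑ i ∈ range (s + 1), pw a i) h1)
  apply tendsto_of_tendsto_of_tendsto_of_le_of_le' tendsto_const_nhds h2
  · exact Eventually.of_forall fun n => (prod_bd a ha s n).1
  · filter_upwards [eventually_ge_atTop (s + 1)] with n hn
    have h3 : Ioo s n = Ico (s + 1) n := by
      ext x
      simp
    rw [← Finset.sum_Ico_eq_sub _ hn, ← Finset.sum_neg_distrib, Real.exp_sum, h3]
    apply Finset.prod_le_prod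
    · intro i _
      linarith [pw_le_one a ha i]
    · intro i _
      exact Real.one_sub_le_exp_neg _

end QF

theorem t_QF : S_QF := by
  intro a h0 h1 s
  refine ⟨?_, QF.q_bd a h0 s⟩
  rw [hasSum_iff_tendsto_nat_of_nonneg (fun t => (QF.q_bd a h0 s t).1)]
  have h2 := (QF.prod_tendsto a h0 h1 s).const_sub 1
  rw [sub_zero] at h2
  apply h2.congr'
  filter_upwards [eventually_ge_atTop (s + 1)] with n hn
  rw [QF.qsum a s n hn]

end Pool.Agent.H505RS
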