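import Pool.Agent.H505RS.Defs

/-! Task SF (helper265): second moment for one random sequence. -/

set_option autoImplicit false

noncomputable section

namespace Pool.Agent.H505RS

open scoped BigOperators ENNReal Topology InnerProductSpace
open Finset Filter MeasureTheory ProbabilityTheory

universe u v

namespace SF

variable {F : Set ℕ}

theorem en_strictMono (hinf : {n | 1 ≤ n ∧ n ∈ F}.Infinite) : StrictMono (en F) := by
  refine strictMono_nat_of_lt_succ fun k => ?_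
  cases k with
  | zero =>
    have h := Nat.nth_mem_of_infinite (p := fun n => 1 ≤ n ∧ n ∈ F) hinf 0
    show 0 < Nat.nth (fun n => 1 ≤ n ∧ n ∈ F) 0
    exact h.1
  | succ m =>
    exact Nat.nth_strictMono (p := fun n => 1 ≤ n ∧ n ∈ F) hinf (Nat.lt_succ_self m)

theorem en_mem (hinf : {n | 1 ≤ n ∧ n ∈ F}.Infinite) (k : ℕ) : en F (k + 1) ∈ F :=
  (Nat.nth_mem_of_infinite (p := fun n => 1 ≤ n ∧ n ∈ F) hinf k).2

theorem eq_en (hinf : {n | 1 ≤ n ∧ n ∈ F}.Infinite) (N n : ℕ) (h1 : en F N < n)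
    (h2 : n ≤ en F (N + 1)) (hn : n ∈ F) : n = en F (N + 1) := by
  classical
  have hP : 1 ≤ n ∧ n ∈ F := ⟨by omega, hn⟩
  have h3 : Nat.nth (fun n => 1 ≤ n ∧ n ∈ F) (Nat.count (fun n => 1 ≤ n ∧ n ∈ F) n) = n :=
    Nat.nth_count hP
  set j := Nat.count (fun n => 1 ≤ n ∧ n ∈ F) n with hj
  have h4 : en F (j + 1) = n := h3
  have hm := en_strictMono hinf
  rw [← h4] at h1 h2
  have h5 := hm.lt_iff_lt.1 h1
  have h6 := hm.le_iff_le.1 h2
  have h7 : j = N := by omega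
  rw [← h4, h7]

/-- the sum of the centred values -/
theorem sum_Dk (b : ℝ) (hinf : {n | 1 ≤ n ∧ n ∈ F}.Infinite) {X : Type u} (S : X → X)
    (g : X → ℝ) (x : X) (N : ℕ) : ∑ k ∈ Ioc 0 N, Dk b (en F) S g k x =
      ∑ n ∈ Icc 1 (en F N), (F.indicator (fun _ => (1 : ℝ)) n - pw b n) * g (S^[n] x) := by
  induction N with
  | zero =>
    have h0 : en F 0 = 0 := rfl
    rw [h0]; simp
  | succ N ih =>
    have hm := en_strictMono hinf
    have hlt : en F N < en F (N + 1) := hm (Nat.lt_succ_self N)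
    have h1 : Icc 1 (en F (N + 1)) = Icc 1 (en F N) ∪ Ioc (en F N) (en F (N + 1)) := by
      ext n
      simp only [mem_union, mem_Icc, mem_Ioc]
      omega
    have hd : Disjoint (Icc 1 (en F N)) (Ioc (en F N) (en F (N + 1))) := by
      rw [Finset.disjoint_left]
      intro n hn hn'
      rw [mem_Icc] at hn
      rw [mem_Ioc] at hn'
      omega
    have h2 : Ioc 0 (N + 1) = insert (N + 1) (Ioc 0 N) := by
      ext n
      simp only [mem_insert, mem_Ioc]
      omega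
    rw [h2, sum_insert (by simp), ih, h1, sum_union hd, add_comm]
    congr 1
    unfold Dk
    rw [Nat.add_sub_cancel]
    simp only [sub_mul]
    rw [sum_sub_distrib]
    congr 1
    rw [Finset.sum_eq_single_of_mem (en F (N + 1)) (by rw [mem_Ioc]; exact ⟨hlt, le_rfl⟩)]
    · rw [Set.indicator_of_mem (en_mem hinf N), one_mul]
    · intro n hn hne
      rw [mem_Ioc] at hn
      have h3 : n ∉ F := fun h => hne (eq_en hinf N n hn.1 hn.2 h)
      rw [Set.indicator_of_notMem h3, zero_mul]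

theorem mass_lower (b : ℝ) (hb : 0 < b) (L : ℕ) (hL : 1 ≤ L) :
    (L : ℝ) ^ (1 - b) ≤ ∑ n ∈ Icc 1 L, pw b n := by
  have hL0 : (0 : ℝ) < L := by exact_mod_cast hL
  have h1 : ∑ n ∈ Icc 1 L, (L : ℝ) ^ (-b) ≤ ∑ n ∈ Icc 1 L, pw b n := by
    refine sum_le_sum fun n hn => ?_
    rw [mem_Icc] at hn
    unfold pw
    refine Real.rpow_le_rpow_of_nonpos (by exact_mod_cast hn.1) (by exact_mod_cast hn.2)
      (by linarith)
  refine le_trans (le_of_eq ?_) h1
  rw [sum_const, Nat.card_Icc, nsmul_eq_mul, Nat.add_sub_cancel, sub_eq_add_neg,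
    Real.rpow_add hL0, Real.rpow_one]

end SF

open SF in
theorem t_SF : S_T1.{u} → S_SF.{u} := by
  intro hT1 b F hb0 hb1 hReg hHC
  have hinf := hReg.inf
  have hm := en_strictMono hinf
  have hinfty : Tendsto (en F) atTop atTop := hm.tendsto_atTop
  have h1b : 0 < 1 - b := by linarith
  set A := al b with hA
  have hA1 : 1 + A = 1 / (1 - b) := by rw [hA]; unfold al; field_simp; ring
  have hA0 : 0 < A := by rw [hA]; unfold al; positivity
  have hAlt : A < 1 := by rw [hA]; unfold al; rw [div_lt_one h1b]; linarith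
  set κ := (1 - A) / 16 with hκ
  have hκ0 : 0 < κ := by rw [hκ]; linarith
  set e1 := (1 + A) * (1 + 2 * κ) with he1
  have he1pos : 0 < e1 := by rw [he1]; positivity
  have he : e1 + (1 - A) / 4 ≤ 2 - (1 - A) / 2 := by
    rw [he1, hκ]; nlinarith
  -- the three eventual facts
  have ev1 : ∀ᶠ N : ℕ in atTop, ∀ k : ℕ, k < 3 * en F N →
      ‖∑ n ∈ Icc 1 (en F N), ((F.indicator (fun _ => (1 : ℝ)) n - pw b n : ℝ) : ℂ) *
      ee ((k : ℝ) * n / (3 * (en F N : ℕ)))‖ ≤ ((en F N : ℕ) : ℝ) ^ (1 / 2 + κ) :=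
    hinfty.eventually (hHC κ hκ0)
  have ev2 : ∀ᶠ N : ℕ in atTop, (∑ n ∈ Icc 1 (en F N), pw b n) / (N : ℝ) < 2 :=
    hReg.mass.eventually (gt_mem_nhds (by norm_num))
  have ev3 : ∀ᶠ N : ℕ in atTop, 3 * (2 : ℝ) ^ e1 ≤ (N : ℝ) ^ ((1 - A) / 4) := by
    have h1 : Tendsto (fun N : ℕ => (N : ℝ) ^ ((1 - A) / 4)) atTop atTop :=
      (tendsto_rpow_atTop (by linarith)).comp tendsto_natCast_atTop_atTop
    exact h1.eventually (eventually_ge_atTop _)
  filter_upwards [ev1, ev2, ev3, eventually_ge_atTop 1] with N h1 h2 h3 hN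
  intro X _ μ S g hμ hS hg
  have hN0 : (0 : ℝ) < N := by exact_mod_cast hN
  set L := en F N with hL
  have hL1 : 1 ≤ L := by
    have := hm.le_apply (x := N)
    omega
  have hL0 : (0 : ℝ) < L := by exact_mod_cast hL1
  have hK : 0 ≤ (L : ℝ) ^ (1 / 2 + κ) := Real.rpow_nonneg hL0.le _
  have hmain := hT1 L (fun n => F.indicator (fun _ => (1 : ℝ)) n - pw b n)
    ((L : ℝ) ^ (1 / 2 + κ)) hL1 hK h1 X μ S g hμ hS hg
  have heq : ∀ x, ∑ k ∈ Ioc 0 N, Dk b (en F) S g k x =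
      ∑ n ∈ Icc 1 L, (F.indicator (fun _ => (1 : ℝ)) n - pw b n) * g (S^[n] x) :=
    fun x => sum_Dk b hinf S g x N
  simp only [heq]
  refine hmain.trans ?_
  -- arithmetic
  have hLb : (L : ℝ) ^ (1 - b) ≤ 2 * N := by
    rw [div_lt_iff₀ hN0] at h2
    exact (mass_lower b hb0 L hL1).trans h2.le
  have hLN : (L : ℝ) ≤ (2 * N) ^ (1 + A) := by
    have h4 := Real.rpow_le_rpow (Real.rpow_nonneg hL0.le _) hLb (by rw [hA1]; positivity :
      0 ≤ 1 + A)
    rw [← Real.rpow_mul hL0.le, hA1, mul_one_div_cancel h1b.ne', Real.rpow_one, ← hA1] at h4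
    exact h4
  have h5 : ((L : ℝ) ^ (1 / 2 + κ)) ^ 2 = (L : ℝ) ^ (1 + 2 * κ) := by
    rw [← Real.rpow_natCast, ← Real.rpow_mul hL0.le]
    congr 1
    push_cast
    ring
  have h6 : (L : ℝ) ^ (1 + 2 * κ) ≤ (2 * N) ^ e1 := by
    have h7 := Real.rpow_le_rpow hL0.le hLN (by positivity : 0 ≤ 1 + 2 * κ)
    rwa [← Real.rpow_mul (by positivity)] at h7
  calc 3 * ((L : ℝ) ^ (1 / 2 + κ)) ^ 2 ≤ 3 * (2 * N) ^ e1 := by
        rw [h5]; exact mul_le_mul_of_nonneg_left h6 (by norm_num)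
    _ = (3 * 2 ^ e1) * (N : ℝ) ^ e1 := by
        rw [Real.mul_rpow (by norm_num) hN0.le]; ring
    _ ≤ (N : ℝ) ^ ((1 - A) / 4) * (N : ℝ) ^ e1 :=
        mul_le_mul_of_nonneg_right h3 (Real.rpow_nonneg hN0.le _)
    _ = (N : ℝ) ^ (e1 + (1 - A) / 4) := by
        rw [← Real.rpow_add hN0]; congr 1; ring
    _ ≤ (N : ℝ) ^ (2 - (1 - A) / 2) := by
        refine Real.rpow_le_rpow_of_exponent_le (by exact_mod_cast hN) he

end Pool.Agent.H505RS
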