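import Pool.Agent.H505RS.Defs

/-! Task SM (helper855). -/

set_option autoImplicit false

noncomputable section

namespace Pool.Agent.H505RS

open scoped BigOperators ENNReal Topology
open Finset Filter MeasureTheory

universe u

namespace SM

lemma en_lt {E : Set ℕ} (hE : {n | 1 ≤ n ∧ n ∈ E}.Infinite) (k : ℕ) : en E k < en E (k + 1) := by
  cases k with
  | zero =>
    have h := Nat.nth_mem_of_infinite hE 0
    simp only [en]
    exact h.1
  | succ k =>
    simp only [en]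
    exact Nat.nth_strictMono hE (Nat.lt_succ_self k)

lemma sum_gaps {s : ℕ → ℕ} (hs : StrictMono s) (h0 : s 0 = 0) (y : ℕ → ℝ) (N : ℕ) :
    ∑ k ∈ Ioc 0 N, ∑ i ∈ Ioc (s (k - 1)) (s k), y i = ∑ i ∈ Ioc 0 (s N), y i := by
  induction N with
  | zero => simp [h0]
  | succ n ih =>
    rw [Finset.sum_Ioc_succ_top (Nat.zero_le n), ih, Nat.add_sub_cancel,
      Finset.sum_Ioc_consecutive y (Nat.zero_le _) (hs.monotone (Nat.le_succ n))]

lemma abel_aux {p y : ℕ → ℝ} {C : ℝ} (hy : ∀ i, |y i| ≤ C) {u : ℕ}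
    (hp : ∀ i, u < i → p (i + 1) ≤ p i) (hp0 : ∀ i, 0 ≤ p i) (n : ℕ) :
    |∑ i ∈ Ioc u (u + 1 + n), p i * (y i - y (i + 1)) + p (u + 1 + n) * y (u + 1 + n + 1)| ≤
      C * (2 * p (u + 1) - p (u + 1 + n)) := by
  induction n with
  | zero =>
    rw [Nat.add_zero, Finset.sum_Ioc_succ_top (le_refl u), Finset.Ioc_self, Finset.sum_empty]
    have h1 : 0 + p (u + 1) * (y (u + 1) - y (u + 1 + 1)) + p (u + 1) * y (u + 1 + 1) =
        p (u + 1) * y (u + 1) := by ring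
    rw [h1, abs_mul, abs_of_nonneg (hp0 _)]
    have := mul_le_mul_of_nonneg_left (hy (u + 1)) (hp0 (u + 1))
    linarith
  | succ n ih =>
    rw [← Nat.add_assoc, Finset.sum_Ioc_succ_top (by omega)]
    have h1 : (∑ i ∈ Ioc u (u + 1 + n), p i * (y i - y (i + 1)) +
        p (u + 1 + n + 1) * (y (u + 1 + n + 1) - y (u + 1 + n + 1 + 1)) +
        p (u + 1 + n + 1) * y (u + 1 + n + 1 + 1)) =
        (∑ i ∈ Ioc u (u + 1 + n), p i * (y i - y (i + 1)) + p (u + 1 + n) * y (u + 1 + n + 1)) +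
        (p (u + 1 + n + 1) - p (u + 1 + n)) * y (u + 1 + n + 1) := by ring
    rw [h1]
    refine (abs_add_le _ _).trans ?_
    have h2 : |(p (u + 1 + n + 1) - p (u + 1 + n)) * y (u + 1 + n + 1)| ≤
        (p (u + 1 + n) - p (u + 1 + n + 1)) * C := by
      have h3 := hp (u + 1 + n) (by omega)
      rw [abs_mul, abs_of_nonpos (by linarith), neg_sub]
      exact mul_le_mul_of_nonneg_left (hy _) (by linarith)
    linarith

lemma abel {p y : ℕ → ℝ} {C : ℝ} (hy : ∀ i, |y i| ≤ C) {u v : ℕ} (huv : u < v)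
    (hp : ∀ i, u < i → p (i + 1) ≤ p i) (hp0 : ∀ i, 0 ≤ p i) :
    |∑ i ∈ Ioc u v, p i * (y i - y (i + 1))| ≤ 2 * C * p (u + 1) := by
  obtain ⟨n, rfl⟩ : ∃ n, v = u + 1 + n := ⟨v - (u + 1), by omega⟩
  have h1 := abel_aux hy hp hp0 n
  have h2 : |p (u + 1 + n) * y (u + 1 + n + 1)| ≤ p (u + 1 + n) * C := by
    rw [abs_mul, abs_of_nonneg (hp0 _)]
    exact mul_le_mul_of_nonneg_left (hy _) (hp0 _)
  have h3 : ∑ i ∈ Ioc u (u + 1 + n), p i * (y i - y (i + 1)) =
      (∑ i ∈ Ioc u (u + 1 + n), p i * (y i - y (i + 1)) + p (u + 1 + n) * y (u + 1 + n + 1)) -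
      p (u + 1 + n) * y (u + 1 + n + 1) := by ring
  rw [h3]
  have h4 := abs_sub (∑ i ∈ Ioc u (u + 1 + n), p i * (y i - y (i + 1)) +
    p (u + 1 + n) * y (u + 1 + n + 1)) (p (u + 1 + n) * y (u + 1 + n + 1))
  linarith

lemma sum_Ioc_range (y : ℕ → ℝ) (N : ℕ) : ∑ k ∈ Ioc 0 N, y k = ∑ i ∈ range N, y (i + 1) := by
  induction N with
  | zero => simp
  | succ n ih => rw [Finset.sum_Ioc_succ_top (Nat.zero_le n), ih, Finset.sum_range_succ]

lemma cesaro_Ioc {y : ℕ → ℝ} (hy : Tendsto y atTop (𝓝 0)) :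
    Tendsto (fun N : ℕ => (∑ k ∈ Ioc 0 N, y k) / (N : ℝ)) atTop (𝓝 0) := by
  have h1 := ((tendsto_add_atTop_iff_nat 1).2 hy).cesaro
  refine h1.congr fun N => ?_
  rw [sum_Ioc_range, div_eq_inv_mul]

lemma pw_nonneg (a : ℝ) (n : ℕ) : 0 ≤ pw a n := Real.rpow_nonneg (Nat.cast_nonneg n) _

lemma pw_anti {a : ℝ} (ha : 0 < a) {i : ℕ} (hi : 0 < i) : pw a (i + 1) ≤ pw a i := by
  unfold pw
  exact Real.rpow_le_rpow_of_nonpos (by exact_mod_cast hi) (by push_cast; linarith) (by linarith)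

lemma pw_tendsto {a : ℝ} (ha : 0 < a) : Tendsto (pw a) atTop (𝓝 0) :=
  (tendsto_rpow_neg_atTop ha).comp tendsto_natCast_atTop_atTop

/-- weighted means along the enumeration -/
lemma wmean (hWM : S_WM) {a : ℝ} (ha : 0 < a) (ha1 : a < 1) {s : ℕ → ℕ} (hs : StrictMono s)
    (hmass : Tendsto (fun N : ℕ => (∑ n ∈ Icc 1 (s N), pw a n) / (N : ℝ)) atTop (𝓝 1))
    {x : ℕ → ℝ} {C l : ℝ} (hx : ∀ k, |x k| ≤ C)
    (hl : Tendsto (fun N : ℕ => (∑ i ∈ Ioc 0 N, x i) / (N : ℝ)) atTop (𝓝 l)) :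
    Tendsto (fun N : ℕ => (∑ i ∈ Ioc 0 (s N), pw a i * x i) / (N : ℝ)) atTop (𝓝 l) := by
  have h1 := (hWM a x C l ha ha1 hx hl).comp hs.tendsto_atTop
  have h2 := h1.mul hmass
  rw [mul_one] at h2
  refine h2.congr' ?_
  filter_upwards [hmass.eventually_ne one_ne_zero] with N hN
  have hIcc : Icc 1 (s N) = Ioc 0 (s N) := by
    ext i; simp only [mem_Icc, mem_Ioc]; omega
  rw [hIcc] at hN ⊢
  have hden : ∑ i ∈ Ioc 0 (s N), pw a i ≠ 0 := fun h => hN (by rw [h, zero_div])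
  simp only [Function.comp]
  field_simp

end SM

open SM in
theorem t_SM : S_DEC.{u} → S_WM → S_BPE.{u} → S_SM.{u} := by
  intro hDEC hWM hBPE a E ha ha2 hR X _ μ T f hμ hT hf hf0
  have hs : StrictMono (en E) := strictMono_nat_of_lt_succ (en_lt hR.inf)
  have ha1 : a < 1 := by linarith
  choose h r hh hr hC hfe hri using fun n : ℕ =>
    hDEC X μ T f hμ hT hf hf0 ((1 / 4 : ℝ) ^ n) (by positivity)
  choose C hC using hC
  let l : ℕ → X → ℝ := fun n => μ[fun x => |r n x| | MeasurableSpace.invariants T]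
  have hint : ∀ n, Integrable (fun x => |r n x|) μ := fun n => by
    refine Integrable.of_bound (C := 1) ?_ ?_
    · exact ((hr n).1.norm).aestronglyMeasurable
    · exact ae_of_all _ fun x => by rw [Real.norm_eq_abs, abs_abs]; exact (hr n).2 x
  have hA : ∀ᵐ x ∂μ, ∀ n, Tendsto (fun N : ℕ =>
      (∑ i ∈ Ioc 0 (en E N), pw a i * |r n (T^[i] x)|) / (N : ℝ)) atTop (𝓝 (l n x)) := by
    rw [ae_all_iff]
    intro n
    have hb := hBPE X μ T (fun x => |r n x|) hμ hT (hr n).1.norm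
      ⟨1, fun x => by rw [abs_abs]; exact (hr n).2 x⟩
    filter_upwards [hb] with x hx
    exact wmean hWM ha ha1 hs hR.mass (C := 1) (x := fun i => |r n (T^[i] x)|)
      (fun k => by rw [abs_abs]; exact (hr n).2 _) hx
  have hl0 : ∀ n, 0 ≤ᵐ[μ] l n := fun n =>
    condExp_nonneg (ae_of_all _ fun x => abs_nonneg _)
  have hlint : ∀ n, ∫ x, l n x ∂μ ≤ (1 / 4 : ℝ) ^ n := fun n => by
    have h1 : ∫ x, l n x ∂μ = ∫ x, |r n x| ∂μ := integral_condExp (MeasurableSpace.invariants_le T)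
    rw [h1]
    exact hri n
  have hB : ∀ᵐ x ∂μ, ∀ j : ℕ, ∃ n, l n x < 1 / ((j : ℝ) + 1) := by
    rw [ae_all_iff]
    intro j
    rw [ae_iff]
    set δ : ℝ := 1 / ((j : ℝ) + 1) with hδ
    have hδ0 : 0 < δ := by positivity
    have h1 : ∀ n : ℕ, μ.real {x | ¬ ∃ n, l n x < δ} ≤ (1 / 4 : ℝ) ^ n / δ := by
      intro n
      have h2 := mul_meas_ge_le_integral_of_nonneg (hl0 n) integrable_condExp δ
      have h3 : μ.real {x | ¬ ∃ n, l n x < δ} ≤ μ.real {x | δ ≤ l n x} := by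
        refine measureReal_mono ?_ (measure_ne_top μ _)
        intro x hx
        have hx' : ¬ ∃ n, l n x < δ := hx
        push Not at hx'
        exact hx' n
      rw [le_div_iff₀ hδ0]
      have h4 := hlint n
      nlinarith
    have h5 : Tendsto (fun n : ℕ => (1 / 4 : ℝ) ^ n / δ) atTop (𝓝 0) := by
      have := (tendsto_pow_atTop_nhds_zero_of_lt_one (by norm_num : (0 : ℝ) ≤ 1 / 4)
        (by norm_num)).div_const δ
      rwa [zero_div] at this
    have h6 : μ.real {x | ¬ ∃ n, l n x < δ} ≤ 0 := ge_of_tendsto' h5 h1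
    have h7 : μ.real {x | ¬ ∃ n, l n x < δ} = 0 := le_antisymm h6 measureReal_nonneg
    exact (measureReal_eq_zero_iff).1 h7
  filter_upwards [hA, hB] with x hAx hBx
  -- the coboundary part
  have hcob : ∀ n, Tendsto (fun N : ℕ => (∑ k ∈ Ioc 0 N,
      |∑ i ∈ Ioc (en E (k - 1)) (en E k), pw a i * (h n (T^[i] x) - h n (T^[i + 1] x))|) / (N : ℝ))
      atTop (𝓝 0) := by
    intro n
    apply cesaro_Ioc
    have hlim : Tendsto (fun k : ℕ => 2 * C n * pw a (en E (k - 1) + 1)) atTop (𝓝 0) := by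
      have h1 : Tendsto (fun k : ℕ => en E (k - 1) + 1) atTop atTop :=
        (tendsto_add_atTop_nat 1).comp (hs.tendsto_atTop.comp (tendsto_sub_atTop_nat 1))
      have h2 := ((pw_tendsto ha).comp h1).const_mul (2 * C n)
      rwa [mul_zero] at h2
    refine squeeze_zero' (Eventually.of_forall fun k => abs_nonneg _) ?_ hlim
    filter_upwards [eventually_ge_atTop 1] with k hk
    refine abel (y := fun i => h n (T^[i] x)) (fun i => hC n _) ?_ ?_ (pw_nonneg a)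
    · exact hs (by omega)
    · intro i hi
      exact pw_anti ha (by omega)
  -- conclusion
  rw [Metric.tendsto_atTop]
  intro ε hε
  obtain ⟨j, hj⟩ := exists_nat_one_div_lt (half_pos hε)
  obtain ⟨n, hn⟩ := hBx j
  have hsum := (hcob n).add (hAx n)
  rw [zero_add] at hsum
  have hlt : l n x < ε := by linarith
  obtain ⟨N₀, hN₀⟩ := eventually_atTop.1 (hsum.eventually_lt_const hlt)
  refine ⟨N₀, fun N hN => ?_⟩
  have h1 := hN₀ N hN
  rw [Real.dist_eq, sub_zero, abs_of_nonneg (div_nonneg (Finset.sum_nonneg fun k _ =>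
    abs_nonneg _) (Nat.cast_nonneg N))]
  refine lt_of_le_of_lt ?_ h1
  rw [← add_div]
  refine div_le_div_of_nonneg_right ?_ (Nat.cast_nonneg N)
  rw [← sum_gaps hs rfl, ← Finset.sum_add_distrib]
  apply Finset.sum_le_sum
  intro k _
  have h2 : ∑ i ∈ Ioc (en E (k - 1)) (en E k), pw a i * f (T^[i] x) =
      ∑ i ∈ Ioc (en E (k - 1)) (en E k), pw a i * (h n (T^[i] x) - h n (T^[i + 1] x)) +
      ∑ i ∈ Ioc (en E (k - 1)) (en E k), pw a i * r n (T^[i] x) := by
    rw [← Finset.sum_add_distrib]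
    apply Finset.sum_congr rfl
    intro i _
    rw [hfe n (T^[i] x), Function.iterate_succ_apply']
    ring
  rw [h2]
  refine (abs_add_le _ _).trans (add_le_add le_rfl ?_)
  refine (Finset.abs_sum_le_sum_abs _ _).trans (Finset.sum_le_sum fun i _ => ?_)
  rw [abs_mul, abs_of_nonneg (pw_nonneg a i)]

end Pool.Agent.H505RS
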