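import Pool.Agent.H505RS.Defs

/-! Task SUM (helper133): `∑_{n ≤ L} n^(-a) ~ L^(1-a)/(1-a)`. -/

set_option autoImplicit false

namespace Pool.Agent.H505RS

open Finset Filter Topology

namespace SUM

theorem step (b : ℝ) (hb0 : 0 < b) (hb1 : b < 1) (n : ℕ) (hn : 1 ≤ n) (s : ℝ) (hs : -1 ≤ s) :
    ((n : ℝ) + s) ^ b ≤ (n : ℝ) ^ b + s * (b * (n : ℝ) ^ (b - 1)) := by
  have hn0 : (0 : ℝ) < n := by exact_mod_cast hn
  have hn1 : (1 : ℝ) ≤ n := by exact_mod_cast hn
  have hs' : -1 ≤ s / n := by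
    rw [le_div_iff₀ hn0]
    linarith
  have h1 := _root_.rpow_one_add_le_one_add_mul_self hs' hb0.le hb1.le
  have e1 : (n : ℝ) + s = n * (1 + s / n) := by
    field_simp
  rw [e1, Real.mul_rpow hn0.le (by linarith)]
  refine (mul_le_mul_of_nonneg_left h1 (Real.rpow_nonneg hn0.le b)).trans (le_of_eq ?_)
  rw [Real.rpow_sub_one hn0.ne']
  field_simp

theorem upper (a : ℝ) (ha0 : 0 < a) (ha1 : a < 1) (L : ℕ) :
    ∑ n ∈ Icc 1 L, pw a n ≤ (L : ℝ) ^ (1 - a) / (1 - a) := by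
  have hb : 0 < 1 - a := by linarith
  induction L with
  | zero =>
    simp only [Nat.cast_zero]
    rw [Real.zero_rpow hb.ne']
    simp
  | succ L ih =>
    rw [Finset.sum_Icc_succ_top (by omega)]
    have h := step (1 - a) hb (by linarith) (L + 1) (by omega) (-1) le_rfl
    have e1 : ((L + 1 : ℕ) : ℝ) + -1 = L := by push_cast; ring
    have e2 : (1 - a - 1 : ℝ) = -a := by ring
    rw [e1, e2] at h
    have h2 : pw a (L + 1) = ((L + 1 : ℕ) : ℝ) ^ (-a) := rfl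
    rw [← h2] at h
    rw [le_div_iff₀ hb] at ih ⊢
    nlinarith

theorem lower (a : ℝ) (ha0 : 0 < a) (ha1 : a < 1) (L : ℕ) :
    (((L : ℝ) + 1) ^ (1 - a) - 1) / (1 - a) ≤ ∑ n ∈ Icc 1 L, pw a n := by
  have hb : 0 < 1 - a := by linarith
  induction L with
  | zero => simp
  | succ L ih =>
    rw [Finset.sum_Icc_succ_top (by omega)]
    have h := step (1 - a) hb (by linarith) (L + 1) (by omega) 1 (by norm_num)
    have e2 : (1 - a - 1 : ℝ) = -a := by ring
    rw [e2] at h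
    have h2 : pw a (L + 1) = ((L + 1 : ℕ) : ℝ) ^ (-a) := rfl
    rw [← h2] at h
    rw [div_le_iff₀ hb] at ih ⊢
    push_cast at h ⊢
    nlinarith

end SUM

theorem t_SUM : S_SUM := by
  intro a ha0 ha1
  have hb : 0 < 1 - a := by linarith
  have hlim : Tendsto (fun L : ℕ => 1 - (L : ℝ) ^ (-(1 - a))) atTop (𝓝 1) := by
    have h1 : Tendsto (fun x : ℝ => x ^ (-(1 - a))) atTop (𝓝 0) := tendsto_rpow_neg_atTop hb
    have h2 := h1.comp (tendsto_natCast_atTop_atTop (R := ℝ))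
    have h3 := h2.const_sub 1
    simpa using h3
  refine tendsto_of_tendsto_of_tendsto_of_le_of_le' hlim tendsto_const_nhds ?_ ?_
  · filter_upwards [eventually_ge_atTop 1] with L hL
    have hL0 : (0 : ℝ) < L := by exact_mod_cast hL
    have hLb : 0 < (L : ℝ) ^ (1 - a) := Real.rpow_pos_of_pos hL0 _
    rw [le_div_iff₀ (div_pos hLb hb)]
    refine le_trans ?_ (SUM.lower a ha0 ha1 L)
    have h1 : (L : ℝ) ^ (1 - a) ≤ ((L : ℝ) + 1) ^ (1 - a) :=
      Real.rpow_le_rpow hL0.le (by linarith) hb.le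
    have h2 : (L : ℝ) ^ (-(1 - a)) * (L : ℝ) ^ (1 - a) = 1 := by
      rw [Real.rpow_neg hL0.le, inv_mul_cancel₀ hLb.ne']
    rw [mul_div_assoc', div_le_div_iff_of_pos_right hb]
    nlinarith
  · filter_upwards [eventually_ge_atTop 1] with L hL
    have hL0 : (0 : ℝ) < L := by exact_mod_cast hL
    have hLb : 0 < (L : ℝ) ^ (1 - a) := Real.rpow_pos_of_pos hL0 _
    rw [div_le_one (div_pos hLb hb)]
    exact SUM.upper a ha0 ha1 L

end Pool.Agent.H505RS
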