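import Pool.Agent.H505RS.Defs

/-! T1: scalar transference (helper48) -/

set_option autoImplicit false

noncomputable section

namespace Pool.Agent.H505RS

open scoped BigOperators ENNReal Topology InnerProductSpace
open Finset Filter MeasureTheory ProbabilityTheory

universe u v

namespace T1

open ZMod

/-- Parseval -/
theorem parseval {N : ℕ} [NeZero N] (b : ZMod N → ℂ) :
    ∑ k : ZMod N, ‖∑ j, b j * stdAddChar (-(k * j))‖ ^ 2 = N * ∑ j, ‖b j‖ ^ 2 := by
  have h : ((∑ k : ZMod N, ‖∑ j, b j * stdAddChar (-(k * j))‖ ^ 2 : ℝ) : ℂ) =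
      ((N * ∑ j, ‖b j‖ ^ 2 : ℝ) : ℂ) := by
    push_cast
    have e1 : ∀ k : ZMod N, ((‖∑ j, b j * stdAddChar (-(k * j))‖ : ℂ)) ^ 2 =
        ∑ j, ∑ l, b j * (starRingEnd ℂ) (b l) * stdAddChar (k * (l - j)) := by
      intro k
      rw [← Complex.mul_conj', map_sum, Finset.sum_mul_sum]
      refine Finset.sum_congr rfl fun j _ => Finset.sum_congr rfl fun l _ => ?_
      rw [map_mul, ← AddChar.map_neg_eq_conj, neg_neg]
      have : (stdAddChar (k * (l - j)) : ℂ) = stdAddChar (-(k * j)) * stdAddChar (k * l) := by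
        rw [← AddChar.map_add_eq_mul]
        congr 1
        ring
      rw [this]
      ring
    simp only [e1]
    rw [Finset.sum_comm, Finset.mul_sum]
    refine Finset.sum_congr rfl fun j _ => ?_
    rw [Finset.sum_comm]
    have e2 : ∀ l : ZMod N, ∑ k : ZMod N, b j * (starRingEnd ℂ) (b l) *
        stdAddChar (k * (l - j)) = if l = j then (N : ℂ) * (‖b j‖ : ℂ) ^ 2 else 0 := by
      intro l
      rw [← Finset.mul_sum, AddChar.sum_mulShift _ (isPrimitive_stdAddChar N), ZMod.card]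
      by_cases h : l = j
      · rw [if_pos h, if_pos (sub_eq_zero.2 h), h, Complex.mul_conj']
        ring
      · rw [if_neg h, if_neg (sub_ne_zero.2 h)]
        simp
    simp only [e2]
    simp
  exact_mod_cast h

theorem convol {N : ℕ} [NeZero N] (L : ℕ) (c : ℕ → ℂ) (g : ZMod N → ℂ) (k : ZMod N) :
    ∑ j, (∑ n ∈ Icc 1 L, c n * g ((n : ZMod N) + j)) * stdAddChar (-(k * j)) =
      (∑ n ∈ Icc 1 L, c n * stdAddChar (k * (n : ZMod N))) * ∑ j, g j * stdAddChar (-(k * j)) := by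
  rw [Finset.sum_mul]
  simp only [Finset.sum_mul]
  rw [Finset.sum_comm]
  refine Finset.sum_congr rfl fun n _ => ?_
  rw [Finset.mul_sum]
  rw [← Equiv.sum_comp (Equiv.addLeft (n : ZMod N))
    (fun j => c n * stdAddChar (k * (n : ZMod N)) * (g j * stdAddChar (-(k * j))))]
  refine Finset.sum_congr rfl fun j _ => ?_
  rw [Equiv.coe_addLeft]
  have : (stdAddChar (-(k * j)) : ℂ) =
      stdAddChar (k * (n : ZMod N)) * stdAddChar (-(k * ((n : ZMod N) + j))) := by
    rw [← AddChar.map_add_eq_mul]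
    congr 1
    ring
  rw [this]
  ring

theorem finite (L : ℕ) (c : ℕ → ℝ) (K : ℝ) (hL : 1 ≤ L) (hK : 0 ≤ K)
    (h : ∀ k : ℕ, k < 3 * L → ‖∑ n ∈ Icc 1 L, (c n : ℂ) * ee ((k : ℝ) * n / (3 * L))‖ ≤ K)
    (g : ℕ → ℝ) (hg : ∀ m, |g m| ≤ 1) :
    ∑ j ∈ range L, (∑ n ∈ Icc 1 L, c n * g (n + j)) ^ 2 ≤ L * (3 * K ^ 2) := by
  have : NeZero (3 * L) := ⟨by omega⟩
  set N := 3 * L with hN
  let G : ZMod N → ℂ := fun m => (g m.val : ℂ)
  let b : ZMod N → ℂ := fun j => ∑ n ∈ Icc 1 L, (c n : ℂ) * G ((n : ZMod N) + j)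
  have hC : ∀ k : ZMod N, ‖∑ n ∈ Icc 1 L, (c n : ℂ) * stdAddChar (k * (n : ZMod N))‖ ≤ K := by
    intro k
    refine le_trans (le_of_eq ?_) (h k.val (ZMod.val_lt k))
    congr 1
    refine Finset.sum_congr rfl fun n _ => ?_
    congr 1
    have e1 : k * (n : ZMod N) = (((k.val * n : ℕ) : ℤ) : ZMod N) := by
      push_cast
      rw [ZMod.natCast_zmod_val]
    rw [e1, ZMod.stdAddChar_coe]
    unfold ee
    congr 1
    have hNC : (N : ℂ) = 3 * (L : ℂ) := by
      rw [hN]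
      push_cast
      ring
    rw [hNC]
    push_cast
    ring
  have h1 : (N : ℝ) * ∑ j, ‖b j‖ ^ 2 ≤ K ^ 2 * (N * ∑ j, ‖G j‖ ^ 2) := by
    rw [← parseval b, ← parseval G, Finset.mul_sum]
    refine Finset.sum_le_sum fun k _ => ?_
    rw [show ∑ j, b j * stdAddChar (-(k * j)) = _ from convol L (fun n => (c n : ℂ)) G k, norm_mul,
      mul_pow]
    exact mul_le_mul_of_nonneg_right (pow_le_pow_left₀ (norm_nonneg _) (hC k) 2)
      (by positivity)
  have hN0 : (0 : ℝ) < N := by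
    have : 0 < N := by omega
    exact_mod_cast this
  have h2 : ∑ j, ‖b j‖ ^ 2 ≤ K ^ 2 * ∑ j, ‖G j‖ ^ 2 := by
    have : (N : ℝ) * ∑ j, ‖b j‖ ^ 2 ≤ N * (K ^ 2 * ∑ j, ‖G j‖ ^ 2) := by
      refine h1.trans (le_of_eq ?_)
      ring
    exact le_of_mul_le_mul_left this hN0
  have h3 : ∑ j, ‖G j‖ ^ 2 ≤ 3 * L := by
    have : ∑ j, ‖G j‖ ^ 2 ≤ ∑ _j : ZMod N, (1 : ℝ) := by
      refine Finset.sum_le_sum fun j _ => ?_
      have h4 : ‖G j‖ ≤ 1 := by
        show ‖(g j.val : ℂ)‖ ≤ 1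
        rw [Complex.norm_real]
        exact hg _
      exact pow_le_one₀ (norm_nonneg _) h4
    refine this.trans (le_of_eq ?_)
    rw [Finset.sum_const, Finset.card_univ, ZMod.card, nsmul_eq_mul, mul_one, hN]
    push_cast
    ring
  have h4 : ∑ j ∈ range L, (∑ n ∈ Icc 1 L, c n * g (n + j)) ^ 2 ≤ ∑ j, ‖b j‖ ^ 2 := by
    have e1 : ∀ j ∈ range L, (∑ n ∈ Icc 1 L, c n * g (n + j)) ^ 2 = ‖b (j : ZMod N)‖ ^ 2 := by
      intro j hj
      have hj' := Finset.mem_range.1 hj
      have e2 : b (j : ZMod N) = ((∑ n ∈ Icc 1 L, c n * g (n + j) : ℝ) : ℂ) := by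
        show ∑ n ∈ Icc 1 L, (c n : ℂ) * G ((n : ZMod N) + (j : ZMod N)) = _
        push_cast
        refine Finset.sum_congr rfl fun n hn => ?_
        have hn' := (Finset.mem_Icc.1 hn).2
        congr 2
        have e3 : (n : ZMod N) + (j : ZMod N) = ((n + j : ℕ) : ZMod N) := by push_cast; ring
        rw [e3]
        show ((g ((n + j : ℕ) : ZMod N).val : ℝ) : ℂ) = _
        rw [ZMod.val_natCast, Nat.mod_eq_of_lt (by omega)]
      rw [e2, Complex.norm_real, Real.norm_eq_abs, sq_abs]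
    rw [Finset.sum_congr rfl e1]
    have hinj : Set.InjOn (fun j : ℕ => (j : ZMod N)) (range L : Set ℕ) := by
      intro a ha b hb hab
      have ha' : a < L := by simpa using ha
      have hb' : b < L := by simpa using hb
      have := congrArg ZMod.val hab
      simp only [ZMod.val_natCast] at this
      rwa [Nat.mod_eq_of_lt (by omega), Nat.mod_eq_of_lt (by omega)] at this
    rw [← Finset.sum_image (f := fun j => ‖b j‖ ^ 2) hinj]
    exact Finset.sum_le_sum_of_subset_of_nonneg (Finset.subset_univ _)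
      (fun _ _ _ => by positivity)
  have h5 : K ^ 2 * ∑ j, ‖G j‖ ^ 2 ≤ K ^ 2 * (3 * L) :=
    mul_le_mul_of_nonneg_left h3 (by positivity)
  calc _ ≤ _ := h4
    _ ≤ _ := h2
    _ ≤ _ := h5
    _ = _ := by ring

end T1

/-- T1: scalar transference -/
theorem t_T1 : S_T1.{u} := by
  intro L c K hL hK h X _ μ T f hμ hT hf
  have hTj : ∀ j : ℕ, MeasurePreserving (T^[j]) μ μ := fun j => hT.iterate j
  let F : X → ℝ := fun x => (∑ n ∈ Icc 1 L, c n * f (T^[n] x)) ^ 2
  have hFm : Measurable F := by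
    refine Measurable.pow_const ?_ 2
    refine Finset.measurable_sum _ fun n _ => ?_
    exact (hf.1.comp (hTj n).measurable).const_mul _
  have hFb : ∀ x, ‖F x‖ ≤ (∑ n ∈ Icc 1 L, |c n|) ^ 2 := by
    intro x
    show ‖(∑ n ∈ Icc 1 L, c n * f (T^[n] x)) ^ 2‖ ≤ _
    rw [norm_pow, Real.norm_eq_abs]
    refine pow_le_pow_left₀ (abs_nonneg _) ?_ 2
    refine (Finset.abs_sum_le_sum_abs _ _).trans (Finset.sum_le_sum fun n _ => ?_)
    rw [abs_mul]
    have := hf.2 (T^[n] x)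
    nlinarith [abs_nonneg (c n)]
  have hint : ∀ j : ℕ, Integrable (fun x => F (T^[j] x)) μ := fun j =>
    Integrable.of_bound ((hFm.comp (hTj j).measurable).aestronglyMeasurable) _
      (Filter.Eventually.of_forall fun x => hFb _)
  have heq : ∀ j : ℕ, ∫ x, F (T^[j] x) ∂μ = ∫ x, F x ∂μ := by
    intro j
    conv_rhs => rw [← (hTj j).map_eq]
    rw [integral_map (hTj j).measurable.aemeasurable hFm.aestronglyMeasurable]
  have hpt : ∀ x, ∑ j ∈ range L, F (T^[j] x) ≤ L * (3 * K ^ 2) := by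
    intro x
    refine le_trans (le_of_eq ?_) (T1.finite L c K hL hK h (fun m => f (T^[m] x))
      (fun m => hf.2 _))
    refine Finset.sum_congr rfl fun j _ => ?_
    show (∑ n ∈ Icc 1 L, c n * f (T^[n] (T^[j] x))) ^ 2 = _
    congr 1
    refine Finset.sum_congr rfl fun n _ => ?_
    rw [Function.iterate_add_apply]
  have hsum : (L : ℝ) * ∫ x, F x ∂μ ≤ L * (3 * K ^ 2) := by
    have e1 : (L : ℝ) * ∫ x, F x ∂μ = ∫ x, ∑ j ∈ range L, F (T^[j] x) ∂μ := by
      rw [integral_finsetSum _ (fun j _ => hint j)]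
      rw [Finset.sum_congr rfl (fun j _ => heq j), Finset.sum_const, card_range, nsmul_eq_mul]
    rw [e1]
    refine (integral_mono (integrable_finsetSum _ (fun j _ => hint j)) (integrable_const _)
      hpt).trans (le_of_eq ?_)
    rw [integral_const, probReal_univ, one_smul]
  have hL0 : (0 : ℝ) < L := by exact_mod_cast hL
  exact le_of_mul_le_mul_left hsum hL0

end Pool.Agent.H505RS
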