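import Pool.Agent.H505RS.Defs

/-! TR: bilinear transference. -/

set_option autoImplicit false

noncomputable section

namespace Pool.Agent.H505RS

open scoped BigOperators ENNReal Topology InnerProductSpace
open Finset Filter MeasureTheory ProbabilityTheory

universe u v

namespace TR

open scoped ComplexConjugate

theorem ee_add (a b : ℝ) : ee (a + b) = ee a * ee b := by
  unfold ee
  rw [← Complex.exp_add]
  congr 1
  push_cast
  ring

theorem ee_zero : ee 0 = 1 := by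
  unfold ee; simp

theorem ee_norm (a : ℝ) : ‖ee a‖ = 1 := by
  unfold ee
  rw [show 2 * (Real.pi : ℂ) * Complex.I * (a : ℂ) = ((2 * Real.pi * a : ℝ) : ℂ) * Complex.I by
    push_cast; ring]
  exact Complex.norm_exp_ofReal_mul_I _

theorem ee_conj (a : ℝ) : conj (ee a) = ee (-a) := by
  unfold ee
  rw [← Complex.exp_conj]
  congr 1
  simp only [map_mul, Complex.conj_ofReal, Complex.conj_I, map_ofNat]
  push_cast
  ring

theorem ee_int (n : ℤ) : ee (n : ℝ) = 1 := by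
  unfold ee
  rw [Complex.exp_eq_one_iff]
  exact ⟨n, by push_cast; ring⟩

theorem ee_nat_mul (n : ℕ) (a : ℝ) : ee ((n : ℝ) * a) = ee a ^ n := by
  unfold ee
  rw [← Complex.exp_nat_mul]
  congr 1
  push_cast
  ring

theorem orth (R : ℕ) (hR : 1 ≤ R) (d : ℤ) (hd : |d| < 3 * (R : ℤ)) :
    ∑ k ∈ range (3 * R), ee ((k : ℝ) * d / (3 * R)) = if d = 0 then (3 * R : ℂ) else 0 := by
  have hR0 : (R : ℝ) ≠ 0 := by
    have : (0 : ℝ) < R := by exact_mod_cast hR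
    exact this.ne'
  split_ifs with h
  · subst h
    have : ∀ k ∈ range (3 * R), ee ((k : ℝ) * ((0 : ℤ) : ℝ) / (3 * R)) = 1 := by
      intro k _
      rw [Int.cast_zero, mul_zero, zero_div, ee_zero]
    rw [Finset.sum_congr rfl this]
    simp
  · set z := ee ((d : ℝ) / (3 * R)) with hz
    have h1 : ∀ k ∈ range (3 * R), ee ((k : ℝ) * d / (3 * R)) = z ^ k := by
      intro k _
      rw [hz, ← ee_nat_mul]
      congr 1
      ring
    rw [Finset.sum_congr rfl h1]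
    have hz1 : z ≠ 1 := by
      intro h2
      rw [hz] at h2
      unfold ee at h2
      rw [Complex.exp_eq_one_iff] at h2
      obtain ⟨n, hn⟩ := h2
      have h3 : ((d : ℝ) / (3 * R) : ℂ) = n := by
        have hpi : (2 * (Real.pi : ℂ) * Complex.I) ≠ 0 := Complex.two_pi_I_ne_zero
        apply mul_left_cancel₀ hpi
        rw [mul_comm (2 * (Real.pi : ℂ) * Complex.I) (n : ℂ)]
        rw [← hn]
        push_cast
        ring
      have h4 : (d : ℝ) / (3 * R) = n := by exact_mod_cast h3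
      have h5 : (d : ℝ) = n * (3 * R) := by
        rw [← h4]; field_simp
      have h6 : d = n * (3 * R) := by exact_mod_cast h5
      have hn0 : n ≠ 0 := by
        rintro rfl
        apply h; rw [h6]; ring
      have h7 : 1 ≤ |n| := Int.one_le_abs hn0
      rw [h6, abs_mul, abs_of_nonneg (by positivity : (0 : ℤ) ≤ 3 * R)] at hd
      have h8 : (0 : ℤ) < 3 * R := by
        have : (1 : ℤ) ≤ R := by exact_mod_cast hR
        linarith
      nlinarith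
    have hzQ : z ^ (3 * R) = 1 := by
      rw [hz, ← ee_nat_mul]
      have : ((3 * R : ℕ) : ℝ) * ((d : ℝ) / (3 * R)) = d := by
        push_cast; field_simp
      rw [this, ee_int]
    rw [geom_sum_eq hz1, hzQ, sub_self, zero_div]

/-- expansion of the Fourier side -/
theorem bil (R : ℕ) {ι ι' : Type} (s : Finset ι) (s' : Finset ι') (F : ι → ℂ) (G : ι' → ℂ)
    (p q : ι → ℤ) (p' q' : ι' → ℤ) (i t : ℤ) :
    ∑ k ∈ range (3 * R) ×ˢ range (3 * R),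
      (∑ x ∈ s, F x * (ee ((k.1 : ℝ) * p x / (3 * R)) * ee ((k.2 : ℝ) * q x / (3 * R)))) *
      (∑ y ∈ s', G y * (ee ((k.1 : ℝ) * p' y / (3 * R)) * ee ((k.2 : ℝ) * q' y / (3 * R)))) *
      (ee ((k.1 : ℝ) * i / (3 * R)) * ee ((k.2 : ℝ) * t / (3 * R))) =
    ∑ z ∈ s ×ˢ s', F z.1 * G z.2 *
      ((∑ k ∈ range (3 * R), ee ((k : ℝ) * (p z.1 + p' z.2 + i : ℤ) / (3 * R))) *
       (∑ k ∈ range (3 * R), ee ((k : ℝ) * (q z.1 + q' z.2 + t : ℤ) / (3 * R)))) := by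
  have h1 : ∀ k : ℕ × ℕ,
      (∑ x ∈ s, F x * (ee ((k.1 : ℝ) * p x / (3 * R)) * ee ((k.2 : ℝ) * q x / (3 * R)))) *
      (∑ y ∈ s', G y * (ee ((k.1 : ℝ) * p' y / (3 * R)) * ee ((k.2 : ℝ) * q' y / (3 * R)))) *
      (ee ((k.1 : ℝ) * i / (3 * R)) * ee ((k.2 : ℝ) * t / (3 * R))) =
      ∑ z ∈ s ×ˢ s', F z.1 * G z.2 *
        (ee ((k.1 : ℝ) * (p z.1 + p' z.2 + i : ℤ) / (3 * R)) *
         ee ((k.2 : ℝ) * (q z.1 + q' z.2 + t : ℤ) / (3 * R))) := by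
    intro k
    rw [Finset.sum_mul_sum, ← Finset.sum_product', Finset.sum_mul]
    refine Finset.sum_congr rfl fun z _ => ?_
    have e1 : ee ((k.1 : ℝ) * (p z.1 + p' z.2 + i : ℤ) / (3 * R)) =
        ee ((k.1 : ℝ) * p z.1 / (3 * R)) * ee ((k.1 : ℝ) * p' z.2 / (3 * R)) *
          ee ((k.1 : ℝ) * i / (3 * R)) := by
      rw [← ee_add, ← ee_add]; congr 1; push_cast; ring
    have e2 : ee ((k.2 : ℝ) * (q z.1 + q' z.2 + t : ℤ) / (3 * R)) =
        ee ((k.2 : ℝ) * q z.1 / (3 * R)) * ee ((k.2 : ℝ) * q' z.2 / (3 * R)) *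
          ee ((k.2 : ℝ) * t / (3 * R)) := by
      rw [← ee_add, ← ee_add]; congr 1; push_cast; ring
    rw [e1, e2]
    ring
  rw [Finset.sum_congr rfl fun k _ => h1 k, Finset.sum_comm]
  refine Finset.sum_congr rfl fun z _ => ?_
  rw [← Finset.mul_sum, Finset.sum_mul_sum, ← Finset.sum_product']

/-- Parseval -/
theorem parseval (R : ℕ) (hR : 1 ≤ R) (a b : ℕ) (ha : a ≤ 3 * R) (hb : b ≤ 3 * R)
    (F : ℕ × ℕ → ℂ) (σ τ : ℤ) (hσ : σ = 1 ∨ σ = -1) (hτ : τ = 1 ∨ τ = -1) :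
    ∑ k ∈ range (3 * R) ×ˢ range (3 * R),
      ‖∑ x ∈ range a ×ˢ range b, F x * (ee ((k.1 : ℝ) * (σ * (x.1 : ℤ) : ℤ) / (3 * R)) *
        ee ((k.2 : ℝ) * (τ * (x.2 : ℤ) : ℤ) / (3 * R)))‖ ^ 2 =
    (3 * R) ^ 2 * ∑ x ∈ range a ×ˢ range b, ‖F x‖ ^ 2 := by
  apply Complex.ofReal_injective
  have h := bil R (range a ×ˢ range b) (range a ×ˢ range b) F (fun x => conj (F x))
    (fun x => σ * (x.1 : ℤ)) (fun x => τ * (x.2 : ℤ)) (fun x => -(σ * (x.1 : ℤ)))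
    (fun x => -(τ * (x.2 : ℤ))) 0 0
  have hL : ∀ k : ℕ × ℕ, ((‖∑ x ∈ range a ×ˢ range b, F x *
      (ee ((k.1 : ℝ) * (σ * (x.1 : ℤ) : ℤ) / (3 * R)) *
        ee ((k.2 : ℝ) * (τ * (x.2 : ℤ) : ℤ) / (3 * R)))‖ ^ 2 : ℝ) : ℂ) =
      (∑ x ∈ range a ×ˢ range b, F x * (ee ((k.1 : ℝ) * (σ * (x.1 : ℤ) : ℤ) / (3 * R)) *
        ee ((k.2 : ℝ) * (τ * (x.2 : ℤ) : ℤ) / (3 * R)))) *
      (∑ y ∈ range a ×ˢ range b, conj (F y) *
        (ee ((k.1 : ℝ) * (-(σ * (y.1 : ℤ)) : ℤ) / (3 * R)) *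
        ee ((k.2 : ℝ) * (-(τ * (y.2 : ℤ)) : ℤ) / (3 * R)))) *
      (ee ((k.1 : ℝ) * (0 : ℤ) / (3 * R)) * ee ((k.2 : ℝ) * (0 : ℤ) / (3 * R))) := by
    intro k
    rw [Int.cast_zero, mul_zero, zero_div, mul_zero, zero_div, ee_zero, one_mul, mul_one]
    rw [show ((‖∑ x ∈ range a ×ˢ range b, F x *
      (ee ((k.1 : ℝ) * (σ * (x.1 : ℤ) : ℤ) / (3 * R)) *
        ee ((k.2 : ℝ) * (τ * (x.2 : ℤ) : ℤ) / (3 * R)))‖ ^ 2 : ℝ) : ℂ) =
      (∑ x ∈ range a ×ˢ range b, F x * (ee ((k.1 : ℝ) * (σ * (x.1 : ℤ) : ℤ) / (3 * R)) *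
        ee ((k.2 : ℝ) * (τ * (x.2 : ℤ) : ℤ) / (3 * R)))) *
      conj (∑ x ∈ range a ×ˢ range b, F x * (ee ((k.1 : ℝ) * (σ * (x.1 : ℤ) : ℤ) / (3 * R)) *
        ee ((k.2 : ℝ) * (τ * (x.2 : ℤ) : ℤ) / (3 * R)))) from by
        rw [Complex.mul_conj, Complex.normSq_eq_norm_sq]]
    congr 1
    rw [map_sum]
    refine Finset.sum_congr rfl fun x _ => ?_
    rw [map_mul, map_mul, ee_conj, ee_conj]
    congr 3
    · push_cast; ring
    · push_cast; ring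
  rw [Complex.ofReal_sum, Finset.sum_congr rfl fun k _ => hL k, h]
  have hs1 : ∀ z ∈ (range a ×ˢ range b) ×ˢ (range a ×ˢ range b),
      F z.1 * conj (F z.2) *
      ((∑ k ∈ range (3 * R), ee ((k : ℝ) * (σ * (z.1.1 : ℤ) + -(σ * (z.2.1 : ℤ)) + 0 : ℤ) /
        (3 * R))) *
       (∑ k ∈ range (3 * R), ee ((k : ℝ) * (τ * (z.1.2 : ℤ) + -(τ * (z.2.2 : ℤ)) + 0 : ℤ) /
        (3 * R)))) =
      if z.1 = z.2 then (3 * R : ℂ) ^ 2 * ((‖F z.1‖ ^ 2 : ℝ) : ℂ) else 0 := by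
    intro z hz
    simp only [Finset.mem_product, Finset.mem_range] at hz
    obtain ⟨⟨h1, h2⟩, h3, h4⟩ := hz
    rw [orth R hR _ (by rcases hσ with rfl | rfl <;> rw [abs_lt] <;> constructor <;> omega),
      orth R hR _ (by rcases hτ with rfl | rfl <;> rw [abs_lt] <;> constructor <;> omega)]
    by_cases he : z.1 = z.2
    · rw [if_pos he, he]
      rw [if_pos (by ring), if_pos (by ring)]
      have : F z.2 * conj (F z.2) = ((‖F z.2‖ ^ 2 : ℝ) : ℂ) := by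
        rw [Complex.mul_conj, Complex.normSq_eq_norm_sq]
      rw [this]; ring
    · rw [if_neg he]
      by_cases h5 : z.1.1 = z.2.1
      · have h6 : z.1.2 ≠ z.2.2 := fun h7 => he (Prod.ext h5 h7)
        rw [if_neg (c := τ * (z.1.2 : ℤ) + -(τ * (z.2.2 : ℤ)) + 0 = 0) (by
          rcases hτ with rfl | rfl <;> omega)]
        ring
      · rw [if_neg (c := σ * (z.1.1 : ℤ) + -(σ * (z.2.1 : ℤ)) + 0 = 0) (by
          rcases hσ with rfl | rfl <;> omega)]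
        ring
  rw [Finset.sum_congr rfl hs1, Finset.sum_product]
  have hs2 : ∀ x ∈ range a ×ˢ range b, ∑ y ∈ range a ×ˢ range b,
      (if x = y then (3 * R : ℂ) ^ 2 * ((‖F x‖ ^ 2 : ℝ) : ℂ) else 0) =
      (3 * R : ℂ) ^ 2 * ((‖F x‖ ^ 2 : ℝ) : ℂ) := by
    intro x hx
    rw [Finset.sum_ite_eq, if_pos hx]
  rw [Finset.sum_congr rfl hs2, ← Finset.mul_sum]
  push_cast
  rfl

/-- the correlation identity -/
theorem corr (R : ℕ) (hR : 1 ≤ R) (F G : ℕ → ℕ → ℂ) (i t : ℕ) (hi : i ≤ R) (ht : t ≤ R) :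
    ∑ k ∈ range (3 * R) ×ˢ range (3 * R),
      (∑ x ∈ range (2 * R) ×ˢ range R, F x.1 x.2 *
        (ee ((k.1 : ℝ) * (-1 * (x.1 : ℤ) : ℤ) / (3 * R)) *
         ee ((k.2 : ℝ) * (1 * (x.2 : ℤ) : ℤ) / (3 * R)))) *
      (∑ y ∈ range R ×ˢ range (2 * R), G y.1 y.2 *
        (ee ((k.1 : ℝ) * (1 * (y.1 : ℤ) : ℤ) / (3 * R)) *
         ee ((k.2 : ℝ) * (-1 * (y.2 : ℤ) : ℤ) / (3 * R)))) *
      (ee ((k.1 : ℝ) * i / (3 * R)) * ee ((k.2 : ℝ) * t / (3 * R))) =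
    (3 * R) ^ 2 * ∑ j ∈ range R ×ˢ range R, F (j.1 + i) j.2 * G j.1 (j.2 + t) := by
  have h := bil R (range (2 * R) ×ˢ range R) (range R ×ˢ range (2 * R))
    (fun x => F x.1 x.2) (fun y => G y.1 y.2)
    (fun x => -1 * (x.1 : ℤ)) (fun x => 1 * (x.2 : ℤ)) (fun y => 1 * (y.1 : ℤ))
    (fun y => -1 * (y.2 : ℤ)) i t
  simp only [Int.cast_natCast] at h
  rw [h]
  have hs1 : ∀ z ∈ (range (2 * R) ×ˢ range R) ×ˢ (range R ×ˢ range (2 * R)),
      F z.1.1 z.1.2 * G z.2.1 z.2.2 *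
      ((∑ k ∈ range (3 * R), ee ((k : ℝ) * (-1 * (z.1.1 : ℤ) + 1 * (z.2.1 : ℤ) + i : ℤ) /
        (3 * R))) *
       (∑ k ∈ range (3 * R), ee ((k : ℝ) * (1 * (z.1.2 : ℤ) + -1 * (z.2.2 : ℤ) + t : ℤ) /
        (3 * R)))) =
      if z.1.1 = z.2.1 + i then (if z.2.2 = z.1.2 + t then
        (3 * R : ℂ) ^ 2 * (F (z.2.1 + i) z.1.2 * G z.2.1 (z.1.2 + t)) else 0) else 0 := by
    intro z hz
    simp only [Finset.mem_product, Finset.mem_range] at hz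
    obtain ⟨⟨h1, h2⟩, h3, h4⟩ := hz
    rw [orth R hR _ (by rw [abs_lt]; constructor <;> omega),
      orth R hR _ (by rw [abs_lt]; constructor <;> omega)]
    by_cases h5 : z.1.1 = z.2.1 + i
    · rw [if_pos h5, if_pos (c := -1 * (z.1.1 : ℤ) + 1 * (z.2.1 : ℤ) + i = 0) (by omega)]
      by_cases h6 : z.2.2 = z.1.2 + t
      · rw [if_pos h6, if_pos (c := 1 * (z.1.2 : ℤ) + -1 * (z.2.2 : ℤ) + t = 0) (by omega),
          h5, h6]
        ring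
      · rw [if_neg h6, if_neg (c := 1 * (z.1.2 : ℤ) + -1 * (z.2.2 : ℤ) + t = 0) (by omega)]
        ring
    · rw [if_neg h5, if_neg (c := -1 * (z.1.1 : ℤ) + 1 * (z.2.1 : ℤ) + i = 0) (by omega)]
      ring
  rw [Finset.sum_congr rfl hs1]
  simp only [Finset.sum_product]
  have hs2 : ∀ x1 ∈ range (2 * R), ∀ x2 ∈ range R, ∀ y1 ∈ range R,
      ∑ y2 ∈ range (2 * R), (if x1 = y1 + i then (if y2 = x2 + t then
        (3 * R : ℂ) ^ 2 * (F (y1 + i) x2 * G y1 (x2 + t)) else 0) else 0) =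
      if x1 = y1 + i then (3 * R : ℂ) ^ 2 * (F (y1 + i) x2 * G y1 (x2 + t)) else 0 := by
    intro x1 _ x2 hx2 y1 _
    rw [Finset.mem_range] at hx2
    split_ifs with h5
    · rw [Finset.sum_ite_eq', if_pos (Finset.mem_range.mpr (by omega))]
    · exact Finset.sum_const_zero
  calc ∑ x1 ∈ range (2 * R), ∑ x2 ∈ range R, ∑ y1 ∈ range R, ∑ y2 ∈ range (2 * R),
        (if x1 = y1 + i then (if y2 = x2 + t then
        (3 * R : ℂ) ^ 2 * (F (y1 + i) x2 * G y1 (x2 + t)) else 0) else 0)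
      = ∑ x1 ∈ range (2 * R), ∑ x2 ∈ range R, ∑ y1 ∈ range R,
        (if x1 = y1 + i then (3 * R : ℂ) ^ 2 * (F (y1 + i) x2 * G y1 (x2 + t)) else 0) :=
        Finset.sum_congr rfl fun x1 h1 => Finset.sum_congr rfl fun x2 h2 =>
          Finset.sum_congr rfl fun y1 h3 => hs2 x1 h1 x2 h2 y1 h3
    _ = ∑ x2 ∈ range R, ∑ y1 ∈ range R, ∑ x1 ∈ range (2 * R),
        (if x1 = y1 + i then (3 * R : ℂ) ^ 2 * (F (y1 + i) x2 * G y1 (x2 + t)) else 0) := by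
        rw [Finset.sum_comm]
        exact Finset.sum_congr rfl fun x2 _ => Finset.sum_comm
    _ = ∑ x2 ∈ range R, ∑ y1 ∈ range R, (3 * R : ℂ) ^ 2 * (F (y1 + i) x2 * G y1 (x2 + t)) := by
        refine Finset.sum_congr rfl fun x2 _ => Finset.sum_congr rfl fun y1 hy1 => ?_
        rw [Finset.mem_range] at hy1
        rw [Finset.sum_ite_eq', if_pos (Finset.mem_range.mpr (by omega))]
    _ = (3 * R : ℂ) ^ 2 * ∑ j1 ∈ range R, ∑ j2 ∈ range R, F (j1 + i) j2 * G j1 (j2 + t) := by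
        rw [Finset.sum_comm, Finset.mul_sum]
        exact Finset.sum_congr rfl fun y1 _ => (Finset.mul_sum _ _ _).symm

end TR

open TR in
theorem t_TR : S_TR := by
  intro R U W co φ γ K hR hK hφ hγ hyp
  classical
  set α : Fin U → ℕ × ℕ → ℂ := fun u k => ∑ x ∈ range (2 * R) ×ˢ range R, φ u x.1 x.2 *
        (ee ((k.1 : ℝ) * (-1 * (x.1 : ℤ) : ℤ) / (3 * R)) *
         ee ((k.2 : ℝ) * (1 * (x.2 : ℤ) : ℤ) / (3 * R))) with hα
  set β : Fin W → ℕ × ℕ → ℂ := fun w k => ∑ y ∈ range R ×ˢ range (2 * R), γ w y.1 y.2 *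
        (ee ((k.1 : ℝ) * (1 * (y.1 : ℤ) : ℤ) / (3 * R)) *
         ee ((k.2 : ℝ) * (-1 * (y.2 : ℤ) : ℤ) / (3 * R))) with hβ
  set I : Finset (Fin U × Fin W × ℕ × ℕ) :=
    (Finset.univ : Finset (Fin U)) ×ˢ (Finset.univ : Finset (Fin W)) ×ˢ range (R + 1) ×ˢ
      range (R + 1) with hI
  have hIs : ∀ f : Fin U → Fin W → ℕ → ℕ → ℂ,
      ∑ u, ∑ w, ∑ i ∈ range (R + 1), ∑ t ∈ range (R + 1), f u w i t =
      ∑ z ∈ I, f z.1 z.2.1 z.2.2.1 z.2.2.2 := by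
    intro f
    simp only [hI, Finset.sum_product]
  set S : ℂ := ∑ j1 ∈ range R, ∑ j2 ∈ range R, ∑ u, ∑ w, ∑ i ∈ range (R + 1),
    ∑ t ∈ range (R + 1), co u w i t * (φ u (j1 + i) j2 * γ w j1 (j2 + t)) with hS
  have hS1 : S = ∑ z ∈ I, co z.1 z.2.1 z.2.2.1 z.2.2.2 * ∑ j ∈ range R ×ˢ range R,
      φ z.1 (j.1 + z.2.2.1) j.2 * γ z.2.1 j.1 (j.2 + z.2.2.2) := by
    rw [hS]
    simp only [hIs]
    rw [← Finset.sum_product', Finset.sum_comm]
    refine Finset.sum_congr rfl fun z _ => ?_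
    rw [Finset.mul_sum]
  have hS2 : (3 * R : ℂ) ^ 2 * S = ∑ k ∈ range (3 * R) ×ˢ range (3 * R), ∑ z ∈ I,
      co z.1 z.2.1 z.2.2.1 z.2.2.2 * (α z.1 k * β z.2.1 k *
        (ee ((k.1 : ℝ) * z.2.2.1 / (3 * R)) * ee ((k.2 : ℝ) * z.2.2.2 / (3 * R)))) := by
    rw [Finset.sum_comm, hS1, Finset.mul_sum]
    refine Finset.sum_congr rfl fun z hz => ?_
    rw [← Finset.mul_sum]
    simp only [hI, Finset.mem_product, Finset.mem_range, Finset.mem_univ, true_and] at hz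
    have h1 := corr R hR (φ z.1) (γ z.2.1) z.2.2.1 z.2.2.2 (by omega) (by omega)
    rw [h1]
    ring
  have hk : ∀ k ∈ range (3 * R) ×ˢ range (3 * R),
      ‖∑ z ∈ I, co z.1 z.2.1 z.2.2.1 z.2.2.2 * (α z.1 k * β z.2.1 k *
        (ee ((k.1 : ℝ) * z.2.2.1 / (3 * R)) * ee ((k.2 : ℝ) * z.2.2.2 / (3 * R))))‖ ≤
      K * (Real.sqrt (∑ u, ‖α u k‖ ^ 2) * Real.sqrt (∑ w, ‖β w k‖ ^ 2)) := by
    intro k hk
    rw [Finset.mem_product, Finset.mem_range, Finset.mem_range] at hk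
    refine le_trans (le_of_eq ?_) (hyp k.1 k.2 hk.1 hk.2 (fun u => α u k) (fun w => β w k))
    congr 1
    rw [← hIs (fun u w i t => co u w i t * (α u k * β w k *
        (ee ((k.1 : ℝ) * i / (3 * R)) * ee ((k.2 : ℝ) * t / (3 * R)))))]
    refine Finset.sum_congr rfl fun u _ => Finset.sum_congr rfl fun w _ => ?_
    simp only [Finset.mul_sum]
    refine Finset.sum_congr rfl fun i _ => Finset.sum_congr rfl fun t _ => ?_
    ring
  have hPα : ∀ u, ∑ k ∈ range (3 * R) ×ˢ range (3 * R), ‖α u k‖ ^ 2 ≤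
      (3 * R) ^ 2 * (2 * (R : ℝ) ^ 2) := by
    intro u
    have h1 := parseval R hR (2 * R) R (by omega) (by omega) (fun x => φ u x.1 x.2) (-1) 1
      (Or.inr rfl) (Or.inl rfl)
    rw [h1]
    apply mul_le_mul_of_nonneg_left _ (by positivity)
    calc ∑ x ∈ range (2 * R) ×ˢ range R, ‖φ u x.1 x.2‖ ^ 2
        ≤ ∑ x ∈ range (2 * R) ×ˢ range R, (1 : ℝ) := by
          refine Finset.sum_le_sum fun x _ => ?_
          have := hφ u x.1 x.2
          have h0 := norm_nonneg (φ u x.1 x.2)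
          nlinarith
      _ = 2 * (R : ℝ) ^ 2 := by
          rw [Finset.sum_const, Finset.card_product, Finset.card_range, Finset.card_range]
          simp; ring
  have hPβ : ∀ w, ∑ k ∈ range (3 * R) ×ˢ range (3 * R), ‖β w k‖ ^ 2 ≤
      (3 * R) ^ 2 * (2 * (R : ℝ) ^ 2) := by
    intro w
    have h1 := parseval R hR R (2 * R) (by omega) (by omega) (fun x => γ w x.1 x.2) 1 (-1)
      (Or.inl rfl) (Or.inr rfl)
    rw [h1]
    apply mul_le_mul_of_nonneg_left _ (by positivity)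
    calc ∑ x ∈ range R ×ˢ range (2 * R), ‖γ w x.1 x.2‖ ^ 2
        ≤ ∑ x ∈ range R ×ˢ range (2 * R), (1 : ℝ) := by
          refine Finset.sum_le_sum fun x _ => ?_
          have := hγ w x.1 x.2
          have h0 := norm_nonneg (γ w x.1 x.2)
          nlinarith
      _ = 2 * (R : ℝ) ^ 2 := by
          rw [Finset.sum_const, Finset.card_product, Finset.card_range, Finset.card_range]
          simp; ring
  have hRr : (0 : ℝ) < R := by exact_mod_cast hR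
  have hA : ∑ k ∈ range (3 * R) ×ˢ range (3 * R), ∑ u, ‖α u k‖ ^ 2 ≤
      U * ((3 * R) ^ 2 * (2 * (R : ℝ) ^ 2)) := by
    rw [Finset.sum_comm]
    refine (Finset.sum_le_sum fun u _ => hPα u).trans_eq ?_
    simp
  have hB : ∑ k ∈ range (3 * R) ×ˢ range (3 * R), ∑ w, ‖β w k‖ ^ 2 ≤
      W * ((3 * R) ^ 2 * (2 * (R : ℝ) ^ 2)) := by
    rw [Finset.sum_comm]
    refine (Finset.sum_le_sum fun w _ => hPβ w).trans_eq ?_
    simp
  have hfin : ‖(3 * R : ℂ) ^ 2 * S‖ ≤ (3 * (R : ℝ)) ^ 2 * (2 * (R : ℝ) ^ 2 * K *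
      Real.sqrt (U * W)) := by
    rw [hS2]
    refine (norm_sum_le _ _).trans ((Finset.sum_le_sum hk).trans ?_)
    calc ∑ k ∈ range (3 * R) ×ˢ range (3 * R),
          K * (Real.sqrt (∑ u, ‖α u k‖ ^ 2) * Real.sqrt (∑ w, ‖β w k‖ ^ 2))
      = K * ∑ k ∈ range (3 * R) ×ˢ range (3 * R),
          Real.sqrt (∑ u, ‖α u k‖ ^ 2) * Real.sqrt (∑ w, ‖β w k‖ ^ 2) := by
          rw [Finset.mul_sum]
      _ ≤ K * (Real.sqrt (∑ k ∈ range (3 * R) ×ˢ range (3 * R), ∑ u, ‖α u k‖ ^ 2) *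
          Real.sqrt (∑ k ∈ range (3 * R) ×ˢ range (3 * R), ∑ w, ‖β w k‖ ^ 2)) := by
          apply mul_le_mul_of_nonneg_left _ hK
          exact Real.sum_sqrt_mul_sqrt_le _ (fun k => Finset.sum_nonneg fun _ _ => sq_nonneg _)
            (fun k => Finset.sum_nonneg fun _ _ => sq_nonneg _)
      _ ≤ K * (Real.sqrt (U * ((3 * R) ^ 2 * (2 * (R : ℝ) ^ 2))) *
          Real.sqrt (W * ((3 * R) ^ 2 * (2 * (R : ℝ) ^ 2)))) := by
          gcongr
      _ = (3 * (R : ℝ)) ^ 2 * (2 * (R : ℝ) ^ 2 * K * Real.sqrt (U * W)) := by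
          rw [← Real.sqrt_mul (by positivity)]
          rw [show (U : ℝ) * ((3 * R) ^ 2 * (2 * (R : ℝ) ^ 2)) *
            (W * ((3 * R) ^ 2 * (2 * (R : ℝ) ^ 2))) =
            ((3 * R) ^ 2 * (2 * (R : ℝ) ^ 2)) ^ 2 * (U * W) by ring,
            Real.sqrt_mul (by positivity), Real.sqrt_sq (by positivity)]
          ring
  have hnorm : ‖(3 * R : ℂ) ^ 2 * S‖ = (3 * (R : ℝ)) ^ 2 * ‖S‖ := by
    rw [norm_mul, norm_pow, norm_mul]
    simp
  rw [hnorm] at hfin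
  have h9 : ‖S‖ ≤ 2 * (R : ℝ) ^ 2 * K * Real.sqrt (U * W) :=
    le_of_mul_le_mul_left hfin (by positivity)
  have h10 : 0 ≤ (R : ℝ) ^ 2 * K * Real.sqrt (U * W) := by positivity
  linarith

end Pool.Agent.H505RS
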