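import Pool.Agent.H505RS.Defs

set_option autoImplicit false

namespace Pool.Agent.H505RS

open Finset
open scoped BigOperators

namespace VB

lemma pw_nonneg (a : ℝ) (n : ℕ) : 0 ≤ pw a n := Real.rpow_nonneg (Nat.cast_nonneg n) _

lemma pw_le_one (a : ℝ) (ha : 0 < a) (n : ℕ) : pw a n ≤ 1 := by
  unfold pw
  rcases Nat.eq_zero_or_pos n with h | h
  · subst h
    rw [Nat.cast_zero, Real.zero_rpow (by linarith)]
    norm_num
  · exact Real.rpow_le_one_of_one_le_of_nonpos (by exact_mod_cast h) (by linarith)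

lemma abs_ind (a : ℝ) (c : Prop) [Decidable c] (n : ℕ) :
    |(if c then (1 : ℝ) else 0) - pw a n| ≤ (if c then (1 : ℝ) else 0) + pw a n := by
  have := pw_nonneg a n
  split_ifs <;> rw [abs_le] <;> constructor <;> linarith

lemma sum_ind (s : Finset ℕ) (k : ℕ) : ∑ n ∈ s, (if n = k then (1 : ℝ) else 0) ≤ 1 := by
  rw [Finset.sum_ite_eq']
  split_ifs <;> norm_num

lemma sg_abs_le (a : ℝ) (ha : 0 < a) (G s0 s1 n : ℕ) : |sg a G s0 s1 n| ≤ 1 := by
  unfold sg
  have h0 := pw_nonneg a n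
  have h1 := pw_le_one a ha n
  split_ifs
  · rw [abs_le]; constructor <;> linarith
  · rw [abs_le]; constructor <;> linarith
  · simp

lemma sum_sg (a : ℝ) (G s0 s1 : ℕ) (B : ℝ) (h : ∑ i ∈ Ioc s0 (s0 + G), pw a i ≤ B) :
    ∑ n ∈ Ioc s0 (s0 + G), |sg a G s0 s1 n| ≤ 1 + B := by
  have h1 : ∀ n ∈ Ioc s0 (s0 + G), |sg a G s0 s1 n| ≤ (if n = s1 then (1 : ℝ) else 0) + pw a n := by
    intro n _
    unfold sg
    split_ifs with h2 h3 h3
    · have := abs_ind a True n
      simpa using this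
    · have := abs_ind a False n
      simpa using this
    · have := pw_nonneg a n
      rw [abs_zero]; linarith
    · have := pw_nonneg a n
      rw [abs_zero]; linarith
  refine (Finset.sum_le_sum h1).trans ?_
  rw [Finset.sum_add_distrib]
  exact add_le_add (sum_ind _ _) h

lemma sum_sg_sq (a : ℝ) (ha : 0 < a) (G s0 s1 : ℕ) (B : ℝ) (h : ∑ i ∈ Ioc s0 (s0 + G), pw a i ≤ B)
    (i U : ℕ) : ∑ u : Fin U, |sg a G s0 s1 (i + u)| ^ 2 ≤ 1 + B := by
  refine le_trans ?_ (sum_sg a G s0 s1 B h)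
  rw [Fin.sum_univ_eq_sum_range (fun u => |sg a G s0 s1 (i + u)| ^ 2) U]
  have h1 : ∑ u ∈ range U, |sg a G s0 s1 (i + u)| ^ 2 =
      ∑ n ∈ (range U).image (fun u => i + u), |sg a G s0 s1 n| ^ 2 := by
    rw [Finset.sum_image]
    intro x _ y _ hxy
    simpa using hxy
  rw [h1]
  have h2 : ∑ n ∈ (range U).image (fun u => i + u), |sg a G s0 s1 n| ^ 2 =
      ∑ n ∈ ((range U).image (fun u => i + u)).filter (fun n => n ∈ Ioc s0 (s0 + G)),
        |sg a G s0 s1 n| ^ 2 := by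
    symm
    apply Finset.sum_filter_of_ne
    intro n _ hn
    by_contra hc
    apply hn
    have : sg a G s0 s1 n = 0 := by
      unfold sg
      rw [if_neg]
      rintro ⟨h3, -, h5⟩
      exact hc (Finset.mem_Ioc.mpr ⟨h3, h5⟩)
    rw [this]
    simp
  rw [h2]
  refine (Finset.sum_le_sum_of_subset_of_nonneg (t := Ioc s0 (s0 + G)) ?_ ?_).trans ?_
  · intro n hn
    exact (Finset.mem_filter.mp hn).2
  · intro n _ _
    positivity
  · apply Finset.sum_le_sum
    intro n _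
    have h3 := sg_abs_le a ha G s0 s1 n
    have h4 := abs_nonneg (sg a G s0 s1 n)
    nlinarith

lemma norm_ee (x : ℝ) : ‖ee x‖ = 1 := by
  unfold ee
  have : (2 * Real.pi * Complex.I * (x : ℂ)) = ((2 * Real.pi * x : ℝ) : ℂ) * Complex.I := by
    push_cast
    ring
  rw [this, Complex.norm_exp_ofReal_mul_I]

end VB

open VB in
theorem t_VB : S_VB := by
  intro p k1 k2 s t j U ha _ hB hGP
  obtain ⟨-, -, -, -, -, h1, h2⟩ := hGP
  set I := Ioc (s (j - p.m - 1)) (s (j - p.m)) with hI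
  have hog : ∑ i ∈ I, |og p s j i| ≤ 1 + p.B := by
    have h3 : ∀ i ∈ I, |og p s j i| ≤ (if i = s (j - p.m) then (1 : ℝ) else 0) + pw p.a i := by
      intro i _
      exact abs_ind p.a _ i
    refine (Finset.sum_le_sum h3).trans ?_
    rw [Finset.sum_add_distrib]
    exact add_le_add (sum_ind _ _) h2
  have hvec : ∀ u : ℕ, ‖vec p k1 k2 s t j u‖ ^ 2 ≤
      (∑ i ∈ I, |og p s j i|) *
        ∑ i ∈ I, |og p s j i| * |sg p.a p.G (s (j - 1)) (s j) (i + u)| ^ 2 := by
    intro u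
    have h3 : ‖vec p k1 k2 s t j u‖ ≤
        ∑ i ∈ I, |og p s j i| * |sg p.a p.G (s (j - 1)) (s j) (i + u)| := by
      unfold vec
      rw [norm_mul, norm_ee, one_mul]
      refine (norm_sum_le _ _).trans (le_of_eq ?_)
      apply Finset.sum_congr rfl
      intro i _
      rw [norm_mul, norm_mul, norm_ee, mul_one, Complex.norm_real, Complex.norm_real,
        Real.norm_eq_abs, Real.norm_eq_abs]
    have h4 : (∑ i ∈ I, |og p s j i| * |sg p.a p.G (s (j - 1)) (s j) (i + u)|) ^ 2 ≤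
        (∑ i ∈ I, |og p s j i|) *
        ∑ i ∈ I, |og p s j i| * |sg p.a p.G (s (j - 1)) (s j) (i + u)| ^ 2 := by
      apply Finset.sum_sq_le_sum_mul_sum_of_sq_eq_mul
      · intro i _; positivity
      · intro i _; positivity
      · intro i _; ring
    exact (pow_le_pow_left₀ (norm_nonneg _) h3 2).trans h4
  have hB1 : 1 ≤ 1 + p.B := by linarith
  have hog0 : 0 ≤ ∑ i ∈ I, |og p s j i| := Finset.sum_nonneg (fun i _ => abs_nonneg _)
  have hsum : ∑ u : Fin U, ‖vec p k1 k2 s t j u‖ ^ 2 ≤ (1 + p.B) ^ 3 := by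
    calc ∑ u : Fin U, ‖vec p k1 k2 s t j u‖ ^ 2 ≤ ∑ u : Fin U, (∑ i ∈ I, |og p s j i|) *
        ∑ i ∈ I, |og p s j i| * |sg p.a p.G (s (j - 1)) (s j) (i + u)| ^ 2 :=
          Finset.sum_le_sum (fun u _ => hvec u)
      _ = (∑ i ∈ I, |og p s j i|) * ∑ i ∈ I, |og p s j i| *
          ∑ u : Fin U, |sg p.a p.G (s (j - 1)) (s j) (i + u)| ^ 2 := by
          rw [← Finset.mul_sum, Finset.sum_comm]
          congr 1
          apply Finset.sum_congr rfl
          intro i _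
          rw [Finset.mul_sum]
      _ ≤ (∑ i ∈ I, |og p s j i|) * ∑ i ∈ I, |og p s j i| * (1 + p.B) := by
          apply mul_le_mul_of_nonneg_left _ hog0
          apply Finset.sum_le_sum
          intro i _
          exact mul_le_mul_of_nonneg_left (sum_sg_sq p.a ha p.G _ _ p.B h1 i U) (abs_nonneg _)
      _ = (∑ i ∈ I, |og p s j i|) * ((∑ i ∈ I, |og p s j i|) * (1 + p.B)) := by
          rw [← Finset.sum_mul]
      _ ≤ (1 + p.B) * ((1 + p.B) * (1 + p.B)) := by gcongr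
      _ = (1 + p.B) ^ 3 := by ring
  rw [Real.sqrt_le_left (by positivity)]
  calc ∑ u : Fin U, ‖vec p k1 k2 s t j u‖ ^ 2 ≤ (1 + p.B) ^ 3 := hsum
    _ ≤ (1 + p.B) ^ 4 := pow_le_pow_right₀ hB1 (by norm_num)
    _ = ((1 + p.B) ^ 2) ^ 2 := by ring

end Pool.Agent.H505RS
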