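import Pool.Agent.H505RS.Defs

set_option autoImplicit false

noncomputable section

namespace Pool.Agent.H505RS

open scoped BigOperators ENNReal Topology InnerProductSpace
open Finset Filter MeasureTheory ProbabilityTheory

namespace VC

/-- the shifted vector -/
def XX {U : ℕ} (ξ : Fin U → ℂ) (n i : ℕ) : ℂ := ∑ u : Fin U, if n = i + u then ξ u else 0

theorem sg_zero {a : ℝ} {G s0 s1 n : ℕ} (h : n ∉ Ioc s0 (s0 + G)) : sg a G s0 s1 n = 0 := by
  unfold sg
  rw [if_neg]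
  intro h'
  exact h (mem_Ioc.2 ⟨h'.1, h'.2.2⟩)

theorem sum_shift {U : ℕ} (ξ : Fin U → ℂ) (i : ℕ) (g : ℕ → ℂ) (I : Finset ℕ)
    (hg : ∀ n, n ∉ I → g n = 0) :
    ∑ u : Fin U, g (i + u) * ξ u = ∑ n ∈ I, g n * XX ξ n i := by
  unfold XX
  simp only [Finset.mul_sum]
  rw [Finset.sum_comm]
  refine Finset.sum_congr rfl fun u _ => ?_
  simp only [mul_ite, mul_zero]
  rw [Finset.sum_ite_eq']
  split_ifs with h
  · rfl
  · rw [hg _ h, zero_mul]

theorem XX_sq {U : ℕ} (ξ : Fin U → ℂ) (n i : ℕ) :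
    ‖XX ξ n i‖ ^ 2 = ∑ u : Fin U, if n = i + u then ‖ξ u‖ ^ 2 else 0 := by
  unfold XX
  by_cases h : ∃ u : Fin U, n = i + u
  · obtain ⟨u, hu⟩ := h
    have h1 : ∀ v : Fin U, v ≠ u → ¬ (n = i + v) := by
      intro v hv hn
      apply hv
      apply Fin.ext
      omega
    rw [Finset.sum_eq_single u (fun v _ hv => if_neg (h1 v hv)) (fun h => absurd (mem_univ u) h),
      Finset.sum_eq_single u (fun v _ hv => if_neg (h1 v hv)) (fun h => absurd (mem_univ u) h),
      if_pos hu, if_pos hu]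
  · push Not at h
    rw [Finset.sum_eq_zero (fun u _ => if_neg (h u)), Finset.sum_eq_zero (fun u _ => if_neg (h u))]
    simp

theorem sum_XX_sq {U : ℕ} (ξ : Fin U → ℂ) (i : ℕ) (I : Finset ℕ) :
    ∑ n ∈ I, ‖XX ξ n i‖ ^ 2 ≤ ∑ u, ‖ξ u‖ ^ 2 := by
  simp only [XX_sq]
  rw [Finset.sum_comm]
  refine Finset.sum_le_sum fun u _ => ?_
  rw [Finset.sum_ite_eq']
  split_ifs
  · exact le_refl _
  · positivity

theorem norm_ee (x : ℝ) : ‖ee x‖ = 1 := by
  unfold ee
  rw [show (2 * Real.pi * Complex.I * (x : ℂ)) = ((2 * Real.pi * x : ℝ) : ℂ) * Complex.I by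
    push_cast; ring]
  exact Complex.norm_exp_ofReal_mul_I _

end VC

open VC in
theorem t_VC : S_VC := by
  intro p k1 k2 s t j U ξ ha0 ha1 hB hm hGP
  obtain ⟨-, hj, -, -, -, -, hold⟩ := hGP
  set I : Finset ℕ := Ioc (s (j - p.m - 1)) (s (j - p.m)) with hI
  set K : Finset ℕ := Ioc (s (j - 1)) (s (j - 1) + p.G) with hK
  set al' : ℂ := (starRingEnd ℂ) (ee ((k2 : ℝ) * t (j - p.m) / p.Q)) with hal
  set be : ℕ → ℂ := fun i => (starRingEnd ℂ) (ee ((k1 : ℝ) * i / p.Q)) with hbe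
  refine ⟨fun n => al' * ∑ i ∈ I, (og p s j i : ℂ) * be i * XX ξ n i, ?_, ?_⟩
  · have ho : ∑ i ∈ I, |og p s j i| ≤ 1 + p.B := by
      have h1 : ∀ i ∈ I, |og p s j i| ≤ (if i = s (j - p.m) then (1 : ℝ) else 0) + pw p.a i := by
        intro i _
        unfold og
        have hp : 0 ≤ pw p.a i := Real.rpow_nonneg (Nat.cast_nonneg i) _
        refine (abs_sub _ _).trans ?_
        rw [abs_of_nonneg hp]
        split_ifs <;> simp
      refine (Finset.sum_le_sum h1).trans ?_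
      rw [Finset.sum_add_distrib, Finset.sum_ite_eq']
      have h2 : (if s (j - p.m) ∈ I then (1 : ℝ) else 0) ≤ 1 := by
        split_ifs <;> norm_num
      linarith
    have hn : ∀ n, ‖al' * ∑ i ∈ I, (og p s j i : ℂ) * be i * XX ξ n i‖ ^ 2 ≤
        (1 + p.B) * ∑ i ∈ I, |og p s j i| * ‖XX ξ n i‖ ^ 2 := by
      intro n
      have hal1 : ‖al'‖ = 1 := by
        rw [hal, RCLike.norm_conj, norm_ee]
      rw [norm_mul, hal1, one_mul]
      have h1 : ‖∑ i ∈ I, (og p s j i : ℂ) * be i * XX ξ n i‖ ≤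
          ∑ i ∈ I, |og p s j i| * ‖XX ξ n i‖ := by
        refine norm_sum_le_of_le _ fun i _ => ?_
        rw [norm_mul, norm_mul, Complex.norm_real, Real.norm_eq_abs]
        have : ‖be i‖ = 1 := by
          rw [hbe]
          simp only
          rw [RCLike.norm_conj, norm_ee]
        rw [this, mul_one]
      have h2 : (∑ i ∈ I, |og p s j i| * ‖XX ξ n i‖) ^ 2 ≤
          (∑ i ∈ I, |og p s j i|) * ∑ i ∈ I, |og p s j i| * ‖XX ξ n i‖ ^ 2 := by
        apply Finset.sum_sq_le_sum_mul_sum_of_sq_eq_mul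
        · intro i _
          exact abs_nonneg _
        · intro i _
          positivity
        · intro i _
          ring
      have h3 : 0 ≤ ∑ i ∈ I, |og p s j i| * ‖XX ξ n i‖ ^ 2 :=
        Finset.sum_nonneg fun i _ => by positivity
      calc ‖∑ i ∈ I, (og p s j i : ℂ) * be i * XX ξ n i‖ ^ 2
          ≤ (∑ i ∈ I, |og p s j i| * ‖XX ξ n i‖) ^ 2 :=
            pow_le_pow_left₀ (norm_nonneg _) h1 2
        _ ≤ _ := h2
        _ ≤ _ := mul_le_mul_of_nonneg_right ho h3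
    calc ∑ n ∈ K, ‖al' * ∑ i ∈ I, (og p s j i : ℂ) * be i * XX ξ n i‖ ^ 2
        ≤ ∑ n ∈ K, (1 + p.B) * ∑ i ∈ I, |og p s j i| * ‖XX ξ n i‖ ^ 2 :=
          Finset.sum_le_sum fun n _ => hn n
      _ = (1 + p.B) * ∑ i ∈ I, |og p s j i| * ∑ n ∈ K, ‖XX ξ n i‖ ^ 2 := by
          rw [← Finset.mul_sum, Finset.sum_comm]
          congr 1
          refine Finset.sum_congr rfl fun i _ => ?_
          rw [Finset.mul_sum]
      _ ≤ (1 + p.B) * ∑ i ∈ I, |og p s j i| * ∑ u, ‖ξ u‖ ^ 2 := by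
          apply mul_le_mul_of_nonneg_left _ (by linarith)
          exact Finset.sum_le_sum fun i _ =>
            mul_le_mul_of_nonneg_left (sum_XX_sq ξ i K) (abs_nonneg _)
      _ = (1 + p.B) * ((∑ i ∈ I, |og p s j i|) * ∑ u, ‖ξ u‖ ^ 2) := by
          rw [Finset.sum_mul]
      _ ≤ (1 + p.B) * ((1 + p.B) * ∑ u, ‖ξ u‖ ^ 2) := by
          apply mul_le_mul_of_nonneg_left _ (by linarith)
          exact mul_le_mul_of_nonneg_right ho (Finset.sum_nonneg fun u _ => by positivity)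
      _ = (1 + p.B) ^ 2 * ∑ u, ‖ξ u‖ ^ 2 := by ring
  · intro s' t' hst
    have e1 : s' (j - p.m) = s (j - p.m) := (hst _ (by omega)).1
    have e2 : s' (j - p.m - 1) = s (j - p.m - 1) := (hst _ (by omega)).1
    have e3 : s' (j - 1) = s (j - 1) := (hst _ (by omega)).1
    have e4 : t' (j - p.m) = t (j - p.m) := (hst _ (by omega)).2
    have eo : ∀ i, og p s' j i = og p s j i := by
      intro i
      unfold og
      rw [e1]
    have hv : ∀ u : Fin U, (starRingEnd ℂ) (vec p k1 k2 s' t' j u) * ξ u =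
        al' * ∑ i ∈ I, (og p s j i : ℂ) * be i *
          ((sg p.a p.G (s (j - 1)) (s' j) (i + u) : ℂ) * ξ u) := by
      intro u
      unfold vec
      rw [e1, e2, e3, e4, map_mul, map_sum, mul_assoc, Finset.sum_mul]
      congr 1
      refine Finset.sum_congr rfl fun i _ => ?_
      rw [map_mul, map_mul, Complex.conj_ofReal, Complex.conj_ofReal, eo]
      simp only [hbe]
      ring
    simp only [hv]
    rw [← Finset.mul_sum, Finset.sum_comm]
    have h1 : ∀ i, ∑ u : Fin U, (og p s j i : ℂ) * be i *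
        ((sg p.a p.G (s (j - 1)) (s' j) (i + u) : ℂ) * ξ u) =
        ∑ n ∈ K, (sg p.a p.G (s (j - 1)) (s' j) n : ℂ) *
          ((og p s j i : ℂ) * be i * XX ξ n i) := by
      intro i
      rw [← Finset.mul_sum, sum_shift ξ i
        (fun n => (sg p.a p.G (s (j - 1)) (s' j) n : ℂ)) K (fun n hn => by
          rw [sg_zero hn]
          simp), Finset.mul_sum]
      refine Finset.sum_congr rfl fun n _ => ?_
      ring
    simp only [h1]
    rw [Finset.sum_comm, Finset.mul_sum]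
    refine Finset.sum_congr rfl fun n _ => ?_
    rw [← Finset.mul_sum]
    ring

end Pool.Agent.H505RS
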