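import Pool.Agent.H505RS.Defs

set_option autoImplicit false

open Finset

namespace Pool.Agent.H505RS

namespace VDC

theorem refl_sum (c : ℕ → ℝ) (M : ℕ) :
    ∑ m ∈ range M, c (M - m) = ∑ d ∈ Ico 1 (M + 1), c d := by
  refine Finset.sum_nbij' (fun m => M - m) (fun d => M - d) ?_ ?_ ?_ ?_ ?_
  · intro a ha
    rw [mem_range] at ha
    rw [mem_Ico]
    omega
  · intro a ha
    rw [mem_Ico] at ha
    rw [mem_range]
    omega
  · intro a ha
    rw [mem_range] at ha
    show M - (M - a) = a
    omega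
  · intro a ha
    rw [mem_Ico] at ha
    show M - (M - a) = a
    omega
  · intro a _
    rfl

theorem dbl (c : ℕ → ℝ) (M : ℕ) :
    ∑ m ∈ range M, ∑ m' ∈ range M, c ((m - m') + (m' - m))
      = M * c 0 + 2 * ∑ d ∈ Ico 1 M, ((M : ℝ) - d) * c d := by
  induction M with
  | zero => simp
  | succ M ih =>
    have e1 : ∑ m ∈ range (M + 1), ∑ m' ∈ range (M + 1), c ((m - m') + (m' - m))
        = (∑ m ∈ range M, ∑ m' ∈ range M, c ((m - m') + (m' - m)))
          + ∑ m ∈ range M, c ((m - M) + (M - m))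
          + (∑ m' ∈ range M, c ((M - m') + (m' - M)) + c ((M - M) + (M - M))) := by
      rw [sum_range_succ, sum_range_succ]
      congr 1
      rw [← sum_add_distrib]
      refine sum_congr rfl fun m _ => ?_
      rw [sum_range_succ]
    have e2 : ∑ m ∈ range M, c ((m - M) + (M - m)) = ∑ d ∈ Ico 1 (M + 1), c d := by
      rw [← refl_sum]
      refine sum_congr rfl fun m hm => ?_
      rw [mem_range] at hm
      congr 1
      omega
    have e3 : ∑ m' ∈ range M, c ((M - m') + (m' - M)) = ∑ d ∈ Ico 1 (M + 1), c d := by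
      rw [← refl_sum]
      refine sum_congr rfl fun m hm => ?_
      rw [mem_range] at hm
      congr 1
      omega
    have e4 : ∑ d ∈ Ico 1 (M + 1), (((M + 1 : ℕ) : ℝ) - d) * c d
        = ∑ d ∈ Ico 1 M, ((M : ℝ) - d) * c d + ∑ d ∈ Ico 1 (M + 1), c d := by
      have e5 : ∑ d ∈ Ico 1 (M + 1), (((M + 1 : ℕ) : ℝ) - d) * c d
          = ∑ d ∈ Ico 1 (M + 1), ((M : ℝ) - d) * c d + ∑ d ∈ Ico 1 (M + 1), c d := by
        rw [← sum_add_distrib]
        refine sum_congr rfl fun d _ => ?_
        push_cast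
        ring
      rw [e5]
      congr 1
      rcases Nat.eq_zero_or_pos M with h | h
      · subst h; simp
      · rw [sum_Ico_succ_top h]
        simp
    rw [e1, ih, e2, e3, e4]
    have e6 : c ((M - M) + (M - M)) = c 0 := by simp
    rw [e6]
    push_cast
    ring

theorem sh (m K P : ℕ) (g : ℕ → ℝ) (h : ∀ t, t ∉ Ioc m (m + K) → g t = 0) (hP : m + K < P) :
    ∑ t ∈ range P, g t = ∑ k ∈ Ioc 0 K, g (k + m) := by
  have h1 : ∑ t ∈ range P, g t = ∑ t ∈ Ioc m (m + K), g t := by
    symm
    refine sum_subset ?_ ?_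
    · intro t ht
      rw [mem_Ioc] at ht
      rw [mem_range]
      omega
    · intro t _ ht
      exact h t ht
  rw [h1]
  refine Finset.sum_nbij' (fun t => t - m) (fun k => k + m) ?_ ?_ ?_ ?_ ?_
  · intro a ha
    rw [mem_Ioc] at ha ⊢
    omega
  · intro a ha
    rw [mem_Ioc] at ha ⊢
    omega
  · intro a ha
    rw [mem_Ioc] at ha
    show a - m + m = a
    omega
  · intro a _
    show a + m - m = a
    omega
  · intro a ha
    rw [mem_Ioc] at ha
    show g a = g (a - m + m)
    congr 1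
    omega

end VDC

open VDC in
theorem t_VDC : S_VDC := by
  classical
  intro N M z hM
  set y : ℕ → ℝ := fun k => if k ∈ Ioc 0 N then z k else 0 with hy
  have hyin : ∀ k, 0 < k → k ≤ N → y k = z k := by
    intro k h1 h2
    simp only [hy]
    rw [if_pos (mem_Ioc.2 ⟨h1, h2⟩)]
  have hyout : ∀ k, (k = 0 ∨ N < k) → y k = 0 := by
    intro k h1
    simp only [hy]
    rw [if_neg]
    rw [mem_Ioc]
    omega
  set c : ℕ → ℝ := fun d => ∑ k ∈ Ioc 0 (N - d), z k * z (k + d) with hc
  have hwin : ∀ m ∈ range M, ∑ t ∈ range (N + M), y (t - m) = ∑ k ∈ Ioc 0 N, z k := by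
    intro m hm
    rw [mem_range] at hm
    rw [sh m N (N + M) (fun t => y (t - m)) ?_ (by omega)]
    · refine sum_congr rfl fun k hk => ?_
      rw [mem_Ioc] at hk
      show y (k + m - m) = z k
      rw [Nat.add_sub_cancel]
      exact hyin k hk.1 hk.2
    · intro t ht
      rw [mem_Ioc] at ht
      exact hyout _ (by omega)
  have hprod : ∀ m d : ℕ, m + d < M →
      ∑ t ∈ range (N + M), y (t - m) * y (t - (m + d)) = c d := by
    intro m d hmd
    rw [sh (m + d) (N - d) (N + M) (fun t => y (t - m) * y (t - (m + d))) ?_ (by omega)]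
    · refine sum_congr rfl fun k hk => ?_
      rw [mem_Ioc] at hk
      show y (k + (m + d) - m) * y (k + (m + d) - (m + d)) = z k * z (k + d)
      have e1 : k + (m + d) - m = k + d := by omega
      have e2 : k + (m + d) - (m + d) = k := by omega
      rw [e1, e2, hyin k (by omega) (by omega), hyin (k + d) (by omega) (by omega), mul_comm]
    · intro t ht
      rw [mem_Ioc] at ht
      show y (t - m) * y (t - (m + d)) = 0
      by_cases h1 : t ≤ m + d
      · rw [hyout (t - (m + d)) (by omega), mul_zero]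
      · rw [hyout (t - m) (by omega), zero_mul]
  have hQ : ∑ t ∈ range (N + M), (∑ m ∈ range M, y (t - m)) ^ 2
      = M * c 0 + 2 * ∑ d ∈ Ico 1 M, ((M : ℝ) - d) * c d := by
    rw [← dbl]
    have e1 : ∑ t ∈ range (N + M), (∑ m ∈ range M, y (t - m)) ^ 2
        = ∑ m ∈ range M, ∑ m' ∈ range M, ∑ t ∈ range (N + M), y (t - m) * y (t - m') := by
      have : ∀ t ∈ range (N + M), (∑ m ∈ range M, y (t - m)) ^ 2
          = ∑ m ∈ range M, ∑ m' ∈ range M, y (t - m) * y (t - m') := by
        intro t _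
        rw [sq, sum_mul_sum]
      rw [sum_congr rfl this, sum_comm]
      refine sum_congr rfl fun m _ => ?_
      rw [sum_comm]
    rw [e1]
    refine sum_congr rfl fun m hm => sum_congr rfl fun m' hm' => ?_
    rw [mem_range] at hm hm'
    rcases Nat.le_total m m' with h | h
    · obtain ⟨d, rfl⟩ := Nat.exists_eq_add_of_le h
      rw [hprod m d hm']
      congr 1
      omega
    · obtain ⟨d, rfl⟩ := Nat.exists_eq_add_of_le h
      have e2 : ∑ t ∈ range (N + M), y (t - (m' + d)) * y (t - m')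
          = ∑ t ∈ range (N + M), y (t - m') * y (t - (m' + d)) :=
        sum_congr rfl fun t _ => mul_comm _ _
      rw [e2, hprod m' d hm]
      congr 1
      omega
  have hsum : ∑ t ∈ range (N + M), ∑ m ∈ range M, y (t - m) = M * ∑ k ∈ Ioc 0 N, z k := by
    rw [sum_comm, sum_congr rfl hwin, sum_const, card_range, nsmul_eq_mul]
  have hCS : (M * ∑ k ∈ Ioc 0 N, z k) ^ 2
      ≤ ((N : ℝ) + M) * ∑ t ∈ range (N + M), (∑ m ∈ range M, y (t - m)) ^ 2 := by
    rw [← hsum]
    have := sq_sum_le_card_mul_sum_sq (s := range (N + M)) (f := fun t => ∑ m ∈ range M, y (t - m))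
    rw [card_range] at this
    push_cast at this
    exact this
  rw [hQ] at hCS
  have hc0 : c 0 = ∑ k ∈ Ioc 0 N, z k ^ 2 := by
    simp only [hc]
    rw [Nat.sub_zero]
    refine sum_congr rfl fun k _ => ?_
    rw [Nat.add_zero, sq]
  rw [hc0] at hCS
  have hM0 : (0 : ℝ) < M := by exact_mod_cast hM
  rw [div_mul_eq_mul_div, le_div_iff₀ (by positivity)]
  calc (∑ k ∈ Ioc 0 N, z k) ^ 2 * (M : ℝ) ^ 2 = (M * ∑ k ∈ Ioc 0 N, z k) ^ 2 := by ring
    _ ≤ _ := hCS

end Pool.Agent.H505RS
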