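import Pool.Agent.H505RS.Defs

/-! Project RS: weighted means. -/

set_option autoImplicit false

noncomputable section

namespace Pool.Agent.H505RS

open scoped BigOperators ENNReal Topology InnerProductSpace
open Finset Filter MeasureTheory ProbabilityTheory

namespace WM

theorem sum_succ (f : ℕ → ℝ) (N : ℕ) : ∑ i ∈ Ioc 0 (N + 1), f i = ∑ i ∈ Ioc 0 N, f i + f (N + 1) := by
  rw [Finset.sum_Ioc_succ_top (Nat.zero_le N)]

/-- Abel summation with a bound on the partial sums -/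
theorem abel (p y : ℕ → ℝ) (ε K : ℝ) (hp : ∀ i, 1 ≤ i → p (i + 1) ≤ p i) (hp0 : ∀ i, 0 ≤ p i)
    (hK : ∀ N : ℕ, |∑ i ∈ Ioc 0 N, y i| ≤ ε * N + K) (N : ℕ) :
    |∑ i ∈ Ioc 0 N, p i * y i| ≤ ε * ∑ i ∈ Ioc 0 N, p i + K * p 1 := by
  have key : ∀ N : ℕ, |∑ i ∈ Ioc 0 N, p i * y i - p (N + 1) * ∑ i ∈ Ioc 0 N, y i| ≤
      ε * (∑ i ∈ Ioc 0 N, p i - N * p (N + 1)) + K * (p 1 - p (N + 1)) := by
    intro N
    induction N with
    | zero => simp
    | succ N ih =>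
      have h1 := hK (N + 1)
      have h2 := hp (N + 1) (Nat.le_add_left 1 N)
      have e1 : ∑ i ∈ Ioc 0 (N + 1), p i * y i - p (N + 1 + 1) * ∑ i ∈ Ioc 0 (N + 1), y i =
          (∑ i ∈ Ioc 0 N, p i * y i - p (N + 1) * ∑ i ∈ Ioc 0 N, y i) +
          (p (N + 1) - p (N + 1 + 1)) * ∑ i ∈ Ioc 0 (N + 1), y i := by
        rw [sum_succ (fun i => p i * y i), sum_succ y]
        ring
      rw [e1]
      refine (abs_add_le _ _).trans ?_
      have h3 : |(p (N + 1) - p (N + 1 + 1)) * ∑ i ∈ Ioc 0 (N + 1), y i| ≤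
          (p (N + 1) - p (N + 1 + 1)) * (ε * ((N + 1 : ℕ) : ℝ) + K) := by
        rw [abs_mul, abs_of_nonneg (sub_nonneg.2 h2)]
        exact mul_le_mul_of_nonneg_left h1 (sub_nonneg.2 h2)
      refine (add_le_add ih h3).trans (le_of_eq ?_)
      rw [sum_succ p]
      push_cast
      ring
  have h1 := key N
  have h2 := hK N
  have e1 : ∑ i ∈ Ioc 0 N, p i * y i =
      (∑ i ∈ Ioc 0 N, p i * y i - p (N + 1) * ∑ i ∈ Ioc 0 N, y i) +
      p (N + 1) * ∑ i ∈ Ioc 0 N, y i := by ring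
  rw [e1]
  refine (abs_add_le _ _).trans ?_
  have h3 : |p (N + 1) * ∑ i ∈ Ioc 0 N, y i| ≤ p (N + 1) * (ε * N + K) := by
    rw [abs_mul, abs_of_nonneg (hp0 _)]
    exact mul_le_mul_of_nonneg_left h2 (hp0 _)
  refine (add_le_add h1 h3).trans (le_of_eq ?_)
  ring

theorem pw_nonneg (a : ℝ) (n : ℕ) : 0 ≤ pw a n := Real.rpow_nonneg (Nat.cast_nonneg n) _

theorem pw_anti (a : ℝ) (ha : 0 < a) (i j : ℕ) (hi : 1 ≤ i) (hij : i ≤ j) : pw a j ≤ pw a i := by
  unfold pw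
  apply Real.rpow_le_rpow_of_nonpos
  · exact_mod_cast hi
  · exact_mod_cast hij
  · linarith

theorem sum_pw (a : ℝ) (ha : 0 < a) (ha1 : a < 1) :
    Tendsto (fun N : ℕ => ∑ i ∈ Ioc 0 N, pw a i) atTop atTop := by
  have h1 : Tendsto (fun N : ℕ => (N : ℝ) ^ (1 - a)) atTop atTop :=
    (tendsto_rpow_atTop (by linarith)).comp tendsto_natCast_atTop_atTop
  refine tendsto_atTop_mono' atTop ?_ h1
  filter_upwards [eventually_ge_atTop 1] with N hN
  have h2 : ∑ _i ∈ Ioc 0 N, pw a N ≤ ∑ i ∈ Ioc 0 N, pw a i := by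
    apply Finset.sum_le_sum
    intro i hi
    rw [Finset.mem_Ioc] at hi
    exact pw_anti a ha i N hi.1 hi.2
  rw [Finset.sum_const, Nat.card_Ioc, Nat.sub_zero, nsmul_eq_mul] at h2
  refine le_trans (le_of_eq ?_) h2
  unfold pw
  have hN0 : (0 : ℝ) < N := by exact_mod_cast hN
  rw [sub_eq_add_neg, Real.rpow_add hN0, Real.rpow_one]

end WM

theorem t_WM : S_WM := by
  intro a x C l ha ha1 hC hx
  set y : ℕ → ℝ := fun i => x i - l with hy
  have hY : ∀ N : ℕ, ∑ i ∈ Ioc 0 N, y i = ∑ i ∈ Ioc 0 N, x i - N * l := by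
    intro N
    rw [hy, Finset.sum_sub_distrib, Finset.sum_const, Nat.card_Ioc, Nat.sub_zero, nsmul_eq_mul]
  have hYb : ∀ N : ℕ, |∑ i ∈ Ioc 0 N, y i| ≤ N * (C + |l|) := by
    intro N
    refine (Finset.abs_sum_le_sum_abs _ _).trans ?_
    have h1 : ∑ i ∈ Ioc 0 N, |y i| ≤ ∑ _i ∈ Ioc 0 N, (C + |l|) := by
      apply Finset.sum_le_sum
      intro i _
      refine (abs_sub _ _).trans ?_
      exact add_le_add (hC i) le_rfl
    rw [Finset.sum_const, Nat.card_Ioc, Nat.sub_zero, nsmul_eq_mul] at h1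
    exact h1
  have hCl : 0 ≤ C + |l| := add_nonneg ((abs_nonneg _).trans (hC 0)) (abs_nonneg _)
  -- bound on the partial sums
  have hK : ∀ ε : ℝ, 0 < ε → ∃ K : ℝ, ∀ N : ℕ, |∑ i ∈ Ioc 0 N, y i| ≤ ε * N + K := by
    intro ε hε
    have h1 : ∀ᶠ N : ℕ in atTop, |∑ i ∈ Ioc 0 N, y i| ≤ ε * N := by
      have h2 := (Metric.tendsto_atTop.1 hx) ε hε
      obtain ⟨N0, hN0⟩ := h2
      filter_upwards [eventually_ge_atTop (max N0 1)] with N hN
      have h3 := hN0 N ((le_max_left _ _).trans hN)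
      have hN1 : (0 : ℝ) < N := by exact_mod_cast (le_max_right N0 1).trans hN
      rw [Real.dist_eq] at h3
      have e : ∑ i ∈ Ioc 0 N, y i = ((∑ i ∈ Ioc 0 N, x i) / N - l) * N := by
        rw [hY, sub_mul, div_mul_cancel₀ _ hN1.ne']
        ring
      rw [e, abs_mul, abs_of_pos hN1]
      exact mul_le_mul_of_nonneg_right h3.le hN1.le
    obtain ⟨N0, hN0⟩ := eventually_atTop.1 h1
    refine ⟨N0 * (C + |l|), fun N => ?_⟩
    rcases le_total N0 N with h | h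
    · have h4 := hN0 N h
      have h5 : 0 ≤ (N0 : ℝ) * (C + |l|) := mul_nonneg (Nat.cast_nonneg _) hCl
      linarith
    · have h4 := hYb N
      have h5 : (N : ℝ) * (C + |l|) ≤ N0 * (C + |l|) :=
        mul_le_mul_of_nonneg_right (by exact_mod_cast h) hCl
      have h6 : 0 ≤ ε * (N : ℝ) := mul_nonneg hε.le (Nat.cast_nonneg _)
      linarith
  have hP := WM.sum_pw a ha ha1
  rw [Metric.tendsto_atTop]
  intro ε hε
  obtain ⟨K, hKb⟩ := hK (ε / 2) (half_pos hε)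
  have h1 : ∀ᶠ N : ℕ in atTop, 2 * (|K| + 1) / ε < ∑ i ∈ Ioc 0 N, pw a i :=
    hP.eventually_gt_atTop _
  obtain ⟨N0, hN0⟩ := eventually_atTop.1 h1
  refine ⟨N0, fun N hN => ?_⟩
  have h2 := hN0 N hN
  set S := ∑ i ∈ Ioc 0 N, pw a i with hS
  have hS0 : 0 < S := lt_of_le_of_lt (by positivity) h2
  have h3 := WM.abel (pw a) y (ε / 2) K (fun i hi => WM.pw_anti a ha i (i + 1) hi (Nat.le_succ i))
    (WM.pw_nonneg a) hKb N
  have e : (∑ i ∈ Ioc 0 N, pw a i * x i) / S - l = (∑ i ∈ Ioc 0 N, pw a i * y i) / S := by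
    have e1 : ∑ i ∈ Ioc 0 N, pw a i * y i = ∑ i ∈ Ioc 0 N, pw a i * x i - S * l := by
      rw [hS, Finset.sum_mul, ← Finset.sum_sub_distrib]
      refine Finset.sum_congr rfl (fun i _ => ?_)
      rw [hy]
      ring
    rw [e1, sub_div, mul_div_cancel_left₀ _ hS0.ne']
  rw [Real.dist_eq, e, abs_div, abs_of_pos hS0, div_lt_iff₀ hS0]
  have h4 : pw a 1 = 1 := by
    unfold pw
    rw [Nat.cast_one, Real.one_rpow]
  rw [h4, mul_one, ← hS] at h3
  have h5 : 2 * (|K| + 1) < S * ε := (div_lt_iff₀ hε).1 h2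
  have h6 : K ≤ |K| := le_abs_self K
  nlinarith

end Pool.Agent.H505RS
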