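import Pool.Agent.H505RS.Defs

/-!
Project RS (helper505), task XA: the step operators depend only on the past, are symmetric and
bounded by one.
-/

set_option autoImplicit false

noncomputable section

namespace Pool.Agent.H505RS

open scoped BigOperators ENNReal Topology InnerProductSpace
open Finset Filter MeasureTheory ProbabilityTheory

namespace XA

private theorem ME_congr (p : Par) (k1 k2 : ℕ) (s s' t t' : ℕ → ℕ) (j u w : ℕ)
    (hs : ∀ i ≤ j, s i = s' i) (ht : ∀ i ≤ j, t i = t' i) :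
    ME p k1 k2 s t j u w = ME p k1 k2 s' t' j u w := by
  have s1 : s j = s' j := hs _ le_rfl
  have s2 : s (j - 1) = s' (j - 1) := hs _ (Nat.sub_le _ _)
  have s3 : s (j - p.m) = s' (j - p.m) := hs _ (Nat.sub_le _ _)
  have s4 : s (j - p.m - 1) = s' (j - p.m - 1) := hs _ ((Nat.sub_le _ _).trans (Nat.sub_le _ _))
  have t1 : t j = t' j := ht _ le_rfl
  have t2 : t (j - 1) = t' (j - 1) := ht _ (Nat.sub_le _ _)
  have t3 : t (j - p.m) = t' (j - p.m) := ht _ (Nat.sub_le _ _)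
  have hG : GP p s t j ↔ GP p s' t' j := by
    unfold GP
    rw [s2, s3, s4, t2, t3]
  have hv : vec p k1 k2 s t j u = vec p k1 k2 s' t' j u := by
    unfold vec og
    rw [s1, s2, s3, s4, t3]
  unfold ME
  rw [hv, t1, t3]
  by_cases h : GP p s' t' j ∧ w = t' j - t' (j - p.m)
  · rw [if_pos h, if_pos ⟨hG.2 h.1, h.2⟩]
  · rw [if_neg h, if_neg (fun h' => h ⟨hG.1 h'.1, h'.2⟩)]

private theorem cs {ι : Type*} (s : Finset ι) (f g : ι → ℂ) :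
    ‖∑ i ∈ s, f i * g i‖ ^ 2 ≤ (∑ i ∈ s, ‖f i‖ ^ 2) * (∑ i ∈ s, ‖g i‖ ^ 2) := by
  have h1 : ‖∑ i ∈ s, f i * g i‖ ≤ ∑ i ∈ s, ‖f i‖ * ‖g i‖ := by
    refine (norm_sum_le _ _).trans (le_of_eq ?_)
    exact Finset.sum_congr rfl (fun i _ => norm_mul _ _)
  calc ‖∑ i ∈ s, f i * g i‖ ^ 2 ≤ (∑ i ∈ s, ‖f i‖ * ‖g i‖) ^ 2 :=
        pow_le_pow_left₀ (norm_nonneg _) h1 2
    _ ≤ _ := Finset.sum_mul_sq_le_sq_mul_sq s _ _

private theorem fro (hDL : S_DL) (U W : ℕ) (M : Fin U → Fin W → ℂ) (K : ℝ)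
    (hK : ∑ u, ∑ w, ‖M u w‖ ^ 2 ≤ K) (v : VV U W) : ‖dil M v‖ ^ 2 ≤ K * ‖v‖ ^ 2 := by
  obtain ⟨-, h1, h2, h3, -⟩ := hDL U W M
  have hX : 0 ≤ ∑ u, ‖v (Sum.inl u)‖ ^ 2 := Finset.sum_nonneg (fun _ _ => by positivity)
  have hY : 0 ≤ ∑ w, ‖v (Sum.inr w)‖ ^ 2 := Finset.sum_nonneg (fun _ _ => by positivity)
  have hA : ∑ u, ‖(dil M v) (Sum.inl u)‖ ^ 2 ≤
      (∑ u, ∑ w, ‖M u w‖ ^ 2) * ∑ w, ‖v (Sum.inr w)‖ ^ 2 := by
    rw [Finset.sum_mul]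
    refine Finset.sum_le_sum (fun u _ => ?_)
    rw [h1 v u]
    exact cs _ _ _
  have hB : ∑ w, ‖(dil M v) (Sum.inr w)‖ ^ 2 ≤
      (∑ u, ∑ w, ‖M u w‖ ^ 2) * ∑ u, ‖v (Sum.inl u)‖ ^ 2 := by
    rw [Finset.sum_comm, Finset.sum_mul]
    refine Finset.sum_le_sum (fun w _ => ?_)
    rw [h2 v w]
    refine (cs _ _ _).trans (le_of_eq ?_)
    congr 1
    refine Finset.sum_congr rfl (fun u _ => ?_)
    rw [RCLike.norm_conj]
  rw [h3 (dil M v), h3 v]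
  calc _ ≤ (∑ u, ∑ w, ‖M u w‖ ^ 2) * ∑ w, ‖v (Sum.inr w)‖ ^ 2 +
        (∑ u, ∑ w, ‖M u w‖ ^ 2) * ∑ u, ‖v (Sum.inl u)‖ ^ 2 := add_le_add hA hB
    _ = (∑ u, ∑ w, ‖M u w‖ ^ 2) *
        (∑ u, ‖v (Sum.inl u)‖ ^ 2 + ∑ w, ‖v (Sum.inr w)‖ ^ 2) := by ring
    _ ≤ _ := mul_le_mul_of_nonneg_right hK (add_nonneg hX hY)

private theorem row (p : Par) (k1 k2 : ℕ) (s t : ℕ → ℕ) (j u W : ℕ) :
    ∑ w : Fin W, ‖ME p k1 k2 s t j u w‖ ^ 2 ≤ ‖vec p k1 k2 s t j u‖ ^ 2 := by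
  by_cases hW : t j - t (j - p.m) < W
  · rw [Finset.sum_eq_single (⟨t j - t (j - p.m), hW⟩ : Fin W)]
    · unfold ME
      split_ifs
      · exact le_rfl
      · rw [norm_zero, zero_pow two_ne_zero]
        positivity
    · intro w _ hw
      unfold ME
      rw [if_neg, norm_zero, zero_pow two_ne_zero]
      intro h
      exact hw (Fin.ext h.2)
    · intro h
      exact absurd (Finset.mem_univ _) h
  · rw [Finset.sum_eq_zero]
    · positivity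
    · intro w _
      unfold ME
      rw [if_neg, norm_zero, zero_pow two_ne_zero]
      intro h
      exact hW (h.2 ▸ w.2)

private theorem frob (hVB : S_VB) (p : Par) (ha0 : 0 < p.a) (ha1 : p.a < 1) (hB : 0 ≤ p.B)
    (k1 k2 : ℕ) (s t : ℕ → ℕ) (j U W : ℕ) :
    ∑ u : Fin U, ∑ w : Fin W, ‖ME p k1 k2 s t j u w‖ ^ 2 ≤ ((1 + p.B) ^ 2) ^ 2 := by
  by_cases hG : GP p s t j
  · refine (Finset.sum_le_sum (fun (u : Fin U) _ => row p k1 k2 s t j (u : ℕ) W)).trans ?_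
    have h := hVB p k1 k2 s t j U ha0 ha1 hB hG
    have h0 : 0 ≤ ∑ u : Fin U, ‖vec p k1 k2 s t j u‖ ^ 2 :=
      Finset.sum_nonneg (fun _ _ => by positivity)
    calc ∑ u : Fin U, ‖vec p k1 k2 s t j u‖ ^ 2 =
        Real.sqrt (∑ u : Fin U, ‖vec p k1 k2 s t j u‖ ^ 2) ^ 2 := (Real.sq_sqrt h0).symm
      _ ≤ _ := pow_le_pow_left₀ (Real.sqrt_nonneg _) h 2
  · have h0 : ∑ u : Fin U, ∑ w : Fin W, ‖ME p k1 k2 s t j u w‖ ^ 2 = 0 := by
      refine Finset.sum_eq_zero (fun u _ => Finset.sum_eq_zero (fun w _ => ?_))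
      unfold ME
      rw [if_neg (fun h => hG h.1), norm_zero, zero_pow two_ne_zero]
    rw [h0]
    positivity

end XA

theorem t_XA : S_VB → S_DL → S_XA := by
  intro hVB hDL p k1 k2 lam U W hy
  refine ⟨?_, ?_, ?_⟩
  · intro j y y' h
    unfold XJ
    congr 2
    funext u w
    exact XA.ME_congr p k1 k2 _ _ _ _ j u w (fun i hi => by rw [h i hi])
      (fun i hi => by rw [h i hi])
  · intro y j
    unfold XJ
    refine LinearMap.IsSymmetric.smul ?_ (hDL U W _).1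
    exact Complex.conj_ofReal lam
  · intro y j v
    unfold XJ
    rw [LinearMap.smul_apply, norm_smul, Complex.norm_real, Real.norm_of_nonneg hy.l0]
    have h1 := XA.fro hDL U W (fun (u : Fin U) (w : Fin W) =>
      ME p k1 k2 (fun n => (y n).1) (fun n => (y n).2) j u w) (((1 + p.B) ^ 2) ^ 2)
      (XA.frob hVB p hy.a0 hy.a1 hy.B0 k1 k2 _ _ j U W) v
    rw [← mul_pow] at h1
    have hB2 : 0 ≤ (1 + p.B) ^ 2 := by positivity
    have h2 := le_of_sq_le_sq h1 (mul_nonneg hB2 (norm_nonneg v))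
    calc lam * ‖dil _ v‖ ≤ lam * ((1 + p.B) ^ 2 * ‖v‖) :=
          mul_le_mul_of_nonneg_left h2 hy.l0
      _ = (lam * (1 + p.B) ^ 2) * ‖v‖ := by ring
      _ ≤ 1 * ‖v‖ := mul_le_mul_of_nonneg_right hy.l1 (norm_nonneg v)
      _ = ‖v‖ := one_mul _

end Pool.Agent.H505RS
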