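import Pool.Agent.H505RS.Defs

/-! Task XM (helper553): mean zero of the step operators. -/

set_option autoImplicit false

noncomputable section

namespace Pool.Agent.H505RS

open scoped BigOperators ENNReal Topology InnerProductSpace
open Finset Filter MeasureTheory ProbabilityTheory

namespace XM

theorem gp_iff (p : Par) (s t s' t' : ℕ → ℕ) (j : ℕ) (hm : 1 ≤ p.m)
    (h : ∀ i < j, s' i = s i ∧ t' i = t i) : GP p s' t' j ↔ GP p s t j := by
  unfold GP
  by_cases h1 : p.m + 1 ≤ j
  · have e1 := h (j - 1) (by omega)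
    have e2 := h (j - p.m) (by omega)
    have e3 := h (j - p.m - 1) (by omega)
    rw [e1.1, e1.2, e2.1, e2.2, e3.1]
  · simp [h1]

/-- the vector as a function of the last coordinate -/
def FF (p : Par) (k1 k2 : ℕ) (s t : ℕ → ℕ) (j u r : ℕ) : ℂ :=
  ee ((k2 : ℝ) * t (j - p.m) / p.Q) * ∑ i ∈ Ioc (s (j - p.m - 1)) (s (j - p.m)),
    (og p s j i : ℂ) * ee ((k1 : ℝ) * i / p.Q) * (sg p.a p.G (s (j - 1)) r (i + u) : ℂ)

theorem vec_eq (p : Par) (k1 k2 : ℕ) (s t s' t' : ℕ → ℕ) (j u : ℕ) (hm : 1 ≤ p.m)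
    (hj : p.m + 1 ≤ j) (h : ∀ i < j, s' i = s i ∧ t' i = t i) :
    vec p k1 k2 s' t' j u = FF p k1 k2 s t j u (s' j) := by
  have e1 := h (j - 1) (by omega)
  have e2 := h (j - p.m) (by omega)
  have e3 := h (j - p.m - 1) (by omega)
  unfold vec FF og
  rw [e1.1, e2.1, e2.2, e3.1]

/-- coefficients -/
def cc (p : Par) (k1 k2 : ℕ) (s t : ℕ → ℕ) (j u n : ℕ) : ℂ :=
  ee ((k2 : ℝ) * t (j - p.m) / p.Q) * ∑ i ∈ Ioc (s (j - p.m - 1)) (s (j - p.m)),
    (if n = i + u then (og p s j i : ℂ) * ee ((k1 : ℝ) * i / p.Q) else 0)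

theorem FF_sum (p : Par) (k1 k2 : ℕ) (s t : ℕ → ℕ) (j u r : ℕ) :
    ∑ n ∈ Ioc (s (j - 1)) (s (j - 1) + p.G),
      (sg p.a p.G (s (j - 1)) r n : ℂ) * cc p k1 k2 s t j u n = FF p k1 k2 s t j u r := by
  unfold cc FF
  have e1 : ∀ n ∈ Ioc (s (j - 1)) (s (j - 1) + p.G), (sg p.a p.G (s (j - 1)) r n : ℂ) *
      (ee ((k2 : ℝ) * t (j - p.m) / p.Q) * ∑ i ∈ Ioc (s (j - p.m - 1)) (s (j - p.m)),
        (if n = i + u then (og p s j i : ℂ) * ee ((k1 : ℝ) * i / p.Q) else 0)) =
      ee ((k2 : ℝ) * t (j - p.m) / p.Q) * ∑ i ∈ Ioc (s (j - p.m - 1)) (s (j - p.m)),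
        (if n = i + u then (og p s j i : ℂ) * ee ((k1 : ℝ) * i / p.Q) *
          (sg p.a p.G (s (j - 1)) r (i + u) : ℂ) else 0) := by
    intro n _
    rw [mul_left_comm, mul_sum]
    congr 1
    refine sum_congr rfl fun i _ => ?_
    split_ifs with h
    · rw [h]
      ring
    · rw [mul_zero]
  rw [sum_congr rfl e1, ← mul_sum]
  congr 1
  rw [sum_comm]
  refine sum_congr rfl fun i _ => ?_
  rw [sum_ite_eq']
  split_ifs with h
  · rfl
  · have h0 : sg p.a p.G (s (j - 1)) r (i + u) = 0 := by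
      unfold sg
      rw [if_neg]
      intro h1
      exact h (mem_Ioc.2 ⟨h1.1, h1.2.2⟩)
    rw [h0]
    simp

theorem prod_zero (a b : ℝ) (s s2 : ℕ) (f g : ℕ → ℂ)
    (hf : HasSum (fun r => (q a s r : ℂ) * f r) 0)
    (hq : Summable (fun r => q b s2 r)) (hq0 : ∀ r, 0 ≤ q b s2 r) (D : ℝ) (hg : ∀ r, ‖g r‖ ≤ D) :
    HasSum (fun z : ℕ × ℕ => ((q a s z.1 * q b s2 z.2 : ℝ) : ℂ) * (f z.1 * g z.2)) 0 := by
  have hs1 : Summable (fun r => ‖(q a s r : ℂ) * f r‖) := summable_norm_iff.2 hf.summable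
  have hs2 : Summable (fun r => ‖(q b s2 r : ℂ) * g r‖) := by
    refine Summable.of_nonneg_of_le (fun _ => norm_nonneg _) (fun r => ?_) (hq.mul_right D)
    rw [norm_mul, Complex.norm_real, Real.norm_eq_abs, abs_of_nonneg (hq0 r)]
    exact mul_le_mul_of_nonneg_left (hg r) (hq0 r)
  have hs3 : Summable (fun r => (q b s2 r : ℂ) * g r) := summable_norm_iff.1 hs2
  obtain ⟨f', hf'⟩ : ∃ f' : ℕ → ℂ, f' = fun r => (q a s r : ℂ) * f r := ⟨_, rfl⟩
  obtain ⟨g', hg'⟩ : ∃ g' : ℕ → ℂ, g' = fun r => (q b s2 r : ℂ) * g r := ⟨_, rfl⟩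
  rw [← hf'] at hf
  rw [← hg'] at hs3
  have hs1' : Summable (fun r => ‖f' r‖) := by rw [hf']; exact hs1
  have hs2' : Summable (fun r => ‖g' r‖) := by rw [hg']; exact hs2
  have h : HasSum (fun z : ℕ × ℕ => f' z.1 * g' z.2) (0 * ∑' r, g' r) :=
    hf.mul hs3.hasSum (summable_mul_of_summable_norm hs1' hs2')
  rw [zero_mul] at h
  have e : (fun z : ℕ × ℕ => ((q a s z.1 * q b s2 z.2 : ℝ) : ℂ) * (f z.1 * g z.2)) =
      fun z : ℕ × ℕ => f' z.1 * g' z.2 := by
    funext z
    rw [hf', hg', Complex.ofReal_mul]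
    ring
  rw [e]
  exact h

end XM

open XM in
theorem t_XM : S_QF → S_Q1 → S_DL → S_XM := by
  intro hQF hQ1 hDL p k1 k2 lam U W hy y j hj v
  obtain ⟨s, hs⟩ : ∃ s : ℕ → ℕ, s = fun n => (y n).1 := ⟨_, rfl⟩
  obtain ⟨t, ht⟩ : ∃ t : ℕ → ℕ, t = fun n => (y n).2 := ⟨_, rfl⟩
  have hlow : ∀ z : ℕ × ℕ, ∀ i < j, (fun n => (Function.update y j z n).1) i = s i ∧
      (fun n => (Function.update y j z n).2) i = t i := by
    intro z i hi
    simp only [hs, ht, Function.update_of_ne hi.ne, and_self]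
  have hgp : ∀ z : ℕ × ℕ, GP p (fun n => (Function.update y j z n).1)
      (fun n => (Function.update y j z n).2) j ↔ GP p s t j := fun z =>
    gp_iff p s t _ _ j hy.m1 (hlow z)
  have hy1 : (y (j - 1)).1 = s (j - 1) := by rw [hs]
  have hy2 : (y (j - 1)).2 = t (j - 1) := by rw [ht]
  rw [hy1, hy2]
  -- reduction to coordinates
  suffices hco : ∀ x : Fin U ⊕ Fin W, HasSum (fun z : ℕ × ℕ =>
      ((q p.a (s (j - 1)) z.1 * q p.b (t (j - 1)) z.2 : ℝ) : ℂ) *
        ((lam : ℂ) * (dil (fun (u : Fin U) (w : Fin W) =>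
          ME p k1 k2 (fun n => (Function.update y j z n).1)
            (fun n => (Function.update y j z n).2) j u w) v) x)) 0 by
    have h := ((EuclideanSpace.equiv (Fin U ⊕ Fin W) ℂ).hasSum
      (f := fun z : ℕ × ℕ => ((q p.a (s (j - 1)) z.1 * q p.b (t (j - 1)) z.2 : ℝ) : ℂ) •
        XJ p k1 k2 lam U W (Function.update y j z) j v) (y := 0)).1
        (Pi.hasSum.2 (fun x => hco x))
    rwa [map_zero] at h
  have hqb := hQF p.b hy.b0 hy.b1 (t (j - 1))
  by_cases hG : GP p s t j
  · have hmj : p.m + 1 ≤ j := hG.2.1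
    have htm : ∀ z : ℕ × ℕ, (Function.update y j z (j - p.m)).2 = t (j - p.m) := fun z =>
      (hlow z (j - p.m) (by have := hy.m1; omega)).2
    have hME : ∀ (z : ℕ × ℕ) (u w : ℕ), ME p k1 k2 (fun n => (Function.update y j z n).1)
        (fun n => (Function.update y j z n).2) j u w =
        if w = z.2 - t (j - p.m) then FF p k1 k2 s t j u z.1 else 0 := by
      intro z u w
      unfold ME
      rw [vec_eq p k1 k2 s t _ _ j u hy.m1 hmj (hlow z)]
      simp only [hgp z, hG, true_and, Function.update_self, htm z]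
    have hF : ∀ u : ℕ, HasSum (fun r => (q p.a (s (j - 1)) r : ℂ) * FF p k1 k2 s t j u r) 0 := by
      intro u
      have h := hQ1 p.a hy.a0 hy.a1 (s (j - 1)) p.G (cc p k1 k2 s t j u)
      simp only [FF_sum] at h
      exact h
    rintro (u | w)
    · have h := prod_zero p.a p.b (s (j - 1)) (t (j - 1))
        (fun r => (lam : ℂ) * FF p k1 k2 s t j u r)
        (fun r => ∑ w : Fin W, if (w : ℕ) = r - t (j - p.m) then v (Sum.inr w) else 0)
        (by
          have h1 := (hF u).mul_left (lam : ℂ)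
          rw [mul_zero] at h1
          refine h1.congr_fun (fun r => ?_)
          ring)
        hqb.1.summable (fun r => (hqb.2 r).1) (∑ w : Fin W, ‖v (Sum.inr w)‖) (fun r => by
          refine norm_sum_le_of_le _ (fun w _ => ?_)
          split_ifs
          · exact le_rfl
          · rw [norm_zero]
            exact norm_nonneg _)
      refine h.congr_fun (fun z => ?_)
      rw [(hDL U W _).2.1 v u]
      simp only [hME]
      have e1 : ∑ w : Fin W, (if (w : ℕ) = z.2 - t (j - p.m) then FF p k1 k2 s t j u z.1 else 0) *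
          v (Sum.inr w) = FF p k1 k2 s t j u z.1 *
          ∑ w : Fin W, (if (w : ℕ) = z.2 - t (j - p.m) then v (Sum.inr w) else 0) := by
        rw [mul_sum]
        refine sum_congr rfl fun w _ => ?_
        split_ifs
        · rfl
        · rw [zero_mul, mul_zero]
      rw [e1]
      ring
    · have h := prod_zero p.a p.b (s (j - 1)) (t (j - 1))
        (fun r => (lam : ℂ) * ∑ u : Fin U, (starRingEnd ℂ) (FF p k1 k2 s t j u r) * v (Sum.inl u))
        (fun r => if (w : ℕ) = r - t (j - p.m) then 1 else 0)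
        (by
          have h1 : HasSum (fun r => ∑ u : Fin U, (starRingEnd ℂ) ((q p.a (s (j - 1)) r : ℂ) *
              FF p k1 k2 s t j u r) * v (Sum.inl u)) (∑ u : Fin U, (0 : ℂ)) := by
            refine hasSum_sum (fun u _ => ?_)
            have h2 := (hF u).star
            have h3 := h2.mul_right (v (Sum.inl u))
            rw [star_zero, zero_mul] at h3
            exact h3
          rw [sum_const_zero] at h1
          have h4 := h1.mul_left (lam : ℂ)
          rw [mul_zero] at h4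
          refine h4.congr_fun (fun r => ?_)
          rw [mul_left_comm, mul_sum]
          congr 1
          refine sum_congr rfl fun u _ => ?_
          rw [map_mul, Complex.conj_ofReal]
          ring)
        hqb.1.summable (fun r => (hqb.2 r).1) 1 (fun r => by
          split_ifs
          · rw [norm_one]
          · rw [norm_zero]
            exact zero_le_one)
      refine h.congr_fun (fun z => ?_)
      rw [(hDL U W _).2.2.1 v w]
      simp only [hME]
      congr 1
      rw [mul_assoc]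
      congr 1
      rw [sum_mul]
      refine sum_congr rfl fun u _ => ?_
      split_ifs
      · rw [mul_one]
      · rw [map_zero, zero_mul, mul_zero]
  · have hME : ∀ (z : ℕ × ℕ) (u w : ℕ), ME p k1 k2 (fun n => (Function.update y j z n).1)
        (fun n => (Function.update y j z n).2) j u w = 0 := by
      intro z u w
      unfold ME
      rw [if_neg]
      intro h
      exact hG ((hgp z).1 h.1)
    intro x
    have h0 : ∀ z : ℕ × ℕ, ((q p.a (s (j - 1)) z.1 * q p.b (t (j - 1)) z.2 : ℝ) : ℂ) *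
        ((lam : ℂ) * (dil (fun (u : Fin U) (w : Fin W) =>
          ME p k1 k2 (fun n => (Function.update y j z n).1)
            (fun n => (Function.update y j z n).2) j u w) v) x) = 0 := by
      intro z
      rcases x with u | w
      · rw [(hDL U W _).2.1 v u]
        simp [hME]
      · rw [(hDL U W _).2.2.1 v w]
        simp [hME]
    simp only [h0]
    exact hasSum_zero

end Pool.Agent.H505RS
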