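import Pool.Agent.H505RS.Defs

set_option autoImplicit false

noncomputable section

namespace Pool.Agent.H505RS

open scoped BigOperators ENNReal Topology InnerProductSpace
open Finset Filter MeasureTheory ProbabilityTheory

namespace XV

lemma gp_congr {p : Par} {s t s' t' : ℕ → ℕ} {j : ℕ} (hm : 1 ≤ p.m) (hj : 1 ≤ j)
    (h : ∀ i < j, s' i = s i ∧ t' i = t i) : GP p s' t' j ↔ GP p s t j := by
  have h1 : s' (j-1) = s (j-1) := (h _ (by omega)).1
  have h1' : t' (j-1) = t (j-1) := (h _ (by omega)).2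
  have h2 : s' (j - p.m) = s (j - p.m) := (h _ (by omega)).1
  have h2' : t' (j - p.m) = t (j - p.m) := (h _ (by omega)).2
  have h3 : s' (j - p.m - 1) = s (j - p.m - 1) := (h _ (by omega)).1
  unfold GP
  rw [h1, h1', h2, h2', h3]

/-- mass of `v` at `inr n` -/
def gg {U W : ℕ} (v : VV U W) (n : ℕ) : ℝ := if h : n < W then ‖v (Sum.inr ⟨n, h⟩)‖ ^ 2 else 0

lemma gg_nonneg {U W : ℕ} (v : VV U W) (n : ℕ) : 0 ≤ gg v n := by
  unfold gg
  split_ifs <;> positivity

lemma gg_hasSum {U W : ℕ} (v : VV U W) : HasSum (gg v) (∑ w : Fin W, ‖v (Sum.inr w)‖ ^ 2) := by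
  have h1 : HasSum (gg v) (∑ n ∈ range W, gg v n) := by
    apply hasSum_sum_of_ne_finset_zero
    intro n hn
    unfold gg
    rw [dif_neg (by simpa using hn)]
  have h2 : ∑ n ∈ range W, gg v n = ∑ w : Fin W, ‖v (Sum.inr w)‖ ^ 2 := by
    rw [Finset.sum_range]
    apply Finset.sum_congr rfl
    intro w _
    unfold gg
    rw [dif_pos w.2]
  rwa [h2] at h1

lemma dil_bound (hDL : S_DL) {U W : ℕ} (n : ℕ) (α : Fin U → ℂ) (v : VV U W) :
    ‖dil (fun (u : Fin U) (w : Fin W) => if (w : ℕ) = n then α u else 0) v‖ ^ 2 ≤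
      (∑ u, ‖α u‖ ^ 2) * gg v n + ‖∑ u, (starRingEnd ℂ) (α u) * v (Sum.inl u)‖ ^ 2 := by
  obtain ⟨-, hl, hr, hn, -⟩ := hDL U W (fun (u : Fin U) (w : Fin W) => if (w : ℕ) = n then α u else 0)
  rw [hn]
  simp only [hl, hr]
  apply add_le_add
  · rw [Finset.sum_mul]
    apply Finset.sum_le_sum
    intro u _
    unfold gg
    split_ifs with h
    · rw [Finset.sum_eq_single (⟨n, h⟩ : Fin W)]
      · simp [mul_pow]
      · intro w _ hw
        have : (w : ℕ) ≠ n := fun h' => hw (Fin.ext h')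
        simp [this]
      · simp
    · rw [Finset.sum_eq_zero]
      · simp
      · intro w _
        have : (w : ℕ) ≠ n := by
          have := w.2
          omega
        simp [this]
  · by_cases h : n < W
    · rw [Finset.sum_eq_single (⟨n, h⟩ : Fin W)]
      · simp
      · intro w _ hw
        have : (w : ℕ) ≠ n := fun h' => hw (Fin.ext h')
        simp [this]
      · simp
    · rw [Finset.sum_eq_zero]
      · positivity
      · intro w _
        have : (w : ℕ) ≠ n := by
          have := w.2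
          omega
        simp [this]

lemma prod_hasSum {f g : ℕ → ℝ} {a b : ℝ} (hf : HasSum f a) (hg : HasSum g b)
    (hf0 : ∀ n, 0 ≤ f n) (hg0 : ∀ n, 0 ≤ g n) :
    HasSum (fun z : ℕ × ℕ => f z.1 * g z.2) (a * b) :=
  hf.mul hg (hf.summable.mul_of_nonneg hg.summable hf0 hg0)

lemma XJ_bound (hDL : S_DL) (p : Par) (k1 k2 : ℕ) (lam : ℝ) (hl : 0 ≤ lam) (U W : ℕ)
    (s t : ℕ → ℕ) (j : ℕ) (v : VV U W) :
    ‖((lam : ℂ) • dil (fun (u : Fin U) (w : Fin W) => ME p k1 k2 s t j u w)) v‖ ^ 2 ≤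
      lam ^ 2 * (open Classical in if GP p s t j then
        ((∑ u : Fin U, ‖vec p k1 k2 s t j u‖ ^ 2) * gg v (t j - t (j - p.m)) +
          ‖∑ u : Fin U, (starRingEnd ℂ) (vec p k1 k2 s t j u) * v (Sum.inl u)‖ ^ 2) else 0) := by
  classical
  rw [LinearMap.smul_apply, norm_smul, Complex.norm_real, Real.norm_of_nonneg hl, mul_pow]
  apply mul_le_mul_of_nonneg_left _ (by positivity)
  by_cases hG : GP p s t j
  · rw [if_pos hG]
    have e : (fun (u : Fin U) (w : Fin W) => ME p k1 k2 s t j u w) =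
        fun (u : Fin U) (w : Fin W) => if (w : ℕ) = t j - t (j - p.m) then
          vec p k1 k2 s t j u else 0 := by
      funext u w
      unfold ME
      simp only [hG, true_and]
    rw [e]
    exact dil_bound hDL _ (fun u : Fin U => vec p k1 k2 s t j u) v
  · rw [if_neg hG]
    have e : (fun (u : Fin U) (w : Fin W) => ME p k1 k2 s t j u w) =
        fun (u : Fin U) (w : Fin W) => if (w : ℕ) = 0 then (0 : ℂ) else 0 := by
      funext u w
      unfold ME
      simp only [hG, false_and, if_false, ite_self]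
    rw [e]
    refine (dil_bound hDL 0 (fun u : Fin U => (0 : ℂ)) v).trans ?_
    simp

end XV

open XV in
theorem t_XV : S_QF → S_Q2 → S_VB → S_VC → S_DL → S_XV := by
  intro hQF hQ2 hVB hVC hDL p k1 k2 lam U W hy y j hj v
  classical
  set s : ℕ → ℕ := fun n => (y n).1 with hs
  set t : ℕ → ℕ := fun n => (y n).2 with ht
  have hag : ∀ z : ℕ × ℕ, ∀ i < j, (fun n => (Function.update y j z n).1) i = s i ∧
      (fun n => (Function.update y j z n).2) i = t i := by
    intro z i hi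
    simp only
    rw [Function.update_of_ne (by omega)]
    exact ⟨rfl, rfl⟩
  have hRHS : 0 ≤ (2 * lam ^ 2 * (1 + p.B) ^ 4 * p.ρ) * ‖v‖ ^ 2 := by
    have := hy.r0
    positivity
  have q1n : ∀ n, 0 ≤ q p.a (y (j-1)).1 n := fun n => ((hQF p.a hy.a0 hy.a1 _).2 n).1
  have q2n : ∀ n, 0 ≤ q p.b (y (j-1)).2 n := fun n => ((hQF p.b hy.b0 hy.b1 _).2 n).1
  by_cases hG : GP p s t j
  · obtain ⟨c, hc1, hc2⟩ := hVC p k1 k2 s t j U (fun u => v (Sum.inl u)) hy.a0 hy.a1 hy.B0 hy.m1 hG
    obtain ⟨hsq, hsq'⟩ := hQ2 p.a hy.a0 hy.a1 (s (j-1)) p.G c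
    have hG' := hG
    obtain ⟨hJ, hm, htm, hra, hrb, -, -⟩ := hG'
    have hQ1s := (hQF p.a hy.a0 hy.a1 (s (j-1))).1
    have hQ2s := (hQF p.b hy.b0 hy.b1 (t (j-1))).1
    set h : ℕ → ℝ := fun n1 => ‖∑ n ∈ Ioc (s (j - 1)) (s (j - 1) + p.G),
      (sg p.a p.G (s (j - 1)) n1 n : ℂ) * c n‖ ^ 2 with hh
    -- the second factor
    have hg1 : HasSum (fun n => p.ρ * (if t (j - p.m) ≤ n then gg v (n - t (j - p.m)) else 0))
        (p.ρ * ∑ w : Fin W, ‖v (Sum.inr w)‖ ^ 2) := by
      apply HasSum.mul_left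
      have hinj : Function.Injective (fun n : ℕ => n + t (j - p.m)) := add_left_injective _
      rw [← hinj.hasSum_iff]
      · have : ((fun n => if t (j - p.m) ≤ n then gg v (n - t (j - p.m)) else 0) ∘
            fun n : ℕ => n + t (j - p.m)) = gg v := by
          funext n
          simp
        rw [this]
        exact gg_hasSum v
      · intro n hn
        rw [if_neg]
        intro hle
        exact hn ⟨n - t (j - p.m), by simp; omega⟩
    have hg2 : ∀ n, q p.b (t (j-1)) n * gg v (n - t (j - p.m)) ≤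
        p.ρ * (if t (j - p.m) ≤ n then gg v (n - t (j - p.m)) else 0) := by
      intro n
      by_cases hn : t (j-1) < n
      · rw [if_pos (by omega)]
        apply mul_le_mul_of_nonneg_right _ (gg_nonneg _ _)
        exact ((hQF p.b hy.b0 hy.b1 _).2 n).2.trans hrb
      · have : q p.b (t (j-1)) n = 0 := by
          unfold q
          rw [if_neg hn]
        rw [this, zero_mul]
        apply mul_nonneg hy.r0
        split_ifs
        · exact gg_nonneg _ _
        · exact le_rfl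
    have hg0 : ∀ n, 0 ≤ q p.b (t (j-1)) n * gg v (n - t (j - p.m)) := fun n =>
      mul_nonneg (q2n n) (gg_nonneg _ _)
    have hgs : Summable (fun n => q p.b (t (j-1)) n * gg v (n - t (j - p.m))) :=
      Summable.of_nonneg_of_le hg0 hg2 hg1.summable
    have hgt : ∑' n, q p.b (t (j-1)) n * gg v (n - t (j - p.m)) ≤
        p.ρ * ∑ w : Fin W, ‖v (Sum.inr w)‖ ^ 2 := by
      rw [← hg1.tsum_eq]
      exact hgs.tsum_le_tsum hg2 hg1.summable
    have hh0 : ∀ n, 0 ≤ q p.a (s (j-1)) n * h n := fun n => mul_nonneg (q1n n) (by rw [hh]; positivity)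
    have hht : ∑' n, q p.a (s (j-1)) n * h n ≤
        p.ρ * ((1 + p.B) ^ 2 * ∑ u : Fin U, ‖v (Sum.inl u)‖ ^ 2) := by
      refine hsq'.trans ?_
      exact mul_le_mul hra hc1 (Finset.sum_nonneg (fun _ _ => by positivity)) hy.r0
    -- the majorant
    have hP1 : HasSum (fun z : ℕ × ℕ => q p.a (s (j-1)) z.1 *
        (q p.b (t (j-1)) z.2 * gg v (z.2 - t (j - p.m))))
        (1 * ∑' n, q p.b (t (j-1)) n * gg v (n - t (j - p.m))) :=
      prod_hasSum (f := fun n => q p.a (s (j-1)) n)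
        (g := fun n => q p.b (t (j-1)) n * gg v (n - t (j - p.m))) hQ1s hgs.hasSum q1n hg0
    have hP2 : HasSum (fun z : ℕ × ℕ => (q p.a (s (j-1)) z.1 * h z.1) * q p.b (t (j-1)) z.2)
        ((∑' n, q p.a (s (j-1)) n * h n) * 1) :=
      prod_hasSum (f := fun n => q p.a (s (j-1)) n * h n)
        (g := fun n => q p.b (t (j-1)) n) hsq.hasSum hQ2s hh0 q2n
    have hP := (hP1.mul_left (lam ^ 2 * (1 + p.B) ^ 4)).add (hP2.mul_left (lam ^ 2))
    have hterm : ∀ z : ℕ × ℕ, (q p.a (y (j - 1)).1 z.1 * q p.b (y (j - 1)).2 z.2) *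
        ‖XJ p k1 k2 lam U W (Function.update y j z) j v‖ ^ 2 ≤
        lam ^ 2 * (1 + p.B) ^ 4 * (q p.a (s (j-1)) z.1 *
        (q p.b (t (j-1)) z.2 * gg v (z.2 - t (j - p.m)))) +
        lam ^ 2 * ((q p.a (s (j-1)) z.1 * h z.1) * q p.b (t (j-1)) z.2) := by
      intro z
      have hGz := (gp_congr (p := p) hy.m1 hj (hag z)).2 hG
      have h1 := XJ_bound hDL p k1 k2 lam hy.l0 U W (fun n => (Function.update y j z n).1)
        (fun n => (Function.update y j z n).2) j v
      rw [if_pos hGz] at h1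
      have h2 : ∑ u : Fin U, ‖vec p k1 k2 (fun n => (Function.update y j z n).1)
        (fun n => (Function.update y j z n).2) j u‖ ^ 2 ≤ (1 + p.B) ^ 4 := by
        have h3 := hVB p k1 k2 (fun n => (Function.update y j z n).1)
          (fun n => (Function.update y j z n).2) j U hy.a0 hy.a1 hy.B0 hGz
        rw [Real.sqrt_le_iff] at h3
        refine h3.2.trans (le_of_eq (by ring))
      rw [hc2 _ _ (hag z)] at h1
      have h4 : Function.update y j z j = z := Function.update_self _ _ _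
      have h6 : (Function.update y j z (j - p.m)).2 = t (j - p.m) :=
        (hag z (j - p.m) (by have := hy.m1; omega)).2
      rw [h4, h6] at h1
      have h7 : ‖XJ p k1 k2 lam U W (Function.update y j z) j v‖ ^ 2 ≤
          lam ^ 2 * ((1 + p.B) ^ 4 * gg v (z.2 - t (j - p.m)) + h z.1) := by
        refine h1.trans ?_
        apply mul_le_mul_of_nonneg_left _ (by positivity)
        exact add_le_add (mul_le_mul_of_nonneg_right h2 (gg_nonneg _ _)) le_rfl
      calc (q p.a (y (j - 1)).1 z.1 * q p.b (y (j - 1)).2 z.2) *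
            ‖XJ p k1 k2 lam U W (Function.update y j z) j v‖ ^ 2
          ≤ (q p.a (y (j - 1)).1 z.1 * q p.b (y (j - 1)).2 z.2) *
            (lam ^ 2 * ((1 + p.B) ^ 4 * gg v (z.2 - t (j - p.m)) + h z.1)) :=
            mul_le_mul_of_nonneg_left h7 (mul_nonneg (q1n _) (q2n _))
        _ = _ := by ring
    have hL0 : ∀ z : ℕ × ℕ, 0 ≤ (q p.a (y (j - 1)).1 z.1 * q p.b (y (j - 1)).2 z.2) *
        ‖XJ p k1 k2 lam U W (Function.update y j z) j v‖ ^ 2 := fun z =>
      mul_nonneg (mul_nonneg (q1n _) (q2n _)) (by positivity)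
    have hLs := Summable.of_nonneg_of_le hL0 hterm hP.summable
    have hle := hLs.tsum_le_tsum hterm hP.summable
    rw [hP.tsum_eq] at hle
    refine hle.trans ?_
    have hn := (hDL U W (fun _ _ => 0)).2.2.2.1 v
    rw [hn]
    set R := ∑ w : Fin W, ‖v (Sum.inr w)‖ ^ 2 with hR
    set L := ∑ u : Fin U, ‖v (Sum.inl u)‖ ^ 2 with hL
    have hR0 : 0 ≤ R := Finset.sum_nonneg (fun _ _ => by positivity)
    have hL0' : 0 ≤ L := Finset.sum_nonneg (fun _ _ => by positivity)
    have hB1 : 1 ≤ (1 + p.B) ^ 2 := by nlinarith [hy.B0, sq_nonneg p.B]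
    have hB2 : (1 + p.B) ^ 2 ≤ (1 + p.B) ^ 4 := by nlinarith [hB1]
    have e1 : lam ^ 2 * (1 + p.B) ^ 4 * (1 * ∑' n, q p.b (t (j-1)) n * gg v (n - t (j - p.m))) ≤
        lam ^ 2 * (1 + p.B) ^ 4 * (p.ρ * R) := by
      rw [one_mul]
      exact mul_le_mul_of_nonneg_left hgt (by positivity)
    have e2 : lam ^ 2 * ((∑' n, q p.a (s (j-1)) n * h n) * 1) ≤
        lam ^ 2 * (p.ρ * ((1 + p.B) ^ 4 * L)) := by
      rw [mul_one]
      apply mul_le_mul_of_nonneg_left _ (by positivity)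
      refine hht.trans ?_
      exact mul_le_mul_of_nonneg_left (mul_le_mul_of_nonneg_right hB2 hL0') hy.r0
    have e3 : 0 ≤ lam ^ 2 * (1 + p.B) ^ 4 * p.ρ * (L + R) := by
      have := hy.r0
      positivity
    calc _ ≤ lam ^ 2 * (1 + p.B) ^ 4 * (p.ρ * R) + lam ^ 2 * (p.ρ * ((1 + p.B) ^ 4 * L)) :=
          add_le_add e1 e2
      _ = lam ^ 2 * (1 + p.B) ^ 4 * p.ρ * (L + R) := by ring
      _ ≤ 2 * (lam ^ 2 * (1 + p.B) ^ 4 * p.ρ * (L + R)) := by linarith
      _ = _ := by ring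
  · have h0 : ∀ z : ℕ × ℕ, (q p.a (y (j - 1)).1 z.1 * q p.b (y (j - 1)).2 z.2) *
        ‖XJ p k1 k2 lam U W (Function.update y j z) j v‖ ^ 2 = 0 := by
      intro z
      have hGz : ¬ GP p (fun n => (Function.update y j z n).1)
          (fun n => (Function.update y j z n).2) j := fun h =>
        hG ((gp_congr (p := p) hy.m1 hj (hag z)).1 h)
      have h1 := XJ_bound hDL p k1 k2 lam hy.l0 U W (fun n => (Function.update y j z n).1)
        (fun n => (Function.update y j z n).2) j v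
      rw [if_neg hGz, mul_zero] at h1
      have h2 : ‖XJ p k1 k2 lam U W (Function.update y j z) j v‖ ^ 2 = 0 :=
        le_antisymm h1 (by positivity)
      rw [h2, mul_zero]
    simp only [h0, tsum_zero]
    exact hRHS

end Pool.Agent.H505RS
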